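import Pool.Agent.W_59b51d_u18.Word

/-!
# The lists of identities are computable
-/

namespace Pool.Agent.W_59b51d_u18

open Pool.Agent.W_59b51d_h18 (Poly code Multilinear vars)

/-- The code of the product of codes. -/
def pmul (a b : ℕ) : ℕ := 2 * Nat.pair a b + 1

/-- The code of the action of a word on the monomial with the code `c`, where the code of the
letter number `i` is `e i`. -/
def wact (e : ℕ → ℕ) (c i : ℕ) (w : Wd) : ℕ :=
  (w.foldl (fun (p : ℕ × ℕ) s => (if s then pmul p.1 (e p.2) else pmul (e p.2) p.1, p.2 + 1))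
    (c, i)).1

theorem Comp_pmul : Primrec₂ pmul := by
  unfold pmul
  have h1 : Primrec₂ (fun a b : ℕ => Nat.pair a b) := Primrec₂.natPair
  exact Primrec.nat_add.comp₂
    (Primrec.nat_mul.comp₂ (Primrec₂.const 2) h1) (Primrec₂.const 1)

/-- `wact` is primitive recursive in the word (`Primrec.list_foldl`). -/
theorem primrec_wact (e : ℕ → ℕ) (he : Primrec e) (c i : ℕ) : Primrec fun w : Wd => wact e c i w := by
  unfold wact
  refine Primrec.fst.comp ?_
  refine Primrec.list_foldl (h := fun (_ : Wd) (x : (ℕ × ℕ) × Bool) =>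
    ((if x.2 then pmul x.1.1 (e x.1.2) else pmul (e x.1.2) x.1.1, x.1.2 + 1) : ℕ × ℕ))
    Primrec.id (Primrec.const (c, i)) ?_
  have h1 : Primrec fun y : Wd × ((ℕ × ℕ) × Bool) => y.2.1.1 :=
    Primrec.fst.comp (Primrec.fst.comp Primrec.snd)
  have h2 : Primrec fun y : Wd × ((ℕ × ℕ) × Bool) => y.2.1.2 :=
    Primrec.snd.comp (Primrec.fst.comp Primrec.snd)
  have h3 : Primrec fun y : Wd × ((ℕ × ℕ) × Bool) => y.2.2 :=
    Primrec.snd.comp Primrec.snd
  have h4 : Primrec fun y : Wd × ((ℕ × ℕ) × Bool) => e y.2.1.2 := he.comp h2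
  refine Primrec.pair ?_ (Primrec.succ.comp h2)
  refine Primrec.ite ?_ (Comp_pmul.comp h1 h4) (Comp_pmul.comp h4 h1)
  exact Primrec.eq.comp h3 (Primrec.const true)

/-- The word `al ++ rep k blk ++ be` is primitive recursive in `k`. -/
theorem primrec_word (al blk be : Wd) : Primrec fun k : ℕ => al ++ rep k blk ++ be := by
  have h1 : Primrec fun k : ℕ => rep k blk := by
    have h2 : (fun k : ℕ => rep k blk) = fun k => Nat.rec [] (fun _ w => blk ++ w) k := by
      funext k
      induction k with
      | zero => rfl
      | succ k ih =>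
        have h3 : rep (k + 1) blk = blk ++ rep k blk := by
          simp [rep, List.replicate_succ]
        rw [h3, ih]
    rw [h2]
    refine Primrec.nat_rec₁ [] ?_
    exact Primrec.list_append.comp₂ (Primrec₂.const blk) Primrec₂.right
  exact Primrec.list_append.comp (Primrec.list_append.comp (Primrec.const al) h1)
    (Primrec.const be)

theorem Comp_act (w : Wd) (m : FreeMagma ℕ) (i : ℕ) :
    mcode (act m (col w FreeMagma.of i)) = wact (fun i => 2 * i) (mcode m) i w := by
  induction w generalizing m i with
  | nil => rfl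
  | cons s w ih =>
    have h1 : col (s :: w) (FreeMagma.of : ℕ → FreeMagma ℕ) i
        = (s, FreeMagma.of i) :: col w FreeMagma.of (i + 1) := by
      simp [col, List.zipIdx_cons]
    rw [h1]
    show mcode (act (if s then m * FreeMagma.of i else FreeMagma.of i * m)
      (col w FreeMagma.of (i + 1))) = _
    rw [ih]
    cases s <;> rfl

theorem mcode_mw (w : Wd) :
    mcode (mw w) = wact (fun i => 2 * i) (pmul 0 2) 2 w := by
  unfold mw
  rw [Comp_act]
  rfl

/-- The list of identities is computable: only the first part depends on `k`, and it is a finite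
list of fixed length. -/
theorem computable_TL (R : List (Wd × Wd)) (Z0 : List Wd) (fam : List (Wd × Wd)) (blk : Wd) :
    Computable fun k : ℕ => lcode (TL R (Zk Z0 fam blk k)) := by
  refine Primrec.to_comp ?_
  have he : Primrec fun i : ℕ => 2 * i := Primrec.nat_mul.comp (Primrec.const 2) Primrec.id
  have h1 : Primrec fun k : ℕ => fam.map fun q : Wd × Wd =>
      ((mcode (mw (q.1 ++ rep k blk ++ q.2)), none) : ℕ × Option ℕ) := by
    induction fam with
    | nil => exact Primrec.const []
    | cons q fam ih =>
      simp only [List.map_cons]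
      refine Primrec.list_cons.comp (Primrec.pair ?_ (Primrec.const none)) ih
      have h2 : (fun k : ℕ => mcode (mw (q.1 ++ rep k blk ++ q.2)))
          = fun k => wact (fun i => 2 * i) (pmul 0 2) 2 (q.1 ++ rep k blk ++ q.2) := by
        funext k
        exact mcode_mw _
      rw [h2]
      exact (primrec_wact _ he _ _).comp (primrec_word q.1 blk q.2)
  have h3 : (fun k : ℕ => lcode (TL R (Zk Z0 fam blk k))) = fun k =>
      ((mcode metab.1, metab.2.map mcode) : ℕ × Option ℕ) ::
      ((fam.map fun q : Wd × Wd =>
        ((mcode (mw (q.1 ++ rep k blk ++ q.2)), none) : ℕ × Option ℕ)) ++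
        ((Z0.map fun z => ((mcode (mw z), none) : ℕ × Option ℕ)) ++
          R.map fun q => ((mcode (mw q.1), some (mcode (mw q.2))) : ℕ × Option ℕ))) := by
    funext k
    simp [lcode, TL, Zk, Function.comp_def]
  rw [h3]
  exact Primrec.list_cons.comp (Primrec.const _) (Primrec.list_append.comp h1 (Primrec.const _))

end Pool.Agent.W_59b51d_u18
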