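import Pool.Agent.W_59b51d_u18.BadA
import Pool.Agent.W_59b51d_u18.Comp

/-!
# The bad side
-/

namespace Pool.Agent.W_59b51d_u18

open Pool.Agent.W_59b51d_h18

/-- The relator `a ∘ blk = a`, with `a`, `c` the generators `0`, `1`. -/
def rel1 (F : Type) [Field F] (blk : Wd) : Poly F (Fin 2) :=
  [(1, act (FreeMagma.of 0) (ccol blk (FreeMagma.of 1))), (-1, FreeMagma.of 0)]

/-- The test polynomials. -/
def wpol (F : Type) [Field F] (w : Wd) : Poly F (Fin 2) :=
  [(1, act (FreeMagma.of 0) (ccol w (FreeMagma.of 1)))]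

theorem lift_ccol {A : Type} [Mul A] (a : Fin 2 → A) (w : Wd) :
    FreeMagma.lift a (act (FreeMagma.of 0) (ccol w (FreeMagma.of 1))) =
      act (a 0) (ccol w (a 1)) := by
  rw [lift_act, ccol, List.map_map]
  rfl

theorem ccol_append {M : Type} (v w : Wd) (y : M) : ccol (v ++ w) y = ccol v y ++ ccol w y := by
  rw [ccol, List.map_append]
  rfl

theorem ccol_eq_zip {M : Type} (w : Wd) (y : M) :
    ccol w y = w.zip (List.replicate w.length y) := by
  induction w with
  | nil => rfl
  | cons s w ih =>
    rw [List.length_cons, List.replicate_succ, List.zip_cons_cons, ← ih]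
    rfl

theorem eval_wpol {F : Type} [Field F] {A : Type} [NonUnitalNonAssocRing A] [Module F A]
    (a : Fin 2 → A) (w : Wd) : (wpol F w).eval a = act (a 0) (ccol w (a 1)) := by
  rw [Poly.eval, wpol, List.map_cons, List.map_nil, List.sum_cons, List.sum_nil, one_smul,
    add_zero, lift_ccol]

theorem eval_rel1 {F : Type} [Field F] {A : Type} [NonUnitalNonAssocRing A] [Module F A]
    (a : Fin 2 → A) (blk : Wd) : (rel1 F blk).eval a = act (a 0) (ccol blk (a 1)) - a 0 := by
  rw [Poly.eval, rel1, List.map_cons, List.map_cons, List.map_nil, List.sum_cons, List.sum_cons,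
    List.sum_nil, one_smul, add_zero, lift_ccol, neg_smul, one_smul, sub_eq_add_neg]
  rfl

/-- Vanishing of the test polynomials. Proof: `a = act a (ccol (rep j blk) c)`, and `a` is a product
because `blk` is not empty; `act_eq_zero_of_LZ`. -/
theorem vanishes_wpol {F : Type} [Field F] {R : List (Wd × Wd)} {Z : List Wd}
    (hlen : ∀ q ∈ R, q.1.length = q.2.length) {blk w : Wd} (hblk : blk ≠ []) {j : ℕ}
    (hj : LZ R Z (rep j blk ++ w)) : Vanishes2 F (TL R Z) [rel1 F blk] (wpol F w) := by
  intro A _ _ _ _ hA a hr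
  have h1 : act (a 0) (ccol blk (a 1)) = a 0 := by
    have h := hr _ (List.mem_singleton.2 rfl)
    rw [eval_rel1, sub_eq_zero] at h
    exact h
  have h2 : ∀ j, act (a 0) (ccol (rep j blk) (a 1)) = a 0 := by
    intro j
    induction j with
    | zero => rfl
    | succ j ih =>
      have e : rep (j + 1) blk = blk ++ rep j blk := by
        rw [rep, List.replicate_succ, List.flatten_cons]
        rfl
      rw [e, ccol_append, act_append, h1, ih]
  obtain ⟨x, y, hxy⟩ : ∃ x y, a 0 = x * y := by
    cases blk with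
    | nil => exact absurd rfl hblk
    | cons s blk =>
      have h3 : act (if s then a 0 * a 1 else a 1 * a 0) (ccol blk (a 1)) = a 0 := h1
      cases s with
      | true =>
        obtain ⟨x, y, h⟩ := act_eq_mul (a 0) (a 1) (ccol blk (a 1))
        exact ⟨x, y, h3.symm.trans h⟩
      | false =>
        obtain ⟨x, y, h⟩ := act_eq_mul (a 1) (a 0) (ccol blk (a 1))
        exact ⟨x, y, h3.symm.trans h⟩
  rw [eval_wpol]
  have h4 : act (a 0) (ccol w (a 1)) = act (a 0) (ccol (rep j blk ++ w) (a 1)) := by
    rw [ccol_append, act_append, h2 j]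
  rw [h4, ccol_eq_zip, hxy]
  exact act_eq_zero_of_LZ hlen hA hj x y _ (List.length_replicate ..)

/-- Non-vanishing of the test polynomials (`exists_model`). -/
theorem not_vanishes_wpol {F : Type} [Field F] {R : List (Wd × Wd)} {Z : List Wd}
    (hlen : ∀ q ∈ R, q.1.length = q.2.length) {blk w : Wd}
    {L : Set Wd} (hL : Safe R Z blk L) (hw : w ∈ L) :
    ¬ Vanishes2 F (TL R Z) [rel1 F blk] (wpol F w) := by
  intro h
  obtain ⟨A, i1, i2, i3, i4, a, c, h1, h2, h3⟩ := exists_model F hlen hL
  have h4 := h A h1 (fun i => if i = 0 then a else c) ?_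
  · rw [eval_wpol] at h4
    exact h3 w hw h4
  · intro p hp
    rw [List.mem_singleton] at hp
    subst hp
    rw [eval_rel1]
    exact sub_eq_zero.2 h2

/-- The coded test polynomials are computable in the parameter. -/
theorem computable_wpol (F : Type) [Field F] [Primcodable F] (blk al be : Wd) :
    Computable fun m : ℕ => (wpol F (al ++ rep m blk ++ be)).map fun q => (q.1, code q.2) := by
  have h1 : ∀ (w : Wd) (t : FreeMagma (Fin 2)) (i : ℕ),
      code (act t (ccol w (FreeMagma.of 1))) = wact (fun _ => 2) (code t) i w := by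
    intro w
    induction w with
    | nil => intro t i; rfl
    | cons s w ih =>
      intro t i
      cases s with
      | true =>
        change code (act (t * FreeMagma.of 1) (ccol w (FreeMagma.of 1))) = _
        rw [ih _ (i + 1)]
        rfl
      | false =>
        change code (act (FreeMagma.of 1 * t) (ccol w (FreeMagma.of 1))) = _
        rw [ih _ (i + 1)]
        rfl
  have h2 : Primrec fun m : ℕ => wact (fun _ => 2) 0 0 (al ++ rep m blk ++ be) :=
    (primrec_wact (fun _ => 2) (Primrec.const 2) 0 0).comp (primrec_word al blk be)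
  have h3 : Primrec fun m : ℕ =>
      ([((1 : F), wact (fun _ => 2) 0 0 (al ++ rep m blk ++ be))] : List (F × ℕ)) :=
    Primrec.list_cons.comp (Primrec.pair (Primrec.const _) h2) (Primrec.const [])
  refine h3.to_comp.of_eq fun m => ?_
  rw [wpol, List.map_cons, List.map_nil, h1 _ _ 0]
  rfl

/-- The algebra with the generators `a`, `c` and the relator `a ∘ blk = a` has unsolvable word
problem. -/
theorem not_solvable (R : List (Wd × Wd)) (Z : List Wd)
    (hlen : ∀ q ∈ R, q.1.length = q.2.length) (blk al be : Wd) (hblk : blk ≠ []) {p : ℕ → Prop}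
    (hp : ¬ ComputablePred p)
    (hsafe : ∀ m, ¬ p m → ∃ L : Set Wd, Safe R Z blk L ∧ al ++ rep m blk ++ be ∈ L)
    (hzero : ∀ m, p m → ∃ j, LZ R Z (rep j blk ++ (al ++ rep m blk ++ be)))
    (F : Type) [Field F] [Primcodable F] : ¬ Solvable2 F (TL R Z) [rel1 F blk] := by
  rintro ⟨f, hf, hfs⟩
  apply hp
  rw [ComputablePred.computable_iff]
  refine ⟨fun m => f ((wpol F (al ++ rep m blk ++ be)).map fun q => (q.1, code q.2)),
    hf.comp (computable_wpol F blk al be), ?_⟩
  funext m
  rw [eq_iff_iff, hfs]
  constructor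
  · intro hm
    obtain ⟨j, hj⟩ := hzero m hm
    exact vanishes_wpol hlen hblk hj
  · intro hm
    by_contra hpm
    obtain ⟨L, hL, hw⟩ := hsafe m hpm
    exact not_vanishes_wpol hlen hL hw hm

end Pool.Agent.W_59b51d_u18
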