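import Pool.Agent.W_59b51d_u18.GF

/-!
# The good side
-/

namespace Pool.Agent.W_59b51d_u18

open Pool.Agent.W_59b51d_h18

theorem allSolvable_of_padded (R : List (Wd × Wd)) (Z : List Wd)
    (hlen : ∀ q ∈ R, q.1.length = q.2.length) (N : ℕ)
    (hN : ∀ q ∈ R, ∀ a b : Wd, a.length = N → b.length = N → LZ R Z (a ++ q.1 ++ b))
    (F : Type) [Field F] [Primcodable F] (hadd : Computable₂ fun a b : F => a + b)
    (hmul : Computable₂ fun a b : F => a * b) : AllSolvable F (TL R Z) := by
  intro n r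
  have hfin := finite_PreRel F (Fin n) R N
  set pre : List (Poly F (Fin n)) := hfin.toFinset.toList with hpre
  have hmem : ∀ p, p ∈ pre ↔ p ∈ PreRel F (Fin n) R N := fun p => by simp [hpre]
  obtain ⟨A, _, _, _, _, a, hpres, hA, ha⟩ :=
    exists_isPres (Tmon R Z N) (Tmon_multilinear R Z N) (r ++ pre)
  obtain ⟨XX, hXX, hev, c, K, hb⟩ := exists_goodBound hpres hlen hA
    (fun p hp => ha p (List.mem_append_right _ ((hmem p).2 hp)))
  refine solvable2_of_bound hadd hmul (Tmon R Z N) (Tmon_multilinear R Z N) (r ++ pre)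
    hXX.toFinset.toList c K (TL R Z) r fun h w hw => ?_
  have hset : {p | p ∈ hXX.toFinset.toList} = XX := by
    ext p
    simp
  rw [vanishes2_iff hlen hN (fun p hp => (hmem p).1 hp) hpres hA ha, hset]
  constructor
  · exact hb h _ (toP_mem_Tr w hw)
  · intro hw'
    obtain ⟨x, hx, y, hy, hxy⟩ := Submodule.mem_sup.1 hw'
    rw [← hxy, map_add, (hpres.ker x).2 ⟨_, hx⟩, zero_add]
    exact hev _ y hy

end Pool.Agent.W_59b51d_u18
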