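import Pool.Agent.W_59b51d_u18.System
import Pool.Agent.W_59b51d_u18.Good
import Pool.Agent.W_59b51d_u18.Bad
import Pool.Agent.W_59b51d_u18.Comp
import Pool.Agent.W_mrdp_h82.Atoms

/-!
# Undecidability of the class of varieties in which all finitely presented algebras have solvable
word problem
-/

namespace Pool.Agent.W_59b51d_u18

open Pool.Agent.W_59b51d_h18 (Poly code Multilinear vars)

/-- **The family.** There are a recursively enumerable predicate `p` which is not computable, a
word `blk`, and a computable family `T k` of finite lists of multilinear metabelian identities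
between monomials such that for `p k` all finitely presented algebras of the variety of `T k` have
solvable word problem, and otherwise the algebra of this variety with two generators `a`, `c` and
the relator `a ∘ blk - a` has unsolvable word problem. -/
theorem exists_family : ∃ (p : ℕ → Prop) (T : ℕ → List MId) (blk : Wd), REPred p ∧
    ¬ ComputablePred p ∧ (Computable fun k => lcode (T k)) ∧
    (∀ k, metab ∈ T k ∧ ∀ q ∈ T k, q.Multilin) ∧
    (∀ (F : Type) [Field F] [Primcodable F] (k : ℕ), ¬ p k →
      ¬ Solvable2 F (T k) [rel1 F blk]) ∧
    ∀ (F : Type) [Field F] [Primcodable F] (_ : Computable₂ fun a b : F => a + b)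
      (_ : Computable₂ fun a b : F => a * b) (k : ℕ), p k → AllSolvable F (T k) := by
  obtain ⟨p, hp, hnc⟩ := MRDP.exists_re_not_computable
  obtain ⟨R, Z0, fam, blk, al, be, hblk, hlen, hgood, hsafe, hzero⟩ := exists_system hp
  refine ⟨p, fun k => TL R (Zk Z0 fam blk k), blk, hp, hnc, computable_TL R Z0 fam blk, ?_, ?_, ?_⟩
  · intro k
    refine ⟨List.mem_cons_self, fun q hq => ?_⟩
    rcases List.mem_cons.1 hq with rfl | hq
    · refine ⟨?_, fun t ht => ?_⟩
      · simp [metab, Multilinear, vars]
      · simp [metab] at ht
    · rcases List.mem_append.1 hq with hq | hq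
      · obtain ⟨z, _, rfl⟩ := List.mem_map.1 hq
        exact ⟨multilinear_mw z, fun t ht => by simp at ht⟩
      · obtain ⟨u, _, rfl⟩ := List.mem_map.1 hq
        refine ⟨multilinear_mw _, fun t ht => ?_⟩
        simp only [Option.mem_def, Option.some.injEq] at ht
        rw [← ht]
        exact multilinear_mw _
  · intro F _ _ k hk
    exact not_solvable R (Zk Z0 fam blk k) hlen blk al be hblk hnc
      (fun m hm => hsafe k m hk hm) (fun m hm => hzero k m hm) F
  · intro F _ _ hadd hmul k hk
    obtain ⟨N, hN⟩ := hgood k hk
    exact allSolvable_of_padded R _ hlen N hN F hadd hmul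

/-- **There is no algorithm** which decides, given a finite list of multilinear metabelian
identities between monomials, whether all finitely presented algebras of the variety have solvable
word problem. -/
theorem undecidable (F : Type) [Field F] [Primcodable F] (hadd : Computable₂ fun a b : F => a + b)
    (hmul : Computable₂ fun a b : F => a * b) :
    ¬ ∃ f : List (ℕ × Option ℕ) → Bool, Computable f ∧ ∀ T : List MId, metab ∈ T →
      (∀ q ∈ T, q.Multilin) → (f (lcode T) = true ↔ AllSolvable F T) := by
  rintro ⟨f, hf, h⟩
  obtain ⟨p, T, blk, _, hnc, hT, hm, hbad, hgood⟩ := exists_family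
  apply hnc
  rw [ComputablePred.computable_iff]
  refine ⟨fun k => f (lcode (T k)), hf.comp hT, ?_⟩
  funext k
  rw [eq_iff_iff]
  have h1 := h (T k) (hm k).1 (hm k).2
  constructor
  · intro hk
    exact h1.2 (hgood F hadd hmul k hk)
  · intro hk
    by_contra hpk
    exact hbad F k hpk (h1.1 hk 2 _)

/-- **The lists with a bad variety are not recursively enumerable**: there is no recursively
enumerable predicate on codes which holds for a list of multilinear metabelian identities between
monomials exactly when some finitely presented algebra of the variety has unsolvable word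
problem. -/
theorem not_re (F : Type) [Field F] [Primcodable F] (hadd : Computable₂ fun a b : F => a + b)
    (hmul : Computable₂ fun a b : F => a * b) :
    ¬ ∃ P : List (ℕ × Option ℕ) → Prop, REPred P ∧ ∀ T : List MId, metab ∈ T →
      (∀ q ∈ T, q.Multilin) → (P (lcode T) ↔ ¬ AllSolvable F T) := by
  rintro ⟨P, hP, h⟩
  obtain ⟨p, T, blk, hre, hnc, hT, hm, hbad, hgood⟩ := exists_family
  apply hnc
  refine ComputablePred.computable_iff_re_compl_re'.2 ⟨hre, ?_⟩
  have h2 : REPred fun k => P (lcode (T k)) := Partrec.comp hP hT
  refine h2.of_eq fun k => ?_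
  rw [h (T k) (hm k).1 (hm k).2]
  constructor
  · intro h3 hk
    exact h3 (hgood F hadd hmul k hk)
  · intro hk h3
    exact hbad F k hk (h3 2 _)

end Pool.Agent.W_59b51d_u18
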