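import Pool.Agent.W_59b51d_u18.Word
import Pool.Agent.W_59b51d_h18.SImage

/-!
# Successive multiplications (ActA)
-/

namespace Pool.Agent.W_59b51d_u18

open Pool.Agent.W_59b51d_h18

section

variable {M : Type} [Mul M]

theorem act_append (m : M) (l l' : List (Bool × M)) : act m (l ++ l') = act (act m l) l' := by
  induction l generalizing m with
  | nil => rfl
  | cons p l ih =>
    obtain ⟨s, y⟩ := p
    simp only [List.cons_append, act]
    exact ih _

theorem act_eq_mul (x y : M) (l : List (Bool × M)) : ∃ x' y', act (x * y) l = x' * y' := by
  induction l generalizing x y with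
  | nil => exact ⟨x, y, rfl⟩
  | cons p l ih =>
    obtain ⟨s, z⟩ := p
    cases s with
    | true => exact ih (x * y) z
    | false => exact ih z (x * y)

theorem col_append (w w' : Wd) (y : ℕ → M) (i : ℕ) :
    col (w ++ w') y i = col w y i ++ col w' y (i + w.length) := by
  unfold col
  rw [List.zipIdx_append, List.map_append, Nat.add_comm]

/-- A word with given letters, as `col`. -/
theorem zip_eq_col [Inhabited M] (w : Wd) (cs : List M) (h : cs.length = w.length) :
    w.zip cs = col w (fun i => cs.getD i default) 0 := by
  unfold col
  apply List.ext_getElem
  · simp [h]
  · intro n h1 h2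
    have h3 : n < cs.length := by
      rw [List.length_zip] at h1
      omega
    simp [List.getElem_zip, List.getElem_map, List.getElem_zipIdx, h3]

theorem col_shift (w : Wd) (y : ℕ → M) (i j : ℕ) :
    col w y (i + j) = col w (fun t => y (t + j)) i := by
  unfold col
  apply List.ext_getElem
  · simp
  · intro n h1 h2
    simp only [List.getElem_map, List.getElem_zipIdx]
    congr 2
    omega

end

theorem lift_act {X M : Type} [Mul M] (v : X → M) (m : FreeMagma X)
    (l : List (Bool × FreeMagma X)) : FreeMagma.lift v (act m l) =
      act (FreeMagma.lift v m) (l.map fun p => (p.1, FreeMagma.lift v p.2)) := by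
  induction l generalizing m with
  | nil => rfl
  | cons p l ih =>
    obtain ⟨s, y⟩ := p
    simp only [List.map_cons, act]
    rw [ih]
    cases s with
    | true => simp only [if_true, map_mul]
    | false => simp only [Bool.false_eq_true, if_false, map_mul]

theorem lift_mw {M : Type} [Mul M] (v : ℕ → M) (w : Wd) :
    FreeMagma.lift v (mw w) = act (v 0 * v 1) (col w v 2) := by
  unfold mw
  rw [lift_act]
  congr 1
  unfold col
  rw [List.map_map]
  rfl

theorem nodup_act (w : Wd) (m : FreeMagma ℕ) (i : ℕ) (h : (vars m).Nodup)
    (hi : ∀ j ∈ vars m, j < i) : (vars (act m (col w FreeMagma.of i))).Nodup := by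
  induction w generalizing m i with
  | nil => exact h
  | cons s w ih =>
    have e : col (s :: w) FreeMagma.of i = (s, FreeMagma.of i) :: col w FreeMagma.of (i + 1) := rfl
    rw [e]
    cases s with
    | true =>
      change (vars (act (m * FreeMagma.of i) (col w FreeMagma.of (i + 1)))).Nodup
      apply ih
      · change (vars m ++ [i]).Nodup
        rw [List.nodup_append]
        refine ⟨h, List.nodup_singleton i, ?_⟩
        intro a ha b hb
        rw [List.mem_singleton] at hb
        have := hi a ha
        omega
      · intro j hj
        have hj' : j ∈ vars m ++ [i] := hj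
        rw [List.mem_append, List.mem_singleton] at hj'
        rcases hj' with h1 | h1
        · have := hi j h1
          omega
        · omega
    | false =>
      change (vars (act (FreeMagma.of i * m) (col w FreeMagma.of (i + 1)))).Nodup
      apply ih
      · change ([i] ++ vars m).Nodup
        rw [List.nodup_append]
        refine ⟨List.nodup_singleton i, h, ?_⟩
        intro a ha b hb
        rw [List.mem_singleton] at ha
        have := hi b hb
        omega
      · intro j hj
        have hj' : j ∈ [i] ++ vars m := hj
        rw [List.mem_append, List.mem_singleton] at hj'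
        rcases hj' with h1 | h1
        · omega
        · have := hi j h1
          omega

theorem multilinear_mw (w : Wd) : Multilinear (mw w) := by
  unfold Multilinear mw
  apply nodup_act
  · change ([0, 1] : List ℕ).Nodup
    decide
  · intro j hj
    have hj' : j ∈ ([0, 1] : List ℕ) := hj
    simp only [List.mem_cons, List.not_mem_nil, or_false] at hj'
    omega

theorem height_act (w : Wd) (m : FreeMagma ℕ) (i : ℕ) :
    height (act m (col w FreeMagma.of i)) = height m + w.length := by
  induction w generalizing m i with
  | nil => rfl
  | cons s w ih =>
    have e : col (s :: w) FreeMagma.of i = (s, FreeMagma.of i) :: col w FreeMagma.of (i + 1) := rfl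
    rw [e]
    cases s with
    | true =>
      change height (act (m * FreeMagma.of i) (col w FreeMagma.of (i + 1))) = _
      rw [ih]
      change max (height m) 0 + 1 + w.length = height m + (w.length + 1)
      omega
    | false =>
      change height (act (FreeMagma.of i * m) (col w FreeMagma.of (i + 1))) = _
      rw [ih]
      change max 0 (height m) + 1 + w.length = height m + (w.length + 1)
      omega

theorem height_mw (w : Wd) : height (mw w) = w.length + 1 := by
  unfold mw
  rw [height_act]
  change max 0 0 + 1 + w.length = w.length + 1
  omega

end Pool.Agent.W_59b51d_u18
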