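import Pool.Agent.W_59b51d_u18.ActA

/-!
# Successive multiplications (ActB)
-/

namespace Pool.Agent.W_59b51d_u18

open Pool.Agent.W_59b51d_h18

/-- Multiplications of zero give zero. -/
theorem actB_zero {A : Type} [NonUnitalNonAssocRing A] (l : List (Bool × A)) :
    act (0 : A) l = 0 := by
  induction l with
  | nil => rfl
  | cons p l ih =>
    obtain ⟨s, y⟩ := p
    have h : act (0 : A) ((s, y) :: l) = act (if s then (0 : A) * y else y * 0) l := rfl
    rw [h]
    cases s <;> simpa using ih

/-- The value of `mw w` at the valuation given by `x`, `y` and the list `cs`. -/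
theorem actB_lift {A : Type} [NonUnitalNonAssocRing A] (x y : A) (w : Wd) (cs : List A)
    (hcs : cs.length = w.length) :
    FreeMagma.lift (fun t : ℕ => if t = 0 then x else if t = 1 then y else cs.getD (t - 2) 0)
      (mw w) = act (x * y) (w.zip cs) := by
  letI : Inhabited A := ⟨0⟩
  rw [lift_mw]
  have h2 := col_shift w
    (fun t : ℕ => if t = 0 then x else if t = 1 then y else cs.getD (t - 2) 0) 0 2
  rw [show (0 : ℕ) + 2 = 2 from rfl] at h2
  rw [h2, zip_eq_col w cs hcs]
  have h3 : (fun t : ℕ => (fun t : ℕ => if t = 0 then x else if t = 1 then y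
      else cs.getD (t - 2) 0) (t + 2)) = fun i => cs.getD i default := by
    funext t
    simp only [Nat.add_sub_cancel]
    rw [if_neg (by omega), if_neg (by omega)]
    rfl
  rw [h3]
  rfl

theorem actB_zip3 {A : Type} (a u b : Wd) (cs : List A)
    (h : cs.length = a.length + u.length + b.length) :
    ∃ c1 c2 c3 : List A, c1.length = a.length ∧ c2.length = u.length ∧ c3.length = b.length ∧
      cs = c1 ++ c2 ++ c3 := by
  refine ⟨cs.take a.length, (cs.drop a.length).take u.length,
    (cs.drop a.length).drop u.length, ?_, ?_, ?_, ?_⟩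
  · rw [List.length_take]
    omega
  · rw [List.length_take, List.length_drop]
    omega
  · rw [List.length_drop, List.length_drop]
    omega
  · rw [List.append_assoc, List.take_append_drop, List.take_append_drop]

theorem actB_zipAppend {A : Type} (a u b : Wd) (c1 c2 c3 : List A) (h1 : c1.length = a.length)
    (h2 : c2.length = u.length) :
    (a ++ u ++ b).zip (c1 ++ c2 ++ c3) = a.zip c1 ++ u.zip c2 ++ b.zip c3 := by
  rw [List.zip_append (by rw [List.length_append, List.length_append, h1, h2]),
    List.zip_append h1.symm]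

/-- The identities of `R` in context. -/
theorem act_eq_of_R {A : Type} [NonUnitalNonAssocRing A] {R : List (Wd × Wd)} {Z : List Wd}
    (hA : Sat2 A (TL R Z)) {q : Wd × Wd} (hq : q ∈ R) (hlen : q.1.length = q.2.length) (x y : A)
    (c1 c2 : List (Bool × A)) (cs : List A) (hcs : cs.length = q.1.length) :
    act (x * y) (c1 ++ q.1.zip cs ++ c2) = act (x * y) (c1 ++ q.2.zip cs ++ c2) := by
  obtain ⟨x', y', h⟩ := act_eq_mul x y c1
  rw [act_append, act_append, act_append, act_append, h]
  have hm : ((mw q.1, some (mw q.2)) : MId) ∈ TL R Z := by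
    refine List.mem_cons_of_mem _ (List.mem_append_right _ ?_)
    exact List.mem_map.2 ⟨q, hq, rfl⟩
  have h1 := hA _ hm
  have h2 : ∀ v : ℕ → A, FreeMagma.lift v (mw q.1) = FreeMagma.lift v (mw q.2) := h1
  have h3 := h2 (fun t : ℕ => if t = 0 then x' else if t = 1 then y' else cs.getD (t - 2) 0)
  rw [actB_lift x' y' q.1 cs hcs, actB_lift x' y' q.2 cs (hcs.trans hlen)] at h3
  rw [h3]

/-- In an algebra of the variety, derivably zero words vanish on products.

Proof. Induction on `LZ`. For `z ∈ Z`: the letters of the factor `z` can be chosen as values of the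
variables `2, 3, …` and the factor before it is a product (`act_eq_mul`), so the value is `act 0 _ = 0`.
For `(u, u') ∈ R`: the same with the identity `mw u = mw u'` (the lengths are equal, so that the
letters of the rest of the word stay the same). -/
theorem act_eq_zero_of_LZ {A : Type} [NonUnitalNonAssocRing A] {R : List (Wd × Wd)} {Z : List Wd}
    (hlen : ∀ q ∈ R, q.1.length = q.2.length) (hA : Sat2 A (TL R Z)) {w : Wd} (hw : LZ R Z w)
    (x y : A) (cs : List A) (hcs : cs.length = w.length) : act (x * y) (w.zip cs) = 0 := by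
  induction hw generalizing cs with
  | @zero a z b hz =>
    obtain ⟨c1, c2, c3, h1, h2, h3, rfl⟩ := actB_zip3 a z b cs
      (by rw [hcs, List.length_append, List.length_append])
    rw [actB_zipAppend a z b c1 c2 c3 h1 h2, act_append, act_append]
    obtain ⟨x', y', h⟩ := act_eq_mul x y (a.zip c1)
    rw [h]
    have hm : ((mw z, none) : MId) ∈ TL R Z := by
      refine List.mem_cons_of_mem _ (List.mem_append_left _ ?_)
      exact List.mem_map.2 ⟨z, hz, rfl⟩
    have h1 := hA _ hm
    have h4 : ∀ v : ℕ → A, FreeMagma.lift v (mw z) = 0 := h1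
    have h5 := h4 (fun t : ℕ => if t = 0 then x' else if t = 1 then y' else c2.getD (t - 2) 0)
    rw [actB_lift x' y' z c2 h2] at h5
    rw [h5, actB_zero]
  | @step a u u' b hR hz ih =>
    have hl : u.length = u'.length := hlen _ hR
    obtain ⟨c1, c2, c3, h1, h2, h3, rfl⟩ := actB_zip3 a u b cs
      (by rw [hcs, List.length_append, List.length_append])
    rw [actB_zipAppend a u b c1 c2 c3 h1 h2]
    have h4 := act_eq_of_R hA hR hl x y (a.zip c1) (b.zip c3) c2 h2
    rw [h4]
    have h5 := ih (c1 ++ c2 ++ c3) (by
      rw [List.length_append, List.length_append, List.length_append, List.length_append, h1, h2,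
        h3, hl])
    rwa [actB_zipAppend a u' b c1 c2 c3 h1 (h2.trans hl)] at h5
  | @step' a u u' b hR hz ih =>
    have hl : u.length = u'.length := hlen _ hR
    obtain ⟨c1, c2, c3, h1, h2, h3, rfl⟩ := actB_zip3 a u' b cs
      (by rw [hcs, List.length_append, List.length_append])
    rw [actB_zipAppend a u' b c1 c2 c3 h1 h2]
    have h4 := act_eq_of_R hA hR hl x y (a.zip c1) (b.zip c3) c2 (h2.trans hl.symm)
    have h5 := ih (c1 ++ c2 ++ c3) (by
      rw [List.length_append, List.length_append, List.length_append, List.length_append, h1, h2,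
        h3, hl])
    rw [actB_zipAppend a u b c1 c2 c3 h1 (h2.trans hl.symm)] at h5
    rw [← h5]
    exact h4.symm

end Pool.Agent.W_59b51d_u18
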