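import Pool.Agent.W_59b51d_u18.Act

/-!
# The model algebra of a safe set
-/

namespace Pool.Agent.W_59b51d_u18

open Pool.Agent.W_59b51d_h18

/-- The word `w` with all letters equal to `y`. -/
def ccol {M : Type} (w : Wd) (y : M) : List (Bool × M) := w.map fun s => (s, y)

section

variable (F : Type) [Field F] (R : List (Wd × Wd)) (Z : List Wd)

/-- The functions on words which are invariant under the relations and vanish on the words with
zero factors. -/
def MF : Submodule F (Wd → F) where
  carrier := {g | (∀ (a b : Wd) (q : Wd × Wd), q ∈ R → g (a ++ q.1 ++ b) = g (a ++ q.2 ++ b)) ∧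
    ∀ (a b z : Wd), z ∈ Z → g (a ++ z ++ b) = 0}
  add_mem' := by
    intro g g' hg hg'
    refine ⟨fun a b q hq => ?_, fun a b z hz => ?_⟩
    · rw [Pi.add_apply, Pi.add_apply, hg.1 a b q hq, hg'.1 a b q hq]
    · rw [Pi.add_apply, hg.2 a b z hz, hg'.2 a b z hz, add_zero]
  zero_mem' := by
    refine ⟨fun a b q hq => rfl, fun a b z hz => rfl⟩
  smul_mem' := by
    intro c g hg
    refine ⟨fun a b q hq => ?_, fun a b z hz => ?_⟩
    · rw [Pi.smul_apply, Pi.smul_apply, hg.1 a b q hq]
    · rw [Pi.smul_apply, hg.2 a b z hz, smul_zero]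

/-- The shift by a letter: `(g · s) w = g (s :: w)`. -/
def shf (s : Bool) : MF F R Z →ₗ[F] MF F R Z where
  toFun g := ⟨fun w => g.1 (s :: w), ⟨fun a b q hq => g.2.1 (s :: a) b q hq,
    fun a b z hz => g.2.2 (s :: a) b z hz⟩⟩
  map_add' _ _ := rfl
  map_smul' _ _ := rfl

/-- The model algebra: pairs (coefficient of the element `c`, element of `MF`). -/
def MA : Type := F × MF F R Z

noncomputable instance : AddCommGroup (MA F R Z) := inferInstanceAs (AddCommGroup (F × MF F R Z))

noncomputable instance : Module F (MA F R Z) := inferInstanceAs (Module F (F × MF F R Z))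

variable {F R Z} in
/-- The pair `(t, g)`. -/
def mkMA (t : F) (g : MF F R Z) : MA F R Z := (t, g)

/-- The product of the model algebra. -/
def MAmul (x y : MA F R Z) : MA F R Z :=
  mkMA 0 (y.1 • shf F R Z true x.2 + x.1 • shf F R Z false y.2)

/-- The product: `c` multiplies `MF` from the right by `shf true`, from the left by `shf false`, all
other products vanish. -/
noncomputable instance : NonUnitalNonAssocRing (MA F R Z) :=
  { (inferInstance : AddCommGroup (MA F R Z)) with
    mul := MAmul F R Z
    left_distrib := by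
      intro x y z
      refine Prod.ext ?_ ?_
      · change (0 : F) = 0 + 0
        rw [add_zero]
      · change (y.1 + z.1) • shf F R Z true x.2 + x.1 • shf F R Z false (y.2 + z.2) =
          (y.1 • shf F R Z true x.2 + x.1 • shf F R Z false y.2) +
            (z.1 • shf F R Z true x.2 + x.1 • shf F R Z false z.2)
        rw [map_add, add_smul, smul_add]
        abel
    right_distrib := by
      intro x y z
      refine Prod.ext ?_ ?_
      · change (0 : F) = 0 + 0
        rw [add_zero]
      · change z.1 • shf F R Z true (x.2 + y.2) + (x.1 + y.1) • shf F R Z false z.2 =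
          (z.1 • shf F R Z true x.2 + x.1 • shf F R Z false z.2) +
            (z.1 • shf F R Z true y.2 + y.1 • shf F R Z false z.2)
        rw [map_add, add_smul, smul_add]
        abel
    zero_mul := by
      intro x
      refine Prod.ext rfl ?_
      change x.1 • shf F R Z true 0 + (0 : F) • shf F R Z false x.2 = 0
      rw [map_zero, smul_zero, zero_smul, add_zero]
    mul_zero := by
      intro x
      refine Prod.ext rfl ?_
      change (0 : F) • shf F R Z true x.2 + x.1 • shf F R Z false 0 = 0
      rw [map_zero, smul_zero, zero_smul, add_zero] }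

instance : IsScalarTower F (MA F R Z) (MA F R Z) := by
  refine ⟨fun c x y => Prod.ext ?_ ?_⟩
  · change (0 : F) = c • (0 : F)
    rw [smul_zero]
  · change y.1 • shf F R Z true (c • x.2) + (c • x.1) • shf F R Z false y.2 =
      c • (y.1 • shf F R Z true x.2 + x.1 • shf F R Z false y.2)
    rw [map_smul, smul_add, smul_comm, smul_assoc]

instance : SMulCommClass F (MA F R Z) (MA F R Z) := by
  refine ⟨fun c x y => Prod.ext ?_ ?_⟩
  · change c • (0 : F) = 0
    rw [smul_zero]
  · change c • (y.1 • shf F R Z true x.2 + x.1 • shf F R Z false y.2) =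
      (c • y.1) • shf F R Z true x.2 + x.1 • shf F R Z false (c • y.2)
    rw [map_smul, smul_add, smul_assoc, smul_comm c x.1]

theorem MA_mul (t t' : F) (g g' : MF F R Z) :
    mkMA t g * mkMA t' g' = mkMA 0 (t' • shf F R Z true g + t • shf F R Z false g') := rfl

/-- The shift by a word. -/
def shw : Wd → (MF F R Z →ₗ[F] MF F R Z)
  | [] => LinearMap.id
  | s :: w => (shw w).comp (shf F R Z s)

theorem shw_apply (w : Wd) (g : MF F R Z) (s : Wd) : (shw F R Z w g).1 s = g.1 (w ++ s) := by
  induction w generalizing g with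
  | nil => rfl
  | cons l w ih =>
    change (shw F R Z w (shf F R Z l g)).1 s = _
    rw [ih]
    rfl

theorem mkMA_zero_mul (g : MF F R Z) (y : MA F R Z) :
    mkMA 0 g * y = mkMA 0 (y.1 • shf F R Z true g) := by
  change mkMA 0 (y.1 • shf F R Z true g + (0 : F) • shf F R Z false y.2) = _
  rw [zero_smul, add_zero]

theorem mul_mkMA_zero (g : MF F R Z) (y : MA F R Z) :
    y * mkMA 0 g = mkMA 0 (y.1 • shf F R Z false g) := by
  change mkMA 0 ((0 : F) • shf F R Z true y.2 + y.1 • shf F R Z false g) = _
  rw [zero_smul, zero_add]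

theorem act_mkMA (l : List (Bool × MA F R Z)) (g : MF F R Z) :
    act (mkMA 0 g) l = mkMA 0 ((l.map fun p => p.2.1).prod • shw F R Z (l.map Prod.fst) g) := by
  induction l generalizing g with
  | nil =>
    change mkMA 0 g = mkMA 0 ((1 : F) • g)
    rw [one_smul]
  | cons p l ih =>
    obtain ⟨s, y⟩ := p
    have h1 : act (mkMA 0 g) ((s, y) :: l) = act (mkMA 0 (y.1 • shf F R Z s g)) l := by
      cases s with
      | true =>
        change act (mkMA 0 g * y) l = _
        rw [mkMA_zero_mul]
      | false =>
        change act (y * mkMA 0 g) l = _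
        rw [mul_mkMA_zero]
    rw [h1, ih, map_smul, smul_smul]
    change mkMA 0 (((l.map fun p => p.2.1).prod * y.1) • shw F R Z (l.map Prod.fst)
      (shf F R Z s g)) = mkMA 0 ((y.1 * (l.map fun p => p.2.1).prod) •
        shw F R Z (l.map Prod.fst) (shf F R Z s g))
    rw [mul_comm]

theorem col_fst {M : Type} (w : Wd) (y : ℕ → M) (i : ℕ) : (col w y i).map Prod.fst = w := by
  induction w generalizing i with
  | nil => rfl
  | cons s w ih =>
    change s :: (col w y (i + 1)).map Prod.fst = s :: w
    rw [ih]

theorem col_snd {M : Type} (w w' : Wd) (h : w.length = w'.length) (y : ℕ → M) (i : ℕ) :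
    (col w y i).map Prod.snd = (col w' y i).map Prod.snd := by
  induction w generalizing i w' with
  | nil =>
    cases w' with
    | nil => rfl
    | cons s w' => simp at h
  | cons s w ih =>
    cases w' with
    | nil => simp at h
    | cons s' w' =>
      change y i :: (col w y (i + 1)).map Prod.snd = y i :: (col w' y (i + 1)).map Prod.snd
      rw [ih w' (by simpa using h)]

theorem col_prod (w w' : Wd) (h : w.length = w'.length) (y : ℕ → MA F R Z) (i : ℕ) :
    ((col w y i).map fun p => p.2.1) = (col w' y i).map fun p => p.2.1 := by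
  have e : ∀ l : List (Bool × MA F R Z), (l.map fun p => p.2.1) = (l.map Prod.snd).map Prod.fst := by
    intro l
    induction l with
    | nil => rfl
    | cons q l ih => exact congrArg (fun t => q.2.1 :: t) ih
  rw [e, e, col_snd w w' h]

theorem mul_eq_mk (x y : MA F R Z) : ∃ g : MF F R Z, x * y = mkMA 0 g := ⟨_, rfl⟩

/-- The model algebra satisfies the identities.

Proof. A product is `mkMA 0 g`, and `act (mkMA 0 g) (col w v i)` is `mkMA 0 (c • g')` where `c` is the
product of the first components of the letters and `g' s = g (w ++ s)`. -/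
theorem sat2_MA (hlen : ∀ q ∈ R, q.1.length = q.2.length) : Sat2 (MA F R Z) (TL R Z) := by
  intro p hp
  rcases List.mem_cons.1 hp with rfl | hp
  · intro v
    change (v 0 * v 1) * (v 2 * v 3) = 0
    obtain ⟨g, hg⟩ := mul_eq_mk F R Z (v 0) (v 1)
    obtain ⟨g', hg'⟩ := mul_eq_mk F R Z (v 2) (v 3)
    rw [hg, hg', mkMA_zero_mul]
    change mkMA 0 ((0 : F) • shf F R Z true g) = mkMA 0 0
    rw [zero_smul]
  · rcases List.mem_append.1 hp with hp | hp
    · obtain ⟨z, hz, rfl⟩ := List.mem_map.1 hp
      intro v
      obtain ⟨g, hg⟩ := mul_eq_mk F R Z (v 0) (v 1)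
      rw [lift_mw, hg, act_mkMA, col_fst]
      have h0 : shw F R Z z g = 0 := by
        apply Subtype.ext
        funext s
        rw [shw_apply]
        exact g.2.2 [] s z hz
      rw [h0, smul_zero]
      rfl
    · obtain ⟨q, hq, rfl⟩ := List.mem_map.1 hp
      intro v
      obtain ⟨g, hg⟩ := mul_eq_mk F R Z (v 0) (v 1)
      rw [lift_mw, lift_mw, hg, act_mkMA, act_mkMA, col_fst, col_fst,
        col_prod F R Z q.1 q.2 (hlen q hq)]
      have h0 : shw F R Z q.1 g = shw F R Z q.2 g := by
        apply Subtype.ext
        funext s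
        rw [shw_apply, shw_apply]
        exact g.2.1 [] s q hq
      rw [h0]

theorem ccol_fst {M : Type} (w : Wd) (y : M) : (ccol w y).map Prod.fst = w := by
  rw [ccol, List.map_map]
  exact List.map_id w

/-- The action of words with the element `c = mkMA 1 0`. -/
theorem act_MA (g : MF F R Z) (w : Wd) :
    ∃ g' : MF F R Z, act (mkMA 0 g) (ccol w (mkMA 1 0)) = mkMA 0 g' ∧
      ∀ s, g'.1 s = g.1 (w ++ s) := by
  refine ⟨shw F R Z w g, ?_, shw_apply F R Z w g⟩
  rw [act_mkMA, ccol_fst]
  have h1 : ((ccol w (mkMA (R := R) (Z := Z) (1 : F) 0)).map fun p => p.2.1).prod = 1 := by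
    rw [ccol, List.map_map]
    induction w with
    | nil => rfl
    | cons s w ih =>
      rw [List.map_cons, List.prod_cons, ih, mul_one]
      rfl
  rw [h1, one_smul]

end

/-- The algebra of a safe set: an element `a` which is fixed by `blk`, and on which the words of
the safe set do not vanish. Proof: `a = mkMA 0 g` with `g` the
indicator of `L`, `c = mkMA 1 0`. -/
theorem exists_model (F : Type) [Field F] {R : List (Wd × Wd)} {Z : List Wd} {blk : Wd}
    (hlen : ∀ q ∈ R, q.1.length = q.2.length)
    {L : Set Wd} (hL : Safe R Z blk L) : ∃ (A : Type) (_ : NonUnitalNonAssocRing A)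
      (_ : Module F A) (_ : IsScalarTower F A A) (_ : SMulCommClass F A A) (a c : A),
      Sat2 A (TL R Z) ∧ act a (ccol blk c) = a ∧ ∀ w ∈ L, act a (ccol w c) ≠ 0 := by
  classical
  let g : MF F R Z := ⟨fun w => if w ∈ L then 1 else 0, by
    refine ⟨fun a b q hq => ?_, fun a b z hz => ?_⟩
    · exact if_congr (hL.rel a q.1 q.2 b hq) rfl rfl
    · exact if_neg (hL.zer a z b hz)⟩
  have hg : ∀ w, g.1 w = if w ∈ L then 1 else 0 := fun w => rfl
  refine ⟨MA F R Z, inferInstance, inferInstance, inferInstance, inferInstance, mkMA 0 g,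
    mkMA 1 0, sat2_MA F R Z hlen, ?_, ?_⟩
  · obtain ⟨g', h1, h2⟩ := act_MA F R Z g blk
    rw [h1]
    have h3 : g' = g := by
      apply Subtype.ext
      funext s
      rw [h2, hg, hg]
      exact if_congr (hL.blk s) rfl rfl
    rw [h3]
  · intro w hw h0
    obtain ⟨g', h1, h2⟩ := act_MA F R Z g w
    rw [h1] at h0
    have h3 : g' = 0 := congrArg Prod.snd h0
    have h4 := h2 []
    rw [h3, hg, List.append_nil, if_pos hw] at h4
    exact zero_ne_one h4

end Pool.Agent.W_59b51d_u18
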