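import Pool.Agent.W_59b51d_u18.Mach

/-!
# The letters, the local relations and the zero situations

A zipper is `(T, h, D)`: the letter `h` (a head), the letters `T` on the top side and the letters
`D` on the deep side, both listed from the head outwards. `none` is junk.
-/

namespace Pool.Agent.W_59b51d_u18

/-- The letters: cells, base cells with memory, heads at home, heads away from home. -/
inductive Lt (Fl C : Type) where
  | P (φ : Finset Fl)
  | B (μ : Option (C × Finset Fl)) (φ : Finset Fl)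
  | H (c : C)
  | A (c : C) (S : Finset Fl)

section

variable {Fl C : Type} [Fintype Fl] [DecidableEq Fl] (M : Mach Fl C)

/-- The letter is a head. -/
def Lt.isHead : Lt Fl C → Prop
  | .H _ => True
  | .A _ _ => True
  | _ => False

/-- The type of the control state fits to the memory of the base cell. -/
def okty (c : C) (μ : Option (C × Finset Fl)) : Prop := M.ty c = true ↔ μ ≠ none

/-- The local relations `(T0, h, D0) ↔ (T1, h', D1)`. -/
inductive Loc : List (Lt Fl C) → Lt Fl C → List (Lt Fl C) →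
    List (Lt Fl C) → Lt Fl C → List (Lt Fl C) → Prop
  | move {c : C} {S φ : Finset Fl} : Disjoint φ S → M.z ∉ φ →
      Loc [] (.A c S) [.P φ] [.P φ] (.A c (S ∪ φ)) []
  | move0 {c : C} {μ : Option (C × Finset Fl)} {φ : Finset Fl} : M.z ∉ φ →
      Loc [] (.H c) [.B μ φ] [.B μ φ] (.A c φ) []
  | inc {c c' : C} {i : Fl} {S φ ψ : Finset Fl} : M.inc c c' i → i ≠ M.z → i ∈ φ → M.z ∉ φ →
      i ∉ ψ → Loc [] (.A c S) [.P φ, .P ψ] [] (.A c' S) [.P (φ.erase i), .P (insert i ψ)]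
  | inc0 {c c' : C} {i : Fl} {μ : Option (C × Finset Fl)} {φ ψ : Finset Fl} : M.inc c c' i →
      i ≠ M.z → i ∈ φ → M.z ∉ φ → i ∉ ψ →
      Loc [] (.H c) [.B μ φ, .P ψ] [] (.H c') [.B μ (φ.erase i), .P (insert i ψ)]
  | tst {c c' : C} {S φ : Finset Fl} : M.tst c c' false S φ →
      Loc [] (.A c S) [.P φ] [] (.A c' S) [.P φ]
  | tst0 {c c' : C} {μ : Option (C × Finset Fl)} {φ : Finset Fl} : M.tst c c' true ∅ φ →
      Loc [] (.H c) [.B μ φ] [] (.H c') [.B μ φ]
  | zm {c : C} {S φ : Finset Fl} : (c = M.d0 ∨ c = M.u0) → M.z ∈ φ →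
      Loc [] (.A c S) [.P φ, .P ∅] [] (.A c S) [.P (φ.erase M.z), .P {M.z}]
  | zm0 {c : C} {μ : Option (C × Finset Fl)} {φ : Finset Fl} : (c = M.d0 ∨ c = M.u0) → M.z ∈ φ →
      Loc [] (.H c) [.B μ φ, .P ∅] [] (.H c) [.B μ (φ.erase M.z), .P {M.z}]
  | new {c : C} {S : Finset Fl} :
      Loc [] (.A c S) [.P ∅] [] (.H M.d0) [.B (some (c, S)) Finset.univ]

/-- The zero situations, without the pattern. -/
inductive LocZ : List (Option (Lt Fl C)) → Lt Fl C → List (Option (Lt Fl C)) → Prop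
  | over {c : C} {S φ : Finset Fl} : ¬ Disjoint φ S → LocZ [] (.A c S) [some (.P φ)]
  | zend {c : C} {S φ : Finset Fl} : M.z ∈ φ → S ∪ φ ≠ Finset.univ →
      LocZ [] (.A c S) [some (.P φ)]
  | next {c : C} {S : Finset Fl} {l : Option (Lt Fl C)} : (∀ φ, l ≠ some (.P φ)) →
      LocZ [] (.A c S) [l]
  | topP {c : C} {S φ : Finset Fl} : (¬ φ ⊆ S ∨ M.z ∈ φ) → LocZ [some (.P φ)] (.A c S) []
  | topB {c : C} {S φ : Finset Fl} {μ : Option (C × Finset Fl)} :
      (φ ≠ S ∨ M.z ∈ φ ∨ ¬ okty M c μ) → LocZ [some (.B μ φ)] (.A c S) []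
  | topX {c : C} {S : Finset Fl} {l : Option (Lt Fl C)} : (∀ φ, l ≠ some (.P φ)) →
      (∀ μ φ, l ≠ some (.B μ φ)) → LocZ [l] (.A c S) []
  | nextH {c : C} {l : Option (Lt Fl C)} : (∀ μ φ, l ≠ some (.B μ φ)) → LocZ [] (.H c) [l]
  | home {c : C} {μ : Option (C × Finset Fl)} {φ : Finset Fl} :
      (¬ okty M c μ ∨ (M.z ∈ φ ∧ φ ≠ Finset.univ)) → LocZ [] (.H c) [some (.B μ φ)]
  | kil {c : C} {S φ : Finset Fl} : M.kil c false S φ → LocZ [] (.A c S) [some (.P φ)]
  | kil0 {c : C} {μ : Option (C × Finset Fl)} {φ : Finset Fl} : M.kil c true ∅ φ →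
      LocZ [] (.H c) [some (.B μ φ)]
  | uend {S φ : Finset Fl} {l : Option (Lt Fl C)} : M.z ∈ φ → l ≠ some (.P ∅) →
      LocZ [] (.A M.u0 S) [some (.P φ), l]
  | uend0 {φ : Finset Fl} {μ : Option (C × Finset Fl)} {l : Option (Lt Fl C)} : M.z ∈ φ →
      l ≠ some (.P ∅) → LocZ [] (.H M.u0) [some (.B μ φ), l]

/-- The pattern of `k`. -/
inductive LocP (k : ℕ) : List (Option (Lt Fl C)) → Lt Fl C → List (Option (Lt Fl C)) → Prop
  | pat {S φ ψ : Finset Fl} : M.a ∈ φ → M.z ∉ φ → M.b ∈ ψ →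
      LocP k [] (.A M.pass S) (some (.P φ) :: (List.replicate k (some (.P ∅)) ++ [some (.P ψ)]))

/-- The zipper is derivably zero. -/
inductive Zr (k : ℕ) : List (Option (Lt Fl C)) → Lt Fl C → List (Option (Lt Fl C)) → Prop
  | zero {T0 D0 T D : List (Option (Lt Fl C))} {h : Lt Fl C} : LocZ M T0 h D0 →
      Zr k (T0 ++ T) h (D0 ++ D)
  | pat {T0 D0 T D : List (Option (Lt Fl C))} {h : Lt Fl C} : LocP M k T0 h D0 →
      Zr k (T0 ++ T) h (D0 ++ D)
  | step {T0 D0 T1 D1 : List (Lt Fl C)} {T D : List (Option (Lt Fl C))} {h h' : Lt Fl C} :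
      Loc M T0 h D0 T1 h' D1 → Zr k (T1.map some ++ T) h' (D1.map some ++ D) →
      Zr k (T0.map some ++ T) h (D0.map some ++ D)
  | step' {T0 D0 T1 D1 : List (Lt Fl C)} {T D : List (Option (Lt Fl C))} {h h' : Lt Fl C} :
      Loc M T0 h D0 T1 h' D1 → Zr k (T0.map some ++ T) h (D0.map some ++ D) →
      Zr k (T1.map some ++ T) h' (D1.map some ++ D)

/-- The cell `y` of the zone of `f` with memory `μ`. -/
def cell (f : Fl → ℕ) (μ : Option (C × Finset Fl)) (y : ℕ) : Lt Fl C :=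
  if y = 0 then .B μ (lev f 0) else .P (lev f y)

/-- The head of the zone in control state `c` at the position `x`. -/
def hd (c : C) (f : Fl → ℕ) (x : ℕ) : Lt Fl C := if x = 0 then .H c else .A c (sect f x)

/-- The cells above the head, from the head outwards. -/
def tops (f : Fl → ℕ) (μ : Option (C × Finset Fl)) : ℕ → List (Lt Fl C)
  | 0 => []
  | x + 1 => cell f μ x :: tops f μ x

/-- The cells `x, …, n` below the head. -/
def deeps (f : Fl → ℕ) (μ : Option (C × Finset Fl)) (x n : ℕ) : List (Lt Fl C) :=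
  (List.range' x (n + 1 - x)).map (cell f μ)

end

end Pool.Agent.W_59b51d_u18
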