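import Pool.Agent.W_59b51d_h18.Defs

/-!
# Varieties of nonassociative algebras given by identities between monomials
-/

namespace Pool.Agent.W_59b51d_u18

open Pool.Agent.W_59b51d_h18 (Poly code Multilinear vars)

/-- An identity between monomials: `(s, none)` stands for `s = 0`, and `(s, some t)` for
`s = t`. -/
abbrev MId : Type := FreeMagma ℕ × Option (FreeMagma ℕ)

/-- The algebra `A` satisfies the identity. -/
def MId.Holds (A : Type) [NonUnitalNonAssocRing A] : MId → Prop
  | (s, none) => ∀ v : ℕ → A, FreeMagma.lift v s = 0
  | (s, some t) => ∀ v : ℕ → A, FreeMagma.lift v s = FreeMagma.lift v t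

/-- The algebra `A` satisfies the identities of the list `T`. -/
def Sat2 (A : Type) [NonUnitalNonAssocRing A] (T : List MId) : Prop := ∀ p ∈ T, MId.Holds A p

/-- The polynomial `w` vanishes in the algebra which is presented by the generators `X` and the
relators `r` in the variety defined by `T`: it vanishes at every family of elements, satisfying
the relators, of every algebra of the variety. -/
def Vanishes2 (F : Type) [Field F] (T : List MId) {X : Type} (r : List (Poly F X))
    (w : Poly F X) : Prop :=
  ∀ (A : Type) [NonUnitalNonAssocRing A] [Module F A] [IsScalarTower F A A]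
    [SMulCommClass F A A], Sat2 A T → ∀ a : X → A, (∀ p ∈ r, p.eval a = 0) → w.eval a = 0

/-- The algebra presented by the generators `0, …, n - 1` and the relators `r` in the variety
defined by `T` has solvable word problem. -/
def Solvable2 (F : Type) [Field F] [Primcodable F] (T : List MId) {n : ℕ}
    (r : List (Poly F (Fin n))) : Prop :=
  ∃ f : List (F × ℕ) → Bool, Computable f ∧
    ∀ w : Poly F (Fin n), f (w.map fun q => (q.1, code q.2)) = true ↔ Vanishes2 F T r w

/-- Every finitely presented algebra of the variety defined by `T` has solvable word problem. -/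
def AllSolvable (F : Type) [Field F] [Primcodable F] (T : List MId) : Prop :=
  ∀ (n : ℕ) (r : List (Poly F (Fin n))), Solvable2 F T r

/-- The monomials of the identity are multilinear. -/
def MId.Multilin (p : MId) : Prop := Multilinear p.1 ∧ ∀ t ∈ p.2, Multilinear t

/-- The identity `(x₀ x₁) (x₂ x₃) = 0`. -/
def metab : MId :=
  ((FreeMagma.of 0 * FreeMagma.of 1) * (FreeMagma.of 2 * FreeMagma.of 3), none)

/-- The code of a monomial in the variables `0, 1, 2, …`. -/
def mcode : FreeMagma ℕ → ℕ
  | .of i => 2 * i
  | .mul s t => 2 * Nat.pair (mcode s) (mcode t) + 1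

/-- The code of a list of identities. -/
def lcode (T : List MId) : List (ℕ × Option ℕ) := T.map fun p => (mcode p.1, p.2.map mcode)

end Pool.Agent.W_59b51d_u18
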