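import Pool.Agent.W_59b51d_u18.Word

/-!
# A self-synchronizing code (EncA)
-/

namespace Pool.Agent.W_59b51d_u18

/-- A self-synchronizing block code: the blocks have the length `B`, and a prefix of a code word
which is followed by a block is a product of blocks. -/
structure Enc (α : Type) where
  B : ℕ
  enc : α → Wd
  pos : 0 < B
  len : ∀ l, (enc l).length = B
  inj : Function.Injective enc
  sync : ∀ (w : List α) (a b : Wd) (l : α), w.flatMap enc = a ++ enc l ++ b → B ∣ a.length

private theorem EncA_even {β : Type} (f : β → Bool) (L : List β) :
    ∀ n, (L.flatMap fun i => [f i, true])[2 * n]? = (L[n]?).map f := by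
  induction L with
  | nil => intro n; simp
  | cons b L ih =>
    intro n
    cases n with
    | zero => simp
    | succ n =>
      have e : 2 * (n + 1) = 2 * n + 1 + 1 := by ring
      rw [List.flatMap_cons, e]
      simp [ih n]

private theorem EncA_odd {β : Type} (f : β → Bool) (L : List β) :
    ∀ n, (L.flatMap fun i => [f i, true])[2 * n + 1]? = (L[n]?).map fun _ => true := by
  induction L with
  | nil => intro n; simp
  | cons b L ih =>
    intro n
    cases n with
    | zero => simp
    | succ n =>
      have e : 2 * (n + 1) + 1 = 2 * n + 1 + 1 + 1 := by ring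
      rw [List.flatMap_cons, e]
      simp [ih n]

private theorem EncA_len {β : Type} (f : β → Bool) (L : List β) :
    (L.flatMap fun i => [f i, true]).length = 2 * L.length := by
  induction L with
  | nil => simp
  | cons b L ih =>
    rw [List.flatMap_cons, List.length_append, ih]
    simp
    ring

/-- The code of a letter. -/
private def EncA_code {α : Type} {q : ℕ} (e : α ≃ Fin q) (l : α) : Wd :=
  [false, false, true] ++ (List.finRange q).flatMap fun i => [decide (e l = i), true]

private theorem EncA_code_len {α : Type} {q : ℕ} (e : α ≃ Fin q) (l : α) :
    (EncA_code e l).length = 3 + 2 * q := by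
  unfold EncA_code
  rw [List.length_append, EncA_len (fun i => decide (e l = i)), List.length_finRange]
  rfl

private theorem EncA_code_zero {α : Type} {q : ℕ} (e : α ≃ Fin q) (l : α) (b : Wd) :
    (EncA_code e l ++ b)[0]? = some false ∧ (EncA_code e l ++ b)[1]? = some false := by
  unfold EncA_code
  constructor <;> simp

private theorem EncA_code_true {α : Type} {q : ℕ} (e : α ≃ Fin q) (l : α) (n : ℕ)
    (h1 : 1 ≤ n) (h2 : 2 * n < 3 + 2 * q) : (EncA_code e l)[2 * n]? = some true := by
  unfold EncA_code
  obtain ⟨n, rfl⟩ : ∃ k, n = k + 1 := ⟨n - 1, by omega⟩
  cases n with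
  | zero => simp
  | succ n =>
    have e1 : 2 * (n + 1 + 1) = 2 * n + 1 + 1 + 1 + 1 := by ring
    rw [e1]
    have h3 := EncA_odd (fun i => decide (e l = i)) (List.finRange q) n
    have h4 : n < (List.finRange q).length := by
      rw [List.length_finRange]
      omega
    rw [List.getElem?_eq_getElem h4] at h3
    simpa using h3

private theorem EncA_sync {α : Type} {q : ℕ} (e : α ≃ Fin q) (w : List α) :
    ∀ t, (w.flatMap (EncA_code e))[t]? = some false →
      (w.flatMap (EncA_code e))[t + 1]? = some false → 3 + 2 * q ∣ t := by
  induction w with
  | nil => intro t h; simp at h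
  | cons l w ih =>
    intro t h1 h2
    rw [List.flatMap_cons] at h1 h2
    have hl := EncA_code_len e l
    rcases Nat.lt_or_ge t (3 + 2 * q) with ht | ht
    · rcases Nat.eq_zero_or_pos t with h0 | h0
      · subst h0
        exact dvd_zero _
      · exfalso
        rcases Nat.even_or_odd' t with ⟨n, hn | hn⟩
        · rw [List.getElem?_append_left (by omega), hn,
            EncA_code_true e l n (by omega) (by omega)] at h1
          simp at h1
        · have e2 : t + 1 = 2 * (n + 1) := by omega
          rw [List.getElem?_append_left (by omega), e2,
            EncA_code_true e l (n + 1) (by omega) (by omega)] at h2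
          simp at h2
    · rw [List.getElem?_append_right (by omega), hl] at h1 h2
      have e3 : t + 1 - (3 + 2 * q) = t - (3 + 2 * q) + 1 := by omega
      rw [e3] at h2
      have h3 := ih _ h1 h2
      have h4 : t = t - (3 + 2 * q) + (3 + 2 * q) := by omega
      rw [h4]
      exact dvd_add h3 dvd_rfl

private theorem EncA_inj {α : Type} {q : ℕ} (e : α ≃ Fin q) :
    Function.Injective (EncA_code e) := by
  intro l l' h
  unfold EncA_code at h
  have h1 := List.append_cancel_left h
  have h2 := EncA_even (fun i => decide (e l = i)) (List.finRange q) (e l)
  have h3 := EncA_even (fun i => decide (e l' = i)) (List.finRange q) (e l)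
  rw [h1, h3] at h2
  have h4 : (e l : ℕ) < (List.finRange q).length := by
    rw [List.length_finRange]
    exact (e l).2
  rw [List.getElem?_eq_getElem h4] at h2
  simp only [List.getElem_finRange, Option.map_some, Option.some.injEq] at h2
  have h5 : e l' = e l := by simpa using h2
  exact (e.injective h5).symm

/-- Existence of the code.

Proof. Let `q` be the number of letters and `e` an equivalence with `Fin q`. Take
`enc l = [false, false, true] ++ (List.finRange q).flatMap fun i => [decide (e l = i), true]`, of
length `B = 3 + 2 * q`. The entries of `enc l` with an even index `≥ 2` are `true`, the entries `0`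
and `1` are `false`. Claim: if the entries `t` and `t + 1` of `w.flatMap enc` are `false`, then
`B ∣ t` (induction on `w`: in `enc l ++ rest`, the case `t ≥ B` is the induction hypothesis; for
`1 ≤ t < B` one of `t`, `t + 1` is even and at least `2` and less than `B`, because `B` is odd). -/
theorem exists_enc (α : Type) [Finite α] : Nonempty (Enc α) := by
  obtain ⟨q, ⟨e⟩⟩ := Finite.exists_equiv_fin α
  exact ⟨{
    B := 3 + 2 * q
    enc := EncA_code e
    pos := by omega
    len := EncA_code_len e
    inj := EncA_inj e
    sync := by
      intro w a b l h
      have h0 := EncA_code_zero e l b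
      refine EncA_sync e w a.length ?_ ?_
      · rw [h, List.append_assoc, List.getElem?_append_right le_rfl, Nat.sub_self]
        exact h0.1
      · rw [h, List.append_assoc, List.getElem?_append_right (by omega), Nat.add_sub_cancel_left]
        exact h0.2 }⟩

variable {α : Type} (E : Enc α)

open Classical in
/-- Decoding of a block. -/
noncomputable def Enc.dec (b : Wd) : Option α := if h : ∃ l, E.enc l = b then some h.choose else none

theorem Enc.dec_enc (l : α) : E.dec (E.enc l) = some l := by
  have h : ∃ l', E.enc l' = E.enc l := ⟨l, rfl⟩
  unfold Enc.dec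
  rw [dif_pos h]
  exact congrArg some (E.inj h.choose_spec)

theorem Enc.dec_eq_some {b : Wd} {l : α} (h : E.dec b = some l) : b = E.enc l := by
  unfold Enc.dec at h
  split_ifs at h with h1
  have h2 := h1.choose_spec
  have h3 : h1.choose = l := Option.some.inj h
  rw [← h2, h3]

/-- A list of blocks. -/
def Enc.IsBl (bs : List Wd) : Prop := ∀ b ∈ bs, b.length = E.B

end Pool.Agent.W_59b51d_u18
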