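import Pool.Agent.W_59b51d_u18.EncB

/-!
# A self-synchronizing code (EncC)
-/

namespace Pool.Agent.W_59b51d_u18

variable {α : Type} (E : Enc α)

private theorem encC_len {bs : List Wd} (hbs : E.IsBl bs) :
    bs.flatten.length = E.B * bs.length := by
  induction bs with
  | nil => simp
  | cons c bs ih =>
    rw [List.flatten_cons, List.length_append, ih (fun x hx => hbs x (List.mem_cons_of_mem _ hx)),
      hbs c List.mem_cons_self, List.length_cons]
    ring

private theorem encC_map {bs : List Wd} (hbs : E.IsBl bs) (u : List α)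
    (h : bs.flatten = u.flatMap E.enc) : bs = u.map E.enc := by
  induction bs generalizing u with
  | nil =>
    have h1 : u = [] := by
      apply E.flatMap_inj (v := [])
      rw [← h]
      rfl
    rw [h1]
    rfl
  | cons c bs ih =>
    have hc : c.length = E.B := hbs c List.mem_cons_self
    have hb : E.IsBl bs := fun x hx => hbs x (List.mem_cons_of_mem _ hx)
    cases u with
    | nil =>
      have h1 := congrArg List.length h
      rw [List.flatten_cons, List.length_append, hc, List.flatMap_nil, List.length_nil] at h1
      have := E.pos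
      omega
    | cons l u =>
      rw [List.flatten_cons, List.flatMap_cons] at h
      obtain ⟨h1, h2⟩ := List.append_inj h (by rw [hc, E.len])
      rw [List.map_cons, h1, ih hb u h2]

/-- The blocks around a letter of a code word are code blocks.

Proof. `sync` for the letter `l` and `split` (the length of `bs.flatten` is a multiple of `B`);
then the blocks of `bs` are the blocks of a segment of `w` (`split` again, induction on `bs`). -/
theorem Enc.blocks (w : List α) (a b : Wd) (bs cs : List Wd) (l : α) (hbs : E.IsBl bs)
    (hcs : E.IsBl cs) (h : w.flatMap E.enc = a ++ (bs.flatten ++ E.enc l ++ cs.flatten) ++ b) :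
    ∃ w1 u v w2 : List α, w = w1 ++ (u ++ l :: v) ++ w2 ∧ bs = u.map E.enc ∧ cs = v.map E.enc ∧
      a = w1.flatMap E.enc ∧ b = w2.flatMap E.enc := by
  have h1 : w.flatMap E.enc = (a ++ bs.flatten) ++ E.enc l ++ (cs.flatten ++ b) := by
    rw [h]
    simp only [List.append_assoc]
  have hd : E.B ∣ (a ++ bs.flatten).length := E.sync w _ _ l h1
  rw [List.append_assoc] at h1
  obtain ⟨x, y, e1, e2, e3⟩ := E.split w _ _ h1 hd
  have ha : E.B ∣ a.length := by
    rw [List.length_append, encC_len E hbs] at hd
    exact (Nat.dvd_add_left (Dvd.intro _ rfl)).1 hd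
  obtain ⟨w1, u, f1, f2, f3⟩ := E.split x _ _ e2.symm ha
  obtain ⟨y1, y2, g1, g2, g3⟩ := E.split y _ _ e3.symm (by rw [E.len])
  have hy : y1 = [l] := by
    apply E.flatMap_inj
    rw [← g2]
    simp
  obtain ⟨v, w2, k1, k2, k3⟩ := E.split y2 _ _ g3.symm (by rw [encC_len E hcs]; exact Dvd.intro _ rfl)
  refine ⟨w1, u, v, w2, ?_, encC_map E hbs u f3, encC_map E hcs v k2, f2, k3⟩
  rw [e1, f1, g1, hy, k1]
  simp

end Pool.Agent.W_59b51d_u18
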