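import Pool.Agent.W_59b51d_u18.Act
import Pool.Agent.W_59b51d_h18.SStep

/-!
# The monomial identities of the good side (GA1)
-/

namespace Pool.Agent.W_59b51d_u18

open Pool.Agent.W_59b51d_h18

/-- All words of length `n`. -/
def wds : ℕ → List Wd
  | 0 => [[]]
  | n + 1 => (wds n).flatMap fun w => [true :: w, false :: w]

theorem mem_wds {n : ℕ} {w : Wd} : w ∈ wds n ↔ w.length = n := by
  induction n generalizing w with
  | zero => simp [wds]
  | succ n ih =>
    simp only [wds, List.mem_flatMap, List.mem_cons, List.not_mem_nil, or_false]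
    constructor
    · rintro ⟨a, ha, rfl | rfl⟩
      · simp [ih.1 ha]
      · simp [ih.1 ha]
    · intro h
      cases w with
      | nil => simp at h
      | cons b w =>
        have hw : w.length = n := by simpa using h
        refine ⟨w, ih.2 hw, ?_⟩
        cases b
        · right; rfl
        · left; rfl

/-- The padded sides of the relations. -/
def pads (R : List (Wd × Wd)) (N : ℕ) : List Wd :=
  R.flatMap fun q => (wds N).flatMap fun a => (wds N).flatMap fun b =>
    [a ++ q.1 ++ b, a ++ q.2 ++ b]

/-- The monomial identities. -/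
def Tmon (R : List (Wd × Wd)) (Z : List Wd) (N : ℕ) : List (FreeMagma ℕ) :=
  metab.1 :: (Z ++ pads R N).map mw

theorem Tmon_multilinear (R : List (Wd × Wd)) (Z : List Wd) (N : ℕ) :
    ∀ t ∈ Tmon R Z N, Multilinear t := by
  intro t ht
  rcases List.mem_cons.1 ht with rfl | ht
  · change ([0, 1, 2, 3] : List ℕ).Nodup
    decide
  · obtain ⟨w, -, rfl⟩ := List.mem_map.1 ht
    exact multilinear_mw w

theorem Tmon_prod (R : List (Wd × Wd)) (Z : List Wd) (N : ℕ) :
    ∀ t ∈ Tmon R Z N, ∃ α β : FreeMagma ℕ, t = α * β := by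
  intro t ht
  rcases List.mem_cons.1 ht with rfl | ht
  · exact ⟨_, _, rfl⟩
  · obtain ⟨w, -, rfl⟩ := List.mem_map.1 ht
    exact act_eq_mul _ _ _

/-- A monomial without forks keeps this property when it is multiplied by variables. -/
theorem noFork_act (l : List (Bool × FreeMagma ℕ)) (hl : ∀ p ∈ l, ∃ i : ℕ, p.2 = FreeMagma.of i)
    (m : FreeMagma ℕ)
    (hm : ∀ f ∈ subs m, ¬ ∃ a b c d : FreeMagma ℕ, f = (a * b) * (c * d)) :
    ∀ f ∈ subs (act m l), ¬ ∃ a b c d : FreeMagma ℕ, f = (a * b) * (c * d) := by
  induction l generalizing m with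
  | nil => exact hm
  | cons p l ih =>
    obtain ⟨s, y⟩ := p
    obtain ⟨i, hi⟩ := hl (s, y) List.mem_cons_self
    simp only at hi
    subst hi
    have hl' : ∀ p ∈ l, ∃ i : ℕ, p.2 = FreeMagma.of i := fun p hp =>
      hl p (List.mem_cons_of_mem _ hp)
    cases s with
    | true =>
      refine ih hl' (m * FreeMagma.of i) ?_
      intro f hf
      have hf' : f ∈ m * FreeMagma.of i :: (subs m ++ [FreeMagma.of i]) := hf
      rcases List.mem_cons.1 hf' with rfl | hf'
      · rintro ⟨a, b, c, d, h⟩
        injection h with h1 h2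
        cases h2
      · rcases List.mem_append.1 hf' with hf' | hf'
        · exact hm f hf'
        · rw [List.mem_singleton.1 hf']
          rintro ⟨a, b, c, d, h⟩
          cases h
    | false =>
      refine ih hl' (FreeMagma.of i * m) ?_
      intro f hf
      have hf' : f ∈ FreeMagma.of i * m :: ([FreeMagma.of i] ++ subs m) := hf
      rcases List.mem_cons.1 hf' with rfl | hf'
      · rintro ⟨a, b, c, d, h⟩
        injection h with h1 h2
        cases h1
      · rcases List.mem_append.1 hf' with hf' | hf'
        · rw [List.mem_singleton.1 hf']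
          rintro ⟨a, b, c, d, h⟩
          cases h
        · exact hm f hf'

/-- The only fork is `(x₀ x₁) (x₂ x₃)`. Proof: the subtrees of `act m l`, where the letters of `l` are
variables, are the subtrees of `m`, the letters, and products with a variable as a factor. -/
theorem Tmon_fork (R : List (Wd × Wd)) (Z : List Wd) (N : ℕ) {f : FreeMagma ℕ}
    (hf : IsFork (Tmon R Z N) f) : f = metab.1 := by
  obtain ⟨⟨t, ht, hft⟩, hfork⟩ := hf
  rcases List.mem_cons.1 ht with rfl | ht
  · have h : f ∈ metab.1 ::
        ((FreeMagma.of 0 * FreeMagma.of 1) :: ([FreeMagma.of 0] ++ [FreeMagma.of 1]) ++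
          (FreeMagma.of 2 * FreeMagma.of 3) :: ([FreeMagma.of 2] ++ [FreeMagma.of 3])) := hft
    simp only [List.mem_cons, List.mem_append, List.not_mem_nil, or_false] at h
    obtain ⟨a, b, c, d, rfl⟩ := hfork
    rcases h with h | (h | h | h) | h | h | h
    · exact h
    · injection h with h1 h2
      cases h1
    · cases h
    · cases h
    · injection h with h1 h2
      cases h1
    · cases h
    · cases h
  · obtain ⟨w, -, rfl⟩ := List.mem_map.1 ht
    refine absurd hfork (noFork_act _ ?_ _ ?_ f hft)
    · intro p hp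
      obtain ⟨q, -, rfl⟩ := List.mem_map.1 hp
      exact ⟨q.2, rfl⟩
    · intro f hf
      have hf' : f ∈ (FreeMagma.of 0 * FreeMagma.of 1) ::
        ([FreeMagma.of 0] ++ [FreeMagma.of 1]) := hf
      simp only [List.mem_cons, List.mem_append, List.not_mem_nil, or_false] at hf'
      rintro ⟨a, b, c, d, rfl⟩
      rcases hf' with h | h | h
      · injection h with h1 h2
        cases h1
      · cases h
      · cases h

/-- `col` as a `zip`. -/
theorem col_eq_zip {M : Type} (w : Wd) (y : ℕ → M) (i : ℕ) :
    col w y i = w.zip ((List.range' i w.length).map y) := by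
  unfold col
  rw [List.zipIdx_eq_zip_range', List.zip_map_right]
  rfl

/-- The algebras of the variety satisfy the monomial identities (`act_eq_zero_of_LZ`). -/
theorem sat_Tmon {A : Type} [NonUnitalNonAssocRing A] {R : List (Wd × Wd)} {Z : List Wd}
    (hlen : ∀ q ∈ R, q.1.length = q.2.length) {N : ℕ}
    (hN : ∀ q ∈ R, ∀ a b : Wd, a.length = N → b.length = N → LZ R Z (a ++ q.1 ++ b))
    (hA : Sat2 A (TL R Z)) : Sat A (Tmon R Z N) := by
  intro t ht v
  rcases List.mem_cons.1 ht with rfl | ht
  · exact hA metab List.mem_cons_self v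
  · obtain ⟨w, hw, rfl⟩ := List.mem_map.1 ht
    rcases List.mem_append.1 hw with hw | hw
    · exact hA (mw w, none) (List.mem_cons_of_mem _ (List.mem_append_left _
        (List.mem_map.2 ⟨w, hw, rfl⟩))) v
    · have hLZ : LZ R Z w := by
        simp only [pads, List.mem_flatMap, List.mem_cons, List.not_mem_nil, or_false] at hw
        obtain ⟨q, hq, a, ha, b, hb, rfl | rfl⟩ := hw
        · exact hN q hq a b (mem_wds.1 ha) (mem_wds.1 hb)
        · exact LZ.step' (u := q.1) (u' := q.2) hq (hN q hq a b (mem_wds.1 ha) (mem_wds.1 hb))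
      rw [lift_mw, col_eq_zip]
      exact act_eq_zero_of_LZ hlen hA hLZ _ _ _ (by simp)

/-- Coloured words. -/
abbrev CW (X : Type) : Type := List (Bool × X)

/-- The coloured word as a list of variables with sides. -/
def cm {X : Type} (x : CW X) : List (Bool × FreeMagma X) := x.map fun p => (p.1, FreeMagma.of p.2)

/-- The coloured word, evaluated. -/
def ca {X A : Type} (a : X → A) (x : CW X) : List (Bool × A) := x.map fun p => (p.1, a p.2)

/-- The relators which express the relations near the beginning of a word. -/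
def PreRel (F : Type) [Field F] (X : Type) (R : List (Wd × Wd)) (N : ℕ) : Set (Poly F X) :=
  {p | ∃ (i j : X) (v : CW X) (q : Wd × Wd) (cs : List X), v.length < N ∧ q ∈ R ∧
    cs.length = q.1.length ∧
    p = [(1, act (FreeMagma.of i * FreeMagma.of j) (cm (v ++ q.1.zip cs))),
      (-1, act (FreeMagma.of i * FreeMagma.of j) (cm (v ++ q.2.zip cs)))]}

theorem finite_PreRel (F : Type) [Field F] (X : Type) [Finite X] (R : List (Wd × Wd)) (N : ℕ) :
    (PreRel F X R N).Finite := by
  have h : PreRel F X R N ⊆ ⋃ i : X, ⋃ j : X, ⋃ v ∈ {v : CW X | v.length < N},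
      ⋃ q ∈ {q : Wd × Wd | q ∈ R}, ⋃ cs ∈ {cs : List X | cs.length = q.1.length},
      {[(1, act (FreeMagma.of i * FreeMagma.of j) (cm (v ++ q.1.zip cs))),
        (-1, act (FreeMagma.of i * FreeMagma.of j) (cm (v ++ q.2.zip cs)))]} := by
    rintro p ⟨i, j, v, q, cs, hv, hq, hcs, rfl⟩
    simp only [Set.mem_iUnion]
    exact ⟨i, j, v, hv, q, hq, cs, hcs, rfl⟩
  refine Set.Finite.subset ?_ h
  refine Set.finite_iUnion fun i => Set.finite_iUnion fun j => ?_
  refine Set.Finite.biUnion (List.finite_length_lt _ _) fun v _ => ?_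
  refine Set.Finite.biUnion (List.finite_toSet R) fun q _ => ?_
  refine Set.Finite.biUnion (List.finite_length_eq _ _) fun cs _ => ?_
  exact Set.finite_singleton _

end Pool.Agent.W_59b51d_u18
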