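import Pool.Agent.W_59b51d_u18.GA1

/-!
# The monomial identities of the good side (GA2)
-/

namespace Pool.Agent.W_59b51d_u18

open Pool.Agent.W_59b51d_h18

/-- A linear bound for all heights and all sets of subtrees (the proof of `exists_bound` in
`SStep.lean`). -/
theorem exists_Bd {F : Type} [Field F] {X A : Type} [NonUnitalNonAssocRing A] [Module F A]
    [IsScalarTower F A A] [SMulCommClass F A A] [Finite X] {T : List (FreeMagma ℕ)}
    {r : List (Poly F X)} {a : X → A}
    (hT : ∀ t ∈ T, Multilinear t)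
    (hfork : ∀ f g k : FreeMagma ℕ, IsFork T f → IsFork T g → IsFork T k →
      (Inst f g ∨ Inst g f) ∨ (Inst g k ∨ Inst k g) ∨ (Inst f k ∨ Inst k f))
    (hpres : IsPres F T r a) :
    ∃ c K : ℕ, ∀ h, ∀ S ⊆ allSubs T, Bd F T r a S h (c + K * h) := by
  have hmul : ∀ τ ∈ allSubs T, Multilinear τ := by
    intro τ hτ
    obtain ⟨t, ht, hs⟩ := mem_allSubs.1 hτ
    exact multilinear_of_mem_subs (hT t ht) hs
  -- bound for the heights of the relators
  obtain ⟨h₀, hh₀⟩ : ∃ h₀, ∀ p ∈ r, ∀ q ∈ p, height q.2 ≤ h₀ := by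
    refine ⟨((r.flatMap id).map fun q => height q.2).sum, fun p hp q hq => ?_⟩
    refine List.single_le_sum (by simp) _ (List.mem_map.2 ⟨q, ?_, rfl⟩)
    exact List.mem_flatMap.2 ⟨p, hp, hq⟩
  let K := 1 + (allSubs T).sup height
  have hK : ∀ τ ∈ allSubs T, height τ + 1 ≤ K := by
    intro τ hτ
    have := Finset.le_sup (f := height) hτ
    omega
  obtain ⟨N₁, hN₁⟩ := exists_base hpres (allSubs T) hmul h₀
  let N₀ := max N₁ h₀
  have hbase : ∀ S ⊆ allSubs T, Bd F T r a S h₀ N₀ := fun S hS w hw hwS =>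
    DD_mono (le_max_left _ _) (hN₁ S hS w hw hwS)
  have hstep : ∀ j : ℕ, h₀ + j ≤ N₀ + K * j ∧
      ∀ S ⊆ allSubs T, Bd F T r a S (h₀ + j) (N₀ + K * j) := by
    intro j
    induction j with
    | zero => exact ⟨le_max_right _ _, hbase⟩
    | succ j ih =>
      have hK1 : 1 ≤ K := by omega
      refine ⟨?_, ?_⟩
      · have := ih.1
        rw [Nat.mul_succ]
        omega
      · have := step hpres hmul hfork hK hK1 ih.1
          (fun p hp q hq => (hh₀ p hp q hq).trans (by omega)) ih.2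
        rw [Nat.mul_succ, ← add_assoc, ← add_assoc]
        exact this
  refine ⟨N₀, K, fun h S hS w hw hwS => ?_⟩
  exact (hstep h).2 S hS w (Tr_mono (Nat.le_add_left _ _) hw) hwS

end Pool.Agent.W_59b51d_u18
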