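import Pool.Agent.W_59b51d_u18.GA

/-!
# Operators, the ideal of the relations, and vanishing (GB1)
-/

namespace Pool.Agent.W_59b51d_u18

open Pool.Agent.W_59b51d_h18

section

variable {F : Type} [Field F] {X A : Type} [NonUnitalNonAssocRing A] [Module F A]
  [IsScalarTower F A A] [SMulCommClass F A A]

/-- The operator of a coloured word on the algebra. -/
noncomputable def opA (F : Type) [Field F] {X A : Type} [NonUnitalNonAssocRing A] [Module F A]
    [IsScalarTower F A A] [SMulCommClass F A A] (a : X → A) : CW X → A →ₗ[F] A
  | [] => LinearMap.id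
  | (s, i) :: x => opA F a x ∘ₗ
      (if s then (LinearMap.mul F A).flip (a i) else LinearMap.mul F A (a i))

/-- The operator of a coloured word on the free algebra. -/
noncomputable def opN (F : Type) [Field F] {X : Type} : CW X → NA F X →ₗ[F] NA F X
  | [] => LinearMap.id
  | (s, i) :: x => opN F x ∘ₗ
      (if s then (mulP F X).flip (tr F (FreeMagma.of i)) else mulP F X (tr F (FreeMagma.of i)))

theorem opA_apply (a : X → A) (x : CW X) (m : A) : opA F a x m = act m (ca a x) := by
  induction x generalizing m with
  | nil => rfl
  | cons p x ih =>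
    obtain ⟨s, i⟩ := p
    have h1 : act m (ca a ((s, i) :: x)) = act (if s then m * a i else a i * m) (ca a x) := rfl
    rw [h1, ← ih]
    cases s <;> simp [opA]

theorem opN_tr (x : CW X) (m : FreeMagma X) : opN F x (tr F m) = tr F (act m (cm x)) := by
  induction x generalizing m with
  | nil => rfl
  | cons p x ih =>
    obtain ⟨s, i⟩ := p
    have h1 : act m (cm ((s, i) :: x)) =
        act (if s then m * FreeMagma.of i else FreeMagma.of i * m) (cm x) := rfl
    rw [h1, ← ih]
    cases s <;> simp [opN, mulP_tr]

theorem ev_opN (a : X → A) (x : CW X) (p : NA F X) : ev F a (opN F x p) = opA F a x (ev F a p) := by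
  induction x generalizing p with
  | nil => rfl
  | cons q x ih =>
    obtain ⟨s, i⟩ := q
    cases s
    · simp [opA, opN, ih, ev_mulP, ev_tr]
    · simp [opA, opN, ih, ev_mulP, ev_tr]

theorem opA_append (a : X → A) (x y : CW X) (m : A) :
    opA F a (x ++ y) m = opA F a y (opA F a x m) := by
  induction x generalizing m with
  | nil => rfl
  | cons q x ih =>
    obtain ⟨s, i⟩ := q
    rw [List.cons_append]
    simp only [opA, LinearMap.comp_apply]
    exact ih _

theorem opN_append (x y : CW X) (p : NA F X) : opN F (x ++ y) p = opN F y (opN F x p) := by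
  induction x generalizing p with
  | nil => rfl
  | cons q x ih =>
    obtain ⟨s, i⟩ := q
    rw [List.cons_append]
    simp only [opN, LinearMap.comp_apply]
    exact ih _

theorem step_mem_Tr {h : ℕ} {p : NA F X} (hp : p ∈ Tr F X h) (s : Bool) (i : X) :
    (if s then (mulP F X).flip (tr F (FreeMagma.of i)) else mulP F X (tr F (FreeMagma.of i))) p ∈
      Tr F X (h + 1) := by
  cases s
  · simp only [Bool.false_eq_true, if_false]
    have : Tr F X h ≤ (Tr F X (h + 1)).comap (mulP F X (tr F (FreeMagma.of i))) := by
      refine Tr_le fun m hm => ?_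
      rw [Submodule.mem_comap, mulP_tr]
      refine tr_mem_Tr ?_
      rw [height_mul, height_of]
      omega
    exact this hp
  · simp only [if_true]
    have : Tr F X h ≤ (Tr F X (h + 1)).comap ((mulP F X).flip (tr F (FreeMagma.of i))) := by
      refine Tr_le fun m hm => ?_
      rw [Submodule.mem_comap, LinearMap.flip_apply, mulP_tr]
      refine tr_mem_Tr ?_
      rw [height_mul, height_of]
      omega
    exact this hp

theorem step_mem_Cons {T : List (FreeMagma ℕ)} {r : List (Poly F X)} {H : ℕ} {p : NA F X}
    (hp : p ∈ Cons T r H) (s : Bool) (i : X) :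
    (if s then (mulP F X).flip (tr F (FreeMagma.of i)) else mulP F X (tr F (FreeMagma.of i))) p ∈
      Cons T r (H + 1) := by
  cases s
  · simp only [Bool.false_eq_true, if_false]
    have : Cons T r H ≤ (Cons T r (H + 1)).comap (mulP F X (tr F (FreeMagma.of i))) := by
      refine Submodule.span_le.2 fun q hq => ?_
      exact (Gen.mull hq (by rw [height_of]; omega)).mem
    exact this hp
  · simp only [if_true]
    have : Cons T r H ≤ (Cons T r (H + 1)).comap ((mulP F X).flip (tr F (FreeMagma.of i))) := by
      refine Submodule.span_le.2 fun q hq => ?_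
      exact (Gen.mulr hq (by rw [height_of]; omega)).mem
    exact this hp

/-- Operators raise the height by the length. -/
theorem opN_mem_Tr {h : ℕ} {p : NA F X} (hp : p ∈ Tr F X h) (x : CW X) :
    opN F x p ∈ Tr F X (h + x.length) := by
  induction x generalizing p h with
  | nil => exact hp
  | cons q x ih =>
    obtain ⟨s, i⟩ := q
    have := ih (step_mem_Tr hp s i)
    have e : h + ((s, i) :: x).length = h + 1 + x.length := by
      simp only [List.length_cons]; omega
    rw [e]
    exact this

theorem opN_mem_Cons {T : List (FreeMagma ℕ)} {r : List (Poly F X)} {H : ℕ} {p : NA F X}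
    (hp : p ∈ Cons T r H) (x : CW X) : opN F x p ∈ Cons T r (H + x.length) := by
  induction x generalizing p H with
  | nil => exact hp
  | cons q x ih =>
    obtain ⟨s, i⟩ := q
    have := ih (step_mem_Cons hp s i)
    have e : H + ((s, i) :: x).length = H + 1 + x.length := by
      simp only [List.length_cons]; omega
    rw [e]
    exact this

/-- The span of the products. -/
noncomputable def A2 (F A : Type) [Field F] [NonUnitalNonAssocRing A] [Module F A]
    [IsScalarTower F A A] [SMulCommClass F A A] : Submodule F A :=
  Submodule.span F {z | ∃ x y : A, z = x * y}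

/-- The ideal of the relations `R`. -/
noncomputable def Hs (F A : Type) [Field F] [NonUnitalNonAssocRing A] [Module F A]
    [IsScalarTower F A A] [SMulCommClass F A A] (R : List (Wd × Wd)) : Submodule F A :=
  Submodule.span F {z | ∃ (x y : A) (c1 c2 : List (Bool × A)) (q : Wd × Wd) (cs : List A),
    q ∈ R ∧ cs.length = q.1.length ∧
    z = act (x * y) (c1 ++ q.1.zip cs ++ c2) - act (x * y) (c1 ++ q.2.zip cs ++ c2)}

end

end Pool.Agent.W_59b51d_u18
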