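import Pool.Agent.W_59b51d_u18.GB1

/-!
# Operators, the ideal of the relations, and vanishing (GB2)
-/

namespace Pool.Agent.W_59b51d_u18

open Pool.Agent.W_59b51d_h18

section

variable {F : Type} [Field F] {X A : Type} [NonUnitalNonAssocRing A] [Module F A]
  [IsScalarTower F A A] [SMulCommClass F A A]

theorem act_append_one {M : Type} [Mul M] (m : M) (l : List (Bool × M)) (s : Bool) (y : M) :
    act m (l ++ [(s, y)]) = if s then act m l * y else y * act m l := by
  rw [act_append]
  rfl

theorem Hs_mul {R : List (Wd × Wd)} {z : A} (hz : z ∈ Hs F A R) (y : A) :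
    z * y ∈ Hs F A R ∧ y * z ∈ Hs F A R := by
  have h1 : Hs F A R ≤ (Hs F A R).comap ((LinearMap.mul F A).flip y) := by
    refine Submodule.span_le.2 ?_
    rintro z ⟨a, b, c1, c2, q, cs, hq, hcs, rfl⟩
    refine Submodule.subset_span ⟨a, b, c1, c2 ++ [(true, y)], q, cs, hq, hcs, ?_⟩
    rw [← List.append_assoc, ← List.append_assoc, act_append_one, act_append_one]
    simp [sub_mul]
  have h2 : Hs F A R ≤ (Hs F A R).comap (LinearMap.mul F A y) := by
    refine Submodule.span_le.2 ?_
    rintro z ⟨a, b, c1, c2, q, cs, hq, hcs, rfl⟩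
    refine Submodule.subset_span ⟨a, b, c1, c2 ++ [(false, y)], q, cs, hq, hcs, ?_⟩
    rw [← List.append_assoc, ← List.append_assoc, act_append_one, act_append_one]
    simp [mul_sub]
  exact ⟨h1 hz, h2 hz⟩

section quot

variable (J : Submodule F A) (hJ : ∀ z ∈ J, ∀ y : A, z * y ∈ J ∧ y * z ∈ J)

/-- the product with a fixed left factor -/
noncomputable def gqLeft : A →ₗ[F] (A ⧸ J) →ₗ[F] (A ⧸ J) where
  toFun p := J.liftQ (J.mkQ ∘ₗ LinearMap.mul F A p) (by
    intro q hq
    rw [LinearMap.mem_ker, LinearMap.comp_apply, Submodule.mkQ_apply,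
      Submodule.Quotient.mk_eq_zero]
    exact (hJ q hq p).2)
  map_add' p p' := by
    refine LinearMap.ext fun x => ?_
    obtain ⟨q, rfl⟩ := J.mkQ_surjective x
    change J.mkQ ((p + p') * q) = J.mkQ (p * q) + J.mkQ (p' * q)
    rw [add_mul, map_add]
  map_smul' c p := by
    refine LinearMap.ext fun x => ?_
    obtain ⟨q, rfl⟩ := J.mkQ_surjective x
    change J.mkQ ((c • p) * q) = c • J.mkQ (p * q)
    rw [smul_mul_assoc, map_smul]

/-- the product -/
noncomputable def gqMul : (A ⧸ J) →ₗ[F] (A ⧸ J) →ₗ[F] (A ⧸ J) :=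
  J.liftQ (gqLeft J hJ) (by
    intro p hp
    rw [LinearMap.mem_ker]
    refine LinearMap.ext fun x => ?_
    obtain ⟨q, rfl⟩ := J.mkQ_surjective x
    change J.mkQ (p * q) = 0
    rw [Submodule.mkQ_apply, Submodule.Quotient.mk_eq_zero]
    exact (hJ p hp q).1)

theorem gqMul_mk (p q : A) : gqMul J hJ (J.mkQ p) (J.mkQ q) = J.mkQ (p * q) := rfl

end quot

/-- The quotient of an algebra by an ideal. -/
theorem exists_quot (J : Submodule F A) (hJ : ∀ z ∈ J, ∀ y : A, z * y ∈ J ∧ y * z ∈ J) :
    ∃ (B : Type) (_ : NonUnitalNonAssocRing B) (_ : Module F B) (_ : IsScalarTower F B B)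
      (_ : SMulCommClass F B B) (π : A →ₗ[F] B), Function.Surjective π ∧
      (∀ x y, π (x * y) = π x * π y) ∧ ∀ x, π x = 0 ↔ x ∈ J := by
  let rg : NonUnitalNonAssocRing (A ⧸ J) :=
    { (inferInstance : AddCommGroup (A ⧸ J)) with
      mul := fun x y => gqMul J hJ x y
      left_distrib := fun x y z => map_add (gqMul J hJ x) y z
      right_distrib := fun x y z => by
        change gqMul J hJ (x + y) z = gqMul J hJ x z + gqMul J hJ y z
        rw [map_add, LinearMap.add_apply]
      zero_mul := fun x => by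
        change gqMul J hJ 0 x = 0
        rw [map_zero, LinearMap.zero_apply]
      mul_zero := fun x => map_zero (gqMul J hJ x) }
  let md : @Module F (A ⧸ J) _ rg.toNonUnitalNonAssocSemiring.toAddCommMonoid :=
    (inferInstance : Module F (A ⧸ J))
  refine ⟨A ⧸ J, rg, md, ?_, ?_, J.mkQ, J.mkQ_surjective, fun x y => rfl, fun x => ?_⟩
  · exact ⟨fun c x y => by
      change gqMul J hJ (c • x) y = c • gqMul J hJ x y
      rw [map_smul, LinearMap.smul_apply]⟩
  · exact ⟨fun c x y => (map_smul (gqMul J hJ x) c y).symm⟩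
  · exact Submodule.Quotient.mk_eq_zero _

/-- A linear multiplicative map is compatible with `act` and with evaluation. -/
theorem map_act {B : Type} [NonUnitalNonAssocRing B] [Module F B] (π : A →ₗ[F] B)
    (hπ : ∀ x y, π (x * y) = π x * π y) (m : A) (l : List (Bool × A)) :
    π (act m l) = act (π m) (l.map fun p => (p.1, π p.2)) := by
  induction l generalizing m with
  | nil => rfl
  | cons p l ih =>
    obtain ⟨s, y⟩ := p
    change π (act (if s then m * y else y * m) l) =
      act (if s then π m * π y else π y * π m) (l.map fun p => (p.1, π p.2))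
    rw [ih]
    cases s <;> simp [hπ]

theorem map_lift {B : Type} [NonUnitalNonAssocRing B] [Module F B] (π : A →ₗ[F] B)
    (hπ : ∀ x y, π (x * y) = π x * π y) {Y : Type} (v : Y → A) (t : FreeMagma Y) :
    π (FreeMagma.lift v t) = FreeMagma.lift (fun i => π (v i)) t := by
  induction t using FreeMagma.rec with
  | of i => rfl
  | mul s t hs ht =>
    change π (FreeMagma.lift v s * FreeMagma.lift v t) =
      FreeMagma.lift (fun i => π (v i)) s * FreeMagma.lift (fun i => π (v i)) t
    rw [hπ, hs, ht]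

end

end Pool.Agent.W_59b51d_u18
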