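import Pool.Agent.W_59b51d_u18.GB2

/-!
# Operators, the ideal of the relations, and vanishing (GB3)
-/

namespace Pool.Agent.W_59b51d_u18

open Pool.Agent.W_59b51d_h18

section

variable {F : Type} [Field F] {X A : Type} [NonUnitalNonAssocRing A] [Module F A]
  [IsScalarTower F A A] [SMulCommClass F A A]

theorem gb3_col_eq_zip {M : Type} (w : Wd) (y : ℕ → M) (i : ℕ) :
    col w y i = w.zip ((List.range' i w.length).map y) := by
  unfold col
  rw [List.zipIdx_eq_zip_range', List.zip_map_right]
  rfl

theorem zip_map_snd {M M' : Type} (f : M → M') (w : Wd) (cs : List M) :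
    (w.zip cs).map (fun p => (p.1, f p.2)) = w.zip (cs.map f) := by
  rw [List.zip_map_right]
  rfl

theorem ev_map {B : Type} [NonUnitalNonAssocRing B] [Module F B] [IsScalarTower F B B]
    [SMulCommClass F B B] (π : A →ₗ[F] B) (hπ : ∀ x y, π (x * y) = π x * π y) (a : X → A)
    (P : NA F X) : ev F (fun i => π (a i)) P = π (ev F a P) := by
  induction P using NA_induction with
  | h0 => simp
  | hadd p q hp hq => rw [map_add, map_add, map_add, hp, hq]
  | hsm c m => rw [map_smul, map_smul, map_smul, ev_tr, ev_tr, map_lift π hπ]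

/-- values of the identities in a quotient -/
theorem holds_quot {B : Type} [NonUnitalNonAssocRing B] [Module F B] [IsScalarTower F B B]
    [SMulCommClass F B B] (π : A →ₗ[F] B) (hπ : ∀ x y, π (x * y) = π x * π y)
    (hs : Function.Surjective π) {t : FreeMagma ℕ} (ht : ∀ v : ℕ → A, FreeMagma.lift v t = 0)
    (v : ℕ → B) : FreeMagma.lift v t = 0 := by
  choose v' hv' using fun i => hs (v i)
  have h1 : v = fun i => π (v' i) := funext fun i => (hv' i).symm
  rw [h1, ← map_lift π hπ, ht, map_zero]

/-- Vanishing in the presented algebra of the variety `TL R Z`, in terms of the algebra presented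
by the monomial identities.

Proof. Let `r' = r ++ pre`. If `w` vanishes in all algebras, take the quotient `B` of `A` by
`Hs F A R` (`exists_quot`): it satisfies `TL R Z` (lift the values of the variables to `A`; `Sat A`
for `metab` and `mw z`, the definition of `Hs` and `lift_mw` for the relations) and the relators, so
the image of `ev F a (toP w)` is zero. Conversely, let `B` be an algebra of the variety with a family
`b` which satisfies `r`. It satisfies `Tmon R Z N` (`sat_Tmon`) and the relators in `pre`
(`act_eq_of_R`), so by `IsPres.ker` and `ev_eq_zero_of_mem_Cons` the kernel of `ev F a` is contained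
in the kernel of `ev F b`; this gives a linear multiplicative map `θ : A → B` with
`θ (ev F a p) = ev F b p`, which kills `Hs F A R` by `act_eq_of_R` and `map_act`. -/
theorem vanishes2_iff {R : List (Wd × Wd)} {Z : List Wd}
    (hlen : ∀ q ∈ R, q.1.length = q.2.length) {N : ℕ}
    (hN : ∀ q ∈ R, ∀ a b : Wd, a.length = N → b.length = N → LZ R Z (a ++ q.1 ++ b))
    {r pre : List (Poly F X)} (hpre : ∀ p ∈ pre, p ∈ PreRel F X R N) {a : X → A}
    (hpres : IsPres F (Tmon R Z N) (r ++ pre) a) (hA : Sat A (Tmon R Z N))
    (ha : ∀ p ∈ r ++ pre, p.eval a = 0) (w : Poly F X) :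
    Vanishes2 F (TL R Z) r w ↔ ev F a (toP w) ∈ Hs F A R := by
  constructor
  · intro hv
    obtain ⟨B, i1, i2, i3, i4, π, hs, hπ, hker⟩ := exists_quot (Hs F A R) (fun z hz y => Hs_mul hz y)
    rw [← hker, ← ev_map π hπ, ev_toP]
    refine hv B ?_ _ ?_
    · intro p hp
      rw [TL, List.mem_cons, List.mem_append, List.mem_map, List.mem_map] at hp
      rcases hp with rfl | ⟨z, hz, rfl⟩ | ⟨q, hq, rfl⟩
      · intro v
        refine holds_quot π hπ hs (fun v' => hA _ ?_ v') v
        exact List.mem_cons_self
      · intro v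
        refine holds_quot π hπ hs (fun v' => hA _ ?_ v') v
        exact List.mem_cons_of_mem _ (List.mem_map.2 ⟨z, List.mem_append_left _ hz, rfl⟩)
      · intro v
        choose v' hv' using fun i => hs (v i)
        have h1 : v = fun i => π (v' i) := funext fun i => (hv' i).symm
        rw [h1, ← map_lift π hπ, ← map_lift π hπ, ← sub_eq_zero, ← map_sub, hker]
        rw [lift_mw, lift_mw, gb3_col_eq_zip, gb3_col_eq_zip]
        refine Submodule.subset_span ⟨v' 0, v' 1, [], [], q,
          (List.range' 2 q.1.length).map v', hq, by simp, ?_⟩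
        rw [← hlen q hq]
        simp
    · intro p hp
      rw [← ev_toP, ev_map π hπ, ev_toP, ha p (List.mem_append_left _ hp), map_zero]
  · intro hmem B _ _ _ _ hB b hb
    have hsatB : Sat B (Tmon R Z N) := sat_Tmon hlen hN hB
    have hrel : ∀ p ∈ r ++ pre, p.eval b = 0 := by
      intro p hp
      rcases List.mem_append.1 hp with h' | h'
      · exact hb p h'
      · obtain ⟨i, j, v, q, cs, _, hq, hcs, rfl⟩ := hpre p h'
        have key : ∀ u : Wd, FreeMagma.lift b (act (FreeMagma.of i * FreeMagma.of j)
            (cm (v ++ u.zip cs))) = act (b i * b j) (ca b v ++ u.zip (cs.map b) ++ []) := by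
          intro u
          rw [lift_act, map_mul, FreeMagma.lift_of, FreeMagma.lift_of, cm, List.map_map,
            List.map_append, List.append_nil, ← zip_map_snd]
          rfl
        have h2 := act_eq_of_R hB hq (hlen q hq) (b i) (b j) (ca b v) [] (cs.map b)
          (by simpa using hcs)
        rw [← key, ← key] at h2
        simp [Poly.eval, h2]
    have hk : LinearMap.ker (ev F a) ≤ LinearMap.ker (ev F b) := by
      intro P hP
      rw [LinearMap.mem_ker] at hP ⊢
      obtain ⟨H, hH⟩ := (hpres.ker P).1 hP
      exact ev_eq_zero_of_mem_Cons hsatB hrel hH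
    obtain ⟨θ, hθ⟩ : ∃ θ : A →ₗ[F] B, ∀ P, θ (ev F a P) = ev F b P := by
      refine ⟨((LinearMap.ker (ev F a)).liftQ (ev F b) hk) ∘ₗ
        ((ev F a).quotKerEquivOfSurjective hpres.surj).symm.toLinearMap, fun P => ?_⟩
      have : ((ev F a).quotKerEquivOfSurjective hpres.surj).symm (ev F a P) =
          (LinearMap.ker (ev F a)).mkQ P := by
        rw [LinearEquiv.symm_apply_eq]
        rfl
      rw [LinearMap.comp_apply, LinearEquiv.coe_coe, this]
      rfl
    have hmul : ∀ x y, θ (x * y) = θ x * θ y := by
      intro x y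
      obtain ⟨P, rfl⟩ := hpres.surj x
      obtain ⟨Q, rfl⟩ := hpres.surj y
      rw [← ev_mulP, hθ, hθ, hθ, ev_mulP]
    have hkill : Hs F A R ≤ LinearMap.ker θ := by
      refine Submodule.span_le.2 ?_
      rintro z ⟨x, y, c1, c2, q, cs, hq, hcs, rfl⟩
      rw [SetLike.mem_coe, LinearMap.mem_ker, map_sub, sub_eq_zero, map_act θ hmul,
        map_act θ hmul, hmul]
      simp only [List.map_append, zip_map_snd]
      exact act_eq_of_R hB hq (hlen q hq) _ _ _ _ _ (by simpa using hcs)
    have := hkill hmem
    rw [LinearMap.mem_ker, hθ, ev_toP] at this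
    exact this

end

end Pool.Agent.W_59b51d_u18
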