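import Pool.Agent.W_59b51d_u18.GB

/-!
# Coordinates modulo the square, the kernel of the multiplication (GC1)
-/

namespace Pool.Agent.W_59b51d_u18

open Pool.Agent.W_59b51d_h18

section

variable {F : Type} [Field F] {X A : Type} [NonUnitalNonAssocRing A] [Module F A]
  [IsScalarTower F A A] [SMulCommClass F A A]

/-- Coordinates modulo the square with respect to a part `X0` of the generators. -/
structure Coord (F : Type) [Field F] {X A : Type} [NonUnitalNonAssocRing A] [Module F A]
    [IsScalarTower F A A] [SMulCommClass F A A] (a : X → A) where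
  X0 : Finset X
  lam : X → A →ₗ[F] F
  sq : ∀ i (x y : A), lam i (x * y) = 0
  one : ∀ i ∈ X0, lam i (a i) = 1
  zero : ∀ i ∈ X0, ∀ j ∈ X0, i ≠ j → lam i (a j) = 0
  rest : ∀ x : A, x - ∑ i ∈ X0, lam i x • a i ∈ A2 F A

/-- Existence of coordinates. Proof: a basis of `A ⧸ A2` from the spanning family of the classes of
the generators (`ev F a` is surjective). -/
theorem exists_coord [Finite X] {a : X → A} (ha : Function.Surjective (ev F a)) :
    Nonempty (Coord F a) := by
  classical
  have hspan : Submodule.span F (Set.range fun i => (A2 F A).mkQ (a i)) = ⊤ := by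
    rw [eq_top_iff]
    intro q _
    obtain ⟨x, rfl⟩ := (A2 F A).mkQ_surjective q
    obtain ⟨p, rfl⟩ := ha x
    induction p using NA_induction with
    | h0 => simp
    | hadd p q hp hq =>
      rw [map_add, map_add]
      exact add_mem (hp trivial) (hq trivial)
    | hsm c m =>
      rw [map_smul, map_smul, ev_tr]
      refine Submodule.smul_mem _ _ ?_
      cases m with
      | of i => exact Submodule.subset_span ⟨i, rfl⟩
      | mul s t =>
        have h1 : FreeMagma.lift a (FreeMagma.mul s t) ∈ A2 F A :=
          Submodule.subset_span ⟨FreeMagma.lift a s, FreeMagma.lift a t,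
            (FreeMagma.lift a).map_mul s t⟩
        have h2 : (A2 F A).mkQ (FreeMagma.lift a (FreeMagma.mul s t)) = 0 := by
          rw [Submodule.mkQ_apply, Submodule.Quotient.mk_eq_zero]
          exact h1
        rw [h2]
        exact Submodule.zero_mem _
  obtain ⟨κ, e, he, hsp, hli⟩ := exists_linearIndependent' F fun i => (A2 F A).mkQ (a i)
  have : Finite κ := Finite.of_injective e he
  have : Fintype κ := Fintype.ofFinite κ
  let b : Module.Basis κ F (A ⧸ A2 F A) := Module.Basis.mk hli (by rw [hsp, hspan])
  have hb : ∀ k, b k = (A2 F A).mkQ (a (e k)) := fun k => Module.Basis.mk_apply _ _ _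
  let lam : X → A →ₗ[F] F := Function.extend e (fun k => b.coord k ∘ₗ (A2 F A).mkQ) 0
  have hlam : ∀ k x, lam (e k) x = b.repr ((A2 F A).mkQ x) k := by
    intro k x
    simp only [lam, he.extend_apply]
    rfl
  refine ⟨⟨Finset.univ.image e, lam, ?_, ?_, ?_, ?_⟩⟩
  · intro i x y
    by_cases hi : ∃ k, e k = i
    · obtain ⟨k, rfl⟩ := hi
      have h1 : (A2 F A).mkQ (x * y) = 0 := by
        rw [Submodule.mkQ_apply, Submodule.Quotient.mk_eq_zero]
        exact Submodule.subset_span ⟨x, y, rfl⟩
      rw [hlam, h1]
      simp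
    · simp only [lam, Function.extend_apply' _ _ _ hi]
      rfl
  · intro i hi
    obtain ⟨k, -, rfl⟩ := Finset.mem_image.1 hi
    rw [hlam, ← hb, Module.Basis.repr_self, Finsupp.single_eq_same]
  · intro i hi j hj hij
    obtain ⟨k, -, rfl⟩ := Finset.mem_image.1 hi
    obtain ⟨k', -, rfl⟩ := Finset.mem_image.1 hj
    rw [hlam, ← hb, Module.Basis.repr_self, Finsupp.single_eq_of_ne]
    intro h
    exact hij (by rw [h])
  · intro x
    rw [← Submodule.Quotient.mk_eq_zero, ← Submodule.mkQ_apply, map_sub, map_sum,
      Finset.sum_image (fun k _ k' _ h => he h), sub_eq_zero]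
    conv_lhs => rw [← b.sum_repr ((A2 F A).mkQ x)]
    refine Finset.sum_congr rfl fun k _ => ?_
    rw [map_smul, hlam, hb]

/-- The values of the polynomials of height at most `B`. -/
noncomputable def AB (F : Type) [Field F] {X A : Type} [NonUnitalNonAssocRing A] [Module F A]
    [IsScalarTower F A A] [SMulCommClass F A A] (a : X → A) (B : ℕ) : Submodule F A :=
  Submodule.map (ev F a) (Tr F X B)

end

end Pool.Agent.W_59b51d_u18
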