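import Pool.Agent.W_59b51d_u18.GC1

/-!
# Coordinates modulo the square, the kernel of the multiplication (GC2)
-/

namespace Pool.Agent.W_59b51d_u18

open Pool.Agent.W_59b51d_h18

section

variable {F : Type} [Field F] {X A : Type} [NonUnitalNonAssocRing A] [Module F A]
  [IsScalarTower F A A] [SMulCommClass F A A]

open Classical in
/-- The patterns which are completed by one more multiplication on the side `s`. -/
noncomputable def sh (T : List (FreeMagma ℕ)) (s : Bool) (S : Finset (FreeMagma ℕ)) :
    Finset (FreeMagma ℕ) :=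
  (allSubs T).filter fun α => (∃ j : ℕ, (if s then α * .of j else .of j * α) ∈ S ∨
    (if s then α * .of j else .of j * α) ∈ T) ∨ ∃ i : ℕ, FreeMagma.of i ∈ S

/-- The patterns which are completed by the word. -/
noncomputable def Sx (T : List (FreeMagma ℕ)) : Wd → Finset (FreeMagma ℕ)
  | [] => ∅
  | s :: w => sh T s (Sx T w)

theorem Sx_subset (T : List (FreeMagma ℕ)) (w : Wd) : Sx T w ⊆ allSubs T := by
  cases w with
  | nil => exact Finset.empty_subset _
  | cons s w =>
    classical
    intro α hα
    have h1 : α ∈ sh T s (Sx T w) := hα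
    rw [sh] at h1
    exact (Finset.mem_filter.1 h1).1

/-- The coloured words of length `l` with colours in `X0`. -/
noncomputable def YL {X : Type} (X0 : Finset X) : ℕ → Finset (CW X)
  | 0 => {[]}
  | l + 1 => by
    classical
    exact ((Finset.univ ×ˢ X0) ×ˢ YL X0 l).image fun p => p.1 :: p.2

theorem mem_YL {X0 : Finset X} {l : ℕ} {x : CW X} :
    x ∈ YL X0 l ↔ x.length = l ∧ ∀ p ∈ x, p.2 ∈ X0 := by
  induction l generalizing x with
  | zero =>
    simp only [YL, Finset.mem_singleton]
    constructor
    · rintro rfl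
      simp
    · rintro ⟨h, _⟩
      exact List.length_eq_zero_iff.1 h
  | succ l ih =>
    simp only [YL, Finset.mem_image, Finset.mem_product, Finset.mem_univ, true_and]
    constructor
    · rintro ⟨p, ⟨h1, h2⟩, rfl⟩
      rw [ih] at h2
      refine ⟨by rw [List.length_cons, h2.1], ?_⟩
      intro q hq
      rcases List.mem_cons.1 hq with rfl | hq
      · exact h1
      · exact h2.2 q hq
    · rintro ⟨h1, h2⟩
      cases x with
      | nil => simp at h1
      | cons y x =>
        refine ⟨(y, x), ⟨h2 y (by simp), ih.2 ⟨?_, fun q hq => h2 q (by simp [hq])⟩⟩, rfl⟩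
        rw [List.length_cons] at h1
        show x.length = l
        omega

theorem sum_YL_succ {X0 : Finset X} {M : Type} [AddCommMonoid M] (l : ℕ) (f : CW X → M) :
    ∑ x ∈ YL X0 (l + 1), f x = ∑ x ∈ YL X0 l, ∑ y ∈ Finset.univ ×ˢ X0, f (y :: x) := by
  classical
  have h1 : YL X0 (l + 1) = ((Finset.univ ×ˢ X0) ×ˢ YL X0 l).image fun p => p.1 :: p.2 := by
    ext x
    simp only [YL, Finset.mem_image]
  rw [h1, Finset.sum_image, Finset.sum_product, Finset.sum_comm]
  rintro ⟨a, b⟩ _ ⟨a', b'⟩ _ h
  simp only [List.cons.injEq] at h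
  rw [h.1, h.2]

theorem sum_YL_add {X0 : Finset X} {M : Type} [AddCommMonoid M] (l l' : ℕ) (f : CW X → M) :
    ∑ x ∈ YL X0 (l + l'), f x = ∑ σ ∈ YL X0 l, ∑ y ∈ YL X0 l', f (σ ++ y) := by
  induction l generalizing f with
  | zero =>
    have h0 : YL X0 0 = {[]} := rfl
    rw [Nat.zero_add, h0, Finset.sum_singleton]
    rfl
  | succ l ih =>
    have h1 : l + 1 + l' = l + l' + 1 := by omega
    rw [h1, sum_YL_succ, ih, sum_YL_succ]
    refine Finset.sum_congr rfl fun σ _ => ?_
    rw [Finset.sum_comm]
    rfl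

end

end Pool.Agent.W_59b51d_u18
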