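import Pool.Agent.W_59b51d_u18.GC2

/-!
# Coordinates modulo the square, the kernel of the multiplication (GC3)
-/

namespace Pool.Agent.W_59b51d_u18

open Pool.Agent.W_59b51d_h18

section

variable {F : Type} [Field F] {X A : Type} [NonUnitalNonAssocRing A] [Module F A]
  [IsScalarTower F A A] [SMulCommClass F A A]

/-- The functionals of the coordinates vanish on the square. -/
theorem GC3_lam_A2 {a : X → A} (C : Coord F a) (i : X) {z : A} (hz : z ∈ A2 F A) : C.lam i z = 0 := by
  have h : A2 F A ≤ LinearMap.ker (C.lam i) := by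
    refine Submodule.span_le.2 ?_
    rintro _ ⟨x, y, rfl⟩
    exact C.sq i x y
  exact h hz

/-- The functionals of the coordinates vanish on the values of the products. -/
theorem GC3_lam_AS {a : X → A} (C : Coord F a) (i : X) {β β' : FreeMagma ℕ} {z : A}
    (hz : z ∈ AS F A (β * β')) : C.lam i z = 0 := by
  refine GC3_lam_A2 C i ?_
  have h : AS F A (β * β') ≤ A2 F A := by
    rw [AS_mul]
    exact Submodule.map₂_le.2 fun u _ v _ => Submodule.subset_span ⟨u, v, rfl⟩
  exact h hz

/-- The linear map of `one_step`. -/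
theorem GC3_exists_delta_zero {T : List (FreeMagma ℕ)} {r : List (Poly F X)} {a : X → A}
    (hpres : IsPres F T r a) (hprod : ∀ t ∈ T, ∃ α β : FreeMagma ℕ, t = α * β) {B : ℕ}
    (hB : ∀ p ∈ r, ∀ q ∈ p, height q.2 ≤ B) {S : Finset (FreeMagma ℕ)}
    (hS0 : ∀ t ∈ S, ∃ α β : FreeMagma ℕ, t = α * β) {Q : Type} [AddCommGroup Q] [Module F Q]
    (β : A →ₗ[F] A →ₗ[F] Q)
    (h1 : ∀ α α' : FreeMagma ℕ, α * α' ∈ S ∨ α * α' ∈ T → ∀ u ∈ AS F A α, ∀ v ∈ AS F A α',
      β u v = 0)
    (h2 : ∀ m m' : FreeMagma X, height m ≤ B → height m' ≤ B →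
      β (FreeMagma.lift a m) (FreeMagma.lift a m') = 0) :
    ∃ δ : A →ₗ[F] Q, (∀ u v : A, δ (u * v) = β u v) ∧ ∀ z ∈ SS F A S ⊔ AB F a B, δ z = 0 := by
  have hDM : Tr F X B ≤ LinearMap.ker (DM (fun _ : X => (0 : Q)) β a) := by
    refine Tr_le fun m hm => ?_
    rw [LinearMap.mem_ker]
    have e : DM (fun _ : X => (0 : Q)) β a (tr F m) = dm (fun _ : X => (0 : Q)) β a m := by
      simp [DM, tr]
    rw [e]
    cases m with
    | of x => rfl
    | mul u v =>
      have hm' : max (height u) (height v) + 1 ≤ B := hm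
      exact h2 u v (by omega) (by omega)
  obtain ⟨δ, hδ, hδ'⟩ := exists_delta hpres (fun _ : X => (0 : Q)) β
    (fun t ht => by
      obtain ⟨α, α', rfl⟩ := hprod t ht
      exact ⟨α, α', rfl, h1 α α' (Or.inr ht)⟩)
    (fun p hp => hDM (toP_mem_Tr p (hB p hp)))
  refine ⟨δ, hδ', ?_⟩
  have hle : SS F A S ⊔ AB F a B ≤ LinearMap.ker δ := by
    refine sup_le (iSup₂_le fun t ht => ?_) ?_
    · obtain ⟨α, α', rfl⟩ := hS0 t ht
      rw [AS_mul]
      refine Submodule.map₂_le.2 fun u hu v hv => ?_
      rw [LinearMap.mem_ker, LinearMap.mul_apply', hδ']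
      exact h1 α α' (Or.inl ht) u hu v hv
    · rintro _ ⟨w, hw, rfl⟩
      rw [LinearMap.mem_ker, hδ]
      exact hDM hw
  exact fun z hz => hle hz

/-- **The kernel of the multiplication, one step.**

Proof. Let `y = (s, i)` with `s = true` and `S' = sh T true S`. If `S` contains a variable, then `S'`
contains the variable `j` of `hvar`, and `SS F A S' = ⊤`. Otherwise let
`Q = A ⧸ (SS F A S' ⊔ AB F a B)` and `β u v = C.lam i v • [u]`. `exists_delta` applies with `γ = 0`:
for `t = α * β' ∈ T`, if `β'` is a product, then `C.lam i` vanishes on `AS F A β'` (`C.sq`); if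
`β'` is a variable, then `α ∈ S'` and `[u] = 0` for `u ∈ AS F A α`. For the relators: the monomials
`u * v` in them have height at most `B`, so the values of `u` are in `AB F a B`. In the same way
`δ` vanishes on `SS F A S`, and on `AB F a B` (for a monomial `u * v` of height at most `B` the value
of `u` is in `AB F a B`; for a variable it is `0`). Finally `δ (n (true, j) * a j) =
C.lam i (a j) • [n (true, j)]`, which is `[n y]` for `j = i` and `0` for `j ≠ i`, and
`δ (a j * n (false, j)) = C.lam i (n (false, j)) • [a j] = 0` because `n (false, j) ∈ A2`. The case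
`s = false` is symmetric with `β u v = C.lam i u • [v]`. -/
theorem one_step {T : List (FreeMagma ℕ)} {r : List (Poly F X)} {a : X → A}
    (hpres : IsPres F T r a) (hprod : ∀ t ∈ T, ∃ α β : FreeMagma ℕ, t = α * β)
    (hvar : ∃ j : ℕ, FreeMagma.of j ∈ allSubs T) (C : Coord F a) {B : ℕ}
    (hB : ∀ p ∈ r, ∀ q ∈ p, height q.2 ≤ B) {S : Finset (FreeMagma ℕ)} (hS : S ⊆ allSubs T)
    (n : Bool × X → A) (hn : ∀ y, n y ∈ A2 F A)
    (h : ∑ y ∈ Finset.univ ×ˢ C.X0, opA F a [y] (n y) ∈ SS F A S ⊔ AB F a B)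
    (y : Bool × X) (hy : y ∈ Finset.univ ×ˢ C.X0) :
    n y ∈ SS F A (sh T y.1 S) ⊔ AB F a B := by
  classical
  by_cases hS0 : ∃ i : ℕ, FreeMagma.of i ∈ S
  · obtain ⟨j, hj⟩ := hvar
    have h1 : FreeMagma.of j ∈ sh T y.1 S := Finset.mem_filter.2 ⟨hj, Or.inr hS0⟩
    have h2 : (⊤ : Submodule F A) ≤ SS F A (sh T y.1 S) := by
      rw [← AS_of (F := F) (A := A) j]
      exact AS_le_SS h1
    exact Submodule.mem_sup_left (h2 trivial)
  have hSp : ∀ t ∈ S, ∃ α β : FreeMagma ℕ, t = α * β := by
    intro t ht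
    cases t with
    | of i => exact absurd ⟨i, ht⟩ hS0
    | mul α β => exact ⟨α, β, rfl⟩
  have hfac : ∀ α α' : FreeMagma ℕ, α * α' ∈ S ∨ α * α' ∈ T → α ∈ allSubs T ∧ α' ∈ allSubs T := by
    intro α α' h1
    refine factors_mem_allSubs ?_
    rcases h1 with h1 | h1
    · exact hS h1
    · exact mem_allSubs_self h1
  have hi : y.2 ∈ C.X0 := (Finset.mem_product.1 hy).2
  obtain ⟨s, i⟩ := y
  have hABm : ∀ m : FreeMagma X, height m ≤ B → FreeMagma.lift a m ∈ AB F a B := fun m hm =>
    ⟨tr F m, tr_mem_Tr hm, ev_tr a m⟩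
  cases s with
  | true =>
    set J : Submodule F A := SS F A (sh T true S) ⊔ AB F a B with hJ
    let β : A →ₗ[F] A →ₗ[F] (A ⧸ J) :=
      ((LinearMap.lsmul F (A ⧸ J)).flip.compl₂ (C.lam i)) ∘ₗ J.mkQ
    have hβ : ∀ u v, β u v = C.lam i v • J.mkQ u := fun u v => rfl
    obtain ⟨δ, hδ, hδ0⟩ := GC3_exists_delta_zero hpres hprod hB hSp β
      (fun α α' h1 u hu v hv => by
        rw [hβ]
        cases α' with
        | mul γ γ' => rw [GC3_lam_AS C i (β := γ) (β' := γ') hv, zero_smul]
        | of j =>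
          have h2 : α ∈ sh T true S := Finset.mem_filter.2 ⟨(hfac _ _ h1).1, Or.inl ⟨j, h1⟩⟩
          have h3 : J.mkQ u = 0 := by
            rw [Submodule.mkQ_apply, Submodule.Quotient.mk_eq_zero]
            exact Submodule.mem_sup_left (AS_le_SS h2 hu)
          rw [h3, smul_zero])
      (fun m m' hm _ => by
        have h3 : J.mkQ (FreeMagma.lift a m) = 0 := by
          rw [Submodule.mkQ_apply, Submodule.Quotient.mk_eq_zero]
          exact Submodule.mem_sup_right (hABm m hm)
        rw [hβ, h3, smul_zero])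
    have h4 := hδ0 _ h
    rw [map_sum, Finset.sum_eq_single (true, i)] at h4
    · have h5 : opA F a [(true, i)] (n (true, i)) = n (true, i) * a i := rfl
      rw [h5, hδ, hβ, C.one i hi, one_smul, Submodule.mkQ_apply,
        Submodule.Quotient.mk_eq_zero] at h4
      exact h4
    · rintro ⟨s', j⟩ hj hne
      have hj' : j ∈ C.X0 := (Finset.mem_product.1 hj).2
      cases s' with
      | true =>
        have h5 : opA F a [(true, j)] (n (true, j)) = n (true, j) * a j := rfl
        have hij : i ≠ j := by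
          rintro rfl
          exact hne rfl
        rw [h5, hδ, hβ, C.zero i hi j hj' hij, zero_smul]
      | false =>
        have h5 : opA F a [(false, j)] (n (false, j)) = a j * n (false, j) := rfl
        rw [h5, hδ, hβ, GC3_lam_A2 C i (hn _), zero_smul]
    · intro h6
      exact absurd hy h6
  | false =>
    set J : Submodule F A := SS F A (sh T false S) ⊔ AB F a B with hJ
    let β : A →ₗ[F] A →ₗ[F] (A ⧸ J) :=
      (((LinearMap.lsmul F (A ⧸ J)).flip.compl₂ (C.lam i)) ∘ₗ J.mkQ).flip
    have hβ : ∀ u v, β u v = C.lam i u • J.mkQ v := fun u v => rfl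
    obtain ⟨δ, hδ, hδ0⟩ := GC3_exists_delta_zero hpres hprod hB hSp β
      (fun α α' h1 u hu v hv => by
        rw [hβ]
        cases α with
        | mul γ γ' => rw [GC3_lam_AS C i (β := γ) (β' := γ') hu, zero_smul]
        | of j =>
          have h2 : α' ∈ sh T false S := Finset.mem_filter.2 ⟨(hfac _ _ h1).2, Or.inl ⟨j, h1⟩⟩
          have h3 : J.mkQ v = 0 := by
            rw [Submodule.mkQ_apply, Submodule.Quotient.mk_eq_zero]
            exact Submodule.mem_sup_left (AS_le_SS h2 hv)
          rw [h3, smul_zero])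
      (fun m m' _ hm => by
        have h3 : J.mkQ (FreeMagma.lift a m') = 0 := by
          rw [Submodule.mkQ_apply, Submodule.Quotient.mk_eq_zero]
          exact Submodule.mem_sup_right (hABm m' hm)
        rw [hβ, h3, smul_zero])
    have h4 := hδ0 _ h
    rw [map_sum, Finset.sum_eq_single (false, i)] at h4
    · have h5 : opA F a [(false, i)] (n (false, i)) = a i * n (false, i) := rfl
      rw [h5, hδ, hβ, C.one i hi, one_smul, Submodule.mkQ_apply,
        Submodule.Quotient.mk_eq_zero] at h4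
      exact h4
    · rintro ⟨s', j⟩ hj hne
      have hj' : j ∈ C.X0 := (Finset.mem_product.1 hj).2
      cases s' with
      | false =>
        have h5 : opA F a [(false, j)] (n (false, j)) = a j * n (false, j) := rfl
        have hij : i ≠ j := by
          rintro rfl
          exact hne rfl
        rw [h5, hδ, hβ, C.zero i hi j hj' hij, zero_smul]
      | true =>
        have h5 : opA F a [(true, j)] (n (true, j)) = n (true, j) * a j := rfl
        rw [h5, hδ, hβ, GC3_lam_A2 C i (hn _), zero_smul]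
    · intro h6
      exact absurd hy h6

/-- The operator of a coloured word with a first letter. -/
theorem GC3_opA_cons (a : X → A) (y : Bool × X) (x : CW X) (m : A) :
    opA F a (y :: x) m = opA F a x (opA F a [y] m) := rfl

/-- The values of the operator of one letter are products. -/
theorem GC3_opA_single_mem (a : X → A) (y : Bool × X) (m : A) : opA F a [y] m ∈ A2 F A := by
  obtain ⟨s, i⟩ := y
  cases s with
  | true => exact Submodule.subset_span ⟨m, a i, rfl⟩
  | false => exact Submodule.subset_span ⟨a i, m, rfl⟩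

/-- **The kernel of the multiplication.** Induction on `l` with `sum_YL_succ` and `one_step`. -/
theorem kernel {T : List (FreeMagma ℕ)} {r : List (Poly F X)} {a : X → A}
    (hpres : IsPres F T r a) (hprod : ∀ t ∈ T, ∃ α β : FreeMagma ℕ, t = α * β)
    (hvar : ∃ j : ℕ, FreeMagma.of j ∈ allSubs T) (C : Coord F a) {B : ℕ}
    (hB : ∀ p ∈ r, ∀ q ∈ p, height q.2 ≤ B) (l : ℕ) (n : CW X → A) (hn : ∀ x, n x ∈ A2 F A)
    (h : ∑ x ∈ YL C.X0 l, opA F a x (n x) ∈ AB F a B) (x : CW X) (hx : x ∈ YL C.X0 l) :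
    n x ∈ SS F A (Sx T (x.map Prod.fst)) ⊔ AB F a B := by
  induction l generalizing n x with
  | zero =>
    have hx0 : x = [] := Finset.mem_singleton.1 hx
    subst hx0
    have h1 : ∑ x ∈ YL C.X0 0, opA F a x (n x) = n [] := by
      change ∑ x ∈ ({[]} : Finset (CW X)), opA F a x (n x) = n []
      rw [Finset.sum_singleton]
      rfl
    rw [h1] at h
    exact Submodule.mem_sup_right h
  | succ l ih =>
    rw [sum_YL_succ] at h
    have h1 : ∀ x ∈ YL C.X0 l, ∑ y ∈ Finset.univ ×ˢ C.X0, opA F a (y :: x) (n (y :: x)) =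
        opA F a x (∑ y ∈ Finset.univ ×ˢ C.X0, opA F a [y] (n (y :: x))) := by
      intro x _
      rw [map_sum]
      rfl
    rw [Finset.sum_congr rfl h1] at h
    rw [mem_YL] at hx
    obtain ⟨hx1, hx2⟩ := hx
    cases x with
    | nil => simp at hx1
    | cons y x =>
      have hx' : x ∈ YL C.X0 l := by
        rw [mem_YL]
        exact ⟨by simpa using hx1, fun p hp => hx2 p (List.mem_cons_of_mem _ hp)⟩
      have h2 := ih (fun x => ∑ y ∈ Finset.univ ×ˢ C.X0, opA F a [y] (n (y :: x)))
        (fun x => Submodule.sum_mem _ fun y _ => GC3_opA_single_mem a y _) h x hx'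
      exact one_step hpres hprod hvar C hB (Sx_subset T _) (fun y => n (y :: x))
        (fun y => hn _) h2 y
        (Finset.mem_product.2 ⟨Finset.mem_univ _, hx2 y List.mem_cons_self⟩)

end

end Pool.Agent.W_59b51d_u18
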