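import Pool.Agent.W_59b51d_u18.GC3

/-!
# Coordinates modulo the square, the kernel of the multiplication (GC4)
-/

namespace Pool.Agent.W_59b51d_u18

open Pool.Agent.W_59b51d_h18

section

variable {F : Type} [Field F] {X A : Type} [NonUnitalNonAssocRing A] [Module F A]
  [IsScalarTower F A A] [SMulCommClass F A A]

/-- The heights of the values of the variables are at most the height of the value. -/
theorem gc4_height_le_lift (c : ℕ → FreeMagma X) (t : FreeMagma ℕ) {i : ℕ} (hi : i ∈ vars t) :
    height (c i) ≤ height (FreeMagma.lift c t) := by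
  induction t using FreeMagma.rec with
  | of j =>
    have : i = j := List.mem_singleton.1 hi
    rw [this]
    exact le_rfl
  | mul s t hs ht =>
    change height (c i) ≤ max (height (FreeMagma.lift c s)) (height (FreeMagma.lift c t)) + 1
    rcases List.mem_append.1 (show i ∈ vars s ++ vars t from hi) with h | h
    · have := hs h
      omega
    · have := ht h
      omega

/-- The product of `m` and `m'` in the order given by the side. -/
def gc4_sm {M : Type} [Mul M] (s : Bool) (m m' : M) : M := if s then m * m' else m' * m

theorem gc4_lift_sm (c : ℕ → FreeMagma X) (s : Bool) (m m' : FreeMagma ℕ) :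
    FreeMagma.lift c (gc4_sm s m m') = gc4_sm s (FreeMagma.lift c m) (FreeMagma.lift c m') := by
  cases s <;> rfl

/-- A substitution for the completed pattern. -/
theorem gc4_exists_subst {s : Bool} {α : FreeMagma ℕ} {j : ℕ} (hm : Multilinear (gc4_sm s α (.of j)))
    (c : ℕ → FreeMagma X) (x : X) {H : ℕ} (hH : height (FreeMagma.lift c α) ≤ H) :
    ∃ c' : ℕ → FreeMagma X, (∀ i, height (c' i) ≤ H) ∧
      FreeMagma.lift c' (gc4_sm s α (.of j)) = gc4_sm s (FreeMagma.lift c α) (.of x) := by
  classical
  have hj : j ∉ vars α := by
    intro hj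
    cases s with
    | true =>
      have h : (vars α ++ [j]).Nodup := hm
      exact (List.nodup_append.1 h).2.2 j hj j (List.mem_singleton.2 rfl) rfl
    | false =>
      have h : ([j] ++ vars α).Nodup := hm
      exact (List.nodup_append.1 h).2.2 j (List.mem_singleton.2 rfl) j hj rfl
  refine ⟨fun i => if i ∈ vars α then c i else .of x, fun i => ?_, ?_⟩
  · by_cases hi : i ∈ vars α
    · simp only [if_pos hi]
      exact (gc4_height_le_lift c α hi).trans hH
    · simp only [if_neg hi]
      exact Nat.zero_le _
  · have h1 : FreeMagma.lift (fun i => if i ∈ vars α then c i else .of x) α =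
        FreeMagma.lift c α := lift_congr fun i hi => by simp only [if_pos hi]
    have h2 : FreeMagma.lift (fun i => if i ∈ vars α then c i else (FreeMagma.of x : FreeMagma X))
        (.of j) = .of x := by
      change (if j ∈ vars α then c j else (FreeMagma.of x : FreeMagma X)) = _
      rw [if_neg hj]
    rw [gc4_lift_sm, h1, h2]

/-- Completed patterns are consequences.

Proof. Induction on `w`, generalizing `α`, `c`, `H`. For `w = (s, x) :: w'` let `m` be the product of
`lift c α` and `of x`; `height m ≤ H + 1`. If `α * of j` (or `of j * α`) is in `T`, then `m` is an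
instance of it with heights at most `H` (`j` does not occur in `α`; give to the variables outside
`α` the value `of x`), and `opN_mem_Cons`. If it is in `Sx T w'`, the induction hypothesis. If a
variable `of i` is in `Sx T w'`, the induction hypothesis for `α = of i` and `c = fun _ => m`. -/
theorem absorb {T : List (FreeMagma ℕ)} {r : List (Poly F X)} (hT : ∀ t ∈ T, Multilinear t)
    {w : CW X} {α : FreeMagma ℕ} (hα : α ∈ Sx T (w.map Prod.fst)) {c : ℕ → FreeMagma X} {H : ℕ}
    (hH : height (FreeMagma.lift c α) ≤ H) :
    opN F w (tr F (FreeMagma.lift c α)) ∈ Cons T r (H + w.length) := by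
  induction w generalizing α c H with
  | nil => exact absurd hα (Finset.notMem_empty _)
  | cons y w ih =>
    obtain ⟨s, x⟩ := y
    have hop : opN F ((s, x) :: w) (tr F (FreeMagma.lift c α)) =
        opN F w (tr F (gc4_sm s (FreeMagma.lift c α) (.of x))) := by
      cases s with
      | true =>
        change opN F w (mulP F X (tr F (FreeMagma.lift c α)) (tr F (.of x))) = _
        rw [mulP_tr]
        rfl
      | false =>
        change opN F w (mulP F X (tr F (.of x)) (tr F (FreeMagma.lift c α))) = _
        rw [mulP_tr]
        rfl
    have hm1 : height (gc4_sm s (FreeMagma.lift c α) (.of x)) ≤ H + 1 := by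
      cases s with
      | true =>
        change max (height (FreeMagma.lift c α)) 0 + 1 ≤ H + 1
        omega
      | false =>
        change max 0 (height (FreeMagma.lift c α)) + 1 ≤ H + 1
        omega
    have hmul : ∀ τ ∈ allSubs T, Multilinear τ := by
      intro τ hτ
      obtain ⟨t, ht, hs⟩ := mem_allSubs.1 hτ
      exact multilinear_of_mem_subs (hT t ht) hs
    have hα' : α ∈ sh T s (Sx T (w.map Prod.fst)) := hα
    rw [hop]
    rw [show H + ((s, x) :: w).length = H + 1 + w.length by simp; omega]
    unfold sh at hα'
    simp only [Finset.mem_filter] at hα'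
    rcases hα'.2 with ⟨j, hj⟩ | ⟨i, hi⟩
    · have hj' : gc4_sm s α (.of j) ∈ Sx T (w.map Prod.fst) ∨ gc4_sm s α (.of j) ∈ T := hj
      rcases hj' with hj | hj
      · obtain ⟨c', -, h2⟩ := gc4_exists_subst (hmul _ (Sx_subset T _ hj)) c x hH
        rw [← h2] at hm1 ⊢
        exact ih hj hm1
      · obtain ⟨c', h1, h2⟩ := gc4_exists_subst (hT _ hj) c x hH
        rw [← h2]
        exact Cons_mono (by omega) (opN_mem_Cons (Gen.mem (Gen.inst hj h1)) w)
    · exact ih (c := fun _ => gc4_sm s (FreeMagma.lift c α) (.of x)) hi hm1

end

end Pool.Agent.W_59b51d_u18
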