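import Pool.Agent.W_59b51d_u18.GC4

/-!
# Coordinates modulo the square, the kernel of the multiplication (GC5)
-/

namespace Pool.Agent.W_59b51d_u18

open Pool.Agent.W_59b51d_h18

section

variable {F : Type} [Field F] {X A : Type} [NonUnitalNonAssocRing A] [Module F A]
  [IsScalarTower F A A] [SMulCommClass F A A]

/-- The pattern `α`, followed by multiplications by variables on the sides `w`, is in `T`. -/
def gc5_cmp (T : List (FreeMagma ℕ)) : FreeMagma ℕ → Wd → Prop
  | α, [] => α ∈ T
  | α, s :: w => ∃ j : ℕ, gc5_cmp T (if s then α * .of j else .of j * α) w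

theorem gc5_mem_sh {T : List (FreeMagma ℕ)} {s : Bool} {S : Finset (FreeMagma ℕ)}
    {α : FreeMagma ℕ} : α ∈ sh T s S ↔ α ∈ allSubs T ∧
      ((∃ j : ℕ, (if s then α * .of j else .of j * α) ∈ S ∨
        (if s then α * .of j else .of j * α) ∈ T) ∨ ∃ i : ℕ, FreeMagma.of i ∈ S) := by
  unfold sh
  simp only [Finset.mem_filter]

theorem gc5_cmp_height {T : List (FreeMagma ℕ)} {K : ℕ} (hK : ∀ t ∈ T, height t ≤ K) (w : Wd)
    (α : FreeMagma ℕ) (h : gc5_cmp T α w) : height α + w.length ≤ K := by
  induction w generalizing α with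
  | nil => exact hK α h
  | cons s w ih =>
    obtain ⟨j, hj⟩ := h
    have h1 := ih _ hj
    have h2 : height (if s then α * .of j else .of j * α) = height α + 1 := by
      cases s with
      | true =>
        change max (height α) 0 + 1 = height α + 1
        omega
      | false =>
        change max 0 (height α) + 1 = height α + 1
        omega
    rw [h2] at h1
    simp only [List.length_cons]
    omega

theorem gc5_exists_cmp {T : List (FreeMagma ℕ)} (w : Wd)
    (hv : ∀ i : ℕ, FreeMagma.of i ∉ Sx T w) (α : FreeMagma ℕ) (hα : α ∈ Sx T w) :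
    ∃ u v : Wd, w = u ++ v ∧ u ≠ [] ∧ gc5_cmp T α u := by
  induction w generalizing α with
  | nil => exact absurd hα (Finset.notMem_empty _)
  | cons s w ih =>
    have hv' : ∀ i : ℕ, FreeMagma.of i ∉ Sx T w := fun i hi =>
      hv i (gc5_mem_sh.2 ⟨Sx_subset T w hi, Or.inr ⟨i, hi⟩⟩)
    rcases (gc5_mem_sh.1 hα).2 with ⟨j, hj | hj⟩ | ⟨i, hi⟩
    · obtain ⟨u, v, h1, h2, h3⟩ := ih hv' _ hj
      exact ⟨s :: u, v, by rw [h1]; rfl, by simp, j, h3⟩
    · exact ⟨[s], w, rfl, by simp, j, hj⟩
    · exact absurd hi (hv' i)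

theorem gc5_mem_Sx {T : List (FreeMagma ℕ)} (u v : Wd) (hu : u ≠ []) (α : FreeMagma ℕ)
    (h : gc5_cmp T α u) : α ∈ Sx T (u ++ v) := by
  induction u generalizing α with
  | nil => exact absurd rfl hu
  | cons s u ih =>
    obtain ⟨j, hj⟩ := h
    have key : (if s then α * .of j else .of j * α) ∈ Sx T (u ++ v) ∨
        (if s then α * .of j else .of j * α) ∈ T := by
      rcases u.eq_nil_or_concat with rfl | ⟨_, _, hne⟩
      · exact Or.inr hj
      · exact Or.inl (ih (by rw [hne]; simp) _ hj)
    refine gc5_mem_sh.2 ⟨?_, Or.inl ⟨j, key⟩⟩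
    have h1 : (if s then α * .of j else .of j * α) ∈ allSubs T := by
      rcases key with h | h
      · exact Sx_subset T _ h
      · exact mem_allSubs_self h
    cases s with
    | true => exact (factors_mem_allSubs h1).1
    | false => exact (factors_mem_allSubs h1).2

/-- The completed patterns depend only on the first letters, unless a pattern is contained in the
word.

Proof. Say that `α` is completed by `w` if `α ∘ w ∈ T` for some choice of variables. If no variable
is in `Sx T w`, every member of `Sx T w` is completed by a nonempty prefix of `w` (induction on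
`w`), whose length is at most `K`; and if `α` is completed by a nonempty prefix of `σ`, then
`α ∈ Sx T σ` (induction; all intermediate products are subtrees of `T`). -/
theorem Sx_prefix {T : List (FreeMagma ℕ)} {K : ℕ} (hK : ∀ t ∈ T, height t ≤ K) {σ y : Wd}
    (hσ : K ≤ σ.length) (hv : ∀ i : ℕ, FreeMagma.of i ∉ Sx T (σ ++ y)) :
    Sx T (σ ++ y) ⊆ Sx T σ := by
  intro α hα
  obtain ⟨u, v, h1, h2, h3⟩ := gc5_exists_cmp _ hv α hα
  have h4 := gc5_cmp_height hK u α h3
  have h5 : u <+: σ := by
    refine List.prefix_of_prefix_length_le (l₃ := σ ++ y) ?_ ⟨y, rfl⟩ (by omega)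
    rw [h1]
    exact ⟨v, rfl⟩
  obtain ⟨v', rfl⟩ := h5
  exact gc5_mem_Sx u v' h2 α h3

end

end Pool.Agent.W_59b51d_u18
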