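import Pool.Agent.W_59b51d_u18.GC

/-!
# Decomposition of polynomials and of the ideal of the relations (GD1)
-/

namespace Pool.Agent.W_59b51d_u18

open Pool.Agent.W_59b51d_h18

section

variable {F : Type} [Field F] {X A : Type} [NonUnitalNonAssocRing A] [Module F A]
  [IsScalarTower F A A] [SMulCommClass F A A]

/-- The span of the products in the free algebra. -/
noncomputable def Pr (F X : Type) [Field F] : Submodule F (NA F X) :=
  Submodule.span F {p | ∃ m m' : FreeMagma X, p = tr F (m * m')}

theorem ev_Pr {a : X → A} {p : NA F X} (hp : p ∈ Pr F X) : ev F a p ∈ A2 F A := by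
  have h : Pr F X ≤ (A2 F A).comap (ev F a) := by
    refine Submodule.span_le.2 ?_
    rintro p ⟨m, m', rfl⟩
    change ev F a (tr F (m * m')) ∈ A2 F A
    rw [ev_tr, map_mul]
    exact Submodule.subset_span ⟨_, _, rfl⟩
  exact h hp

private lemma mulP_mem_Pr (p q : NA F X) : mulP F X p q ∈ Pr F X := by
  induction p using NA_induction with
  | h0 => simp
  | hadd p p' hp hp' =>
    rw [map_add, LinearMap.add_apply]
    exact add_mem hp hp'
  | hsm c m =>
    rw [map_smul, LinearMap.smul_apply]
    refine Submodule.smul_mem _ _ ?_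
    induction q using NA_induction with
    | h0 => simp
    | hadd q q' hq hq' =>
      rw [map_add]
      exact add_mem hq hq'
    | hsm c' m' =>
      rw [map_smul, mulP_tr]
      exact Submodule.smul_mem _ _ (Submodule.subset_span ⟨_, _, rfl⟩)

/-- Every element of the square is the value of a combination of products. -/
theorem exists_Pr {a : X → A} (ha : Function.Surjective (ev F a)) {z : A} (hz : z ∈ A2 F A) :
    ∃ p ∈ Pr F X, ev F a p = z := by
  have h : A2 F A ≤ (Pr F X).map (ev F a) := by
    refine Submodule.span_le.2 ?_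
    rintro z ⟨x, y, rfl⟩
    obtain ⟨p, rfl⟩ := ha x
    obtain ⟨q, rfl⟩ := ha y
    exact ⟨mulP F X p q, mulP_mem_Pr p q, ev_mulP a p q⟩
  exact h hz

private lemma exists_mem_Tr (p : NA F X) : ∃ h, p ∈ Tr F X h := by
  induction p using NA_induction with
  | h0 => exact ⟨0, zero_mem _⟩
  | hadd p q hp hq =>
    obtain ⟨h, hp⟩ := hp
    obtain ⟨h', hq⟩ := hq
    exact ⟨max h h', add_mem (Tr_mono (le_max_left _ _) hp) (Tr_mono (le_max_right _ _) hq)⟩
  | hsm c m => exact ⟨height m, Submodule.smul_mem _ _ (tr_mem_Tr le_rfl)⟩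

private lemma span_tr_eq (s : Set (FreeMagma X)) :
    Submodule.span F {p : NA F X | ∃ m ∈ s, p = tr F m} = Finsupp.supported F F s := by
  rw [Finsupp.supported_eq_span_single]
  congr 1
  ext p
  constructor
  · rintro ⟨m, hm, rfl⟩
    exact ⟨m, hm, rfl⟩
  · rintro ⟨m, hm, rfl⟩
    exact ⟨m, hm, rfl⟩

private lemma Tr_inf_Pr_le {h : ℕ} {M : Submodule F (NA F X)}
    (hM : ∀ m m' : FreeMagma X, height (m * m') ≤ h → tr F (m * m') ∈ M) :
    Tr F X h ⊓ Pr F X ≤ M := by
  have e1 : Tr F X h = Finsupp.supported F F {m : FreeMagma X | height m ≤ h} :=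
    span_tr_eq {m : FreeMagma X | height m ≤ h}
  have e2 : Pr F X = Finsupp.supported F F {m : FreeMagma X | ∃ u v, m = u * v} := by
    rw [← span_tr_eq]
    refine congrArg _ ?_
    ext p
    constructor
    · rintro ⟨u, v, rfl⟩
      exact ⟨_, ⟨u, v, rfl⟩, rfl⟩
    · rintro ⟨_, ⟨u, v, rfl⟩, rfl⟩
      exact ⟨u, v, rfl⟩
  rw [e1, e2, ← Finsupp.supported_inter, ← span_tr_eq]
  refine Submodule.span_le.2 ?_
  rintro p ⟨m, ⟨hm, u, v, rfl⟩, rfl⟩
  exact hM u v hm

private lemma metab_mem_Cons {T : List (FreeMagma ℕ)} {r : List (Poly F X)}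
    (hm : metab.1 ∈ T) {s t u v : FreeMagma X} {H : ℕ} (hs : height s ≤ H) (ht : height t ≤ H)
    (hu : height u ≤ H) (hv : height v ≤ H) : tr F ((s * t) * (u * v)) ∈ Cons T r H := by
  let c : ℕ → FreeMagma X := fun i => match i with
    | 0 => s
    | 1 => t
    | 2 => u
    | _ => v
  have h1 : FreeMagma.lift c metab.1 = (s * t) * (u * v) := rfl
  rw [← h1]
  refine Gen.mem (Gen.inst hm fun i => ?_)
  match i with
  | 0 => exact hs
  | 1 => exact ht
  | 2 => exact hu
  | (n + 3) => exact hv

private lemma mulP_Pr_left {T : List (FreeMagma ℕ)} {r : List (Poly F X)}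
    (hm : metab.1 ∈ T) {s t : FreeMagma X} {H : ℕ} (hs : height s ≤ H) (ht : height t ≤ H)
    {p : NA F X} (hp : p ∈ Tr F X H ⊓ Pr F X) :
    mulP F X (tr F (s * t)) p ∈ Cons T r H := by
  have h : Tr F X H ⊓ Pr F X ≤ (Cons T r H).comap (mulP F X (tr F (s * t))) := by
    refine Tr_inf_Pr_le fun u v huv => ?_
    change mulP F X (tr F (s * t)) (tr F (u * v)) ∈ Cons T r H
    rw [mulP_tr]
    rw [height_mul] at huv
    exact metab_mem_Cons hm hs ht (by omega) (by omega)
  exact h hp

private lemma mulP_Pr_right {T : List (FreeMagma ℕ)} {r : List (Poly F X)}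
    (hm : metab.1 ∈ T) {s t : FreeMagma X} {H : ℕ} (hs : height s ≤ H) (ht : height t ≤ H)
    {p : NA F X} (hp : p ∈ Tr F X H ⊓ Pr F X) :
    mulP F X p (tr F (s * t)) ∈ Cons T r H := by
  have h : Tr F X H ⊓ Pr F X ≤ (Cons T r H).comap ((mulP F X).flip (tr F (s * t))) := by
    refine Tr_inf_Pr_le fun u v huv => ?_
    change mulP F X (tr F (u * v)) (tr F (s * t)) ∈ Cons T r H
    rw [mulP_tr]
    rw [height_mul] at huv
    exact metab_mem_Cons hm (by omega) (by omega) hs ht
  exact h hp

/-- The elements which can be decomposed. -/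
private noncomputable def dec (S : Finset (Bool × X)) (M N : Submodule F (NA F X)) :
    Submodule F (NA F X) where
  carrier := {w | ∃ q : Bool × X → NA F X, (∀ y, q y ∈ M) ∧ w - ∑ y ∈ S, opN F [y] (q y) ∈ N}
  add_mem' := by
    rintro w w' ⟨q, hq, h⟩ ⟨q', hq', h'⟩
    refine ⟨fun y => q y + q' y, fun y => add_mem (hq y) (hq' y), ?_⟩
    have : w + w' - ∑ y ∈ S, opN F [y] (q y + q' y) =
        (w - ∑ y ∈ S, opN F [y] (q y)) + (w' - ∑ y ∈ S, opN F [y] (q' y)) := by
      simp only [map_add, Finset.sum_add_distrib]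
      abel
    rw [this]
    exact add_mem h h'
  zero_mem' := ⟨fun _ => 0, fun _ => zero_mem _, by simp⟩
  smul_mem' := by
    rintro c w ⟨q, hq, h⟩
    refine ⟨fun y => c • q y, fun y => Submodule.smul_mem _ _ (hq y), ?_⟩
    have : c • w - ∑ y ∈ S, opN F [y] (c • q y) = c • (w - ∑ y ∈ S, opN F [y] (q y)) := by
      simp only [map_smul, smul_sub, Finset.smul_sum]
    rw [this]
    exact Submodule.smul_mem _ _ h

/-- Decomposition with one letter.

Proof. For every generator `j` there is `P j ∈ Pr` with
`tr (of j) - ∑ i ∈ X0, lam i (a j) • tr (of i) - P j ∈ Cons T r K₀` (`C.rest`, `exists_Pr`,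
`hpres.ker`; `K₀` common for the finitely many `j`). By linearity let `w = tr (m1 * m2)` of height at
most `h` (a monomial `m`; the case of a variable: `w ∈ Pr` is excluded by writing `w` as a
combination of the monomials which are products). If `m1` and `m2` are generators, `w ∈ Tr 1`. If
both are products, `w` is an instance of `metab`. If `m1` is a product and `m2 = of j`, then `w =
∑ i, lam i (a j) • tr (m1 * of i) + mulP (tr m1) (P j) + mulP (tr m1) (element of Cons)`, and
`mulP (tr m1) (P j)` is a combination of instances of `metab`; similarly for `m1 = of j`. -/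
theorem decomp_one [Finite X] {T : List (FreeMagma ℕ)} {r : List (Poly F X)} {a : X → A}
    (hpres : IsPres F T r a) (hm : metab.1 ∈ T) (C : Coord F a) :
    ∃ K, ∀ h, ∀ w ∈ Tr F X h ⊓ Pr F X, ∃ q : Bool × X → NA F X,
      (∀ y, q y ∈ Tr F X h ⊓ Pr F X) ∧
      w - ∑ y ∈ Finset.univ ×ˢ C.X0, opN F [y] (q y) ∈ Tr F X 1 ⊔ Cons T r (h + K) := by
  have hP : ∀ j : X, ∃ P : NA F X, ∃ K : ℕ, P ∈ Tr F X K ⊓ Pr F X ∧
      tr F (FreeMagma.of j) - ∑ i ∈ C.X0, C.lam i (a j) • tr F (FreeMagma.of i) - P ∈
        Cons T r K := by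
    intro j
    obtain ⟨P, hP, hP'⟩ := exists_Pr hpres.surj (C.rest (a j))
    obtain ⟨K1, hK1⟩ := exists_mem_Tr P
    have h0 : ev F a (tr F (FreeMagma.of j) -
        ∑ i ∈ C.X0, C.lam i (a j) • tr F (FreeMagma.of i) - P) = 0 := by
      simp only [map_sub, map_sum, map_smul, ev_tr, FreeMagma.lift_of, hP', sub_self]
    obtain ⟨K2, hK2⟩ := (hpres.ker _).1 h0
    exact ⟨P, max K1 K2, ⟨Tr_mono (le_max_left _ _) hK1, hP⟩, Cons_mono (le_max_right _ _) hK2⟩
  choose P Kf hPK hPC using hP
  cases nonempty_fintype X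
  set K0 : ℕ := Finset.univ.sup Kf with hK0
  have hle : ∀ j, Kf j ≤ K0 := fun j => Finset.le_sup (Finset.mem_univ j)
  refine ⟨K0 + 1, fun h w hw => ?_⟩
  have key : Tr F X h ⊓ Pr F X ≤
      dec (Finset.univ ×ˢ C.X0) (Tr F X h ⊓ Pr F X) (Tr F X 1 ⊔ Cons T r (h + (K0 + 1))) := by
    refine Tr_inf_Pr_le fun m1 m2 hh => ?_
    rw [height_mul] at hh
    have hPj : ∀ j, P j ∈ Tr F X (h + (K0 + 1)) ⊓ Pr F X := fun j =>
      ⟨Tr_mono (by have := hle j; omega) (hPK j).1, (hPK j).2⟩
    match m1, m2, hh with
    | FreeMagma.of i, FreeMagma.of j, hh =>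
      refine ⟨fun _ => 0, fun _ => zero_mem _, ?_⟩
      simp only [map_zero, Finset.sum_const_zero, sub_zero]
      refine Submodule.mem_sup_left (tr_mem_Tr ?_)
      change max (height (FreeMagma.of i)) (height (FreeMagma.of j)) + 1 ≤ 1
      simp [height_of]
    | FreeMagma.mul s t, FreeMagma.mul u v, hh =>
      refine ⟨fun _ => 0, fun _ => zero_mem _, ?_⟩
      simp only [map_zero, Finset.sum_const_zero, sub_zero]
      have hst : height (FreeMagma.mul s t) = max (height s) (height t) + 1 := rfl
      have huv : height (FreeMagma.mul u v) = max (height u) (height v) + 1 := rfl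
      rw [hst, huv] at hh
      exact Submodule.mem_sup_right
        (metab_mem_Cons (s := s) (t := t) (u := u) (v := v) hm (by omega) (by omega) (by omega)
          (by omega))
    | FreeMagma.mul s t, FreeMagma.of j, hh =>
      have hst : height (FreeMagma.mul s t) = max (height s) (height t) + 1 := rfl
      refine ⟨fun y => if y.1 = true then C.lam y.2 (a j) • tr F (s * t) else 0, fun y => ?_, ?_⟩
      · dsimp only
        split_ifs
        · refine Submodule.smul_mem _ _ ⟨tr_mem_Tr ?_, Submodule.subset_span ⟨s, t, rfl⟩⟩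
          change height (FreeMagma.mul s t) ≤ h
          omega
        · exact zero_mem _
      · have e1 : ∑ y ∈ Finset.univ ×ˢ C.X0,
            opN F [y] (if y.1 = true then C.lam y.2 (a j) • tr F (s * t) else 0) =
            mulP F X (tr F (s * t)) (∑ i ∈ C.X0, C.lam i (a j) • tr F (FreeMagma.of i)) := by
          rw [Finset.sum_product, Fintype.sum_bool]
          simp only [if_true, Bool.false_eq_true, if_false, map_zero, Finset.sum_const_zero,
            add_zero, map_sum, map_smul]
          rfl
        have e2 : tr F (FreeMagma.mul s t * FreeMagma.of j) =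
            mulP F X (tr F (s * t)) (tr F (FreeMagma.of j)) := (mulP_tr _ _).symm
        rw [e1, e2]
        have e3 : mulP F X (tr F (s * t)) (tr F (FreeMagma.of j)) -
            mulP F X (tr F (s * t)) (∑ i ∈ C.X0, C.lam i (a j) • tr F (FreeMagma.of i)) =
            mulP F X (tr F (s * t)) (P j) + mulP F X (tr F (s * t)) (tr F (FreeMagma.of j) -
              ∑ i ∈ C.X0, C.lam i (a j) • tr F (FreeMagma.of i) - P j) := by
          simp only [map_sub]
          abel
        rw [e3]
        refine Submodule.mem_sup_right (add_mem ?_ ?_)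
        · exact mulP_Pr_left hm (by omega) (by omega) (hPj j)
        · refine mulP_Cons (N := h + K0) (tr_mem_Tr ?_) (Cons_mono ?_ (hPC j))
          · change height (FreeMagma.mul s t) ≤ h + K0
            omega
          · have := hle j
            omega
    | FreeMagma.of j, FreeMagma.mul s t, hh =>
      have hst : height (FreeMagma.mul s t) = max (height s) (height t) + 1 := rfl
      refine ⟨fun y => if y.1 = true then 0 else C.lam y.2 (a j) • tr F (s * t), fun y => ?_, ?_⟩
      · dsimp only
        split_ifs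
        · exact zero_mem _
        · refine Submodule.smul_mem _ _ ⟨tr_mem_Tr ?_, Submodule.subset_span ⟨s, t, rfl⟩⟩
          change height (FreeMagma.mul s t) ≤ h
          omega
      · have e1 : ∑ y ∈ Finset.univ ×ˢ C.X0,
            opN F [y] (if y.1 = true then 0 else C.lam y.2 (a j) • tr F (s * t)) =
            mulP F X (∑ i ∈ C.X0, C.lam i (a j) • tr F (FreeMagma.of i)) (tr F (s * t)) := by
          rw [Finset.sum_product, Fintype.sum_bool]
          simp only [if_true, Bool.false_eq_true, if_false, map_zero, Finset.sum_const_zero,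
            zero_add, map_sum, map_smul, LinearMap.sum_apply, LinearMap.smul_apply]
          rfl
        have e2 : tr F (FreeMagma.of j * FreeMagma.mul s t) =
            mulP F X (tr F (FreeMagma.of j)) (tr F (s * t)) := (mulP_tr _ _).symm
        rw [e1, e2]
        have e3 : mulP F X (tr F (FreeMagma.of j)) (tr F (s * t)) -
            mulP F X (∑ i ∈ C.X0, C.lam i (a j) • tr F (FreeMagma.of i)) (tr F (s * t)) =
            mulP F X (P j) (tr F (s * t)) + mulP F X (tr F (FreeMagma.of j) -
              ∑ i ∈ C.X0, C.lam i (a j) • tr F (FreeMagma.of i) - P j) (tr F (s * t)) := by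
          simp only [map_sub, LinearMap.sub_apply]
          abel
        rw [e3]
        refine Submodule.mem_sup_right (add_mem ?_ ?_)
        · exact mulP_Pr_right hm (by omega) (by omega) (hPj j)
        · refine Cons_mulP (N := h + K0) (Cons_mono ?_ (hPC j)) (tr_mem_Tr ?_)
          · have := hle j
            omega
          · change height (FreeMagma.mul s t) ≤ h + K0
            omega
  exact key hw

end

end Pool.Agent.W_59b51d_u18
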