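import Pool.Agent.W_59b51d_u18.GD1

/-!
# Decomposition of polynomials and of the ideal of the relations (GD2)
-/

namespace Pool.Agent.W_59b51d_u18

open Pool.Agent.W_59b51d_h18

section

variable {F : Type} [Field F] {X A : Type} [NonUnitalNonAssocRing A] [Module F A]
  [IsScalarTower F A A] [SMulCommClass F A A]

/-- Decomposition with words of length `l`. Proof: for `l = 0` separate the linear part; then
induction with `decomp_one`, `sum_YL_succ`, `opN_mem_Tr`, `opN_mem_Cons`. -/
theorem decomp [Finite X] {T : List (FreeMagma ℕ)} {r : List (Poly F X)} {a : X → A}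
    (hpres : IsPres F T r a) (hm : metab.1 ∈ T) (C : Coord F a) (l : ℕ) :
    ∃ K, ∀ h, ∀ w ∈ Tr F X h, ∃ q : CW X → NA F X,
      (∀ x, q x ∈ Tr F X h ⊓ Pr F X) ∧
      w - ∑ x ∈ YL C.X0 l, opN F x (q x) ∈ Tr F X l ⊔ Cons T r (h + K) := by
  induction l with
  | zero =>
    refine ⟨0, fun h w hw => ?_⟩
    have h1 : Tr F X h ≤ Tr F X 0 ⊔ (Tr F X h ⊓ Pr F X) := by
      refine Tr_le fun m hm' => ?_
      match m, hm' with
      | FreeMagma.of i, _ => exact Submodule.mem_sup_left (tr_mem_Tr le_rfl)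
      | FreeMagma.mul s t, hm' =>
        exact Submodule.mem_sup_right ⟨tr_mem_Tr hm', Submodule.subset_span ⟨s, t, rfl⟩⟩
    obtain ⟨w1, hw1, w2, hw2, rfl⟩ := Submodule.mem_sup.1 (h1 hw)
    refine ⟨fun _ => w2, fun _ => hw2, ?_⟩
    have h2 : ∑ x ∈ YL C.X0 0, opN F x w2 = w2 := by
      rw [YL, Finset.sum_singleton]
      rfl
    rw [h2, add_sub_cancel_right]
    exact Submodule.mem_sup_left hw1
  | succ l ih =>
    obtain ⟨K, hK⟩ := ih
    obtain ⟨K1, hK1⟩ := decomp_one hpres hm C
    refine ⟨K + K1 + l, fun h w hw => ?_⟩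
    obtain ⟨q, hq, hwq⟩ := hK h w hw
    choose q' hq' hqq' using fun x => hK1 h (q x) (hq x)
    refine ⟨fun z => match z with
      | [] => 0
      | y :: x => q' x y, fun z => ?_, ?_⟩
    · match z with
      | [] => exact zero_mem _
      | y :: x => exact hq' x y
    · rw [sum_YL_succ]
      have e1 : ∀ x : CW X, ∑ y ∈ Finset.univ ×ˢ C.X0, opN F (y :: x) (q' x y) =
          opN F x (∑ y ∈ Finset.univ ×ˢ C.X0, opN F [y] (q' x y)) := by
        intro x
        rw [map_sum]
        refine Finset.sum_congr rfl fun y _ => ?_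
        exact opN_append [y] x (q' x y)
      have e2 : w - ∑ x ∈ YL C.X0 l, ∑ y ∈ Finset.univ ×ˢ C.X0, opN F (y :: x) (q' x y) =
          (w - ∑ x ∈ YL C.X0 l, opN F x (q x)) + ∑ x ∈ YL C.X0 l,
            opN F x (q x - ∑ y ∈ Finset.univ ×ˢ C.X0, opN F [y] (q' x y)) := by
        simp only [e1, map_sub, Finset.sum_sub_distrib]
        abel
      have h3 : Tr F X l ⊔ Cons T r (h + K) ≤
          Tr F X (l + 1) ⊔ Cons T r (h + (K + K1 + l)) :=
        sup_le_sup (Tr_mono (Nat.le_succ l)) (Cons_mono (by omega))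
      change w - ∑ x ∈ YL C.X0 l, ∑ y ∈ Finset.univ ×ˢ C.X0, opN F (y :: x) (q' x y) ∈ _
      rw [e2]
      refine add_mem (h3 hwq) (Submodule.sum_mem _ fun x hx => ?_)
      have hlen : x.length = l := (mem_YL.1 hx).1
      obtain ⟨u, hu, v, hv, huv⟩ := Submodule.mem_sup.1 (hqq' x)
      rw [← huv, map_add]
      refine add_mem (Submodule.mem_sup_left ?_) (Submodule.mem_sup_right ?_)
      · have := opN_mem_Tr hu x
        rw [hlen, Nat.add_comm] at this
        exact this
      · have := opN_mem_Cons hv x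
        rw [hlen] at this
        exact Cons_mono (by omega) this

end

end Pool.Agent.W_59b51d_u18
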