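import Pool.Agent.W_59b51d_u18.GD2

/-!
# Decomposition of polynomials and of the ideal of the relations (GD3)
-/

namespace Pool.Agent.W_59b51d_u18

open Pool.Agent.W_59b51d_h18

section

variable {F : Type} [Field F] {X A : Type} [NonUnitalNonAssocRing A] [Module F A]
  [IsScalarTower F A A] [SMulCommClass F A A]

/-- The pairs of words of length `L` which differ by one relation. -/
def YY {X : Type} (R : List (Wd × Wd)) (X0 : Finset X) (L : ℕ) : Set (CW X × CW X) :=
  {p | p.1 ∈ YL X0 L ∧ p.2 ∈ YL X0 L ∧ ∃ (v : CW X) (q : Wd × Wd) (cs : List X) (c2 : CW X),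
    q ∈ R ∧ cs.length = q.1.length ∧ p.1 = v ++ q.1.zip cs ++ c2 ∧ p.2 = v ++ q.2.zip cs ++ c2}

private lemma A2_mul_A2 (hmet : ∀ x y z t : A, (x * y) * (z * t) = 0) {z w : A}
    (hz : z ∈ A2 F A) (hw : w ∈ A2 F A) : z * w = 0 := by
  have h1 : ∀ x y : A, A2 F A ≤ LinearMap.ker (LinearMap.mul F A (x * y)) := by
    intro x y
    refine Submodule.span_le.2 ?_
    rintro _ ⟨z, t, rfl⟩
    exact hmet x y z t
  have h2 : A2 F A ≤ LinearMap.ker ((LinearMap.mul F A).flip w) := by
    refine Submodule.span_le.2 ?_
    rintro _ ⟨x, y, rfl⟩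
    exact h1 x y hw
  exact h2 hz

private lemma mul_mem_A2 (x y : A) : x * y ∈ A2 F A := Submodule.subset_span ⟨x, y, rfl⟩

/-- One letter. -/
private def ap (s : Bool) (b y : A) : A := if s then b * y else y * b

private lemma ap_mem_A2 (s : Bool) (b y : A) : ap s b y ∈ A2 F A := by
  cases s <;> exact mul_mem_A2 _ _

private lemma ap_expand {a : X → A} (hmet : ∀ x y z t : A, (x * y) * (z * t) = 0)
    (C : Coord F a) (s : Bool) {b : A} (hb : b ∈ A2 F A) (y : A) :
    ap s b y = ∑ k ∈ C.X0, C.lam k y • ap s b (a k) := by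
  have h0 := C.rest y
  cases s with
  | true =>
    have h1 := A2_mul_A2 hmet hb h0
    rw [mul_sub, sub_eq_zero, Finset.mul_sum] at h1
    simp only [ap, if_true]
    rw [h1]
    exact Finset.sum_congr rfl fun k _ => mul_smul_comm _ _ _
  | false =>
    have h1 := A2_mul_A2 hmet h0 hb
    rw [sub_mul, sub_eq_zero, Finset.sum_mul] at h1
    simp only [ap, Bool.false_eq_true, if_false]
    rw [h1]
    exact Finset.sum_congr rfl fun k _ => smul_mul_assoc _ _ _

private lemma act_add (l : List (Bool × A)) (m m' : A) : act (m + m') l = act m l + act m' l := by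
  induction l generalizing m m' with
  | nil => rfl
  | cons p l ih =>
    obtain ⟨s, y⟩ := p
    cases s with
    | true => simp only [act, if_true, add_mul, ih]
    | false => simp only [act, Bool.false_eq_true, if_false, mul_add, ih]

private lemma act_smul (l : List (Bool × A)) (c : F) (m : A) : act (c • m) l = c • act m l := by
  induction l generalizing m with
  | nil => rfl
  | cons p l ih =>
    obtain ⟨s, y⟩ := p
    cases s with
    | true => simp only [act, if_true, smul_mul_assoc, ih]
    | false => simp only [act, Bool.false_eq_true, if_false, mul_smul_comm, ih]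

private lemma act_sum_smul (l : List (Bool × A)) {ι : Type} (S : Finset ι) (c : ι → F)
    (m : ι → A) : act (∑ k ∈ S, c k • m k) l = ∑ k ∈ S, c k • act (m k) l := by
  classical
  induction S using Finset.induction_on with
  | empty =>
    simp only [Finset.sum_empty]
    have := act_smul (F := F) l 0 (0 : A)
    rwa [zero_smul, zero_smul] at this
  | insert k S hk ih => rw [Finset.sum_insert hk, Finset.sum_insert hk, act_add, act_smul, ih]

private lemma act_cons (s : Bool) (y b : A) (l : List (Bool × A)) :
    act b ((s, y) :: l) = act (ap s b y) l := rfl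

/-- All letters can be replaced by letters of `X0`. -/
private lemma letters {a : X → A} (hmet : ∀ x y z t : A, (x * y) * (z * t) = 0)
    (C : Coord F a) : ∀ (L : List A) (W1 W2 : Wd), W1.length = L.length → W2.length = L.length →
    ∀ b1 ∈ A2 F A, ∀ b2 ∈ A2 F A, act b1 (W1.zip L) - act b2 (W2.zip L) ∈
      Submodule.span F {z | ∃ ks : List X, ks.length = L.length ∧ (∀ k ∈ ks, k ∈ C.X0) ∧
        z = act b1 (W1.zip (ks.map a)) - act b2 (W2.zip (ks.map a))} := by
  intro L
  induction L with
  | nil =>
    intro W1 W2 _ _ b1 _ b2 _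
    refine Submodule.subset_span ⟨[], rfl, by simp, ?_⟩
    simp
  | cons y L ih =>
    intro W1 W2 h1 h2 b1 hb1 b2 hb2
    match W1, W2, h1, h2 with
    | s1 :: W1, s2 :: W2, h1, h2 =>
      have h1' : W1.length = L.length := by simpa using h1
      have h2' : W2.length = L.length := by simpa using h2
      rw [List.zip_cons_cons, List.zip_cons_cons, act_cons, act_cons,
        ap_expand hmet C s1 hb1 y, ap_expand hmet C s2 hb2 y, act_sum_smul, act_sum_smul,
        ← Finset.sum_sub_distrib]
      refine Submodule.sum_mem _ fun k hk => ?_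
      rw [← smul_sub]
      refine Submodule.smul_mem _ _ ?_
      refine Submodule.span_mono ?_ (ih W1 W2 h1' h2' _ (ap_mem_A2 s1 b1 (a k)) _
        (ap_mem_A2 s2 b2 (a k)))
      rintro z ⟨ks, hks, hk0, rfl⟩
      refine ⟨k :: ks, by simp [hks], ?_, ?_⟩
      · intro k' hk'
        rcases List.mem_cons.1 hk' with rfl | hk'
        · exact hk
        · exact hk0 k' hk'
      · rw [List.map_cons, List.zip_cons_cons, List.zip_cons_cons, act_cons, act_cons]

/-- The square is spanned by the words with colours in `X0` which act on the products of two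
generators. -/
theorem A2_eq_span {a : X → A} (ha : Function.Surjective (ev F a))
    (hmet : ∀ x y z t : A, (x * y) * (z * t) = 0) (C : Coord F a) :
    A2 F A = Submodule.span F {z | ∃ (i j : X) (v : CW X), (∀ p ∈ v, p.2 ∈ C.X0) ∧
      z = opA F a v (a i * a j)} := by
  refine le_antisymm ?_ ?_
  · set M := Submodule.span F {z | ∃ (i j : X) (v : CW X), (∀ p ∈ v, p.2 ∈ C.X0) ∧
      z = opA F a v (a i * a j)} with hM
    have hMA : M ≤ A2 F A := by
      refine Submodule.span_le.2 ?_
      rintro z ⟨i, j, v, _, rfl⟩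
      rw [opA_apply]
      obtain ⟨x', y', h⟩ := act_eq_mul (a i) (a j) (ca a v)
      rw [h]
      exact mul_mem_A2 _ _
    have hap : ∀ (s : Bool) (y : A), ∀ z ∈ M, ap s z y ∈ M := by
      intro s y z hz
      rw [ap_expand hmet C s (hMA hz) y]
      refine Submodule.sum_mem _ fun k hk => Submodule.smul_mem _ _ ?_
      have h1 : ∀ z : A, ap s z (a k) = opA F a [(s, k)] z := by
        intro z
        rw [opA_apply]
        rfl
      rw [h1]
      have h2 : M ≤ M.comap (opA F a [(s, k)]) := by
        refine Submodule.span_le.2 ?_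
        rintro _ ⟨i, j, v, hv, rfl⟩
        change opA F a [(s, k)] (opA F a v (a i * a j)) ∈ M
        rw [← opA_append]
        refine Submodule.subset_span ⟨i, j, v ++ [(s, k)], ?_, rfl⟩
        intro p hp
        rcases List.mem_append.1 hp with hp | hp
        · exact hv p hp
        · rw [List.mem_singleton] at hp
          rw [hp]
          exact hk
      exact h2 hz
    have hmon : ∀ m : FreeMagma X, ∀ u v : FreeMagma X, m = u * v → FreeMagma.lift a m ∈ M := by
      intro m
      induction m using FreeMagma.rec with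
      | of i => intro u v h; exact absurd h (by intro h; cases h)
      | mul s t hs ht =>
        intro _ _ _
        change FreeMagma.lift a (s * t) ∈ M
        rw [map_mul]
        match s, t, hs, ht with
        | FreeMagma.of i, FreeMagma.of j, _, _ =>
          exact Submodule.subset_span ⟨i, j, [], by simp, rfl⟩
        | FreeMagma.mul s1 s2, t, hs, _ =>
          exact hap true (FreeMagma.lift a t) _ (hs s1 s2 rfl)
        | FreeMagma.of i, FreeMagma.mul t1 t2, _, ht =>
          exact hap false (FreeMagma.lift a (FreeMagma.of i)) _ (ht t1 t2 rfl)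
    refine Submodule.span_le.2 ?_
    rintro z ⟨x, y, rfl⟩
    obtain ⟨p, hp, hpz⟩ := exists_Pr ha (mul_mem_A2 (F := F) x y)
    change x * y ∈ M
    rw [← hpz]
    have h3 : Pr F X ≤ M.comap (ev F a) := by
      refine Submodule.span_le.2 ?_
      rintro _ ⟨m, m', rfl⟩
      change ev F a (tr F (m * m')) ∈ M
      rw [ev_tr]
      exact hmon _ m m' rfl
    exact h3 hp
  · refine Submodule.span_le.2 ?_
    rintro z ⟨i, j, v, _, rfl⟩
    rw [opA_apply]
    obtain ⟨x', y', h⟩ := act_eq_mul (a i) (a j) (ca a v)
    rw [h]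
    exact mul_mem_A2 _ _

private lemma zip_fst_snd {α β : Type} (c : List (α × β)) :
    (c.map Prod.fst).zip (c.map Prod.snd) = c := by
  induction c with
  | nil => rfl
  | cons p c ih => rw [List.map_cons, List.map_cons, List.zip_cons_cons, ih]

private lemma ca_zip (a : X → A) (w : Wd) (ks : List X) : ca a (w.zip ks) = w.zip (ks.map a) := by
  induction w generalizing ks with
  | nil => rfl
  | cons s w ih =>
    cases ks with
    | nil => rfl
    | cons k ks =>
      rw [List.zip_cons_cons, List.map_cons, List.zip_cons_cons, ← ih]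
      rfl

private lemma ca_append (a : X → A) (x y : CW X) : ca a (x ++ y) = ca a x ++ ca a y := by
  simp [ca]

/-- The ideal of the relations is spanned by the relations with colours in `X0`, applied to words
with colours in `X0` acting on products of two generators.

Proof. `act b (c1 ++ …)` is linear in `b` and in each letter, and it vanishes if one letter is a
product (`hmet`, as `b` is a product); so every letter `y` can be replaced by
`∑ i, lam i y • a i`. The product `x * y` is replaced by `A2_eq_span`. -/
theorem Hs_eq_span {R : List (Wd × Wd)} {a : X → A} (ha : Function.Surjective (ev F a))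
    (hlen : ∀ q ∈ R, q.1.length = q.2.length)
    (hmet : ∀ x y z t : A, (x * y) * (z * t) = 0) (C : Coord F a) :
    Hs F A R = Submodule.span F {z | ∃ (i j : X) (v c2 : CW X) (q : Wd × Wd) (cs : List X),
      (∀ p ∈ v, p.2 ∈ C.X0) ∧ (∀ p ∈ c2, p.2 ∈ C.X0) ∧ (∀ x ∈ cs, x ∈ C.X0) ∧ q ∈ R ∧
      cs.length = q.1.length ∧
      z = opA F a (v ++ q.1.zip cs ++ c2) (a i * a j) -
        opA F a (v ++ q.2.zip cs ++ c2) (a i * a j)} := by
  refine le_antisymm ?_ ?_
  · set N := Submodule.span F {z | ∃ (i j : X) (v c2 : CW X) (q : Wd × Wd) (cs : List X),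
      (∀ p ∈ v, p.2 ∈ C.X0) ∧ (∀ p ∈ c2, p.2 ∈ C.X0) ∧ (∀ x ∈ cs, x ∈ C.X0) ∧ q ∈ R ∧
      cs.length = q.1.length ∧
      z = opA F a (v ++ q.1.zip cs ++ c2) (a i * a j) -
        opA F a (v ++ q.2.zip cs ++ c2) (a i * a j)} with hN
    refine Submodule.span_le.2 ?_
    rintro z ⟨x, y, c1, c2, q, cs, hq, hcs, rfl⟩
    obtain ⟨x', y', hb⟩ := act_eq_mul x y c1
    have hb' : act (x * y) c1 ∈ A2 F A := by
      rw [hb]
      exact mul_mem_A2 _ _
    set b := act (x * y) c1 with hbdef
    set w : Wd := c2.map Prod.fst with hw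
    set ds : List A := c2.map Prod.snd with hds
    have hc2 : c2 = w.zip ds := (zip_fst_snd c2).symm
    have hwd : w.length = ds.length := by simp [hw, hds]
    have e1 : act (x * y) (c1 ++ q.1.zip cs ++ c2) = act b ((q.1 ++ w).zip (cs ++ ds)) := by
      rw [List.append_assoc, act_append, List.zip_append hcs.symm, ← hc2]
    have e2 : act (x * y) (c1 ++ q.2.zip cs ++ c2) = act b ((q.2 ++ w).zip (cs ++ ds)) := by
      rw [List.append_assoc, act_append, List.zip_append (hcs.trans (hlen q hq)).symm, ← hc2]
    change act (x * y) (c1 ++ q.1.zip cs ++ c2) - act (x * y) (c1 ++ q.2.zip cs ++ c2) ∈ N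
    rw [e1, e2]
    have h1 := letters hmet C (cs ++ ds) (q.1 ++ w) (q.2 ++ w)
      (by rw [List.length_append, List.length_append, hcs, hwd])
      (by rw [List.length_append, List.length_append, hcs, hwd, hlen q hq]) b hb' b hb'
    refine (Submodule.span_le.2 ?_) h1
    rintro z ⟨ks, hks, hk0, rfl⟩
    obtain ⟨k1, k2, rfl, hk1, hk2⟩ : ∃ k1 k2 : List X, ks = k1 ++ k2 ∧ k1.length = q.1.length ∧
        k2.length = w.length := by
      refine ⟨ks.take q.1.length, ks.drop q.1.length, (List.take_append_drop _ _).symm, ?_, ?_⟩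
      · rw [List.length_take, hks, List.length_append, hcs]
        omega
      · rw [List.length_drop, hks, List.length_append, hcs, hwd]
        omega
    have h2 : A2 F A ≤ N.comap (opA F a ((q.1 ++ w).zip (k1 ++ k2)) -
        opA F a ((q.2 ++ w).zip (k1 ++ k2))) := by
      rw [A2_eq_span ha hmet C]
      refine Submodule.span_le.2 ?_
      rintro _ ⟨i, j, v, hv, rfl⟩
      change (opA F a ((q.1 ++ w).zip (k1 ++ k2)) - opA F a ((q.2 ++ w).zip (k1 ++ k2)))
        (opA F a v (a i * a j)) ∈ N
      rw [LinearMap.sub_apply, ← opA_append, ← opA_append, List.zip_append hk1.symm,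
        List.zip_append (hk1.trans (hlen q hq)).symm, ← List.append_assoc, ← List.append_assoc]
      refine Submodule.subset_span ⟨i, j, v, w.zip k2, q, k1, hv, ?_, ?_, hq, hk1, rfl⟩
      · intro p hp
        exact hk0 _ (List.mem_append_right _ (List.of_mem_zip (a := p.1) (b := p.2) hp).2)
      · intro x hx
        exact hk0 x (List.mem_append_left _ hx)
    have h3 := h2 hb'
    change (opA F a ((q.1 ++ w).zip (k1 ++ k2)) - opA F a ((q.2 ++ w).zip (k1 ++ k2))) b ∈ N at h3
    rw [LinearMap.sub_apply, opA_apply, opA_apply, ca_zip, ca_zip] at h3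
    exact h3
  · refine Submodule.span_le.2 ?_
    rintro z ⟨i, j, v, c2, q, cs, _, _, _, hq, hcs, rfl⟩
    refine Submodule.subset_span ⟨a i, a j, ca a v, ca a c2, q, cs.map a, hq, ?_, ?_⟩
    · rw [List.length_map, hcs]
    · rw [opA_apply, opA_apply, ca_append, ca_append, ca_append, ca_append, ca_zip, ca_zip]

end

end Pool.Agent.W_59b51d_u18
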