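import Pool.Agent.W_59b51d_u18.GD3

/-!
# Decomposition of polynomials and of the ideal of the relations (GD4)
-/

namespace Pool.Agent.W_59b51d_u18

open Pool.Agent.W_59b51d_h18

section

variable {F : Type} [Field F] {X A : Type} [NonUnitalNonAssocRing A] [Module F A]
  [IsScalarTower F A A] [SMulCommClass F A A]

theorem GD4_fst_zip {X : Type} (u : Wd) (cs : List X) (h : cs.length = u.length) :
    (u.zip cs).map Prod.fst = u := by
  rw [List.map_fst_zip]
  omega

/-- The letters of an evaluated coloured word, as `col`. -/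
theorem GD4_ca_eq_col (a : X → A) (w : CW X) : ∃ y : ℕ → A, ca a w = col (w.map Prod.fst) y 0 := by
  have : Inhabited A := ⟨0⟩
  refine ⟨fun i => (w.map fun p => a p.2).getD i default, ?_⟩
  rw [← zip_eq_col (w.map Prod.fst) (w.map fun p => a p.2) (by simp)]
  unfold ca
  rw [List.zip_map']

/-- The identities between monomials, in context. -/
theorem GD4_zero {R : List (Wd × Wd)} {Z : List Wd} {N : ℕ} (hA : Sat A (Tmon R Z N)) (a : X → A)
    {w : CW X} (hw : w.map Prod.fst ∈ pads R N) (x y : A) : opA F a w (x * y) = 0 := by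
  obtain ⟨z, hz⟩ := GD4_ca_eq_col a w
  rw [opA_apply, hz]
  have h1 := hA (mw (w.map Prod.fst)) (List.mem_cons_of_mem _ (List.mem_map.2
    ⟨_, List.mem_append_right _ hw, rfl⟩))
    (fun i => if i = 0 then x else if i = 1 then y else z (i - 2))
  rw [lift_mw] at h1
  simp only [if_pos, one_ne_zero, if_false] at h1
  have h2 : col (w.map Prod.fst) (fun i => if i = 0 then x else if i = 1 then y else z (i - 2)) 2 =
      col (w.map Prod.fst) z 0 := by
    have := col_shift (w.map Prod.fst)
      (fun i => if i = 0 then x else if i = 1 then y else z (i - 2)) 0 2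
    rw [zero_add] at this
    rw [this]
    congr 1
  rw [h2] at h1
  exact h1

theorem GD4_mem_A2 (a : X → A) (v : CW X) (x y : A) : opA F a v (x * y) ∈ A2 F A := by
  rw [opA_apply]
  obtain ⟨x', y', h⟩ := act_eq_mul x y (ca a v)
  rw [h]
  exact Submodule.subset_span ⟨x', y', rfl⟩

theorem GD4_opA_mem_AB (a : X → A) (v : CW X) (i j : X) {B : ℕ} (hB : v.length + 1 ≤ B) :
    opA F a v (a i * a j) ∈ AB F a B := by
  refine ⟨opN F v (tr F (FreeMagma.of i * FreeMagma.of j)), ?_, ?_⟩
  · have h1 : tr F (FreeMagma.of i * FreeMagma.of j) ∈ Tr F X 1 := tr_mem_Tr (by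
      rw [height_mul, height_of, height_of]
      simp)
    have h2 := opN_mem_Tr h1 v
    exact Tr_mono (by omega) h2
  · rw [ev_opN, ev_tr]
    rfl

theorem GD4_pads {R : List (Wd × Wd)} {N : ℕ} {q : Wd × Wd} (hq : q ∈ R) {a b : Wd}
    (ha : a.length = N) (hb : b.length = N) :
    a ++ q.1 ++ b ∈ pads R N ∧ a ++ q.2 ++ b ∈ pads R N := by
  unfold pads
  simp only [List.mem_flatMap]
  constructor
  · exact ⟨q, hq, a, mem_wds.2 ha, b, mem_wds.2 hb, by simp⟩
  · exact ⟨q, hq, a, mem_wds.2 ha, b, mem_wds.2 hb, by simp⟩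

/-- A long context on both sides kills. -/
theorem GD4_long {R : List (Wd × Wd)} {Z : List Wd} {N : ℕ} (hA : Sat A (Tmon R Z N)) (a : X → A)
    {v c2 : CW X} {u : Wd} {cs : List X} (hcs : cs.length = u.length) (hv : N ≤ v.length)
    (hc : N ≤ c2.length) (hu : ∀ a b : Wd, a.length = N → b.length = N → a ++ u ++ b ∈ pads R N)
    (x y : A) : opA F a (v ++ u.zip cs ++ c2) (x * y) = 0 := by
  have e1 : v ++ u.zip cs ++ c2 = v.take (v.length - N) ++ ((v.drop (v.length - N) ++ u.zip cs ++
      c2.take N) ++ c2.drop N) := by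
    simp only [← List.append_assoc]
    rw [List.take_append_drop]
    rw [List.append_assoc, List.append_assoc, List.append_assoc, List.take_append_drop]
  rw [e1, opA_append, opA_append]
  have h1 : ∃ x' y' : A, opA F a (v.take (v.length - N)) (x * y) = x' * y' := by
    rw [opA_apply]
    exact act_eq_mul _ _ _
  obtain ⟨x', y', h1⟩ := h1
  rw [h1, GD4_zero hA a, map_zero]
  rw [List.map_append, List.map_append, GD4_fst_zip u cs hcs]
  apply hu
  · simp
    omega
  · simp
    omega

theorem GD4_split {X : Type} (v : List X) (c d : ℕ) (h : c + d ≤ v.length) :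
    ∃ v1 σ v2 : List X, v = v1 ++ σ ++ v2 ∧ σ.length = c ∧ v2.length = d := by
  refine ⟨v.take (v.length - (c + d)), (v.drop (v.length - (c + d))).take c,
    (v.drop (v.length - (c + d))).drop c, ?_, ?_, ?_⟩
  · rw [List.append_assoc, List.take_append_drop, List.take_append_drop]
  · simp
    omega
  · simp
    omega

/-- **The ideal of the relations** up to bounded elements.

Proof. `Hs_eq_span`. If `v` has length `< N`, the element is zero by the relators in `PreRel`
(`hpre`). If `v` and `c2` have length `≥ N`, both terms vanish (`Sat A (Tmon R Z N)`: write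
`v = v' ++ a`, `c2 = b ++ c2'` with `a`, `b` of length `N`). Otherwise `c2.length < N`. If the total
length is at least `c + L`, write `v = v1 ++ σ ++ v2` with `σ` of length `c` and the length of
`v2 ++ u ++ c2` equal to `L`; the element is in the second space with `m = opA v1 (a i * a j)`. If the
total length is smaller, the element is in `AB (c + L + 1)`. -/
theorem Hs_le {R : List (Wd × Wd)} {Z : List Wd} {N : ℕ} {a : X → A}
    (ha : Function.Surjective (ev F a)) (hlen : ∀ q ∈ R, q.1.length = q.2.length)
    (hA : Sat A (Tmon R Z N)) (hpre : ∀ p ∈ PreRel F X R N, p.eval a = 0) (C : Coord F a)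
    {c L : ℕ} (hL : ∀ q ∈ R, q.1.length + N ≤ L) :
    Hs F A R ≤ AB F a (c + L + 1) ⊔ Submodule.span F {z | ∃ m ∈ A2 F A, ∃ σ ∈ YL C.X0 c,
      ∃ p ∈ YY R C.X0 L, z = opA F a (σ ++ p.1) m - opA F a (σ ++ p.2) m} := by
  have hmet : ∀ x y z t : A, (x * y) * (z * t) = 0 := by
    intro x y z t
    have h1 := hA metab.1 List.mem_cons_self
      (fun i => if i = 0 then x else if i = 1 then y else if i = 2 then z else t)
    exact h1
  rw [Hs_eq_span ha hlen hmet C]
  refine Submodule.span_le.2 ?_
  rintro z ⟨i, j, v, c2, q, cs, hv, hc2, hcs, hq, hl, rfl⟩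
  have hl2 : cs.length = q.2.length := hl.trans (hlen q hq)
  rw [SetLike.mem_coe]
  by_cases h1 : v.length < N
  · have h2 := hpre _ ⟨i, j, v, q, cs, h1, hq, hl, rfl⟩
    have h3 : opA F a (v ++ q.1.zip cs) (a i * a j) = opA F a (v ++ q.2.zip cs) (a i * a j) := by
      rw [← sub_eq_zero]
      rw [← h2, ← ev_toP]
      have h4 : ∀ w : CW X, opA F a w (a i * a j) =
          ev F a (tr F (act (FreeMagma.of i * FreeMagma.of j) (cm w))) := by
        intro w
        rw [← opN_tr, ev_opN, ev_tr]
        rfl
      rw [h4, h4]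
      unfold toP
      simp only [List.map_cons, List.map_nil, List.sum_cons, List.sum_nil, add_zero, map_add]
      rw [sub_eq_add_neg]
      congr 1
      rw [← map_neg]
      congr 1
      unfold tr
      rw [← Finsupp.single_neg]
    have h5 : opA F a (v ++ q.1.zip cs ++ c2) (a i * a j) -
        opA F a (v ++ q.2.zip cs ++ c2) (a i * a j) = 0 := by
      rw [opA_append, h3, ← opA_append, sub_self]
    rw [h5]
    exact zero_mem _
  by_cases h2 : N ≤ c2.length
  · have h3 := GD4_long (F := F) hA a (u := q.1) hl (not_lt.1 h1) h2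
      (fun a b ha hb => (GD4_pads hq ha hb).1) (a i) (a j)
    have h4 := GD4_long (F := F) hA a (u := q.2) hl2 (not_lt.1 h1) h2
      (fun a b ha hb => (GD4_pads hq ha hb).2) (a i) (a j)
    rw [h3, h4, sub_zero]
    exact zero_mem _
  have hz1 : (q.1.zip cs).length = q.1.length := by rw [List.length_zip]; omega
  have hz2 : (q.2.zip cs).length = q.1.length := by rw [List.length_zip]; omega
  have hLq := hL q hq
  by_cases h3 : c + L ≤ (v ++ q.1.zip cs ++ c2).length
  · obtain ⟨v1, σ, v2, hvv, hσ, hv2⟩ := GD4_split v c (L - q.1.length - c2.length) (by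
      simp only [List.length_append, hz1] at h3
      omega)
    refine Submodule.mem_sup_right (Submodule.subset_span ⟨opA F a v1 (a i * a j),
      GD4_mem_A2 a v1 _ _, σ, ?_, (v2 ++ q.1.zip cs ++ c2, v2 ++ q.2.zip cs ++ c2), ?_, ?_⟩)
    · rw [mem_YL]
      refine ⟨hσ, fun p hp => hv p ?_⟩
      rw [hvv]
      simp [hp]
    · have hzc : ∀ u : Wd, ∀ p ∈ u.zip cs, p.2 ∈ C.X0 := by
        intro u p hp
        exact hcs _ (List.of_mem_zip (show (p.1, p.2) ∈ u.zip cs from hp)).2
      have hv2c : ∀ p ∈ v2, p.2 ∈ C.X0 := by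
        intro p hp
        refine hv p ?_
        rw [hvv]
        simp [hp]
      refine ⟨mem_YL.2 ⟨?_, ?_⟩, mem_YL.2 ⟨?_, ?_⟩, v2, q, cs, c2, hq, hl, rfl, rfl⟩
      · simp only [List.length_append, hz1, hv2]
        omega
      · intro p hp
        simp only [List.mem_append] at hp
        rcases hp with (hp | hp) | hp
        · exact hv2c p hp
        · exact hzc _ p hp
        · exact hc2 p hp
      · simp only [List.length_append, hz2, hv2]
        omega
      · intro p hp
        simp only [List.mem_append] at hp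
        rcases hp with (hp | hp) | hp
        · exact hv2c p hp
        · exact hzc _ p hp
        · exact hc2 p hp
    · rw [← opA_append, ← opA_append]
      simp only [hvv, List.append_assoc]
  · refine Submodule.mem_sup_left (sub_mem (GD4_opA_mem_AB a _ i j ?_)
      (GD4_opA_mem_AB a _ i j ?_))
    · omega
    · simp only [List.length_append, hz1, hz2] at h3 ⊢
      omega

end

end Pool.Agent.W_59b51d_u18
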