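import Pool.Agent.W_59b51d_u18.GD

/-!
# The bound for the good side (GE1)
-/

namespace Pool.Agent.W_59b51d_u18

open Pool.Agent.W_59b51d_h18

section

variable {F : Type} [Field F] {X A : Type} [NonUnitalNonAssocRing A] [Module F A]
  [IsScalarTower F A A] [SMulCommClass F A A]

/-- The bounded instances of the relations. -/
noncomputable def BI (F : Type) [Field F] {X : Type} (XX : Set (CW X × CW X)) (H : ℕ) :
    Submodule F (NA F X) :=
  Submodule.span F {z | ∃ p ∈ XX, ∃ m m' : FreeMagma X, height m ≤ H ∧ height m' ≤ H ∧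
    z = opN F p.1 (tr F (m * m')) - opN F p.2 (tr F (m * m'))}

theorem BI_mono {XX : Set (CW X × CW X)} {H H' : ℕ} (h : H ≤ H') : BI F XX H ≤ BI F XX H' := by
  refine Submodule.span_mono ?_
  rintro z ⟨p, hp, m, m', hm, hm', rfl⟩
  exact ⟨p, hp, m, m', hm.trans h, hm'.trans h, rfl⟩

/-- The pairs of words used in the instances. -/
def XXs {X : Type} (R : List (Wd × Wd)) (X0 : Finset X) (n : ℕ) : Set (CW X × CW X) :=
  {p | p.1.length ≤ n ∧ p.2.length ≤ n ∧ (∀ y ∈ p.1, y.2 ∈ X0) ∧ (∀ y ∈ p.2, y.2 ∈ X0) ∧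
    ∃ (v : CW X) (q : Wd × Wd) (cs : List X) (c2 : CW X), q ∈ R ∧ cs.length = q.1.length ∧
      p.1 = v ++ q.1.zip cs ++ c2 ∧ p.2 = v ++ q.2.zip cs ++ c2}

theorem finite_XXs (R : List (Wd × Wd)) (X0 : Finset X) (n : ℕ) : (XXs R X0 n).Finite := by
  have h1 : {l : CW X | l.length ≤ n ∧ ∀ y ∈ l, y.2 ∈ X0}.Finite := by
    have h2 : {l : List (Bool × X0) | l.length ≤ n}.Finite := List.finite_length_le _ n
    refine (h2.image (List.map fun p => (p.1, (p.2 : X)))).subset ?_
    rintro l ⟨hl, hl'⟩
    refine ⟨l.attach.map fun p => (p.1.1, ⟨p.1.2, hl' _ p.2⟩), ?_, ?_⟩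
    · simpa using hl
    · rw [List.map_map]
      conv_rhs => rw [← List.attach_map_subtype_val l]
      rfl
  exact (h1.prod h1).subset fun p hp => ⟨⟨hp.1, hp.2.2.1⟩, ⟨hp.2.1, hp.2.2.2.1⟩⟩

omit [NonUnitalNonAssocRing A] in
theorem ca_append' (a : X → A) (x y : CW X) : ca a (x ++ y) = ca a x ++ ca a y := by
  simp [ca]

omit [NonUnitalNonAssocRing A] in
theorem ca_zip' (a : X → A) (u : Wd) (cs : List X) :
    ca a (u.zip cs) = u.zip (cs.map a) := by
  rw [ca, List.zip_map_right]
  rfl

/-- The values of the instances are in the ideal. -/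
theorem ev_BI {R : List (Wd × Wd)} {X0 : Finset X} {n H : ℕ} (a : X → A) {w : NA F X}
    (hw : w ∈ BI F (XXs R X0 n) H) : ev F a w ∈ Hs F A R := by
  have h1 : BI F (XXs R X0 n) H ≤ (Hs F A R).comap (ev F a) := by
    refine Submodule.span_le.2 ?_
    rintro z ⟨p, ⟨-, -, -, -, v, q, cs, c2, hq, hcs, h1, h2⟩, m, m', -, -, rfl⟩
    refine Submodule.subset_span ⟨FreeMagma.lift a m, FreeMagma.lift a m', ca a v, ca a c2, q,
      cs.map a, hq, by simpa using hcs, ?_⟩
    rw [map_sub, ev_opN, ev_opN, ev_tr, map_mul, opA_apply, opA_apply, h1, h2]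
    simp only [ca_append', ca_zip']
  exact h1 hw

theorem act_zero' (l : List (Bool × A)) : act (0 : A) l = 0 := by
  induction l with
  | nil => rfl
  | cons p l ih =>
    obtain ⟨s, y⟩ := p
    cases s <;> simpa [act] using ih

/-- The monomial identities in context. -/
theorem act_eq_zero' {R : List (Wd × Wd)} {Z : List Wd} {N : ℕ} (hA : Sat A (Tmon R Z N)) {w : Wd}
    (hw : w ∈ pads R N) (x y : A) (l : List (Bool × A)) (hl : l.map Prod.fst = w) :
    act (x * y) l = 0 := by
  have h1 : mw w ∈ Tmon R Z N :=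
    List.mem_cons_of_mem _ (List.mem_map.2 ⟨w, List.mem_append_right _ hw, rfl⟩)
  have h2 : l = w.zip (l.map Prod.snd) := by
    rw [← hl]
    clear hl
    induction l with
    | nil => rfl
    | cons p l ih =>
      simp only [List.map_cons, List.zip_cons_cons]
      rw [← ih]
  let : Inhabited A := ⟨0⟩
  let v : ℕ → A := fun i => if i = 0 then x else if i = 1 then y else
    (l.map Prod.snd).getD (i - 2) default
  have h3 := hA _ h1 v
  rw [lift_mw, show (2 : ℕ) = 0 + 2 from rfl, col_shift] at h3
  rw [h2, zip_eq_col w _ (by rw [← hl]; simp)]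
  exact h3

theorem mem_pads' {R : List (Wd × Wd)} {N : ℕ} {q : Wd × Wd} (hq : q ∈ R) {a b : Wd}
    (ha : a.length = N) (hb : b.length = N) :
    a ++ q.1 ++ b ∈ pads R N ∧ a ++ q.2 ++ b ∈ pads R N := by
  constructor
  · exact List.mem_flatMap.2 ⟨q, hq, List.mem_flatMap.2 ⟨a, mem_wds.2 ha,
      List.mem_flatMap.2 ⟨b, mem_wds.2 hb, by simp⟩⟩⟩
  · exact List.mem_flatMap.2 ⟨q, hq, List.mem_flatMap.2 ⟨a, mem_wds.2 ha,
      List.mem_flatMap.2 ⟨b, mem_wds.2 hb, by simp⟩⟩⟩

/-- Words with a padded side act as zero on products. -/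
theorem act_pad_eq_zero' {R : List (Wd × Wd)} {Z : List Wd} {N : ℕ} (hA : Sat A (Tmon R Z N))
    {q : Wd × Wd} (hq : q ∈ R) (x y : A) (l1 l2 l3 : List (Bool × A)) (h1 : N ≤ l1.length)
    (h3 : N ≤ l3.length) (h2 : l2.map Prod.fst = q.1 ∨ l2.map Prod.fst = q.2) :
    act (x * y) (l1 ++ l2 ++ l3) = 0 := by
  have e1 : l1 = l1.take (l1.length - N) ++ l1.drop (l1.length - N) :=
    (List.take_append_drop _ _).symm
  have e3 : l3 = l3.take N ++ l3.drop N := (List.take_append_drop _ _).symm
  have e : l1 ++ l2 ++ l3 = l1.take (l1.length - N) ++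
      ((l1.drop (l1.length - N) ++ l2 ++ l3.take N) ++ l3.drop N) := by
    conv_lhs => rw [e1, e3]
    simp only [List.append_assoc]
  rw [e, act_append, act_append]
  obtain ⟨x', y', hxy⟩ := act_eq_mul x y (l1.take (l1.length - N))
  rw [hxy]
  have hla : ((l1.drop (l1.length - N)).map Prod.fst).length = N := by
    rw [List.length_map, List.length_drop]; omega
  have hlb : ((l3.take N).map Prod.fst).length = N := by
    rw [List.length_map, List.length_take]; omega
  have h0 : act (x' * y') (l1.drop (l1.length - N) ++ l2 ++ l3.take N) = 0 := by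
    rcases h2 with h2 | h2
    · refine act_eq_zero' hA (mem_pads' hq hla hlb).1 x' y' _ ?_
      rw [List.map_append, List.map_append, h2]
    · refine act_eq_zero' hA (mem_pads' hq hla hlb).2 x' y' _ ?_
      rw [List.map_append, List.map_append, h2]
  rw [h0, act_zero']

/-- Every element of the ideal of the relations is the value of a combination of instances.

Proof. `Hs_eq_span`, case distinction as in the proof of `Hs_le`: if the total length is at most
`n`, the element is an instance with `m = of i`, `m' = of j`; otherwise it is zero or `v.length ≥ N`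
and `c2.length < N`, and `v = v1 ++ v2` where `v2 ++ u ++ c2` has length `n`; the product monomial
`act (of i * of j) (cm v1)` is of the form `m * m'` (`act_eq_mul`). -/
theorem Hs_le_ev {R : List (Wd × Wd)} {Z : List Wd} {N n : ℕ} {a : X → A}
    (ha : Function.Surjective (ev F a)) (hlen : ∀ q ∈ R, q.1.length = q.2.length)
    (hA : Sat A (Tmon R Z N)) (hpre : ∀ p ∈ PreRel F X R N, p.eval a = 0) (C : Coord F a)
    (hL : ∀ q ∈ R, q.1.length + N ≤ n) {z : A} (hz : z ∈ Hs F A R) :
    ∃ H, ∃ b ∈ BI F (XXs R C.X0 n) H, ev F a b = z := by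
  have hmet : ∀ x y z t : A, (x * y) * (z * t) = 0 := by
    intro x y z t
    have h1 := hA metab.1 (List.mem_cons_self)
      (fun i => if i = 0 then x else if i = 1 then y else if i = 2 then z else t)
    simpa [metab] using h1
  rw [Hs_eq_span ha hlen hmet C] at hz
  induction hz using Submodule.span_induction with
  | zero => exact ⟨0, 0, zero_mem _, map_zero _⟩
  | add x y _ _ hx hy =>
    obtain ⟨H1, b1, hb1, rfl⟩ := hx
    obtain ⟨H2, b2, hb2, rfl⟩ := hy
    exact ⟨max H1 H2, b1 + b2, add_mem (BI_mono (le_max_left _ _) hb1)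
      (BI_mono (le_max_right _ _) hb2), map_add _ _ _⟩
  | smul c x _ hx =>
    obtain ⟨H1, b1, hb1, rfl⟩ := hx
    exact ⟨H1, c • b1, Submodule.smul_mem _ _ hb1, map_smul _ _ _⟩
  | mem z hz =>
    obtain ⟨i, j, v, c2, q, cs, hv, hc2, hcs0, hq, hcs, rfl⟩ := hz
    have hq12 := hlen q hq
    have hl1 : (q.1.zip cs).length = q.1.length := by
      rw [List.length_zip, hcs, min_self]
    have hl2 : (q.2.zip cs).length = q.1.length := by
      rw [List.length_zip, hcs, ← hq12, min_self]
    have hz1 : ∀ y ∈ q.1.zip cs, y.2 ∈ C.X0 := fun y hy => hcs0 _ (List.of_mem_zip hy).2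
    have hz2 : ∀ y ∈ q.2.zip cs, y.2 ∈ C.X0 := fun y hy => hcs0 _ (List.of_mem_zip hy).2
    -- instances
    have key : ∀ v1 v2 : CW X, v = v1 ++ v2 → v2.length + q.1.length + c2.length ≤ n →
        ∃ H, ∃ b ∈ BI F (XXs R C.X0 n) H, ev F a b =
          opA F a (v ++ q.1.zip cs ++ c2) (a i * a j) -
            opA F a (v ++ q.2.zip cs ++ c2) (a i * a j) := by
      intro v1 v2 hv12 hlen2
      obtain ⟨m, m', hmm⟩ := act_eq_mul (FreeMagma.of i) (FreeMagma.of j) (cm v1)
      have hv2 : ∀ y ∈ v2, y.2 ∈ C.X0 := fun y hy => hv y (by rw [hv12]; simp [hy])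
      refine ⟨max (height m) (height m'), opN F (v2 ++ q.1.zip cs ++ c2) (tr F (m * m')) -
        opN F (v2 ++ q.2.zip cs ++ c2) (tr F (m * m')), Submodule.subset_span
        ⟨(v2 ++ q.1.zip cs ++ c2, v2 ++ q.2.zip cs ++ c2), ⟨?_, ?_, ?_, ?_, v2, q, cs, c2, hq,
          hcs, rfl, rfl⟩, m, m', le_max_left _ _, le_max_right _ _, rfl⟩, ?_⟩
      · simp only [List.length_append, hl1]; omega
      · simp only [List.length_append, hl2]; omega
      · intro y hy
        rcases List.mem_append.1 hy with hy | hy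
        · rcases List.mem_append.1 hy with hy | hy
          · exact hv2 y hy
          · exact hz1 y hy
        · exact hc2 y hy
      · intro y hy
        rcases List.mem_append.1 hy with hy | hy
        · rcases List.mem_append.1 hy with hy | hy
          · exact hv2 y hy
          · exact hz2 y hy
        · exact hc2 y hy
      · have h1 : ev F a (tr F (m * m')) = opA F a v1 (a i * a j) := by
          rw [← hmm, ← opN_tr, ev_opN, ev_tr, map_mul]
          rfl
        rw [map_sub, ev_opN, ev_opN, h1, ← opA_append, ← opA_append, hv12]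
        simp only [List.append_assoc]
    by_cases hc1 : v.length + q.1.length + c2.length ≤ n
    · exact key [] v rfl hc1
    by_cases hvN : v.length < N
    · refine ⟨0, 0, zero_mem _, ?_⟩
      rw [map_zero]
      have h1 := hpre _ ⟨i, j, v, q, cs, hvN, hq, hcs, rfl⟩
      have h2 : opA F a (v ++ q.1.zip cs) (a i * a j) =
          opA F a (v ++ q.2.zip cs) (a i * a j) := by
        have e1 : ∀ x : CW X, FreeMagma.lift a (act (FreeMagma.of i * FreeMagma.of j) (cm x)) =
            opA F a x (a i * a j) := by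
          intro x
          rw [← ev_tr (F := F), ← opN_tr, ev_opN, ev_tr, map_mul]
          rfl
        simp only [Poly.eval, List.map_cons, List.map_nil, List.sum_cons, List.sum_nil, one_smul,
          neg_smul, add_zero, e1] at h1
        exact add_neg_eq_zero.1 h1
      rw [opA_append _ _ c2, opA_append _ _ c2, h2, sub_self]
    by_cases hcN : N ≤ c2.length
    · refine ⟨0, 0, zero_mem _, ?_⟩
      rw [map_zero, opA_apply, opA_apply]
      simp only [ca_append']
      rw [act_pad_eq_zero' hA hq, act_pad_eq_zero' hA hq, sub_zero]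
      · simpa [ca] using not_lt.1 hvN
      · simpa [ca] using hcN
      · right
        rw [ca, List.map_map]
        change (q.2.zip cs).map Prod.fst = q.2
        exact List.map_fst_zip (by omega)
      · simpa [ca] using not_lt.1 hvN
      · simpa [ca] using hcN
      · left
        rw [ca, List.map_map]
        change (q.1.zip cs).map Prod.fst = q.1
        exact List.map_fst_zip (by omega)
    · refine key (v.take (v.length + q.1.length + c2.length - n))
        (v.drop (v.length + q.1.length + c2.length - n)) (List.take_append_drop _ _).symm ?_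
      rw [List.length_drop]
      have := hL q hq
      omega

end

end Pool.Agent.W_59b51d_u18
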