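import Pool.Agent.W_59b51d_u18.GE1

/-!
# The bound for the good side (GE2)
-/

namespace Pool.Agent.W_59b51d_u18

open Pool.Agent.W_59b51d_h18

section

variable {F : Type} [Field F] {X A : Type} [NonUnitalNonAssocRing A] [Module F A]
  [IsScalarTower F A A] [SMulCommClass F A A]

/-- Linear induction on `Tr h ⊓ Pr`. -/
theorem Tr_Pr_le' {h : ℕ} {M : Submodule F (NA F X)}
    (hM : ∀ m m' : FreeMagma X, height (m * m') ≤ h → tr F (m * m') ∈ M) :
    Tr F X h ⊓ Pr F X ≤ M := by
  have h1 : Tr F X h ≤ Finsupp.supported F F {m : FreeMagma X | height m ≤ h} := by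
    refine Submodule.span_le.2 ?_
    rintro p ⟨m, hm, rfl⟩
    exact Finsupp.single_mem_supported F _ hm
  have h2 : Pr F X ≤ Finsupp.supported F F {m : FreeMagma X | ∃ s t, m = s * t} := by
    refine Submodule.span_le.2 ?_
    rintro p ⟨m, m', rfl⟩
    exact Finsupp.single_mem_supported F _ ⟨m, m', rfl⟩
  rintro p ⟨hp1, hp2⟩
  have hs1 := (Finsupp.mem_supported _ _).1 (h1 hp1)
  have hs2 := (Finsupp.mem_supported _ _).1 (h2 hp2)
  have hp : p = ∑ m ∈ p.support, p m • tr F m := by
    conv_lhs => rw [← Finsupp.sum_single p]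
    refine Finset.sum_congr rfl fun m _ => ?_
    rw [tr, Finsupp.smul_single, smul_eq_mul, mul_one]
  rw [hp]
  refine Submodule.sum_mem _ fun m hm => Submodule.smul_mem _ _ ?_
  obtain ⟨s, t, rfl⟩ := hs2 hm
  exact hM s t (hs1 hm)

/-- Equivalent words act equally modulo instances. -/
theorem BI_of_eqv' {X0 : Finset X} {R : List (Wd × Wd)} {c L h : ℕ} {σ : CW X}
    (hσ : σ ∈ YL X0 c) {y y' : CW X}
    (hy : Relation.EqvGen (fun y y' : CW X => (y, y') ∈ YY R X0 L) y y') {u : NA F X}
    (hu : u ∈ Tr F X h ⊓ Pr F X) :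
    opN F (σ ++ y) u - opN F (σ ++ y') u ∈ BI F (XXs R X0 (c + L)) h := by
  induction hy with
  | rel y y' hyy =>
    have h1 : Tr F X h ⊓ Pr F X ≤
        (BI F (XXs R X0 (c + L)) h).comap (opN F (σ ++ y) - opN F (σ ++ y')) := by
      refine Tr_Pr_le' fun m m' hm => ?_
      obtain ⟨hy1, hy2, v, q, cs, c2, hq, hcs, e1, e2⟩ := hyy
      have hs := mem_YL.1 hσ
      have hy1' := mem_YL.1 hy1
      have hy2' := mem_YL.1 hy2
      simp only at hy1' hy2' e1 e2
      rw [height_mul] at hm
      refine Submodule.subset_span ⟨(σ ++ y, σ ++ y'), ⟨?_, ?_, ?_, ?_, σ ++ v, q, cs, c2, hq, hcs,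
        ?_, ?_⟩, m, m', by omega, by omega, rfl⟩
      · simp only [List.length_append, hs.1, hy1'.1]; exact le_rfl
      · simp only [List.length_append, hs.1, hy2'.1]; exact le_rfl
      · intro z hz
        rcases List.mem_append.1 hz with hz | hz
        · exact hs.2 z hz
        · exact hy1'.2 z hz
      · intro z hz
        rcases List.mem_append.1 hz with hz | hz
        · exact hs.2 z hz
        · exact hy2'.2 z hz
      · simp only [e1, List.append_assoc]
      · simp only [e2, List.append_assoc]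
    exact h1 hu
  | refl y => rw [sub_self]; exact zero_mem _
  | symm y y' _ ih =>
    rw [← neg_sub]
    exact neg_mem ih
  | trans y y' y'' _ _ ih1 ih2 =>
    have := add_mem ih1 ih2
    rwa [sub_add_sub_cancel] at this

/-- The part of the argument for one word `σ`.

Let two words in `YL X0 L` be equivalent if they are connected by pairs in `YY R X0 L`, `ρ y` a
representative of the class of `y`. For equivalent `y`, `y'` and `u ∈ Tr h ⊓ Pr`, the difference
`opN (σ ++ y) u - opN (σ ++ y') u` is in `BI h` (`Relation.EqvGen`). So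
`∑ y, opN (σ ++ y) (w y)` is congruent to `∑ y', opN (σ ++ y') (∑ y with ρ y = y', w y)` modulo `BI`
(`Finset.sum_fiberwise_of_maps_to`). If the class of `y'` contains a word `y₁` such that a variable
is in `Sx T (σ ++ y₁)`, then `opN (σ ++ y₁) u ∈ Cons` for `u ∈ Tr h` (`absorb` with `α` a variable),
so `opN (σ ++ y') u ∈ Cons + BI`. Otherwise `hl` for the indicator `l` of the class gives, with `hBd`
(subtract an element of `Tr B`), `∑ y, l y • w y ∈ DD T r (Sx T σ) N ⊔ Tr B`, and `opN (σ ++ y')`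
maps this to `Cons + Tr (B + c + L)` (`absorb` for `σ`, `opN_append`, `opN_mem_Cons`,
`opN_mem_Tr`). -/
theorem one_sigma {T : List (FreeMagma ℕ)} {r : List (Poly F X)} {a : X → A}
    (hT : ∀ t ∈ T, Multilinear t) {X0 : Finset X} {R : List (Wd × Wd)} {c L B h N K : ℕ}
    (hK : ∀ τ ∈ allSubs T, height τ ≤ K) (hB : B ≤ h)
    (hBd : ∀ S ⊆ allSubs T, Bd F T r a S h N) {σ : CW X} (hσ : σ ∈ YL X0 c)
    (w : CW X → NA F X) (hw : ∀ y, w y ∈ Tr F X h ⊓ Pr F X)
    (hl : ∀ l : CW X → F, (∀ p ∈ YY R X0 L, l p.1 = l p.2) →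
      (∀ y, (∃ i : ℕ, FreeMagma.of i ∈ Sx T ((σ ++ y).map Prod.fst)) → l y = 0) →
      ev F a (∑ y ∈ YL X0 L, l y • w y) ∈ SS F A (Sx T (σ.map Prod.fst)) ⊔ AB F a B) :
    ∑ y ∈ YL X0 L, opN F (σ ++ y) (w y) ∈ Cons T r (N + h + K + c + L) ⊔
      BI F (XXs R X0 (c + L)) h ⊔ Tr F X (B + c + L) := by
  classical
  set M : Submodule F (NA F X) := Cons T r (N + h + K + c + L) ⊔
      BI F (XXs R X0 (c + L)) h ⊔ Tr F X (B + c + L) with hM
  have hBIM : BI F (XXs R X0 (c + L)) h ≤ M := le_sup_right.trans le_sup_left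
  have hCM : Cons T r (N + h + K + c + L) ≤ M := le_sup_left.trans le_sup_left
  have hTM : Tr F X (B + c + L) ≤ M := le_sup_right
  let s : Setoid (CW X) := Relation.EqvGen.setoid (fun y y' : CW X => (y, y') ∈ YY R X0 L)
  let ρ : CW X → CW X := fun y => Quotient.out (Quotient.mk s y)
  have hρ : ∀ y, Relation.EqvGen (fun y y' : CW X => (y, y') ∈ YY R X0 L) y (ρ y) := fun y =>
    s.symm (Quotient.mk_out (s := s) y)
  have hρ' : ∀ y y' : CW X, Relation.EqvGen (fun y y' : CW X => (y, y') ∈ YY R X0 L) y y' →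
      ρ y = ρ y' := fun y y' hyy => by
    have : Quotient.mk s y = Quotient.mk s y' := Quotient.sound hyy
    simp only [ρ, this]
  have hYL : ∀ y y' : CW X, Relation.EqvGen (fun y y' : CW X => (y, y') ∈ YY R X0 L) y y' →
      (y ∈ YL X0 L ↔ y' ∈ YL X0 L) := by
    intro y y' hyy
    induction hyy with
    | rel y y' hyy => exact ⟨fun _ => hyy.2.1, fun _ => hyy.1⟩
    | refl y => exact Iff.rfl
    | symm y y' _ ih => exact ih.symm
    | trans y y' y'' _ _ ih1 ih2 => exact ih1.trans ih2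
  have hσl := (mem_YL.1 hσ).1
  -- the representatives
  have hone : ∀ y' ∈ YL X0 L, opN F (σ ++ y') (∑ y ∈ (YL X0 L).filter fun y => ρ y = y', w y) ∈
      M := by
    intro y' hy'
    set W := ∑ y ∈ (YL X0 L).filter fun y => ρ y = y', w y with hW
    have hWm : W ∈ Tr F X h ⊓ Pr F X := Submodule.sum_mem _ fun y _ => hw y
    by_cases hv : ∃ y₁, Relation.EqvGen (fun y y' : CW X => (y, y') ∈ YY R X0 L) y₁ y' ∧
        ∃ i : ℕ, FreeMagma.of i ∈ Sx T ((σ ++ y₁).map Prod.fst)
    · obtain ⟨y₁, hy₁, i, hi⟩ := hv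
      have h1 := BI_of_eqv' (F := F) hσ hy₁ hWm
      have hy₁l : y₁ ∈ YL X0 L := (hYL _ _ hy₁).2 hy'
      have h2 : opN F (σ ++ y₁) W ∈ Cons T r (N + h + K + c + L) := by
        have h3 : Tr F X h ≤ (Cons T r (N + h + K + c + L)).comap (opN F (σ ++ y₁)) := by
          refine Tr_le fun m hm => ?_
          have h4 := absorb (F := F) (r := r) hT hi (c := fun _ => m) (H := h) hm
          refine Cons_mono ?_ h4
          rw [List.length_append, hσl, (mem_YL.1 hy₁l).1]
          omega
        exact h3 hWm.1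
      have h5 : opN F (σ ++ y') W =
          opN F (σ ++ y₁) W - (opN F (σ ++ y₁) W - opN F (σ ++ y') W) := by abel
      rw [h5]
      exact sub_mem (hCM h2) (hBIM h1)
    · have h1 := hl (fun y => if ρ y = y' then 1 else 0) (fun p hp => by
        have : ρ p.1 = ρ p.2 := hρ' _ _ (Relation.EqvGen.rel _ _ hp)
        simp only [this]) (fun y hy => by
        by_cases hyy : ρ y = y'
        · exact absurd ⟨y, hyy ▸ hρ y, hy⟩ hv
        · exact if_neg hyy)
      have h2 : ∑ y ∈ YL X0 L, (if ρ y = y' then (1 : F) else 0) • w y = W := by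
        rw [hW, Finset.sum_filter]
        refine Finset.sum_congr rfl fun y _ => ?_
        split_ifs <;> simp
      rw [h2] at h1
      obtain ⟨z1, hz1, z2, hz2, hz⟩ := Submodule.mem_sup.1 h1
      obtain ⟨b, hb, rfl⟩ := hz2
      have h3 : ev F a (W - b) ∈ SS F A (Sx T (σ.map Prod.fst)) := by
        rw [map_sub, ← hz, add_sub_cancel_right]
        exact hz1
      have h4 : W - b ∈ DD T r (Sx T (σ.map Prod.fst)) N :=
        hBd _ (Sx_subset T _) _ (sub_mem hWm.1 (Tr_mono hB hb)) h3
      have hy'l := (mem_YL.1 hy').1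
      have h5 : DD T r (Sx T (σ.map Prod.fst)) N ≤
          (Cons T r (N + h + K + c + L)).comap (opN F (σ ++ y')) := by
        refine sup_le (Submodule.span_le.2 ?_) ?_
        · rintro _ ⟨τ, hτ, e, he, rfl⟩
          have h6 : height (FreeMagma.lift e τ) ≤ K + N :=
            (height_lift_le he τ).trans (Nat.add_le_add_right (hK τ (Sx_subset T _ hτ)) N)
          have h7 := absorb (F := F) (r := r) hT hτ h6
          have h8 := opN_mem_Cons h7 y'
          rw [← opN_append] at h8
          refine Cons_mono ?_ h8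
          rw [hσl, hy'l]
          omega
        · intro p hp
          refine Cons_mono ?_ (opN_mem_Cons hp (σ ++ y'))
          rw [List.length_append, hσl, hy'l]
          omega
      have h6 : opN F (σ ++ y') W = opN F (σ ++ y') (W - b) + opN F (σ ++ y') b := by
        rw [← map_add, sub_add_cancel]
      rw [h6]
      refine add_mem (hCM (h5 h4)) (hTM ?_)
      refine Tr_mono ?_ (opN_mem_Tr hb (σ ++ y'))
      rw [List.length_append, hσl, hy'l]
      omega
  have h1 : ∑ y ∈ YL X0 L, opN F (σ ++ ρ y) (w y) ∈ M := by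
    have h2 : ∑ y ∈ YL X0 L, opN F (σ ++ ρ y) (w y) =
        ∑ y' ∈ YL X0 L, ∑ y ∈ (YL X0 L).filter fun y => ρ y = y', opN F (σ ++ ρ y) (w y) :=
      (Finset.sum_fiberwise_of_maps_to (fun y hy => (hYL _ _ (hρ y)).1 hy) _).symm
    rw [h2]
    refine Submodule.sum_mem _ fun y' hy' => ?_
    have h3 : ∑ y ∈ (YL X0 L).filter fun y => ρ y = y', opN F (σ ++ ρ y) (w y) =
        opN F (σ ++ y') (∑ y ∈ (YL X0 L).filter fun y => ρ y = y', w y) := by
      rw [map_sum]
      refine Finset.sum_congr rfl fun y hy => ?_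
      rw [(Finset.mem_filter.1 hy).2]
    rw [h3]
    exact hone y' hy'
  have h2 : ∑ y ∈ YL X0 L, opN F (σ ++ y) (w y) =
      ∑ y ∈ YL X0 L, (opN F (σ ++ y) (w y) - opN F (σ ++ ρ y) (w y)) +
        ∑ y ∈ YL X0 L, opN F (σ ++ ρ y) (w y) := by
    rw [← Finset.sum_add_distrib]
    refine Finset.sum_congr rfl fun y _ => ?_
    abel
  rw [h2]
  exact add_mem (Submodule.sum_mem _ fun y _ => hBIM (BI_of_eqv' hσ (hρ y) (hw y))) h1

end

end Pool.Agent.W_59b51d_u18
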