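import Pool.Agent.W_59b51d_u18.GE2

/-!
# The bound for the good side (GE3)
-/

namespace Pool.Agent.W_59b51d_u18

open Pool.Agent.W_59b51d_h18

section

variable {F : Type} [Field F] {X A : Type} [NonUnitalNonAssocRing A] [Module F A]
  [IsScalarTower F A A] [SMulCommClass F A A]

/-- Collection of the terms of an element of the second space of `Hs_le`. -/
theorem exists_mm' {R : List (Wd × Wd)} {a : X → A} {X0 : Finset X} {c L : ℕ} {s : A}
    (hs : s ∈ Submodule.span F {z : A | ∃ m ∈ A2 F A, ∃ σ ∈ YL X0 c,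
      ∃ p ∈ YY R X0 L, z = opA F a (σ ++ p.1) m - opA F a (σ ++ p.2) m}) :
    ∃ mm : CW X → A, (∀ x, mm x ∈ A2 F A) ∧ ∑ x ∈ YL X0 (c + L), opA F a x (mm x) = s ∧
      ∀ σ ∈ YL X0 c, ∀ l : CW X → F, (∀ p ∈ YY R X0 L, l p.1 = l p.2) →
        ∑ y ∈ YL X0 L, l y • mm (σ ++ y) = 0 := by
  classical
  induction hs using Submodule.span_induction with
  | zero =>
    exact ⟨fun _ => 0, fun _ => zero_mem _, by simp, fun _ _ _ _ => by simp⟩
  | add x y _ _ hx hy =>
    obtain ⟨m1, h1, h2, h3⟩ := hx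
    obtain ⟨m2, k1, k2, k3⟩ := hy
    refine ⟨fun x => m1 x + m2 x, fun x => add_mem (h1 x) (k1 x), ?_, fun σ hσ l hl => ?_⟩
    · simp only [map_add, Finset.sum_add_distrib, h2, k2]
    · simp only [smul_add, Finset.sum_add_distrib, h3 σ hσ l hl, k3 σ hσ l hl, add_zero]
  | smul e x _ hx =>
    obtain ⟨m1, h1, h2, h3⟩ := hx
    refine ⟨fun x => e • m1 x, fun x => Submodule.smul_mem _ _ (h1 x), ?_, fun σ hσ l hl => ?_⟩
    · simp only [map_smul, ← Finset.smul_sum, h2]
    · have h4 : ∀ y ∈ YL X0 L, l y • e • m1 (σ ++ y) = e • l y • m1 (σ ++ y) :=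
        fun y _ => smul_comm _ _ _
      rw [Finset.sum_congr rfl h4, ← Finset.smul_sum, h3 σ hσ l hl, smul_zero]
  | mem z hz =>
    obtain ⟨m, hm, σ', hσ', p, hp, rfl⟩ := hz
    have hmem : ∀ y ∈ YL X0 L, σ' ++ y ∈ YL X0 (c + L) := by
      intro y hy
      have h1 := mem_YL.1 hσ'
      have h2 := mem_YL.1 hy
      refine mem_YL.2 ⟨by rw [List.length_append, h1.1, h2.1], fun z hz => ?_⟩
      rcases List.mem_append.1 hz with hz | hz
      · exact h1.2 z hz
      · exact h2.2 z hz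
    refine ⟨fun x => (if x = σ' ++ p.1 then m else 0) - (if x = σ' ++ p.2 then m else 0),
      fun x => sub_mem (by split_ifs <;> simp [hm]) (by split_ifs <;> simp [hm]), ?_,
      fun σ hσ l hl => ?_⟩
    · simp only [map_sub, Finset.sum_sub_distrib, apply_ite (opA F a _), map_zero]
      have h1 : ∀ y ∈ YL X0 L, (∑ x ∈ YL X0 (c + L), if x = σ' ++ y then (opA F a x) m else 0) =
          opA F a (σ' ++ y) m := by
        intro y hy
        rw [Finset.sum_ite_eq' (YL X0 (c + L)) (σ' ++ y) fun x => opA F a x m, if_pos (hmem y hy)]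
      rw [h1 _ hp.1, h1 _ hp.2.1]
    · have hlσ := (mem_YL.1 hσ).1
      have hlσ' := (mem_YL.1 hσ').1
      have h1 : ∀ y0 ∈ YL X0 L, ∑ y ∈ YL X0 L, l y • (if σ ++ y = σ' ++ y0 then m else 0) =
          if σ = σ' then l y0 • m else 0 := by
        intro y0 hy0
        by_cases hss : σ = σ'
        · subst hss
          rw [if_pos rfl]
          have h2 : ∀ y ∈ YL X0 L, l y • (if σ ++ y = σ ++ y0 then m else 0) =
              if y = y0 then l y • m else 0 := by
            intro y _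
            by_cases hy : y = y0
            · rw [if_pos hy, if_pos (by rw [hy])]
            · rw [if_neg hy, if_neg (fun h => hy (List.append_cancel_left h)), smul_zero]
          rw [Finset.sum_congr rfl h2,
            Finset.sum_ite_eq' (YL X0 L) y0 fun y => l y • m, if_pos hy0]
        · rw [if_neg hss]
          refine Finset.sum_eq_zero fun y _ => ?_
          rw [if_neg (fun h => hss (List.append_inj h (by rw [hlσ, hlσ'])).1), smul_zero]
      simp only [smul_sub, Finset.sum_sub_distrib, h1 _ hp.1, h1 _ hp.2.1]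
      split_ifs
      · rw [hl p hp, sub_self]
      · rw [sub_zero]

/-- The condition of `one_sigma`.

Proof. Let `ev w = η₀ + ∑ (opA (σ ++ y) m - opA (σ ++ y') m)` (`Hs_le`, a finite sum). Collect the
terms: there is `mm : CW X → A` with values in `A2` such that `∑ x ∈ YL (c + L), opA x (mm x)` is the
second sum and, for every `σ`, `∑ y, l y • mm (σ ++ y) = 0` for all `l` with
`l p.1 = l p.2` for `p ∈ YY`. By `kernel` (for `n x = ev (q x) - mm x`), `n x` is in
`SS F A (Sx T x) ⊔ AB B`. If `l` vanishes on the `y` with a variable in `Sx T (σ ++ y)`: for the other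
`y`, `Sx T (σ ++ y) ⊆ Sx T σ` (`Sx_prefix`). Hence
`ev (∑ l y • q (σ ++ y)) = ∑ l y • n (σ ++ y)` is in `SS F A (Sx T σ) ⊔ AB B`. -/
theorem sigma_cond {R : List (Wd × Wd)} {Z : List Wd} {N : ℕ} {T : List (FreeMagma ℕ)}
    (hTT : T = Tmon R Z N) {r : List (Poly F X)} {a : X → A}
    (hpres : IsPres F T r a) (hlen : ∀ q ∈ R, q.1.length = q.2.length) (hA : Sat A T)
    (hpre : ∀ p ∈ PreRel F X R N, p.eval a = 0) (C : Coord F a)
    {c L B K : ℕ} (hL : ∀ q ∈ R, q.1.length + N ≤ L) (hK : ∀ τ ∈ allSubs T, height τ ≤ K)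
    (hc : K ≤ c) (hB : ∀ p ∈ r, ∀ q ∈ p, height q.2 ≤ B) (hB' : c + L + 1 ≤ B)
    (w w0 : NA F X) (q : CW X → NA F X) (hq : ∀ x, q x ∈ Pr F X) (hw0 : ev F a w0 ∈ AB F a B)
    (hw : ev F a w = ev F a w0 + ∑ x ∈ YL C.X0 (c + L), opA F a x (ev F a (q x)))
    (hH : ev F a w ∈ Hs F A R) (σ : CW X) (hσ : σ ∈ YL C.X0 c)
    (l : CW X → F) (hl1 : ∀ p ∈ YY R C.X0 L, l p.1 = l p.2)
    (hl2 : ∀ y, (∃ i : ℕ, FreeMagma.of i ∈ Sx T ((σ ++ y).map Prod.fst)) → l y = 0) :
    ev F a (∑ y ∈ YL C.X0 L, l y • q (σ ++ y)) ∈ SS F A (Sx T (σ.map Prod.fst)) ⊔ AB F a B := by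
  have h1 := Hs_le (c := c) hpres.surj hlen (hTT ▸ hA) hpre C hL hH
  obtain ⟨η, hη, s, hs, hηs⟩ := Submodule.mem_sup.1 h1
  obtain ⟨mm, hm1, hm2, hm3⟩ := exists_mm' hs
  have hAB : AB F a (c + L + 1) ≤ AB F a B := Submodule.map_mono (Tr_mono hB')
  have hn : ∀ x, ev F a (q x) - mm x ∈ A2 F A := fun x => sub_mem (ev_Pr (hq x)) (hm1 x)
  have hsum : ∑ x ∈ YL C.X0 (c + L), opA F a x (ev F a (q x) - mm x) ∈ AB F a B := by
    have h2 : ∑ x ∈ YL C.X0 (c + L), opA F a x (ev F a (q x) - mm x) = η - ev F a w0 := by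
      simp only [map_sub, Finset.sum_sub_distrib, hm2]
      have h3 : ∑ x ∈ YL C.X0 (c + L), opA F a x (ev F a (q x)) = η + s - ev F a w0 := by
        rw [hηs, hw]; abel
      rw [h3]; abel
    rw [h2]
    exact sub_mem (hAB hη) hw0
  have hprod : ∀ t ∈ T, ∃ α β : FreeMagma ℕ, t = α * β := by
    rw [hTT]; exact Tmon_prod R Z N
  have hvar : ∃ j : ℕ, FreeMagma.of j ∈ allSubs T := by
    refine ⟨0, mem_allSubs.2 ⟨metab.1, ?_, ?_⟩⟩
    · rw [hTT]; exact List.mem_cons_self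
    · change FreeMagma.of 0 ∈ FreeMagma.mul _ _ :: (subs (FreeMagma.mul _ _) ++ subs _)
      simp [subs]
  have hker : ∀ x ∈ YL C.X0 (c + L), ev F a (q x) - mm x ∈
      SS F A (Sx T (x.map Prod.fst)) ⊔ AB F a B := fun x hx =>
    kernel hpres hprod hvar C hB (c + L) _ hn hsum x hx
  have hfin : ev F a (∑ y ∈ YL C.X0 L, l y • q (σ ++ y)) =
      ∑ y ∈ YL C.X0 L, l y • (ev F a (q (σ ++ y)) - mm (σ ++ y)) := by
    simp only [smul_sub, Finset.sum_sub_distrib, hm3 σ hσ l hl1, sub_zero, map_sum, map_smul]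
  rw [hfin]
  have hσ' := mem_YL.1 hσ
  refine Submodule.sum_mem _ fun y hy => ?_
  by_cases hv : ∃ i : ℕ, FreeMagma.of i ∈ Sx T ((σ ++ y).map Prod.fst)
  · rw [hl2 y hv, zero_smul]
    exact zero_mem _
  · refine Submodule.smul_mem _ _ ?_
    have hy' := mem_YL.1 hy
    have hmem : σ ++ y ∈ YL C.X0 (c + L) := by
      refine mem_YL.2 ⟨by rw [List.length_append, hσ'.1, hy'.1], fun z hz => ?_⟩
      rcases List.mem_append.1 hz with hz | hz
      · exact hσ'.2 z hz
      · exact hy'.2 z hz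
    have h2 := hker _ hmem
    rw [List.map_append] at h2 hv
    have h3 : Sx T (σ.map Prod.fst ++ y.map Prod.fst) ⊆ Sx T (σ.map Prod.fst) := by
      refine Sx_prefix (K := K) (fun t ht => hK t (mem_allSubs_self ht)) ?_
        (fun i hi => hv ⟨i, hi⟩)
      rw [List.length_map, hσ'.1]
      exact hc
    exact (sup_le_sup_right (SS_mono (F := F) (A := A) h3) (AB F a B)) h2

end

end Pool.Agent.W_59b51d_u18
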