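import Pool.Agent.W_59b51d_u18.GE3

/-!
# The bound for the good side (GE4)
-/

namespace Pool.Agent.W_59b51d_u18

open Pool.Agent.W_59b51d_h18

section

variable {F : Type} [Field F] {X A : Type} [NonUnitalNonAssocRing A] [Module F A]
  [IsScalarTower F A A] [SMulCommClass F A A]

/-- A common bound for a finite dimensional space of polynomials with values in the ideal. -/
theorem GE4_finite [Finite X] {R : List (Wd × Wd)} {Z : List Wd} {N n : ℕ}
    {r : List (Poly F X)} {a : X → A}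
    (hpres : IsPres F (Tmon R Z N) r a) (hlen : ∀ q ∈ R, q.1.length = q.2.length)
    (hA : Sat A (Tmon R Z N)) (hpre : ∀ p ∈ PreRel F X R N, p.eval a = 0) (C : Coord F a)
    (hL : ∀ q ∈ R, q.1.length + N ≤ n) (h : ℕ) :
    ∃ H, ∀ w ∈ Tr F X h, ev F a w ∈ Hs F A R →
      w ∈ Cons (Tmon R Z N) r H ⊔ BI F (XXs R C.X0 n) H := by
  have hfd : FiniteDimensional F (Tr F X h) := by
    refine FiniteDimensional.span_of_finite F ?_
    refine ((finite_height (X := X) h).image (tr F)).subset ?_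
    rintro _ ⟨m, hm, rfl⟩
    exact ⟨m, hm, rfl⟩
  let M : Submodule F (NA F X) := Tr F X h ⊓ (Hs F A R).comap (ev F a)
  have hM : M.FG := by
    have : FiniteDimensional F M := Submodule.finiteDimensional_of_le inf_le_left
    exact Module.Finite.iff_fg.1 this
  obtain ⟨B, hB⟩ := hM
  have h2 : ∀ p ∈ B, ∃ H, p ∈ Cons (Tmon R Z N) r H ⊔ BI F (XXs R C.X0 n) H := fun p hp => by
    have hpM : p ∈ M := by rw [← hB]; exact Submodule.subset_span hp
    obtain ⟨H, b, hb, hbp⟩ := Hs_le_ev hpres.surj hlen hA hpre C hL hpM.2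
    have h3 : ev F a (p - b) = 0 := by rw [map_sub, hbp, sub_self]
    obtain ⟨H', hH'⟩ := (hpres.ker _).1 h3
    refine ⟨max H H', ?_⟩
    have e : p = (p - b) + b := by abel
    rw [e]
    exact add_mem (Submodule.mem_sup_left (Cons_mono (le_max_right _ _) hH'))
      (Submodule.mem_sup_right (BI_mono (le_max_left _ _) hb))
  choose! Hf hHf using h2
  refine ⟨B.sup Hf, fun w hw hwS => ?_⟩
  have hwM : w ∈ M := ⟨hw, hwS⟩
  rw [← hB] at hwM
  refine (Submodule.span_le.2 ?_) hwM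
  intro p hp
  have hp' : p ∈ B := hp
  have hle : Hf p ≤ B.sup Hf := Finset.le_sup (f := Hf) hp'
  have h4 : Cons (Tmon R Z N) r (Hf p) ⊔ BI F (XXs R C.X0 n) (Hf p) ≤
      Cons (Tmon R Z N) r (B.sup Hf) ⊔ BI F (XXs R C.X0 n) (B.sup Hf) :=
    sup_le_sup (Cons_mono hle) (BI_mono hle)
  exact h4 (hHf p hp')

/-- **The bound.**

Proof. `c = K` (a bound for the heights of the subtrees of `T`), `L` = maximal length of a side of `R`
plus `N`, `B` as in `sigma_cond`. For `w ∈ Tr h` we may assume `h ≥ B + c + L` (replace `h` by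
`h + B + c + L`). `decomp`, `sum_YL_add`, `sigma_cond`, `one_sigma` (with `exists_Bd`) give
`w ∈ Cons (linear in h) + BI h + Tr (B + c + L)`. The component `l'` in `Tr (B + c + L)` has a value in
`Hs F A R` (`ev_BI`), so `l'` is in `Cons H + BI H` for some `H` (`Hs_le_ev`, `IsPres.ker`). The space
of all such `l'` is finite dimensional (`finite_height`), so a common `H` exists. -/
theorem exists_goodBound [Finite X] {R : List (Wd × Wd)} {Z : List Wd} {N : ℕ}
    {r : List (Poly F X)} {a : X → A}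
    (hpres : IsPres F (Tmon R Z N) r a) (hlen : ∀ q ∈ R, q.1.length = q.2.length)
    (hA : Sat A (Tmon R Z N)) (hpre : ∀ p ∈ PreRel F X R N, p.eval a = 0) :
    ∃ XX : Set (CW X × CW X), XX.Finite ∧ (∀ H, ∀ w ∈ BI F XX H, ev F a w ∈ Hs F A R) ∧
      ∃ c K : ℕ, ∀ h, ∀ w ∈ Tr F X h, ev F a w ∈ Hs F A R →
        w ∈ Cons (Tmon R Z N) r (c + K * h) ⊔ BI F XX (c + K * h) := by
  obtain ⟨C⟩ := exists_coord hpres.surj
  have hmul := Tmon_multilinear R Z N
  have hm : metab.1 ∈ Tmon R Z N := List.mem_cons_self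
  have hinst : Inst metab.1 metab.1 := by
    refine ⟨FreeMagma.of, ?_⟩
    rfl
  obtain ⟨c₁, K₁, hBd⟩ := exists_Bd hmul (fun f g k hf hg _ => Or.inl (Or.inl (by
    rw [Tmon_fork R Z N hf, Tmon_fork R Z N hg]
    exact hinst))) hpres
  -- the constants
  obtain ⟨K, hK⟩ : ∃ K, ∀ τ ∈ allSubs (Tmon R Z N), height τ ≤ K :=
    ⟨(allSubs (Tmon R Z N)).sup height, fun τ hτ => Finset.le_sup (f := height) hτ⟩
  obtain ⟨L, hL⟩ : ∃ L, ∀ q ∈ R, q.1.length + N ≤ L := by
    refine ⟨(R.map fun q => q.1.length).sum + N, fun q hq => ?_⟩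
    have := List.single_le_sum (l := R.map fun q => q.1.length) (by simp) _
      (List.mem_map.2 ⟨q, hq, rfl⟩)
    omega
  obtain ⟨B, hB, hB'⟩ : ∃ B, (∀ p ∈ r, ∀ q ∈ p, height q.2 ≤ B) ∧ K + L + 1 ≤ B := by
    refine ⟨((r.flatMap id).map fun q => height q.2).sum + (K + L + 1), fun p hp q hq => ?_,
      by omega⟩
    have := List.single_le_sum (l := (r.flatMap id).map fun q => height q.2) (by simp) _
      (List.mem_map.2 ⟨q, List.mem_flatMap.2 ⟨p, hp, hq⟩, rfl⟩)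
    omega
  obtain ⟨K₂, hdec⟩ := decomp hpres hm C (K + L)
  have hL' : ∀ q ∈ R, q.1.length + N ≤ K + L := fun q hq => (hL q hq).trans (by omega)
  obtain ⟨H₀, hH₀⟩ := GE4_finite hpres hlen hA hpre C hL' (B + K + L)
  refine ⟨XXs R C.X0 (K + L), finite_XXs _ _ _, fun H w hw => ev_BI a hw,
    c₁ + K₁ * B + B + K + K + L + K₂ + H₀, K₁ + 1, fun h w hw hwH => ?_⟩
  obtain ⟨q, hq, hdq⟩ := hdec (h + B) w (Tr_mono (by omega) hw)
  obtain ⟨w0, hw0, k0, hk0, hsum⟩ := Submodule.mem_sup.1 hdq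
  have hevk : ev F a k0 = 0 := (hpres.ker _).2 ⟨_, hk0⟩
  have hw0' : ev F a w0 ∈ AB F a B := ⟨w0, Tr_mono (by omega) hw0, rfl⟩
  have hweq : w = w0 + k0 + ∑ x ∈ YL C.X0 (K + L), opN F x (q x) := by
    rw [hsum]; abel
  have hev : ev F a w = ev F a w0 + ∑ x ∈ YL C.X0 (K + L), opA F a x (ev F a (q x)) := by
    conv_lhs => rw [hweq]
    rw [map_add, map_add, hevk, add_zero, map_sum]
    congr 1
    exact Finset.sum_congr rfl fun x _ => ev_opN a x _
  -- the sum
  have hS : ∑ x ∈ YL C.X0 (K + L), opN F x (q x) ∈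
      Cons (Tmon R Z N) r (c₁ + K₁ * (h + B) + (h + B) + K + K + L) ⊔
        BI F (XXs R C.X0 (K + L)) (h + B) ⊔ Tr F X (B + K + L) := by
    rw [sum_YL_add]
    refine Submodule.sum_mem _ fun σ hσ => ?_
    exact one_sigma hmul hK (by omega) (hBd (h + B)) hσ (fun y => q (σ ++ y))
      (fun y => hq _) (fun l hl1 hl2 => sigma_cond rfl hpres hlen hA hpre C hL hK le_rfl hB hB'
        w w0 q (fun x => (hq x).2) hw0' hev hwH σ hσ l hl1 hl2)
  obtain ⟨kb, hkb, l', hl', hkl⟩ := Submodule.mem_sup.1 hS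
  obtain ⟨k, hk, b, hb, hkb'⟩ := Submodule.mem_sup.1 hkb
  -- the remainder
  have hrem : w0 + l' ∈ Tr F X (B + K + L) := add_mem (Tr_mono (by omega) hw0) hl'
  have hweq2 : w = k0 + k + b + (w0 + l') := by
    rw [hweq, ← hkl, ← hkb']; abel
  have hremH : ev F a (w0 + l') ∈ Hs F A R := by
    have e : w0 + l' = w - k0 - k - b := by
      conv_rhs => rw [hweq2]
      abel
    rw [e, map_sub, map_sub, map_sub, hevk, (hpres.ker k).2 ⟨_, hk⟩, sub_zero, sub_zero]
    exact sub_mem hwH (ev_BI a hb)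
  have hfin := hH₀ _ hrem hremH
  rw [hweq2]
  have e1 : h + B + K₂ ≤ c₁ + K₁ * B + B + K + K + L + K₂ + H₀ + (K₁ + 1) * h := by
    ring_nf
    omega
  have e2 : c₁ + K₁ * (h + B) + (h + B) + K + K + L ≤
      c₁ + K₁ * B + B + K + K + L + K₂ + H₀ + (K₁ + 1) * h := by
    ring_nf
    omega
  have e3 : h + B ≤ c₁ + K₁ * B + B + K + K + L + K₂ + H₀ + (K₁ + 1) * h := by
    ring_nf
    omega
  have e4 : H₀ ≤ c₁ + K₁ * B + B + K + K + L + K₂ + H₀ + (K₁ + 1) * h := by
    ring_nf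
    omega
  refine add_mem (add_mem (add_mem ?_ ?_) ?_) ?_
  · exact Submodule.mem_sup_left (Cons_mono e1 hk0)
  · exact Submodule.mem_sup_left (Cons_mono e2 hk)
  · exact Submodule.mem_sup_right (BI_mono e3 hb)
  · have h4 : Cons (Tmon R Z N) r H₀ ⊔ BI F (XXs R C.X0 (K + L)) H₀ ≤
        Cons (Tmon R Z N) r (c₁ + K₁ * B + B + K + K + L + K₂ + H₀ + (K₁ + 1) * h) ⊔
          BI F (XXs R C.X0 (K + L))
            (c₁ + K₁ * B + B + K + K + L + K₂ + H₀ + (K₁ + 1) * h) :=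
      sup_le_sup (Cons_mono e4) (BI_mono e4)
    exact h4 hfin

end

end Pool.Agent.W_59b51d_u18
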