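import Pool.Agent.W_59b51d_u18.GE
import Pool.Agent.W_59b51d_h18.SComp

/-!
# The decision procedure (GF1)
-/

namespace Pool.Agent.W_59b51d_u18

open Pool.Agent.W_59b51d_h18

/-- The code of the action of a coloured word. -/
def cact {n : ℕ} : ℕ → CW (Fin n) → ℕ
  | c, [] => c
  | c, (s, i) :: x => cact (if s then cmul c (2 * i.1) else cmul (2 * i.1) c) x

theorem cact_eq {n : ℕ} (m : FreeMagma (Fin n)) (x : CW (Fin n)) :
    cact (code m) x = code (act m (cm x)) := by
  induction x generalizing m with
  | nil => rfl
  | cons y x ih =>
    obtain ⟨s, i⟩ := y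
    cases s with
    | true => exact ih (m * FreeMagma.of i)
    | false => exact ih (FreeMagma.of i * m)

/-- The codes of the instances. -/
def CBI {F : Type} [Field F] {n : ℕ} (XX : List (CW (Fin n) × CW (Fin n))) (H : ℕ) :
    List (List (F × ℕ)) :=
  XX.flatMap fun p => (CM n H).flatMap fun c => (CM n H).map fun c' =>
    [((1 : F), cact (cmul c c') p.1), ((-1 : F), cact (cmul c c') p.2)]

/-- `CBI` is primitive recursive in `H`: induction on `XX`; for a fixed word `x`, `cact · x` is a
composition of primitive recursive functions. -/
theorem primrec_CBI {F : Type} [Field F] [Primcodable F] {n : ℕ}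
    (XX : List (CW (Fin n) × CW (Fin n))) : Primrec (CBI (F := F) XX) := by
  have hx : ∀ x : CW (Fin n), Primrec fun c : ℕ => cact c x := by
    intro x
    induction x with
    | nil => exact Primrec.id
    | cons y x ih =>
      obtain ⟨s, i⟩ := y
      cases s with
      | true => exact ih.comp (primrec_cmul.comp Primrec.id (Primrec.const (2 * i.1)))
      | false => exact ih.comp (primrec_cmul.comp (Primrec.const (2 * i.1)) Primrec.id)
  unfold CBI
  induction XX with
  | nil => exact Primrec.const _
  | cons p XX ih =>
    have h1 : Primrec fun H => (CM n H).flatMap fun c => (CM n H).map fun c' =>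
        [((1 : F), cact (cmul c c') p.1), ((-1 : F), cact (cmul c c') p.2)] := by
      refine Primrec.list_flatMap (primrec_CM n) ?_
      refine Primrec.list_map ((primrec_CM n).comp Primrec.fst) ?_
      have h2 : Primrec fun q : (ℕ × ℕ) × ℕ => cmul q.1.2 q.2 :=
        primrec_cmul.comp (Primrec.snd.comp Primrec.fst) Primrec.snd
      refine Primrec.list_cons.comp (Primrec.pair (Primrec.const 1) ((hx p.1).comp h2)) ?_
      exact Primrec.list_cons.comp (Primrec.pair (Primrec.const (-1)) ((hx p.2).comp h2))
        (Primrec.const [])
    exact (Primrec.list_append.comp h1 ih).of_eq fun H => by simp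

end Pool.Agent.W_59b51d_u18
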