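import Pool.Agent.W_59b51d_u18.GF1

/-!
# The decision procedure (GF2)
-/

namespace Pool.Agent.W_59b51d_u18

open Pool.Agent.W_59b51d_h18

/-- The span of the instances, in codes. -/
theorem map_BI {F : Type} [Field F] {n : ℕ} (XX : List (CW (Fin n) × CW (Fin n))) (H : ℕ) :
    Submodule.map (Finsupp.lmapDomain F F code) (BI F {p | p ∈ XX} H) = spn (CBI XX H) := by
  have hv : ∀ (p : CW (Fin n) × CW (Fin n)) (m m' : FreeMagma (Fin n)),
      Finsupp.lmapDomain F F code (opN F p.1 (tr F (m * m')) - opN F p.2 (tr F (m * m'))) =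
        vec [((1 : F), cact (cmul (code m) (code m')) p.1),
          ((-1 : F), cact (cmul (code m) (code m')) p.2)] := by
    intro p m m'
    have h1 : cmul (code m) (code m') = code (m * m') := rfl
    rw [opN_tr, opN_tr, h1, cact_eq, cact_eq, vec_cons, vec_cons, vec_nil, map_sub, add_zero,
      tr, tr, Finsupp.lmapDomain_apply, Finsupp.lmapDomain_apply, Finsupp.mapDomain_single,
      Finsupp.mapDomain_single, sub_eq_add_neg, Finsupp.single_neg]
  rw [BI, Submodule.map_span, spn]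
  congr 1
  ext v
  constructor
  · rintro ⟨z, ⟨p, hp, m, m', hm, hm', rfl⟩, rfl⟩
    rw [hv]
    refine ⟨_, ?_, rfl⟩
    refine List.mem_flatMap.2 ⟨p, hp, List.mem_flatMap.2 ⟨code m, ?_, List.mem_map.2
      ⟨code m', ?_, rfl⟩⟩⟩
    · rw [CM_eq]
      exact List.mem_map.2 ⟨m, (mem_PM n H m).2 hm, rfl⟩
    · rw [CM_eq]
      exact List.mem_map.2 ⟨m', (mem_PM n H m').2 hm', rfl⟩
  · rintro ⟨g, hg, rfl⟩
    obtain ⟨p, hp, hg⟩ := List.mem_flatMap.1 hg
    obtain ⟨c, hc, hg⟩ := List.mem_flatMap.1 hg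
    obtain ⟨c', hc', rfl⟩ := List.mem_map.1 hg
    rw [CM_eq] at hc hc'
    obtain ⟨m, hm, rfl⟩ := List.mem_map.1 hc
    obtain ⟨m', hm', rfl⟩ := List.mem_map.1 hc'
    exact ⟨_, ⟨p, hp, m, m', (mem_PM n H m).1 hm, (mem_PM n H m').1 hm', rfl⟩, hv p m m'⟩

/-- The word problem is solvable if vanishing is membership in bounded spans. Proof: as
`solvable_of_bound`, with `CG T r H ++ CBI XX H`. -/
theorem solvable2_of_bound {F : Type} [Field F] [Primcodable F]
    (hadd : Computable₂ fun a b : F => a + b) (hmul : Computable₂ fun a b : F => a * b) {n : ℕ}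
    (T : List (FreeMagma ℕ)) (hT : ∀ t ∈ T, Multilinear t) (r : List (Poly F (Fin n)))
    (XX : List (CW (Fin n) × CW (Fin n))) (c K : ℕ) (T2 : List MId) (r2 : List (Poly F (Fin n)))
    (hb : ∀ (h : ℕ) (w : Poly F (Fin n)), (∀ q ∈ w, height q.2 ≤ h) →
      (Vanishes2 F T2 r2 w ↔
        toP w ∈ Cons T r (c + K * h) ⊔ BI F {p | p ∈ XX} (c + K * h))) :
    Solvable2 F T2 r2 := by
  obtain ⟨f, hf, hfs⟩ := computable_spn (F := F) hadd hmul
  have h0 : Computable fun L : List (F × ℕ) => c + K * bnd L := by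
    refine Primrec.to_comp ?_
    exact Primrec.nat_add.comp (Primrec.const c)
      (Primrec.nat_mul.comp (Primrec.const K) primrec_bnd)
  have h1 : Computable fun L : List (F × ℕ) =>
      CG T r (c + K * bnd L) ++ CBI XX (c + K * bnd L) :=
    Computable.list_append.comp ((primrec_CG T r).to_comp.comp h0)
      ((primrec_CBI XX).to_comp.comp h0)
  refine ⟨fun L => f (L, CG T r (c + K * bnd L) ++ CBI XX (c + K * bnd L)),
    hf.comp (Computable.pair Computable.id h1), fun w => ?_⟩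
  rw [hfs]
  have h2 : ∀ q ∈ w, height q.2 ≤ bnd (cpoly w) := by
    intro q hq
    have h3 : ((q.1, code q.2) : F × ℕ) ∈ cpoly w := List.mem_map.2 ⟨q, hq, rfl⟩
    exact (height_le_code q.2).trans (le_bnd _ _ h3)
  have h4 : ∀ G G' : List (List (F × ℕ)), spn (G ++ G') = spn G ⊔ spn G' := by
    intro G G'
    rw [spn, spn, spn, ← Submodule.span_union]
    congr 1
    ext v
    constructor
    · rintro ⟨g, hg, rfl⟩
      rcases List.mem_append.1 hg with hg | hg
      · exact Or.inl ⟨g, hg, rfl⟩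
      · exact Or.inr ⟨g, hg, rfl⟩
    · rintro (⟨g, hg, rfl⟩ | ⟨g, hg, rfl⟩)
      · exact ⟨g, List.mem_append_left _ hg, rfl⟩
      · exact ⟨g, List.mem_append_right _ hg, rfl⟩
  rw [hb _ w h2]
  change vec (cpoly w) ∈ spn (CG T r (c + K * bnd (cpoly w)) ++ CBI XX (c + K * bnd (cpoly w))) ↔ _
  rw [h4, ← map_Cons T hT, ← map_BI, ← Submodule.map_sup, vec_cpoly]
  constructor
  · rintro ⟨p, hp, h⟩
    have h5 : p = toP w := Finsupp.mapDomain_injective code_injective h
    rwa [← h5]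
  · intro h
    exact ⟨_, h, rfl⟩

end Pool.Agent.W_59b51d_u18
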