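import Pool.Agent.W_59b51d_u18.Zip

/-!
# The legitimate zippers (LegA)
-/

namespace Pool.Agent.W_59b51d_u18

section

variable {Fl C : Type} [Fintype Fl] [DecidableEq Fl] (M : Mach Fl C)

/-- The legitimate zippers: the zone around the head is complete and in a legitimate state; for a
nested zone the parent head in front of a run of blanks instead of the zone is legitimate; the base
zone has nothing on the top side and only blanks on the deep side. -/
inductive Leg (LD LU : C → (Fl → ℕ) → Prop) : List (Lt Fl C) → Lt Fl C → List (Lt Fl C) → Prop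
  | base {c : C} {f : Fl → ℕ} {x j : ℕ} : LU c f → Valid M f → x ≤ f M.z →
      Leg LD LU (tops f none x) (hd c f x) (deeps f none x (f M.z) ++ List.replicate j (.P ∅))
  | nest {c c' : C} {f : Fl → ℕ} {S : Finset Fl} {x : ℕ} {T D : List (Lt Fl C)} : LD c f →
      Valid M f → x ≤ f M.z → Leg LD LU T (.A c' S) (List.replicate (f M.z + 1) (.P ∅) ++ D) →
      Leg LD LU (tops f (some (c', S)) x ++ T) (hd c f x)
        (deeps f (some (c', S)) x (f M.z) ++ D)

/-- The assumptions on the legitimate states. -/
structure LegOK (LD LU : C → (Fl → ℕ) → Prop) : Prop where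
  tyd : M.ty M.d0 = true
  tyu : M.ty M.u0 = false
  az : M.a ≠ M.z
  bz : M.b ≠ M.z
  dty : ∀ c f, LD c f → M.ty c = true
  uty : ∀ c f, LU c f → M.ty c = false
  dinv : ∀ n, Inv M n LD
  uinv : ∀ n, Inv M n LU
  dkil : ∀ c f, Valid M f → LD c f → ¬ Killed M c f
  ukil : ∀ c f, Valid M f → LU c f → ¬ Killed M c f
  dini : LD M.d0 (zeroAt M 0)
  dz : ∀ f, Valid M f → (LD M.d0 f ↔ LD M.d0 (Function.update f M.z (f M.z + 1)))
  uz : ∀ f, Valid M f → (LU M.u0 f ↔ LU M.u0 (Function.update f M.z (f M.z + 1)))

variable {M} {LD LU : C → (Fl → ℕ) → Prop}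

/-- The zone around the head of a legitimate zipper. -/
theorem Leg.zone {T D : List (Lt Fl C)} {h : Lt Fl C} (hl : Leg M LD LU T h D) :
    ∃ (c : C) (f : Fl → ℕ) (μ : Option (C × Finset Fl)) (x : ℕ) (T' D' : List (Lt Fl C)),
      T = tops f μ x ++ T' ∧ h = hd c f x ∧ D = deeps f μ x (f M.z) ++ D' ∧ Valid M f ∧
      x ≤ f M.z ∧
      ((μ = none ∧ LU c f ∧ T' = [] ∧ ∃ j, D' = List.replicate j (.P ∅)) ∨
        ∃ c' S, μ = some (c', S) ∧ LD c f ∧
          Leg M LD LU T' (.A c' S) (List.replicate (f M.z + 1) (.P ∅) ++ D')) := by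
  cases hl with
  | base h1 h2 h3 =>
    rename_i c f x j
    exact ⟨c, f, none, x, [], List.replicate j (.P ∅), by simp, rfl, rfl, h2, h3,
      Or.inl ⟨rfl, h1, rfl, j, rfl⟩⟩
  | nest h1 h2 h3 h4 =>
    rename_i c c' f S x T D
    exact ⟨c, f, some (c', S), x, T, D, rfl, rfl, rfl, h2, h3,
      Or.inr ⟨c', S, rfl, h1, h4⟩⟩

theorem cell_not_isHead (f : Fl → ℕ) (μ : Option (C × Finset Fl)) (y : ℕ) :
    ¬ (cell f μ y).isHead := by
  unfold cell
  split_ifs <;> simp [Lt.isHead]

theorem tops_not_isHead (f : Fl → ℕ) (μ : Option (C × Finset Fl)) (x : ℕ) :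
    ∀ l ∈ tops f μ x, ¬ l.isHead := by
  induction x with
  | zero => simp [tops]
  | succ x ih =>
    intro l hl
    rw [tops, List.mem_cons] at hl
    rcases hl with rfl | hl
    · exact cell_not_isHead f μ x
    · exact ih l hl

theorem deeps_not_isHead (f : Fl → ℕ) (μ : Option (C × Finset Fl)) (x n : ℕ) :
    ∀ l ∈ deeps f μ x n, ¬ l.isHead := by
  intro l hl
  rw [deeps, List.mem_map] at hl
  obtain ⟨y, -, rfl⟩ := hl
  exact cell_not_isHead f μ y

theorem hd_isHead (c : C) (f : Fl → ℕ) (x : ℕ) : (hd c f x).isHead := by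
  unfold hd
  split_ifs <;> simp [Lt.isHead]

/-- The last cell of the zone is not blank. -/
theorem deeps_append_ne {f : Fl → ℕ} {μ : Option (C × Finset Fl)} {z : Fl} {x : ℕ}
    (hx : x ≤ f z) (D : List (Lt Fl C)) : deeps f μ x (f z) ≠ D ++ [.P ∅] := by
  intro h
  have h1 : deeps f μ x (f z) = (List.range' x (f z - x)).map (cell f μ) ++ [cell f μ (f z)] := by
    rw [deeps]
    have h2 : f z + 1 - x = (f z - x) + 1 := by omega
    rw [h2, List.range'_concat, List.map_append]
    have h3 : x + 1 * (f z - x) = f z := by omega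
    rw [h3]
    rfl
  rw [h1] at h
  have h4 := List.append_inj_right' h rfl
  have h5 : cell f μ (f z) = .P ∅ := by simpa using h4
  unfold cell at h5
  split_ifs at h5 with h6
  simp only [Lt.P.injEq] at h5
  have h7 : z ∈ lev f (f z) := mem_lev.2 rfl
  rw [h5] at h7
  simp at h7

theorem Leg.head {T D : List (Lt Fl C)} {h : Lt Fl C} (hl : Leg M LD LU T h D) :
    h.isHead ∧ (∀ l ∈ T, ¬ l.isHead) ∧ ∀ l ∈ D, ¬ l.isHead := by
  induction hl with
  | base h1 h2 h3 =>
    refine ⟨hd_isHead _ _ _, tops_not_isHead _ _ _, ?_⟩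
    intro l hl
    rw [List.mem_append] at hl
    rcases hl with hl | hl
    · exact deeps_not_isHead _ _ _ _ l hl
    · rw [List.eq_of_mem_replicate hl]
      simp [Lt.isHead]
  | nest h1 h2 h3 h4 ih =>
    refine ⟨hd_isHead _ _ _, ?_, ?_⟩
    · intro l hl
      rw [List.mem_append] at hl
      rcases hl with hl | hl
      · exact tops_not_isHead _ _ _ l hl
      · exact ih.2.1 l hl
    · intro l hl
      rw [List.mem_append] at hl
      rcases hl with hl | hl
      · exact deeps_not_isHead _ _ _ _ l hl
      · exact ih.2.2 l (List.mem_append_right _ hl)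

/-- Adding blanks at the deep end. Proof: induction on `Leg`; for the converse, induction on the
length of `T ++ D`, the last letter of the deep side of the zone is not blank (it contains `z`). -/
theorem leg_blank {T D : List (Lt Fl C)} {h : Lt Fl C} :
    Leg M LD LU T h (D ++ [.P ∅]) ↔ Leg M LD LU T h D := by
  constructor
  · intro hl
    generalize hE : D ++ [.P ∅] = E at hl
    induction hl generalizing D with
    | base h1 h2 h3 =>
      rename_i c f x j
      rcases Nat.eq_zero_or_pos j with rfl | hj
      · rw [List.replicate_zero, List.append_nil] at hE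
        exact absurd hE.symm (deeps_append_ne h3 D)
      · obtain ⟨j', rfl⟩ : ∃ j', j = j' + 1 := ⟨j - 1, by omega⟩
        rw [List.replicate_succ', ← List.append_assoc] at hE
        rw [List.append_inj_left' hE rfl]
        exact Leg.base h1 h2 h3
    | nest h1 h2 h3 h4 ih =>
      rename_i c c' f S x T D'
      rcases List.eq_nil_or_concat D' with rfl | ⟨D'', l, rfl⟩
      · rw [List.append_nil] at hE
        exact absurd hE.symm (deeps_append_ne h3 D)
      · rw [List.concat_eq_append, ← List.append_assoc] at hE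
        have h5 := List.append_inj_left' hE rfl
        have h6 := List.append_inj_right' hE rfl
        have h7 : l = .P ∅ := by simpa using h6.symm
        subst h7
        rw [h5]
        refine Leg.nest h1 h2 h3 (ih ?_)
        rw [List.concat_eq_append, ← List.append_assoc]
  · intro hl
    induction hl with
    | base h1 h2 h3 =>
      rename_i c f x j
      rw [List.append_assoc, ← List.replicate_succ']
      exact Leg.base h1 h2 h3
    | nest h1 h2 h3 h4 ih =>
      rw [List.append_assoc]
      refine Leg.nest h1 h2 h3 ?_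
      rw [← List.append_assoc]
      exact ih

end

end Pool.Agent.W_59b51d_u18
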