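import Pool.Agent.W_59b51d_u18.LegB

/-!
# The legitimate zippers (LegC)
-/

namespace Pool.Agent.W_59b51d_u18

section

variable {Fl C : Type} [Fintype Fl] [DecidableEq Fl] (M : Mach Fl C)

variable {M} {LD LU : C → (Fl → ℕ) → Prop}

namespace LegCAux

open LegBAux

/-- a move of the machine preserves the context condition, backwards -/
theorem ZW.adj' (hL : LegOK M LD LU) {c c' : C} {f f' : Fl → ℕ} {μ : Option (C × Finset Fl)}
    {T' D' : List (Lt Fl C)} (h : ZW M LD LU c' f' μ T' D') (hv : Valid M f)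
    (ha : Adj M c f c' f') (hz : f' M.z = f M.z) : ZW M LD LU c f μ T' D' := by
  rcases h with ⟨h1, h2, h3, j, h4⟩ | ⟨c1, S, h1, h2, h3⟩
  · exact Or.inl ⟨h1, (hL.uinv _ c f c' f' hv rfl ha).2 h2, h3, j, h4⟩
  · refine Or.inr ⟨c1, S, h1, (hL.dinv _ c f c' f' hv rfl ha).2 h2, ?_⟩
    rw [← hz]
    exact h3

/-- the end marker moves back -/
theorem ZW.zdown (hL : LegOK M LD LU) {c : C} {f : Fl → ℕ} {μ : Option (C × Finset Fl)}
    {T' D' : List (Lt Fl C)} (hv : Valid M f) (hc : c = M.d0 ∨ c = M.u0)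
    (h : ZW M LD LU c (Function.update f M.z (f M.z + 1)) μ T' D') :
    ZW M LD LU c f μ T' (.P ∅ :: D') := by
  rcases h with ⟨h1, h2, h3, j, h4⟩ | ⟨c1, S, h1, h2, h3⟩
  · have hcu : c = M.u0 := by
      rcases hc with rfl | hc
      · have e1 := hL.uty _ _ h2
        rw [hL.tyd] at e1
        exact absurd e1 (by simp)
      · exact hc
    subst hcu
    refine Or.inl ⟨h1, (hL.uz f hv).2 h2, h3, j + 1, ?_⟩
    rw [h4, List.replicate_succ]
  · have hcd : c = M.d0 := by
      rcases hc with hc | rfl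
      · exact hc
      · have e1 := hL.dty _ _ h2
        rw [hL.tyu] at e1
        exact absurd e1 (by simp)
    subst hcd
    refine Or.inr ⟨c1, S, h1, (hL.dz f hv).2 h2, ?_⟩
    have e : (List.replicate (Function.update f M.z (f M.z + 1) M.z + 1) (Lt.P ∅ : Lt Fl C) ++ D') =
        List.replicate (f M.z + 1) (.P ∅) ++ (.P ∅ :: D') := by
      rw [Function.update_self, List.replicate_succ' (n := f M.z + 1), List.append_assoc]
      rfl
    rw [e] at h3
    exact h3

theorem erase_inj {φ ψ : Finset Fl} {i : Fl} (h1 : i ∈ φ) (h2 : i ∈ ψ)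
    (h : φ.erase i = ψ.erase i) : φ = ψ := by
  rw [← Finset.insert_erase h1, h, Finset.insert_erase h2]

theorem insert_inj {φ ψ : Finset Fl} {i : Fl} (h1 : i ∉ φ) (h2 : i ∉ ψ)
    (h : insert i φ = insert i ψ) : φ = ψ := by
  rw [← Finset.erase_insert h1, h, Finset.erase_insert h2]

/-- go back one step of the flag `i` -/
theorem exists_pred {f : Fl → ℕ} {i : Fl} {x : ℕ} (h : f i = x + 1) :
    ∃ g : Fl → ℕ, g i = x ∧ f = Function.update g i (g i + 1) ∧ ∀ j, j ≠ i → g j = f j := by
  refine ⟨Function.update f i x, Function.update_self _ _ _, ?_, fun j hj =>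
    Function.update_of_ne hj _ _⟩
  rw [Function.update_self, Function.update_idem, ← h, Function.update_eq_self]

theorem cell_P {f : Fl → ℕ} {μ : Option (C × Finset Fl)} {y : ℕ} {φ : Finset Fl}
    (h : (.P φ : Lt Fl C) = cell f μ y) : y ≠ 0 ∧ φ = lev f y := by
  unfold cell at h
  by_cases hy : y = 0
  · simp [hy] at h
  · simp only [hy, if_false] at h
    injection h with h1
    exact ⟨hy, h1⟩

theorem cell_B {f : Fl → ℕ} {μ μ' : Option (C × Finset Fl)} {y : ℕ} {φ : Finset Fl}
    (h : (.B μ' φ : Lt Fl C) = cell f μ y) : y = 0 ∧ μ' = μ ∧ φ = lev f 0 := by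
  unfold cell at h
  by_cases hy : y = 0
  · simp only [hy, if_true] at h
    injection h with h1 h2
    exact ⟨hy, h1, h2⟩
  · simp [hy] at h

end LegCAux

open LegBAux LegCAux in
/-- The relations preserve legitimacy, second direction. -/
theorem leg_loc' (hL : LegOK M LD LU) {T0 D0 T1 D1 T D : List (Lt Fl C)} {h h' : Lt Fl C}
    (hloc : Loc M T0 h D0 T1 h' D1) (hl : Leg M LD LU (T1 ++ T) h' (D1 ++ D)) :
    Leg M LD LU (T0 ++ T) h (D0 ++ D) := by
  obtain ⟨c1, f, μ1, x, T', D', e1, e2, e3, hv, hx, hw⟩ := hl.zone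
  change ZW M LD LU c1 f μ1 T' D' at hw
  have hz : ∀ y, M.z ∈ lev f y ↔ f M.z = y := fun y => mem_lev
  cases hloc with
  | @move c S φ hd0 hzφ =>
    obtain ⟨h0, rfl, hS⟩ := hd_A e2
    obtain ⟨y, rfl⟩ : ∃ y, x = y + 1 := ⟨x - 1, by omega⟩
    simp only [List.nil_append, List.cons_append, tops] at e1 e3 ⊢
    injection e1 with e1 e4
    obtain ⟨hy0, rfl⟩ := cell_P e1
    subst e4 e3
    have hS' : S = sect f y := by
      rw [sect_succ] at hS
      have hd1 : Disjoint (lev f y) (sect f y) := by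
        rw [Finset.disjoint_left]
        intro i hi hi'
        rw [mem_lev] at hi
        rw [mem_sect] at hi'
        omega
      ext i
      have h3 := Finset.ext_iff.1 hS i
      rw [Finset.mem_union, Finset.mem_union] at h3
      constructor
      · intro h4
        rcases h3.1 (Or.inl h4) with h5 | h5
        · exact h5
        · exact absurd h4 (Finset.disjoint_left.1 hd0 h5)
      · intro h4
        rcases h3.2 (Or.inl h4) with h5 | h5
        · exact h5
        · exact absurd h4 (Finset.disjoint_left.1 hd1 h5)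
    have := hw.mk (x := y) hv (by omega)
    rw [hd_pos hy0, deeps_cons _ _ (by omega), cell_pos hy0, ← hS'] at this
    exact this
  | @move0 c μ φ hzφ =>
    obtain ⟨h0, rfl, hS⟩ := hd_A e2
    obtain ⟨y, rfl⟩ : ∃ y, x = y + 1 := ⟨x - 1, by omega⟩
    simp only [List.nil_append, List.cons_append, tops] at e1 e3 ⊢
    injection e1 with e1 e4
    obtain ⟨rfl, rfl, rfl⟩ := cell_B e1
    subst e4 e3
    have := hw.mk (x := 0) hv (by omega)
    rw [hd_zero, deeps_cons _ _ (by omega), cell_zero] at this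
    exact this
  | @inc c c' i S φ ψ hi hiz hiφ hzφ hiψ =>
    obtain ⟨h0, rfl, rfl⟩ := hd_A e2
    rw [deeps_cons _ _ hx] at e3
    simp only [List.nil_append, List.cons_append] at e1 e3 ⊢
    injection e3 with e3 e4
    obtain ⟨-, e3⟩ := cell_P e3
    have h2 : f M.z ≠ x := fun h => hzφ (Finset.mem_of_mem_erase (e3 ▸ (hz x).2 h))
    rw [deeps_cons _ _ (show x + 1 ≤ f M.z by omega)] at e4
    simp only [List.cons_append] at e4
    injection e4 with e4 e5
    obtain ⟨-, e4⟩ := cell_P e4
    have hfi : f i = x + 1 := mem_lev.1 (e4 ▸ Finset.mem_insert_self i ψ)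
    obtain ⟨g, hg1, hg2, hg3⟩ := exists_pred hfi
    have hgz : f M.z = g M.z := (hg3 M.z (Ne.symm hiz)).symm
    have hvg : Valid M g := by
      intro j
      rw [← hgz]
      by_cases hj : j = i
      · rw [hj, hg1]
        omega
      · rw [hg3 j hj]
        exact hv j
    have ha : Adj M c g c1 f := by
      rw [hg2]
      exact Adj.inc hi hiz (by omega)
    have hw' := ZW.adj' hL hw hvg ha hgz
    have hl' := hw'.mk (x := x) hvg (by omega)
    have l1 : lev g x = φ := by
      refine erase_inj (i := i) (mem_lev.2 hg1) hiφ ?_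
      rw [← lev_inc_at hg1, ← hg2, e3]
    have l2 : lev g (x + 1) = ψ := by
      refine insert_inj (i := i) (fun h => ?_) hiψ ?_
      · have := mem_lev.1 h
        omega
      · rw [← lev_inc_succ hg1, ← hg2, e4]
    have l3 : (tops g μ1 x : List (Lt Fl C)) = tops f μ1 x := by
      rw [hg2]
      exact tops_congr (fun y hy => lev_inc_lo hg1 hy)
    have l4 : (deeps g μ1 (x + 2) (f M.z) : List (Lt Fl C)) = deeps f μ1 (x + 2) (f M.z) := by
      conv_rhs => rw [hg2]
      rw [← hg2]
      exact deeps_congr (fun y h1 _ => by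
        conv_rhs => rw [hg2]
        exact lev_inc_hi hg1 (by omega))
    have l5 : sect g x = sect f x := by
      rw [hg2, sect_inc hg1]
    rw [hd_pos h0, ← hgz, deeps_cons _ _ hx, deeps_cons _ _ (show x + 1 ≤ f M.z by omega),
      cell_pos h0, cell_pos (show x + 1 ≠ 0 by omega), l1, l2, l3, l5] at hl'
    rw [e1, e5]
    simp only [List.cons_append] at hl'
    rw [← l4]
    exact hl'
  | @inc0 c c' i μ φ ψ hi hiz hiφ hzφ hiψ =>
    obtain ⟨rfl, rfl⟩ := hd_H e2
    rw [deeps_cons _ _ hx] at e3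
    simp only [List.nil_append, List.cons_append] at e1 e3 ⊢
    injection e3 with e3 e4
    obtain ⟨-, rfl, e6⟩ := cell_B e3
    have h2 : f M.z ≠ 0 := fun h => hzφ (Finset.mem_of_mem_erase (e6 ▸ (hz 0).2 h))
    rw [deeps_cons _ _ (show 0 + 1 ≤ f M.z by omega)] at e4
    simp only [List.cons_append] at e4
    injection e4 with e4 e5
    obtain ⟨-, e4⟩ := cell_P e4
    have hfi : f i = 0 + 1 := mem_lev.1 (e4 ▸ Finset.mem_insert_self i ψ)
    obtain ⟨g, hg1, hg2, hg3⟩ := exists_pred hfi
    have hgz : f M.z = g M.z := (hg3 M.z (Ne.symm hiz)).symm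
    have hvg : Valid M g := by
      intro j
      rw [← hgz]
      by_cases hj : j = i
      · rw [hj, hg1]
        omega
      · rw [hg3 j hj]
        exact hv j
    have ha : Adj M c g c1 f := by
      rw [hg2]
      exact Adj.inc hi hiz (by omega)
    have hw' := ZW.adj' hL hw hvg ha hgz
    have hl' := hw'.mk (x := 0) hvg (by omega)
    have l1 : lev g 0 = φ := by
      refine erase_inj (i := i) (mem_lev.2 hg1) hiφ ?_
      rw [← lev_inc_at hg1, ← hg2, e6]
    have l2 : lev g (0 + 1) = ψ := by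
      refine insert_inj (i := i) (fun h => ?_) hiψ ?_
      · have := mem_lev.1 h
        omega
      · rw [← lev_inc_succ hg1, ← hg2, e4]
    have l4 : (deeps g μ (0 + 1 + 1) (f M.z) : List (Lt Fl C)) =
        deeps f μ (0 + 1 + 1) (f M.z) := by
      exact deeps_congr (fun y h1 _ => by
        conv_rhs => rw [hg2]
        exact lev_inc_hi hg1 (by omega))
    rw [hd_zero, ← hgz, deeps_cons _ _ hx, deeps_cons _ _ (show 0 + 1 ≤ f M.z by omega),
      cell_zero, cell_pos (show 0 + 1 ≠ 0 by omega), l1, l2] at hl'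
    rw [e1, e5, ← l4]
    simpa [tops] using hl'
  | @tst c c' S φ ht =>
    obtain ⟨h0, rfl, rfl⟩ := hd_A e2
    rw [deeps_cons _ _ hx, cell_pos h0] at e3
    simp only [List.nil_append, List.cons_append] at e1 e3 ⊢
    injection e3 with e3 e4
    injection e3 with e3
    subst e1 e3 e4
    have ha : Adj M c f c1 f := Adj.tst hx (by simpa [h0] using ht)
    have := (ZW.adj' hL hw hv ha rfl).mk (x := x) hv hx
    rw [hd_pos h0, deeps_cons _ _ hx, cell_pos h0] at this
    simpa using this
  | @tst0 c c' μ φ ht =>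
    obtain ⟨rfl, rfl⟩ := hd_H e2
    rw [deeps_cons _ _ hx, cell_zero] at e3
    simp only [List.nil_append, List.cons_append] at e1 e3 ⊢
    injection e3 with e3 e4
    injection e3 with e3 e5
    subst e1 e3 e4 e5
    have ha : Adj M c f c1 f := Adj.tst hx (by simpa [sect_zero] using ht)
    have := (ZW.adj' hL hw hv ha rfl).mk (x := 0) hv hx
    rw [hd_zero, deeps_cons _ _ hx, cell_zero] at this
    simpa [tops] using this
  | @zm c S φ hc hzφ =>
    obtain ⟨h0, rfl, rfl⟩ := hd_A e2
    rw [deeps_cons _ _ hx] at e3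
    simp only [List.nil_append, List.cons_append] at e1 e3 ⊢
    injection e3 with e3 e4
    obtain ⟨-, e3⟩ := cell_P e3
    have h2 : f M.z ≠ x := fun h => Finset.notMem_erase M.z φ (e3 ▸ (hz x).2 h)
    rw [deeps_cons _ _ (show x + 1 ≤ f M.z by omega)] at e4
    simp only [List.cons_append] at e4
    injection e4 with e4 e5
    obtain ⟨-, e4⟩ := cell_P e4
    have hfz : f M.z = x + 1 := mem_lev.1 (e4 ▸ Finset.mem_singleton_self M.z)
    rw [hfz, deeps_nil, List.nil_append] at e5
    obtain ⟨g, hg1, hg2, hg3⟩ := exists_pred hfz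
    have hvg : Valid M g := by
      intro j
      rw [hg1]
      by_cases hj : j = M.z
      · rw [hj, hg1]
      · rw [hg3 j hj]
        have h3 := hv j
        have h4 : f j ≠ x + 1 := by
          intro h5
          have h6 : j ∈ ({M.z} : Finset Fl) := by
            rw [e4, mem_lev]
            exact h5
          exact hj (Finset.mem_singleton.1 h6)
        omega
    rw [hg2] at hw
    have hw' := ZW.zdown hL hvg hc hw
    have hl' := hw'.mk (x := x) hvg (by omega)
    have l1 : lev g x = φ := by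
      refine erase_inj (i := M.z) (mem_lev.2 hg1) hzφ ?_
      rw [← lev_inc_at hg1, ← hg2, e3]
    have l3 : (tops g μ1 x : List (Lt Fl C)) = tops f μ1 x := by
      rw [hg2]
      exact tops_congr (fun y hy => lev_inc_lo hg1 hy)
    have l5 : sect g x = sect f x := by
      rw [hg2, sect_inc hg1]
    rw [hd_pos h0, hg1, deeps_cons _ _ le_rfl, deeps_nil, cell_pos h0, l1, l3, l5] at hl'
    rw [e1, e5]
    simpa using hl'
  | @zm0 c μ φ hc hzφ =>
    obtain ⟨rfl, rfl⟩ := hd_H e2
    rw [deeps_cons _ _ hx] at e3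
    simp only [List.nil_append, List.cons_append] at e1 e3 ⊢
    injection e3 with e3 e4
    obtain ⟨-, rfl, e6⟩ := cell_B e3
    have h2 : f M.z ≠ 0 := fun h => Finset.notMem_erase M.z φ (e6 ▸ (hz 0).2 h)
    rw [deeps_cons _ _ (show 0 + 1 ≤ f M.z by omega)] at e4
    simp only [List.cons_append] at e4
    injection e4 with e4 e5
    obtain ⟨-, e4⟩ := cell_P e4
    have hfz : f M.z = 0 + 1 := mem_lev.1 (e4 ▸ Finset.mem_singleton_self M.z)
    rw [hfz, deeps_nil, List.nil_append] at e5
    obtain ⟨g, hg1, hg2, hg3⟩ := exists_pred hfz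
    have hvg : Valid M g := by
      intro j
      rw [hg1]
      by_cases hj : j = M.z
      · rw [hj, hg1]
      · rw [hg3 j hj]
        have h3 := hv j
        have h4 : f j ≠ 0 + 1 := by
          intro h5
          have h6 : j ∈ ({M.z} : Finset Fl) := by
            rw [e4, mem_lev]
            exact h5
          exact hj (Finset.mem_singleton.1 h6)
        omega
    rw [hg2] at hw
    have hw' := ZW.zdown hL hvg hc hw
    have hl' := hw'.mk (x := 0) hvg (by omega)
    have l1 : lev g 0 = φ := by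
      refine erase_inj (i := M.z) (mem_lev.2 hg1) hzφ ?_
      rw [← lev_inc_at hg1, ← hg2, e6]
    rw [hd_zero, hg1, deeps_cons _ _ le_rfl, deeps_nil, cell_zero, l1] at hl'
    rw [e1, e5]
    simpa [tops] using hl'
  | @new c S =>
    obtain ⟨rfl, rfl⟩ := hd_H e2
    rw [deeps_cons _ _ hx] at e3
    simp only [List.nil_append, List.cons_append] at e1 e3 ⊢
    injection e3 with e3 e4
    obtain ⟨-, rfl, e6⟩ := cell_B e3
    have hfz : f M.z = 0 := mem_lev.1 (e6 ▸ Finset.mem_univ M.z)
    rw [hfz, deeps_nil, List.nil_append] at e4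
    rcases hw with ⟨h1, -⟩ | ⟨c', S', h1, h2, h3⟩
    · exact absurd h1 (by simp)
    · simp only [Option.some.injEq, Prod.mk.injEq] at h1
      obtain ⟨rfl, rfl⟩ := h1
      rw [hfz] at h3
      rw [e1, e4]
      simpa [tops] using h3

end

end Pool.Agent.W_59b51d_u18
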