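import Pool.Agent.W_59b51d_u18.LegC

/-!
# The legitimate zippers (LegD)
-/

namespace Pool.Agent.W_59b51d_u18

section

variable {Fl C : Type} [Fintype Fl] [DecidableEq Fl] (M : Mach Fl C)

variable {M} {LD LU : C → (Fl → ℕ) → Prop}

namespace LegDAux

open LegBAux LegCAux

theorem map_one {α : Type} {D : List α} {l : Option α} (h : D.map some = [l]) :
    ∃ l', l = some l' ∧ D = [l'] := by
  rcases D with _ | ⟨a, _ | ⟨b, D⟩⟩
  · simp at h
  · simp only [List.map_cons, List.map_nil, List.cons.injEq, and_true] at h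
    exact ⟨a, h.symm, rfl⟩
  · simp at h

theorem map_two {α : Type} {D : List α} {l m : Option α} (h : D.map some = [l, m]) :
    ∃ l' m', l = some l' ∧ m = some m' ∧ D = [l', m'] := by
  rcases D with _ | ⟨a, _ | ⟨b, _ | ⟨c, D⟩⟩⟩
  · simp at h
  · simp at h
  · simp only [List.map_cons, List.map_nil, List.cons.injEq, and_true] at h
    exact ⟨a, b, h.1.symm, h.2.symm, rfl⟩
  · simp at h

theorem okty_of (hL : LegOK M LD LU) {c : C} {f : Fl → ℕ} {μ : Option (C × Finset Fl)}
    {T' D' : List (Lt Fl C)} (h : ZW M LD LU c f μ T' D') : okty M c μ := by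
  unfold okty
  rcases h with ⟨h1, h2, -⟩ | ⟨c1, S, h1, h2, -⟩
  · rw [h1, hL.uty _ _ h2]
    simp
  · rw [h1, hL.dty _ _ h2]
    simp

theorem not_killed_of (hL : LegOK M LD LU) {c : C} {f : Fl → ℕ} {μ : Option (C × Finset Fl)}
    {T' D' : List (Lt Fl C)} (h : ZW M LD LU c f μ T' D') (hv : Valid M f) :
    ¬ Killed M c f := by
  rcases h with ⟨h1, h2, -⟩ | ⟨c1, S, h1, h2, -⟩
  · exact hL.ukil _ _ hv h2
  · exact hL.dkil _ _ hv h2

theorem deeps_get (f : Fl → ℕ) (μ : Option (C × Finset Fl)) (n : ℕ) (D : List (Lt Fl C)) (j : ℕ) :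
    ∀ x, x + j ≤ n → (deeps f μ x n ++ D)[j]? = some (cell f μ (x + j)) := by
  induction j with
  | zero =>
    intro x hx
    rw [deeps_cons _ _ (show x ≤ n from hx)]
    rfl
  | succ j ih =>
    intro x hx
    rw [deeps_cons _ _ (by omega), List.cons_append, List.getElem?_cons_succ, ih (x + 1) (by omega)]
    congr 2
    omega

theorem univ_of {f : Fl → ℕ} {x : ℕ} (hv : Valid M f) (h : f M.z = x) :
    sect f x ∪ lev f x = Finset.univ := by
  ext i
  rw [Finset.mem_union, mem_sect, mem_lev]
  have := hv i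
  simp only [Finset.mem_univ, iff_true]
  omega

end LegDAux

open LegBAux LegCAux LegDAux in
/-- Legitimate zippers contain no zero situation. -/
theorem leg_not_zero (hL : LegOK M LD LU) {T0 D0 T D : List (Lt Fl C)} {h : Lt Fl C}
    (hz : LocZ M (T0.map some) h (D0.map some)) : ¬ Leg M LD LU (T0 ++ T) h (D0 ++ D) := by
  intro hl
  obtain ⟨c1, f, μ1, x, T', D', e1, e2, e3, hv, hx, hw⟩ := hl.zone
  change ZW M LD LU c1 f μ1 T' D' at hw
  rw [deeps_cons _ _ hx] at e3
  generalize hT : T0.map some = T1 at hz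
  generalize hD : D0.map some = D1 at hz
  cases hz
  · rename_i c S φ h1
    obtain ⟨l, hl1, rfl⟩ := map_one hD
    injection hl1 with hl1
    subst hl1
    obtain ⟨h0, rfl, rfl⟩ := hd_A e2
    injection e3 with e3 e4
    obtain ⟨-, rfl⟩ := cell_P e3
    apply h1
    rw [Finset.disjoint_left]
    intro i hi hi'
    rw [mem_lev] at hi
    rw [mem_sect] at hi'
    omega
  · rename_i c S φ h1 h2
    obtain ⟨l, hl1, rfl⟩ := map_one hD
    injection hl1 with hl1
    subst hl1
    obtain ⟨h0, rfl, rfl⟩ := hd_A e2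
    injection e3 with e3 e4
    obtain ⟨-, rfl⟩ := cell_P e3
    exact h2 (univ_of hv (mem_lev.1 h1))
  · rename_i c S l h1
    obtain ⟨l', rfl, rfl⟩ := map_one hD
    obtain ⟨h0, rfl, rfl⟩ := hd_A e2
    injection e3 with e3 e4
    rw [cell_pos h0] at e3
    exact h1 _ (by rw [e3])
  · rename_i c S φ h1
    obtain ⟨l, hl1, rfl⟩ := map_one hT
    injection hl1 with hl1
    subst hl1
    obtain ⟨h0, rfl, rfl⟩ := hd_A e2
    obtain ⟨y, rfl⟩ : ∃ y, x = y + 1 := ⟨x - 1, by omega⟩
    rw [tops] at e1
    injection e1 with e1 e4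
    obtain ⟨-, rfl⟩ := cell_P e1
    rcases h1 with h1 | h1
    · apply h1
      intro i hi
      rw [mem_lev] at hi
      rw [mem_sect]
      omega
    · have := mem_lev.1 h1
      omega
  · rename_i c S φ μ h1
    obtain ⟨l, hl1, rfl⟩ := map_one hT
    injection hl1 with hl1
    subst hl1
    obtain ⟨h0, rfl, rfl⟩ := hd_A e2
    obtain ⟨y, rfl⟩ : ∃ y, x = y + 1 := ⟨x - 1, by omega⟩
    rw [tops] at e1
    injection e1 with e1 e4
    obtain ⟨rfl, rfl, rfl⟩ := cell_B e1
    rcases h1 with h1 | h1 | h1
    · apply h1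
      rw [sect_succ, sect_zero, Finset.empty_union]
    · have := mem_lev.1 h1
      omega
    · exact h1 (okty_of hL hw)
  · rename_i c S l h1 h2
    obtain ⟨l', rfl, rfl⟩ := map_one hT
    obtain ⟨h0, rfl, rfl⟩ := hd_A e2
    obtain ⟨y, rfl⟩ : ∃ y, x = y + 1 := ⟨x - 1, by omega⟩
    rw [tops] at e1
    injection e1 with e1 e4
    by_cases hy : y = 0
    · rw [hy, cell_zero] at e1
      exact h2 _ _ (by rw [e1])
    · rw [cell_pos hy] at e1
      exact h1 _ (by rw [e1])
  · rename_i c l h1
    obtain ⟨l', rfl, rfl⟩ := map_one hD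
    obtain ⟨rfl, rfl⟩ := hd_H e2
    injection e3 with e3 e4
    rw [cell_zero] at e3
    exact h1 _ _ (by rw [e3])
  · rename_i c μ φ h1
    obtain ⟨l, hl1, rfl⟩ := map_one hD
    injection hl1 with hl1
    subst hl1
    obtain ⟨rfl, rfl⟩ := hd_H e2
    injection e3 with e3 e4
    obtain ⟨-, rfl, rfl⟩ := cell_B e3
    rcases h1 with h1 | ⟨h1, h2⟩
    · exact h1 (okty_of hL hw)
    · apply h2
      have := univ_of hv (mem_lev.1 h1)
      rwa [sect_zero, Finset.empty_union] at this
  · rename_i c S φ h1
    obtain ⟨l, hl1, rfl⟩ := map_one hD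
    injection hl1 with hl1
    subst hl1
    obtain ⟨h0, rfl, rfl⟩ := hd_A e2
    injection e3 with e3 e4
    obtain ⟨-, rfl⟩ := cell_P e3
    exact not_killed_of hL hw hv ⟨x, hx, by simpa [h0] using h1⟩
  · rename_i c μ φ h1
    obtain ⟨l, hl1, rfl⟩ := map_one hD
    injection hl1 with hl1
    subst hl1
    obtain ⟨rfl, rfl⟩ := hd_H e2
    injection e3 with e3 e4
    obtain ⟨-, rfl, rfl⟩ := cell_B e3
    exact not_killed_of hL hw hv ⟨0, hx, by simpa [sect_zero] using h1⟩
  · rename_i S φ l h1 h2
    obtain ⟨l1, l2, hl1, rfl, rfl⟩ := map_two hD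
    injection hl1 with hl1
    subst hl1
    obtain ⟨h0, rfl, rfl⟩ := hd_A e2
    simp only [List.cons_append, List.nil_append] at e3
    injection e3 with e3 e4
    obtain ⟨-, rfl⟩ := cell_P e3
    have h3 : f M.z = x := mem_lev.1 h1
    rw [h3, deeps_nil, List.nil_append] at e4
    rcases hw with ⟨-, -, -, j, h7⟩ | ⟨c', S', -, h5, -⟩
    · rw [h7] at e4
      have h8 : l2 ∈ List.replicate j (Lt.P ∅ : Lt Fl C) := by
        rw [← e4]
        exact List.mem_cons_self
      exact h2 (by rw [List.eq_of_mem_replicate h8])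
    · have h6 := hL.dty _ _ h5
      rw [hL.tyu] at h6
      exact absurd h6 (by simp)
  · rename_i φ μ l h1 h2
    obtain ⟨l1, l2, hl1, rfl, rfl⟩ := map_two hD
    injection hl1 with hl1
    subst hl1
    obtain ⟨rfl, rfl⟩ := hd_H e2
    simp only [List.cons_append, List.nil_append] at e3
    injection e3 with e3 e4
    obtain ⟨-, rfl, rfl⟩ := cell_B e3
    have h3 : f M.z = 0 := mem_lev.1 h1
    rw [h3, deeps_nil, List.nil_append] at e4
    rcases hw with ⟨-, -, -, j, h7⟩ | ⟨c', S', -, h5, -⟩
    · rw [h7] at e4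
      have h8 : l2 ∈ List.replicate j (Lt.P ∅ : Lt Fl C) := by
        rw [← e4]
        exact List.mem_cons_self
      exact h2 (by rw [List.eq_of_mem_replicate h8])
    · have h6 := hL.dty _ _ h5
      rw [hL.tyu] at h6
      exact absurd h6 (by simp)

open LegBAux LegCAux LegDAux in
/-- Legitimate zippers contain no pattern. Proof. In the zone `(c, f)` of the head at `x > 0`:
`a` is at `x < f z`, the next `k` cells are blank, hence cells of the zone (the last cell contains
`z`), so the last letter of the pattern is the cell `x + k + 1` of the zone and contains `b`; this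
is `Pat M k c f`. In the base zone the control state has the type `false`. -/
theorem leg_not_pat (hL : LegOK M LD LU) (hp : M.ty M.pass = true) {k : ℕ}
    (hk : ∀ c f, Valid M f → LD c f → ¬ Pat M k c f) {T0 D0 T D : List (Lt Fl C)} {h : Lt Fl C}
    (hz : LocP M k (T0.map some) h (D0.map some)) :
    ¬ Leg M LD LU (T0 ++ T) h (D0 ++ D) := by
  intro hl
  obtain ⟨c1, f, μ1, x, T', D', e1, e2, e3, hv, hx, hw⟩ := hl.zone
  change ZW M LD LU c1 f μ1 T' D' at hw
  generalize hT : T0.map some = T1 at hz
  generalize hD : D0.map some = D1 at hz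
  cases hz with
  | @pat S φ ψ h1 h2 h3 =>
    obtain ⟨h0, rfl, rfl⟩ := hd_A e2
    have hD' : D0 = .P φ :: (List.replicate k (.P ∅) ++ [.P ψ]) := by
      apply List.map_injective_iff.2 (Option.some_injective _)
      rw [hD]
      simp
    have hget : ∀ j, x + j ≤ f M.z → (D0 ++ D)[j]? = some (cell f μ1 (x + j)) := by
      intro j hj
      rw [e3]
      exact deeps_get f μ1 (f M.z) D' j x hj
    have g0 := hget 0 hx
    rw [hD'] at g0
    simp only [List.cons_append, List.getElem?_cons_zero, add_zero, Option.some.injEq] at g0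
    obtain ⟨-, rfl⟩ := cell_P g0
    have hmid : ∀ j, j < k → x + (j + 1) ≤ f M.z → lev f (x + (j + 1)) = ∅ := by
      intro j hj hle
      have g1 := hget (j + 1) hle
      rw [hD'] at g1
      simp only [List.cons_append, List.getElem?_cons_succ, List.append_assoc] at g1
      rw [List.getElem?_append_left (by simpa using hj), List.getElem?_replicate, if_pos hj,
        Option.some.injEq] at g1
      exact (cell_P g1).2.symm
    have hlt : ∀ j, j ≤ k → x + j < f M.z := by
      intro j
      induction j with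
      | zero =>
        intro _
        have h4 : f M.z ≠ x := fun h => h2 (mem_lev.2 h)
        omega
      | succ j ih =>
        intro hj
        have h4 := ih (by omega)
        have h5 := hmid j (by omega) (by omega)
        have h6 : f M.z ≠ x + (j + 1) := by
          intro h
          have h7 : M.z ∈ lev f (x + (j + 1)) := mem_lev.2 h
          rw [h5] at h7
          exact absurd h7 (Finset.notMem_empty _)
        omega
    have hlast : f M.b = x + (k + 1) := by
      have g1 := hget (k + 1) (by have := hlt k le_rfl; omega)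
      rw [hD'] at g1
      simp only [List.cons_append, List.getElem?_cons_succ, List.append_assoc] at g1
      rw [List.getElem?_append_right (by simp)] at g1
      simp only [List.length_replicate, Nat.sub_self,
        List.getElem?_cons_zero, Option.some.injEq] at g1
      obtain ⟨-, rfl⟩ := cell_P g1
      exact mem_lev.1 h3
    have hfa : f M.a = x := mem_lev.1 h1
    rcases hw with ⟨-, h5, -⟩ | ⟨c', S', -, h5, -⟩
    · have h6 := hL.uty _ _ h5
      rw [hp] at h6
      exact absurd h6 (by simp)
    · refine hk _ f hv h5 ⟨rfl, by omega, by omega, fun i => ?_⟩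
      rw [hfa, hlast]
      by_contra hcon
      push Not at hcon
      have h7 := hmid (f i - x - 1) (by omega) (by
        have := hlt k le_rfl
        omega)
      have h8 : i ∈ lev f (x + (f i - x - 1 + 1)) := mem_lev.2 (by omega)
      rw [h7] at h8
      exact absurd h8 (Finset.notMem_empty _)

end

end Pool.Agent.W_59b51d_u18
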