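import Pool.Agent.W_59b51d_u18.PadE

/-!
# If `p k`, a head with long contexts is derivably zero
-/
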