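import Pool.Agent.W_59b51d_u18.Zone

/-!
# If `p k`, a head with long contexts is derivably zero (PadA)
-/

namespace Pool.Agent.W_59b51d_u18

section

variable {Fl C : Type} [Fintype Fl] [DecidableEq Fl] (M : Mach Fl C) {i0 : Fl} {p : ℕ → Prop}

/-- A head away from home beside a long run of blanks is derivably zero.

Proof. `n` from `hit`, `zz_newn`, and `hit` for `Q c f = ZZ M k c f (some (c, S)) 0 T D`
(`zz_inv`, `zz_killed`, `zz_pat`). -/
theorem exists_blank (hM : MachOK M i0 p) {k : ℕ} (hk : p k) : ∃ n, ∀ (T D : List (Option (Lt Fl C)))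
    (c : C) (S : Finset Fl),
      Zr M k T (.A c S) (List.replicate (n + 1) (some (.P ∅)) ++ D) := by
  obtain ⟨n, hn⟩ := hM.hit k hk
  refine ⟨n, fun T D c S => ?_⟩
  rw [zz_newn M k n]
  refine hn (fun c' f => ZZ M k c' f (some (c, S)) 0 T D) (zz_inv M k n _ T D) ?_ ?_
  · intro c' f _ _ h
    exact zz_killed M k h (Nat.zero_le _)
  · intro c' f hv _ h
    exact zz_pat M k hv h (Nat.zero_le _)

/-- Blanks on the top side. -/
theorem zr_blank {k : ℕ} {c : C} {S : Finset Fl} {T D : List (Option (Lt Fl C))} :
    Zr M k T (.A c S) (some (.P ∅) :: D) ↔ Zr M k (some (.P ∅) :: T) (.A c S) D := by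
  have hl : Loc M [] (.A c S) [.P ∅] [.P ∅] (.A c (S ∪ ∅)) [] :=
    Loc.move (by simp) (by simp)
  have := zr_loc M k (T := T) (D := D) hl
  simpa using this

/-- Head at the end marker in the state `u0`, the next letter not blank. -/
theorem zu0_end {k : ℕ} (f : Fl → ℕ) (T D : List (Option (Lt Fl C))) (l : Option (Lt Fl C))
    (hl : l ≠ some (.P ∅)) : ZZ M k M.u0 f none 0 T (l :: D) := by
  rw [zz_move M k (Nat.zero_le _) (le_refl (f M.z))]
  unfold ZZ
  rw [deeps_cons f none le_rfl, deeps_nil]
  have hmem : M.z ∈ lev f (f M.z) := by simp [mem_lev]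
  by_cases h0 : f M.z = 0
  · rw [h0] at hmem ⊢
    have h := Zr.zero (k := k) (T := (tops f none 0).map some ++ T) (D := D)
      (LocZ.uend0 (M := M) (φ := lev f 0) (μ := none) (l := l) hmem hl)
    simpa [cell, hd] using h
  · have h := Zr.zero (k := k) (T := (tops f none (f M.z)).map some ++ T) (D := D)
      (LocZ.uend (M := M) (S := sect f (f M.z)) (φ := lev f (f M.z)) (l := l) hmem hl)
    simpa [cell, hd, h0] using h

theorem upd_upd (f : Fl → ℕ) (j : ℕ) :
    Function.update (Function.update f M.z (f M.z + 1)) M.z
      ((Function.update f M.z (f M.z + 1)) M.z + j) =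
    Function.update f M.z (f M.z + (j + 1)) := by
  funext i
  by_cases hi : i = M.z
  · subst hi
    simp only [Function.update_self]
    omega
  · simp [hi]

theorem valid_upd {f : Fl → ℕ} (hv : Valid M f) (j : ℕ) :
    Valid M (Function.update f M.z (f M.z + j)) := by
  intro i
  by_cases hi : i = M.z
  · subst hi
    exact le_rfl
  · have := hv i
    simp only [ne_eq, hi, not_false_eq_true, Function.update_of_ne, Function.update_self]
    omega

/-- Either the zone is derivably zero, or the next letters are blank and the end marker can be moved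
over them. -/
theorem zu0_run {k : ℕ} (T : List (Option (Lt Fl C))) (j : ℕ) :
    ∀ (f : Fl → ℕ) (D : List (Option (Lt Fl C))), Valid M f → j ≤ D.length →
      (∀ D', ZZ M k M.u0 (Function.update f M.z (f M.z + j)) none 0 T D') →
        ZZ M k M.u0 f none 0 T D := by
  induction j with
  | zero =>
    intro f D _ _ h
    have e : Function.update f M.z (f M.z + 0) = f := by simp
    rw [e] at h
    exact h D
  | succ j ih =>
    intro f D hv hD h
    cases D with
    | nil => simp at hD
    | cons l D =>
      by_cases hl : l = some (.P ∅)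
      · subst hl
        rw [zz_z M k (Or.inr rfl) hv (Nat.zero_le _)]
        refine ih _ D (valid_upd M hv 1) (by simpa using hD) ?_
        rw [upd_upd]
        exact h
      · exact zu0_end M f T D l hl

theorem deeps_blank {g : Fl → ℕ} {μ : Option (C × Finset Fl)} {N : ℕ} (r : ℕ) :
    ∀ x, (∀ y, x ≤ y → y < x + r → y ≠ 0 ∧ lev g y = ∅) → x + r ≤ N + 1 →
      (deeps g μ x N : List (Lt Fl C)) = List.replicate r (.P ∅) ++ deeps g μ (x + r) N := by
  induction r with
  | zero =>
    intro x _ _
    simp
  | succ r ih =>
    intro x h hN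
    obtain ⟨h0, hx⟩ := h x le_rfl (by omega)
    have e : (cell g μ x : Lt Fl C) = .P ∅ := by simp [cell, h0, hx]
    rw [deeps_cons g μ (by omega : x ≤ N), e, List.replicate_succ, List.cons_append,
      ih (x + 1) (fun y hy hy' => h y (by omega) (by omega)) (by omega),
      show x + 1 + r = x + (r + 1) by omega]

/-- The base zone in the state `u0` is derivably zero if there is space.

Proof. Move the end marker `n + 2` times over the next letter (`zz_z`); if one of these letters is
not `P ∅`, use `LocZ.uend` or `LocZ.uend0` at the position of `z`. Then the cells between the old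
and the new position of `z` are blank, at least `n + 1` of them after the head at the position
`f z + 1`: `hb`. -/
theorem zu0 {k n : ℕ} (hb : ∀ (T D : List (Option (Lt Fl C))) (c : C) (S : Finset Fl),
      Zr M k T (.A c S) (List.replicate (n + 1) (some (.P ∅)) ++ D))
    (f : Fl → ℕ) (T D : List (Option (Lt Fl C))) (hv : Valid M f) (hD : n + 3 ≤ D.length) :
    ZZ M k M.u0 f none 0 T D := by
  refine zu0_run M T (n + 2) f D hv (by omega) fun D' => ?_
  have hgz : Function.update f M.z (f M.z + (n + 2)) M.z = f M.z + (n + 2) := by simp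
  rw [zz_move M k (y := f M.z + 1) (Nat.zero_le _) (by omega)]
  unfold ZZ
  rw [hgz, deeps_blank (n + 1) (f M.z + 1) ?_ (by omega)]
  · have := hb ((tops (Function.update f M.z (f M.z + (n + 2))) none (f M.z + 1)).map some ++ T)
      ((deeps (Function.update f M.z (f M.z + (n + 2))) none (f M.z + 1 + (n + 1))
        (f M.z + (n + 2))).map some ++ D') M.u0
      (sect (Function.update f M.z (f M.z + (n + 2))) (f M.z + 1))
    simpa [hd, List.map_replicate] using this
  · intro y hy hy'
    refine ⟨by omega, ?_⟩
    ext i
    simp only [mem_lev, Finset.notMem_empty, iff_false]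
    by_cases hi : i = M.z
    · subst hi
      rw [hgz]
      omega
    · have := hv i
      simp only [ne_eq, hi, not_false_eq_true, Function.update_of_ne]
      omega

/-- If `p m`, the base zone of `m` is derivably zero when there are enough blanks.

Proof. `n` from `hitu`; `n - (m + 1)` moves of the end marker (`zz_z`) and `hitu` for
`Q c f = ZZ M k c f none 0 [] []`. -/
theorem exists_start (hM : MachOK M i0 p) (k : ℕ) {m : ℕ} (hm : p m) : ∃ j,
    ZZ M k M.u0 (oneAt M i0 (m + 1) (m + 1)) none 0 []
      (List.replicate j (some (.P ∅))) := by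
  obtain ⟨n, hn, hQ⟩ := hM.hitu m hm
  have key : ∀ j, ∀ a, m + 1 ≤ a → a + j = n →
      ZZ M k M.u0 (oneAt M i0 (m + 1) a) none 0 [] (List.replicate j (some (.P ∅))) := by
    intro j
    induction j with
    | zero =>
      intro a _ ha'
      have e : a = n := by omega
      subst e
      exact hQ (fun c f => ZZ M k c f none 0 [] []) (zz_inv M k a none [] [])
        (fun c f _ _ h => zz_killed M k h (Nat.zero_le _))
    | succ j ih =>
      intro a ha ha'
      have hv : Valid M (oneAt M i0 (m + 1) a) := by
        intro i
        simp only [oneAt, if_true]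
        split_ifs <;> omega
      have hu : Function.update (oneAt M i0 (m + 1) a) M.z (oneAt M i0 (m + 1) a M.z + 1) =
          oneAt M i0 (m + 1) (a + 1) := by
        funext i
        by_cases hi : i = M.z
        · subst hi
          simp [oneAt]
        · simp [oneAt, hi]
      rw [List.replicate_succ, zz_z M k (Or.inr rfl) hv (Nat.zero_le _), hu]
      exact ih (a + 1) (by omega) (by omega)
  exact ⟨n - (m + 1), key _ _ le_rfl (by omega)⟩

end

end Pool.Agent.W_59b51d_u18
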