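import Pool.Agent.W_59b51d_u18.PadA

/-!
# If `p k`, a head with long contexts is derivably zero (PadB)
-/

namespace Pool.Agent.W_59b51d_u18

section

variable {Fl C : Type} [Fintype Fl] [DecidableEq Fl] (M : Mach Fl C) {i0 : Fl} {p : ℕ → Prop}

omit [Fintype Fl] [DecidableEq Fl] in
theorem uniq_cons_mem {L : List (Finset Fl)} {φ : Finset Fl} {i : Fl} (h : i ∈ φ)
    (h' : ∀ ψ ∈ L, i ∉ ψ) :
    ∃! y, y < (φ :: L).length ∧ i ∈ (φ :: L).getD y ∅ := by
  refine ⟨0, ⟨by simp, by simpa using h⟩, ?_⟩
  rintro y ⟨hy, hi⟩
  rcases y with _ | y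
  · rfl
  · exfalso
    have hy' : y < L.length := by simpa using hy
    rw [List.getD_cons_succ, List.getD_eq_getElem _ _ hy'] at hi
    exact h' _ (List.getElem_mem hy') hi

omit [Fintype Fl] [DecidableEq Fl] in
theorem uniq_cons_notMem {L : List (Finset Fl)} {φ : Finset Fl} {i : Fl} (h : i ∉ φ)
    (h' : ∃! y, y < L.length ∧ i ∈ L.getD y ∅) :
    ∃! y, y < (φ :: L).length ∧ i ∈ (φ :: L).getD y ∅ := by
  obtain ⟨y, ⟨hy, hi⟩, hu⟩ := h'
  refine ⟨y + 1, ⟨by simpa using hy, by simpa using hi⟩, ?_⟩
  rintro y' ⟨hy', hi'⟩
  rcases y' with _ | y'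
  · exfalso
    exact h (by simpa using hi')
  · rw [hu y' ⟨by simpa using hy', by simpa using hi'⟩]

/-- The relation `Loc.move` for zippers. -/
theorem zr_move {k : ℕ} {c : C} {S φ : Finset Fl} {T D : List (Option (Lt Fl C))}
    (hd : Disjoint φ S) (hz : M.z ∉ φ) :
    Zr M k T (.A c S) (some (.P φ) :: D) ↔ Zr M k (some (.P φ) :: T) (.A c (S ∪ φ)) D :=
  ⟨fun h => Zr.step' (T := T) (D := D) (Loc.move hd hz) h,
    fun h => Zr.step (T := T) (D := D) (Loc.move hd hz) h⟩

/-- The walk to the deep side with `t` blanks behind the head. -/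
theorem walk_deep_aux {k n : ℕ} (hb : ∀ (T D : List (Option (Lt Fl C))) (c : C) (S : Finset Fl),
      Zr M k T (.A c S) (List.replicate (n + 1) (some (.P ∅)) ++ D)) (c : C)
    (D : List (Option (Lt Fl C))) : ∀
    (s t : ℕ) (T : List (Option (Lt Fl C))) (S : Finset Fl)
    (hs : (Finset.univ \ S).card = s) (ht : t ≤ n) (hD : s * (n + 2) + (n + 2 - t) ≤ D.length)
    (h0 : ¬ Zr M k (List.replicate t (some (.P ∅)) ++ T) (.A c S) D),
    ∃ (ls : List (Finset Fl)) (φ : Finset Fl) (D' : List (Option (Lt Fl C))),
      D = (ls.map fun ψ => some (Lt.P ψ)) ++ some (Lt.P φ) :: D' ∧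
      (ls ++ [φ]).length ≤ s * (n + 2) + (n + 2 - t) ∧ (∀ ψ ∈ ls, M.z ∉ ψ) ∧ M.z ∈ φ ∧
      (∀ i, i ∉ S → ∃! y, y < (ls ++ [φ]).length ∧ i ∈ (ls ++ [φ]).getD y ∅) ∧
      ∀ i ∈ S, ∀ ψ ∈ ls ++ [φ], i ∉ ψ := by
  induction D with
  | nil =>
    intro s t T S hs ht hD h0
    exfalso
    rw [List.length_nil] at hD
    omega
  | cons l D1 ih =>
    intro s t T S hs ht hD h0
    have hl : ∃ φ, l = some (.P φ) := by
      by_contra hne
      push Not at hne
      exact h0 (Zr.zero (T0 := []) (D0 := [l]) (D := D1) (LocZ.next hne))
    obtain ⟨φ, rfl⟩ := hl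
    have hdis : Disjoint φ S := by
      by_contra hne
      exact h0 (Zr.zero (T0 := []) (D0 := [some (.P φ)]) (D := D1) (LocZ.over hne))
    rw [List.length_cons] at hD
    by_cases hz : M.z ∈ φ
    · have hun : S ∪ φ = Finset.univ := by
        by_contra hne
        exact h0 (Zr.zero (T0 := []) (D0 := [some (.P φ)]) (D := D1) (LocZ.zend hz hne))
      refine ⟨[], φ, D1, by simp, by simp; omega, by simp, hz, ?_, ?_⟩
      · intro i hi
        have hiφ : i ∈ φ := by
          have := Finset.mem_univ i
          rw [← hun, Finset.mem_union] at this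
          tauto
        exact uniq_cons_mem hiφ (by simp)
      · intro i hi ψ hψ
        rw [List.nil_append, List.mem_singleton] at hψ
        subst hψ
        exact fun h => (Finset.disjoint_left.mp hdis h) hi
    · by_cases hφ : φ = ∅
      · subst hφ
        by_cases htn : t = n
        · exfalso
          subst htn
          apply h0
          rw [zr_move M hdis hz, Finset.union_empty]
          have h1 : some (Lt.P ∅) :: (List.replicate t (some (Lt.P ∅)) ++ T) =
              List.replicate (t + 1) (some (Lt.P (C := C) (∅ : Finset Fl))) ++ T := by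
            rw [List.replicate_succ, List.cons_append]
          rw [h1]
          have h2 : ∀ (m : ℕ) (D : List (Option (Lt Fl C))),
              Zr M k (List.replicate m (some (Lt.P ∅)) ++ T) (.A c S) D ↔
              Zr M k T (.A c S) (List.replicate m (some (.P ∅)) ++ D) := by
            intro m
            induction m with
            | zero => intro D; simp
            | succ m ihm =>
              intro D
              rw [List.replicate_succ, List.cons_append, ← zr_blank, ihm]
              rw [List.append_cons, ← List.replicate_succ', List.replicate_succ]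
          rw [h2]
          exact hb _ _ _ _
        · obtain ⟨ls, φ', D', h1, h2, h3, h4, h5, h6⟩ := ih s (t + 1) T S hs (by omega)
            (by omega) (by
              rw [List.replicate_succ, List.cons_append, ← zr_blank]
              exact h0)
          refine ⟨∅ :: ls, φ', D', by rw [h1]; simp, ?_, ?_, h4, ?_, ?_⟩
          · rw [List.cons_append, List.length_cons]
            omega
          · intro ψ hψ
            rcases List.mem_cons.mp hψ with rfl | hψ
            · exact hz
            · exact h3 ψ hψ
          · intro i hi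
            rw [List.cons_append]
            exact uniq_cons_notMem (Finset.notMem_empty i) (h5 i hi)
          · intro i hi ψ hψ
            rw [List.cons_append] at hψ
            rcases List.mem_cons.mp hψ with rfl | hψ
            · exact Finset.notMem_empty i
            · exact h6 i hi ψ hψ
      · obtain ⟨j, hj⟩ := Finset.nonempty_iff_ne_empty.mpr hφ
        have hjS : j ∉ S := Finset.disjoint_left.mp hdis hj
        have hlt : (Finset.univ \ (S ∪ φ)).card < s := by
          rw [← hs]
          apply Finset.card_lt_card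
          rw [Finset.ssubset_iff_of_subset
            (Finset.sdiff_subset_sdiff (Finset.Subset.refl _) Finset.subset_union_left)]
          refine ⟨j, by simpa using hjS, by simp [hj]⟩
        have hmul : ((Finset.univ \ (S ∪ φ)).card + 1) * (n + 2) ≤ s * (n + 2) :=
          Nat.mul_le_mul_right _ hlt
        rw [Nat.add_mul, Nat.one_mul] at hmul
        obtain ⟨ls, φ', D', h1, h2, h3, h4, h5, h6⟩ := ih (Finset.univ \ (S ∪ φ)).card 0
          (some (.P φ) :: (List.replicate t (some (.P ∅)) ++ T)) (S ∪ φ) rfl (Nat.zero_le _)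
            (by omega) (by
              rw [List.replicate_zero, List.nil_append, ← zr_move M hdis hz]
              exact h0)
        refine ⟨φ :: ls, φ', D', by rw [h1]; simp, ?_, ?_, h4, ?_, ?_⟩
        · rw [List.cons_append, List.length_cons]
          omega
        · intro ψ hψ
          rcases List.mem_cons.mp hψ with rfl | hψ
          · exact hz
          · exact h3 ψ hψ
        · intro i hi
          rw [List.cons_append]
          by_cases hiφ : i ∈ φ
          · exact uniq_cons_mem hiφ (h6 i (Finset.mem_union_right _ hiφ))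
          · refine uniq_cons_notMem hiφ (h5 i ?_)
            rw [Finset.mem_union]
            tauto
        · intro i hi ψ hψ
          rw [List.cons_append] at hψ
          rcases List.mem_cons.mp hψ with rfl | hψ
          · exact fun h => (Finset.disjoint_left.mp hdis h) hi
          · exact h6 i (Finset.mem_union_left _ hi) ψ hψ

/-- The walk to the deep side: the head is derivably zero or there is a list of disjoint sets of
flags, disjoint from `S`, which ends with a set containing `z` and together with `S` covers all
flags, and `D` begins with the corresponding cells.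

Proof. Strong induction on the number `s` of flags not in `S`, with the bound `(s + 1) * (n + 2)`
for the number of cells. Let `t` be the number of blanks at the beginning of `D`. If `t ≥ n + 1`,
`hb` applies. Otherwise move over the blanks (`zr_blank`) to the next letter `l` (it exists, `D` is
long): `l = P φ` with `φ ≠ ∅`, else `LocZ.next`; `φ` is disjoint from `S`, else `LocZ.over`; if
`z ∈ φ` then `S ∪ φ` is everything, else `LocZ.zend`; if `z ∉ φ` use `Loc.move` and the induction
hypothesis for `S ∪ φ`. -/
theorem walk_deep {k n : ℕ} (hb : ∀ (T D : List (Option (Lt Fl C))) (c : C) (S : Finset Fl),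
      Zr M k T (.A c S) (List.replicate (n + 1) (some (.P ∅)) ++ D))
    (s : ℕ) (T D : List (Option (Lt Fl C))) (c : C) (S : Finset Fl)
    (hs : (Finset.univ \ S).card = s) (hD : (s + 1) * (n + 2) ≤ D.length)
    (h0 : ¬ Zr M k T (.A c S) D) :
    ∃ (ls : List (Finset Fl)) (φ : Finset Fl) (D' : List (Option (Lt Fl C))),
      D = (ls.map fun ψ => some (Lt.P ψ)) ++ some (Lt.P φ) :: D' ∧
      (ls ++ [φ]).length ≤ (s + 1) * (n + 2) ∧ (∀ ψ ∈ ls, M.z ∉ ψ) ∧ M.z ∈ φ ∧
      (∀ i, i ∉ S → ∃! y, y < (ls ++ [φ]).length ∧ i ∈ (ls ++ [φ]).getD y ∅) ∧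
      ∀ i ∈ S, ∀ ψ ∈ ls ++ [φ], i ∉ ψ := by
  have he : s * (n + 2) + (n + 2 - 0) = (s + 1) * (n + 2) := by
    rw [Nat.sub_zero, Nat.add_mul, Nat.one_mul]
  have h := walk_deep_aux M hb c D s 0 T S hs (Nat.zero_le _) (by rw [he]; exact hD)
    (by rw [List.replicate_zero, List.nil_append]; exact h0)
  rw [he] at h
  exact h

end

end Pool.Agent.W_59b51d_u18
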