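import Pool.Agent.W_59b51d_u18.PadB

/-!
# If `p k`, a head with long contexts is derivably zero (PadC)
-/

namespace Pool.Agent.W_59b51d_u18

section

variable {Fl C : Type} [Fintype Fl] [DecidableEq Fl] (M : Mach Fl C) {i0 : Fl} {p : ℕ → Prop}

theorem walk_top_aux {k n : ℕ} (hb : ∀ (T D : List (Option (Lt Fl C))) (c : C) (S : Finset Fl),
      Zr M k T (.A c S) (List.replicate (n + 1) (some (.P ∅)) ++ D)) (c : C)
    (T : List (Option (Lt Fl C))) : ∀
    (s t : ℕ) (D : List (Option (Lt Fl C))) (S : Finset Fl)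
    (_ : S.card = s) (_ : t ≤ n) (_ : s * (n + 2) + (n + 1 - t) < T.length)
    (_ : ¬ Zr M k T (.A c S) (List.replicate t (some (.P ∅)) ++ D)),
    ∃ (ls : List (Finset Fl)) (μ : Option (C × Finset Fl)) (φ : Finset Fl)
      (T' : List (Option (Lt Fl C))),
      T = (ls.map fun ψ => some (Lt.P ψ)) ++ some (Lt.B μ φ) :: T' ∧
      (ls ++ [φ]).length ≤ s * (n + 2) + (n + 1 - t) + 1 ∧ (∀ ψ ∈ ls ++ [φ], M.z ∉ ψ) ∧
      okty M c μ ∧
      (∀ i ∈ S, ∃! y, y < (ls ++ [φ]).length ∧ i ∈ (ls ++ [φ]).getD y ∅) ∧
      ∀ i, i ∉ S → ∀ ψ ∈ ls ++ [φ], i ∉ ψ := by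
  induction T with
  | nil =>
    intro s t D S hs ht hT h0
    exfalso
    rw [List.length_nil] at hT
    omega
  | cons l T1 ih =>
    intro s t D S hs ht hT h0
    rw [List.length_cons] at hT
    have hl : (∃ φ, l = some (.P φ)) ∨ ∃ μ φ, l = some (.B μ φ) := by
      by_contra hne
      push Not at hne
      exact h0 (Zr.zero (T0 := [l]) (D0 := []) (T := T1) (LocZ.topX hne.1 hne.2))
    rcases hl with ⟨φ, rfl⟩ | ⟨μ, φ, rfl⟩
    · have hsub : φ ⊆ S ∧ M.z ∉ φ := by
        by_contra hne
        refine h0 (Zr.zero (T0 := [some (.P φ)]) (D0 := []) (T := T1) (LocZ.topP ?_))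
        tauto
      obtain ⟨hφS, hz⟩ := hsub
      by_cases hφ : φ = ∅
      · subst hφ
        have h0' : ¬ Zr M k T1 (.A c S) (List.replicate (t + 1) (some (.P ∅)) ++ D) := by
          rw [List.replicate_succ, List.cons_append, zr_blank]
          exact h0
        by_cases htn : t = n
        · subst htn
          exact absurd (hb _ _ _ _) h0'
        · obtain ⟨ls, μ, φ', T', h1, h2, h3, h4, h5, h6⟩ := ih s (t + 1) D S hs (by omega)
            (by omega) h0'
          refine ⟨∅ :: ls, μ, φ', T', by rw [h1]; simp, ?_, ?_, h4, ?_, ?_⟩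
          · rw [List.cons_append, List.length_cons]
            omega
          · intro ψ hψ
            rw [List.cons_append] at hψ
            rcases List.mem_cons.mp hψ with rfl | hψ
            · exact hz
            · exact h3 ψ hψ
          · intro i hi
            rw [List.cons_append]
            exact uniq_cons_notMem (Finset.notMem_empty i) (h5 i hi)
          · intro i hi ψ hψ
            rw [List.cons_append] at hψ
            rcases List.mem_cons.mp hψ with rfl | hψ
            · exact Finset.notMem_empty i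
            · exact h6 i hi ψ hψ
      · obtain ⟨j, hj⟩ := Finset.nonempty_iff_ne_empty.mpr hφ
        have hlt : (S \ φ).card < s := by
          rw [← hs]
          apply Finset.card_lt_card
          rw [Finset.ssubset_iff_of_subset Finset.sdiff_subset]
          exact ⟨j, hφS hj, by simp [hj]⟩
        have hmul : ((S \ φ).card + 1) * (n + 2) ≤ s * (n + 2) :=
          Nat.mul_le_mul_right _ hlt
        rw [Nat.add_mul, Nat.one_mul] at hmul
        have hdis : Disjoint φ (S \ φ) := Finset.disjoint_sdiff
        have hun : (S \ φ) ∪ φ = S := Finset.sdiff_union_of_subset hφS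
        have h0' : ¬ Zr M k T1 (.A c (S \ φ)) (List.replicate 0 (some (.P ∅)) ++
            (some (.P φ) :: (List.replicate t (some (.P ∅)) ++ D))) := by
          rw [List.replicate_zero, List.nil_append, zr_move M hdis hz, hun]
          exact h0
        obtain ⟨ls, μ, φ', T', h1, h2, h3, h4, h5, h6⟩ := ih (S \ φ).card 0 _ (S \ φ) rfl
            (Nat.zero_le _) (by omega) h0'
        refine ⟨φ :: ls, μ, φ', T', by rw [h1]; simp, ?_, ?_, h4, ?_, ?_⟩
        · rw [List.cons_append, List.length_cons]
          omega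
        · intro ψ hψ
          rw [List.cons_append] at hψ
          rcases List.mem_cons.mp hψ with rfl | hψ
          · exact hz
          · exact h3 ψ hψ
        · intro i hi
          rw [List.cons_append]
          by_cases hiφ : i ∈ φ
          · exact uniq_cons_mem hiφ (h6 i (by simp [hiφ]))
          · exact uniq_cons_notMem hiφ (h5 i (Finset.mem_sdiff.mpr ⟨hi, hiφ⟩))
        · intro i hi ψ hψ
          rw [List.cons_append] at hψ
          rcases List.mem_cons.mp hψ with rfl | hψ
          · exact fun h => hi (hφS h)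
          · exact h6 i (fun h => hi (Finset.mem_sdiff.mp h).1) ψ hψ
    · have hB : φ = S ∧ M.z ∉ φ ∧ okty M c μ := by
        by_contra hne
        refine h0 (Zr.zero (T0 := [some (.B μ φ)]) (D0 := []) (T := T1) (LocZ.topB ?_))
        tauto
      obtain ⟨rfl, hz, hok⟩ := hB
      refine ⟨[], μ, φ, T1, by simp, by simp, ?_, hok, ?_, ?_⟩
      · intro ψ hψ
        rw [List.nil_append, List.mem_singleton] at hψ
        rw [hψ]
        exact hz
      · intro i hi
        exact uniq_cons_mem hi (by simp)
      · intro i hi ψ hψ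
        rw [List.nil_append, List.mem_singleton] at hψ
        rw [hψ]
        exact hi

/-- The walk to the top side: the head is derivably zero or the base cell is found.

Proof. Induction on `(card S, n + 1 - t)` (lexicographic) where `D` begins with `t` blanks,
`t ≤ n` by `hb`. The next letter `l` of `T` (it exists, `T` is long): `P φ` with `φ ⊆ S`, `z ∉ φ`
(else `LocZ.topP`), then `Loc.move` backwards, for `φ = ∅` the number of blanks increases, otherwise
`card S` decreases; or `B μ φ` with `φ = S`, `z ∉ φ`, `okty` (else `LocZ.topB`); other letters: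
`LocZ.topX`. -/
theorem walk_top {k n : ℕ} (hb : ∀ (T D : List (Option (Lt Fl C))) (c : C) (S : Finset Fl),
      Zr M k T (.A c S) (List.replicate (n + 1) (some (.P ∅)) ++ D))
    (s t : ℕ) (T D : List (Option (Lt Fl C))) (c : C) (S : Finset Fl)
    (hs : S.card = s) (ht : t ≤ n) (hT : s * (n + 2) + (n + 1 - t) < T.length)
    (h0 : ¬ Zr M k T (.A c S) (List.replicate t (some (.P ∅)) ++ D)) :
    ∃ (ls : List (Finset Fl)) (μ : Option (C × Finset Fl)) (φ : Finset Fl)
      (T' : List (Option (Lt Fl C))),
      T = (ls.map fun ψ => some (Lt.P ψ)) ++ some (Lt.B μ φ) :: T' ∧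
      (ls ++ [φ]).length ≤ s * (n + 2) + (n + 1 - t) + 1 ∧ (∀ ψ ∈ ls ++ [φ], M.z ∉ ψ) ∧
      okty M c μ ∧
      (∀ i ∈ S, ∃! y, y < (ls ++ [φ]).length ∧ i ∈ (ls ++ [φ]).getD y ∅) ∧
      ∀ i, i ∉ S → ∀ ψ ∈ ls ++ [φ], i ∉ ψ :=
  walk_top_aux M hb c T s t D S hs ht hT h0

end

end Pool.Agent.W_59b51d_u18
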