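import Pool.Agent.W_59b51d_u18.PadD

/-!
# If `p k`, a head with long contexts is derivably zero (PadE)
-/

namespace Pool.Agent.W_59b51d_u18

section

variable {Fl C : Type} [Fintype Fl] [DecidableEq Fl] (M : Mach Fl C) {i0 : Fl} {p : ℕ → Prop}

/-- The statement of `away` for a zone in a context: the two cases of the type. -/
theorem zone_zero (hM : MachOK M i0 p) {k n : ℕ}
    (hb : ∀ (T D : List (Option (Lt Fl C))) (c : C) (S : Finset Fl),
      Zr M k T (.A c S) (List.replicate (n + 1) (some (.P ∅)) ++ D))
    (hu : ∀ (f : Fl → ℕ) (T D : List (Option (Lt Fl C))), Valid M f → n + 3 ≤ D.length →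
      ZZ M k M.u0 f none 0 T D)
    {f : Fl → ℕ} {μ : Option (C × Finset Fl)} {c : C} {T D : List (Option (Lt Fl C))}
    (hv : Valid M f) (hok : okty M c μ) (hD : n + 3 ≤ D.length)
    (hnew : f M.z ≤ n → ∀ (c' : C) (S' : Finset Fl),
      Zr M k T (.A c' S') (List.replicate (f M.z + 1) (some (.P ∅)) ++ D)) :
    ZZ M k c f μ 0 T D := by
  by_cases hty : M.ty c = true
  · obtain ⟨⟨c', S'⟩, rfl⟩ := Option.ne_none_iff_exists'.mp (hok.mp hty)
    refine hM.res1 (f M.z) (fun c f => ZZ M k c f (some (c', S')) 0 T D)
      (zz_inv M k (f M.z) _ T D) ?_ ?_ c f hty hv rfl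
    · intro c f _ _ hk
      exact zz_killed M k hk (Nat.zero_le _)
    · show ZZ M k M.d0 (zeroAt M (f M.z)) (some (c', S')) 0 T D
      rw [← zz_newn]
      by_cases hn : f M.z ≤ n
      · exact hnew hn c' S'
      · have h : f M.z + 1 = (n + 1) + (f M.z - n) := by omega
        rw [h, List.replicate_add, List.append_assoc]
        exact hb _ _ _ _
  · have hμ : μ = none := by
      by_contra hne
      exact hty (hok.mpr hne)
    subst hμ
    have hty' : M.ty c = false := by simpa using hty
    refine hM.res2 (f M.z) (fun c f => ZZ M k c f none 0 T D)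
      (zz_inv M k (f M.z) _ T D) ?_ ?_ c f hty' hv rfl
    · intro c f _ _ hk
      exact zz_killed M k hk (Nat.zero_le _)
    · intro g hg _
      exact hu g T D hg hD

/-- Downward induction on the number `j` of blanks beside the head.

Proof. For `j = n + 1` this is `hb`. Assume the statement for all `j' > j` and suppose that the
zipper is not derivably zero. `zone_of_not`; the first `j` cells of the deep side are blank, so
`x + j ≤ f z`. If `ty c = true`, then `μ = some (c', S')`; `res1` for
`Q c f = ZZ M k c f μ 0 T' D'` (`zz_inv`, `zz_killed`), where `Q d0 (zeroAt (f z))` holds by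
`zz_newn` and the induction hypothesis for `j' = f z + 1` (or `hb` if `f z ≥ n`). If
`ty c = false`, then `μ = none`; `res2` for the same `Q`, where `Q u0 g` holds by `zu0`. -/
theorem away (hM : MachOK M i0 p) {k n : ℕ}
    (hb : ∀ (T D : List (Option (Lt Fl C))) (c : C) (S : Finset Fl),
      Zr M k T (.A c S) (List.replicate (n + 1) (some (.P ∅)) ++ D)) {W : ℕ}
    (hW : W = (Fintype.card Fl + 2) * (n + 2))
    (hu : ∀ (f : Fl → ℕ) (T D : List (Option (Lt Fl C))), Valid M f → n + 3 ≤ D.length →
      ZZ M k M.u0 f none 0 T D) (j i : ℕ) (hj : j + i = n + 1)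
    (T D : List (Option (Lt Fl C))) (c : C) (S : Finset Fl)
    (hT : (i + 1) * (W + n + 3) ≤ T.length) (hD : (i + 1) * (W + n + 3) ≤ D.length) :
    Zr M k T (.A c S) (List.replicate j (some (.P ∅)) ++ D) := by
  induction i using Nat.strong_induction_on generalizing j T D c S with
  | _ i ih =>
  by_contra h0
  have hW1 : W + n + 3 ≤ (i + 1) * (W + n + 3) := Nat.le_mul_of_pos_left _ (Nat.succ_pos i)
  obtain ⟨f, μ, x, T', D', hv, hx0, hxz, hS, hok, hTe, hDe, hTl, hDl⟩ := zone_of_not M hb hW T
    (List.replicate j (some (.P ∅)) ++ D) c S (by omega)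
    (by rw [List.length_append]; omega) h0
  -- the first `j` cells are blank
  have hxj : x + j ≤ f M.z := by
    by_contra hlt
    have hlen : ((deeps f μ x (f M.z)).map (some : Lt Fl C → _)).length = f M.z + 1 - x := by
      simp [deeps]
    have hidx : f M.z - x < ((deeps f μ x (f M.z)).map (some : Lt Fl C → _)).length := by
      rw [hlen]
      omega
    have h1 : (((deeps f μ x (f M.z)).map some ++ D'))[f M.z - x]? =
        some (some (Lt.P (C := C) (lev f (f M.z)))) := by
      rw [List.getElem?_append_left hidx, List.getElem?_eq_getElem hidx]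
      simp only [deeps, List.getElem_map, List.getElem_range', Nat.one_mul]
      rw [cell, if_neg (by omega)]
      congr 4
      omega
    rw [← hDe, List.getElem?_append_left (by rw [List.length_replicate]; omega),
      List.getElem?_replicate_of_lt (by omega)] at h1
    have h2 : (∅ : Finset Fl) = lev f (f M.z) := by
      simpa using h1
    have h3 : M.z ∈ lev f (f M.z) := mem_lev.mpr rfl
    rw [← h2] at h3
    exact Finset.notMem_empty _ h3
  rw [List.length_append, List.length_replicate] at hDl
  apply h0
  have hzz : ZZ M k c f μ x T' D' := by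
    rw [zz_move M k hxz (Nat.zero_le _)]
    apply zone_zero M hM hb hu hv hok (by omega)
    intro hn c' S'
    have hi : n - f M.z < i := by omega
    have hmul : (n - f M.z + 1) * (W + n + 3) ≤ i * (W + n + 3) := Nat.mul_le_mul_right _ hi
    rw [Nat.add_mul, Nat.one_mul] at hT hD
    exact ih (n - f M.z) hi (f M.z + 1) (by omega) T' D' c' S' (by omega) (by omega)
  rw [ZZ, ← hTe, ← hDe, hd, if_neg (by omega), ← hS] at hzz
  exact hzz

/-- **If `p k`, a head with long contexts is derivably zero.**

Proof. Heads away from home: `away` for `j = 0`, `i = n + 1`. Heads at home `H c`: the next letter is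
`B μ φ` with `okty`, else `LocZ.nextH`, `LocZ.home`. If `z ∉ φ`, `Loc.move0` leads to a head
away from home. If `z ∈ φ`, then `φ` is everything, and the zipper is the zone `ZZ c 0 μ 0` with
`f = 0`; `res1`, `res2` as in the proof of `away`. -/
theorem exists_pad (hM : MachOK M i0 p) {k : ℕ} (hk : p k) : ∃ N, ∀ (T D : List (Option (Lt Fl C)))
    (h : Lt Fl C), h.isHead → N ≤ T.length → N ≤ D.length → Zr M k T h D := by
  obtain ⟨n, hb⟩ := exists_blank M hM hk
  have hu : ∀ (f : Fl → ℕ) (T D : List (Option (Lt Fl C))), Valid M f → n + 3 ≤ D.length →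
      ZZ M k M.u0 f none 0 T D := fun f T D hv hD => zu0 M hb f T D hv hD
  have hA : ∀ (T D : List (Option (Lt Fl C))) (c : C) (S : Finset Fl),
      (n + 2) * ((Fintype.card Fl + 2) * (n + 2) + n + 3) ≤ T.length →
      (n + 2) * ((Fintype.card Fl + 2) * (n + 2) + n + 3) ≤ D.length →
      Zr M k T (.A c S) D := by
    intro T D c S hT hD
    have := away M hM hb rfl hu 0 (n + 1) (by omega) T D c S hT hD
    rwa [List.replicate_zero, List.nil_append] at this
  refine ⟨(n + 2) * ((Fintype.card Fl + 2) * (n + 2) + n + 3) + 1, ?_⟩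
  intro T D h hh hT hD
  have hbig : n + 3 ≤ (n + 2) * ((Fintype.card Fl + 2) * (n + 2) + n + 3) := by
    have h1 : (Fintype.card Fl + 2) * (n + 2) + n + 3 ≤
        (n + 2) * ((Fintype.card Fl + 2) * (n + 2) + n + 3) :=
      Nat.le_mul_of_pos_left _ (by omega)
    omega
  cases h with
  | P φ => exact absurd hh (by simp [Lt.isHead])
  | B μ φ => exact absurd hh (by simp [Lt.isHead])
  | A c S => exact hA T D c S (by omega) (by omega)
  | H c =>
    by_contra h0
    rcases D with _ | ⟨l, D1⟩
    · rw [List.length_nil] at hD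
      omega
    rw [List.length_cons] at hD
    have hl : ∃ μ φ, l = some (.B μ φ) := by
      by_contra hne
      push Not at hne
      exact h0 (Zr.zero (T0 := []) (D0 := [l]) (D := D1) (LocZ.nextH hne))
    obtain ⟨μ, φ, rfl⟩ := hl
    have hB : okty M c μ ∧ (M.z ∈ φ → φ = Finset.univ) := by
      by_contra hne
      refine h0 (Zr.zero (T0 := []) (D0 := [some (.B μ φ)]) (D := D1) (LocZ.home ?_))
      tauto
    obtain ⟨hok, hun⟩ := hB
    by_cases hz : M.z ∈ φ
    · have hφ := hun hz
      subst hφ
      apply h0
      have hv : Valid M (fun _ : Fl => 0) := fun i => le_refl _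
      have hzz : ZZ M k c (fun _ => 0) μ 0 T D1 := by
        apply zone_zero M hM hb hu hv hok (by omega)
        intro hn c' S'
        apply hA
        · omega
        · rw [List.length_append]
          omega
      have h1 : (deeps (fun _ : Fl => 0) μ 0 0 : List (Lt Fl C)) = [.B μ Finset.univ] := by
        simp [deeps, cell, lev]
      have h2 : Zr M k ([] ++ T) (.H c) ([some (.B μ Finset.univ)] ++ D1) := by
        have h3 := hzz
        rw [ZZ, h1, hd, if_pos rfl, tops] at h3
        exact h3
      exact h2
    · exact h0 (Zr.step (T := T) (D := D1) (Loc.move0 (c := c) (μ := μ) hz)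
        (hA _ _ _ _ (by simp; omega) (by simp; omega)))

end

end Pool.Agent.W_59b51d_u18
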