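import Pool.Agent.W_59b51d_u18.ProgA3

/-!
# Triangular numbers and states of the program
-/
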