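import Pool.Agent.W_59b51d_u18.ProgA2

/-!
# Triangular numbers and states of the program (ProgA3)
-/

namespace Pool.Agent.W_59b51d_u18

section

variable {m E : ℕ} {eqs : Fin E → Eqn (Fin m)} {i0 a b : Fin m}

/-! ### The moves of a predicate which is invariant -/

variable {n : ℕ} {Q : Bool × Ctl E → (Flag m → ℕ) → Prop} {ty : Bool} {g : Fin m → ℕ} {e : Fin E}
  {bb d : Bool} {u w q : ℕ}

theorem h42_std_z (g : Fin m → ℕ) (d : Bool) (u w q n : ℕ) : std g d u w q n .z = n := by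
  cases d <;> rfl

theorem h42_std_v (g : Fin m → ℕ) (d : Bool) (u w q n : ℕ) (i : Fin m) :
    std g d u w q n (.v i) = g i := by
  cases d <;> rfl

theorem h42_std_p (g : Fin m → ℕ) (d : Bool) (u w q n : ℕ) : std g d u w q n .p = q := by
  cases d <;> rfl

/-- a test at home -/
theorem h42_mvt0 (hQ : Inv (prog eqs i0 a b) n Q) {c c' : Bool × Ctl E} {f : Flag m → ℕ}
    (hv : Valid (prog eqs i0 a b) f) (hz : f .z = n)
    (h : Tst eqs c c' true (sect f 0) (lev f 0)) : Q c f ↔ Q c' f :=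
  hQ _ _ _ _ hv hz (Adj.tst (x := 0) (Nat.zero_le _) h)

/-- a test at the position `x` -/
theorem h42_mvt (hQ : Inv (prog eqs i0 a b) n Q) {c c' : Bool × Ctl E} {f : Flag m → ℕ}
    (hv : Valid (prog eqs i0 a b) f) (hz : f .z = n) (x : ℕ) (hx : x ≤ n)
    (h : Tst eqs c c' (decide (x = 0)) (sect f x) (lev f x)) : Q c f ↔ Q c' f :=
  hQ _ _ _ _ hv hz (Adj.tst (x := x) (hx.trans hz.ge) h)

/-- `A0 → A3`: the roles are exchanged when the second component is `0`. -/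
theorem mv03 (hQ : Inv (prog eqs i0 a b) n Q) (hg : Bdd g n) (hu : u ≤ n)
    (hq : q ≤ n) : Q (ty, .W e bb 0 d) (std g d u 0 q n) ↔
      Q (ty, .W e bb 3 (!d)) (std g (!d) 0 u q n) := by
  rw [std_not]
  exact h42_mvt0 hQ (valid_std hg hu (Nat.zero_le n) hq) (h42_std_z _ _ _ _ _ _)
    (Tst.t03 (mem_lev.2 (std_wf _ _ _ _ _ _)))

theorem mv42 (hQ : Inv (prog eqs i0 a b) n Q) (hg : Bdd g n) (hw : w ≤ n)
    (hq : q ≤ n) : Q (ty, .W e bb 4 d) (std g d 0 w q n) ↔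
      Q (ty, .W e bb 2 d) (std g d 0 w q n) :=
  h42_mvt0 hQ (valid_std hg (Nat.zero_le n) hw hq) (h42_std_z _ _ _ _ _ _)
    (Tst.t42 (mem_lev.2 (std_uf _ _ _ _ _ _)))

theorem mvc1 (hQ : Inv (prog eqs i0 a b) n Q) (hg : Bdd g n) (hw : w ≤ n)
    (hq : q ≤ n) : Q (ty, .W e false 0 d) (std g d (g (eqs e).i) w q n) ↔
      Q (ty, .C1 e d) (std g d (g (eqs e).i) w q n) :=
  h42_mvt hQ (valid_std hg (hg _) hw hq) (h42_std_z _ _ _ _ _ _) (g (eqs e).i) (hg _)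
    (Tst.tc1 (mem_lev.2 (std_uf _ _ _ _ _ _)) (mem_lev.2 (h42_std_v _ _ _ _ _ _ _)))

theorem mvc2 (hQ : Inv (prog eqs i0 a b) n Q) (hg : Bdd g n) (hu : u ≤ n)
    (hq : q ≤ n) (ho : ordg (eqs e) g) : Q (ty, .C1 e d) (std g d u (g (eqs e).j) q n) ↔
      Q (ty, .C2 e d) (std g d u (g (eqs e).j) q n) := by
  refine h42_mvt hQ (valid_std hg hu (hg _) hq) (h42_std_z _ _ _ _ _ _) (g (eqs e).j) (hg _)
    (Tst.tc2 (mem_lev.2 (std_wf _ _ _ _ _ _)) (mem_lev.2 (h42_std_v _ _ _ _ _ _ _)) ?_)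
  unfold ordg at ho
  unfold Ordc
  split_ifs at ho ⊢ with hst
  · rw [mem_sect, h42_std_v]
    exact ho
  · rw [mem_sect, mem_lev, h42_std_v]
    exact lt_or_eq_of_le ho

theorem mvcb (hQ : Inv (prog eqs i0 a b) n Q) (hg : Bdd g n) (hu : u ≤ n)
    (hw : w ≤ n) : Q (ty, .C2 e d) (std g d u w (g (eqs e).l) n) ↔
      Q (ty, .W e true 0 d) (std g d u w (g (eqs e).l) n) :=
  h42_mvt hQ (valid_std hg hu hw (hg _)) (h42_std_z _ _ _ _ _ _) (g (eqs e).l) (hg _)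
    (Tst.tcb (mem_lev.2 (h42_std_p _ _ _ _ _ _)) (mem_lev.2 (h42_std_v _ _ _ _ _ _ _)))

theorem mvg (hQ : Inv (prog eqs i0 a b) n Q) (hg : Bdd g n) :
    Q (ty, .G e.castSucc) (std g false 0 0 0 n) ↔
      Q (ty, .W e false 0 false) (std g false 0 0 0 n) :=
  h42_mvt0 hQ (valid_std hg (Nat.zero_le n) (Nat.zero_le n) (Nat.zero_le n)) rfl
    (Tst.tg (mem_lev.2 rfl) (mem_lev.2 rfl) (mem_lev.2 rfl))

theorem mvh (hQ : Inv (prog eqs i0 a b) n Q) (hg : Bdd g n) :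
    Q (ty, .W e true 0 false) (std g false 0 0 0 n) ↔
      Q (ty, .G e.succ) (std g false 0 0 0 n) :=
  h42_mvt0 hQ (valid_std hg (Nat.zero_le n) (Nat.zero_le n) (Nat.zero_le n)) rfl
    (Tst.th (mem_lev.2 rfl) (mem_lev.2 rfl) (mem_lev.2 rfl))

end

end Pool.Agent.W_59b51d_u18
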