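import Pool.Agent.W_59b51d_u18.ProgB3

/-!
# The program: killed states, running down and running up (ProgB4)
-/

namespace Pool.Agent.W_59b51d_u18

section

variable {m E : ℕ} {eqs : Fin E → Eqn (Fin m)} {i0 a b : Fin m}

variable {n : ℕ} {Q : Bool × Ctl E → (Flag m → ℕ) → Prop} {ty : Bool} {g : Fin m → ℕ} {e : Fin E}
  {bb d : Bool} {u w q : ℕ}

/-- If `Q` contains the killed states and `G e`, then it contains all states of the walk of `e`, of
both copies, the states `C1`, `C2` and `G (e + 1)`.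

Proof. Copy `false`: `mvg` and `down`. `C1`: `mvc1` or `kilc1`; `C2`: `mvc2` or `kilc2`. Copy `true`:
by `pair_surj` for `g l` and `up` the start state is connected to a state `W 0` with value `g l`,
which is connected to `C2` (`mvcb`); `down`. `G (e + 1)`: `mvh`. -/
theorem stage (hQ : Inv (prog eqs i0 a b) n Q)
    (hk : ∀ c f, Valid (prog eqs i0 a b) f → f .z = n → Killed (prog eqs i0 a b) c f → Q c f)
    (hg : Bdd g n) (h0 : Q (ty, .G e.castSucc) (std g false 0 0 0 n))
    (hu : u ≤ n) (hw : w ≤ n) (hq : q ≤ n) :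
    (∀ bb k d, Q (ty, .W e bb k d) (std g d u w q n)) ∧
      (∀ d, Q (ty, .C1 e d) (std g d u w q n)) ∧
      (∀ d, Q (ty, .C2 e d) (std g d u w q n)) ∧
      Q (ty, .G e.succ) (std g false 0 0 0 n) := by
  have hz : ∀ (d : Bool) (u w q : ℕ), std g d u w q n .z = n := by
    intro d u w q
    cases d <;> rfl
  have hA0 : Q (ty, .W e false 0 false) (std g false 0 0 0 n) := (mvg hQ hg).1 h0
  have hA : ∀ (k : Fin 5) (d : Bool) (u w q : ℕ), u ≤ n → w ≤ n → q ≤ n →
      Q (ty, .W e false k d) (std g d u w q n) :=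
    fun k d u w q hu hw hq => down hQ hk hg hA0 k hu hw hq
  have hC1 : ∀ (d : Bool) (u w q : ℕ), u ≤ n → w ≤ n → q ≤ n →
      Q (ty, .C1 e d) (std g d u w q n) := by
    intro d u w q hu hw hq
    by_cases h : g (eqs e).i = u
    · subst h
      exact (mvc1 hQ hg hw hq).1 (hA 0 d _ _ _ hu hw hq)
    · exact hk _ _ (valid_std hg hu hw hq) (hz _ _ _ _) (kilc1 hu h)
  have hC2 : ∀ (d : Bool) (u w q : ℕ), u ≤ n → w ≤ n → q ≤ n →
      Q (ty, .C2 e d) (std g d u w q n) := by
    intro d u w q hu hw hq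
    by_cases h : g (eqs e).j = w ∧ ordg (eqs e) g
    · obtain ⟨h1, h2⟩ := h
      subst h1
      exact (mvc2 hQ hg hu hq h2).1 (hC1 d _ _ _ hu hw hq)
    · exact hk _ _ (valid_std hg hu hw hq) (hz _ _ _ _) (kilc2 hw h)
  have hB0 : Q (ty, .W e true 0 false) (std g false 0 0 0 n) := by
    obtain ⟨x, y, hxy⟩ := pair_surj (g (eqs e).l)
    have hl : g (eqs e).l ≤ n := hg _
    have h1 := le_T (x + y)
    rw [up hQ hg (x + y) x (Nat.le_add_right _ _) (by omega), Nat.add_sub_cancel_left, hxy,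
      ← mvcb hQ hg (by omega) (by omega)]
    exact hC2 _ _ _ _ (by omega) (by omega) hl
  refine ⟨?_, fun d => hC1 d _ _ _ hu hw hq, fun d => hC2 d _ _ _ hu hw hq, (mvh hQ hg).1 hB0⟩
  intro bb k d
  cases bb with
  | false => exact hA k d _ _ _ hu hw hq
  | true => exact down hQ hk hg hB0 k hu hw hq

end

end Pool.Agent.W_59b51d_u18
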