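import Pool.Agent.W_59b51d_u18.ProgC1

/-!
# The program satisfies the assumptions (ProgC2)
-/

namespace Pool.Agent.W_59b51d_u18

section

variable {m E : ℕ} {eqs : Fin E → Eqn (Fin m)} {i0 a b : Fin m}

/-- Moving one variable to `0`. -/
theorem free_one {n : ℕ} {Q : Bool × Ctl E → (Flag m → ℕ) → Prop}
    (hQ : Inv (prog eqs i0 a b) n Q) {ty : Bool} {g : Fin m → ℕ} (hg : Bdd g n) {i : Fin m}
    (hi : ty = true ∨ i ≠ i0) (t : ℕ) (ht : t ≤ n) :
    Q (ty, .G 0) (std (Function.update g i t) false 0 0 0 n) ↔
      Q (ty, .G 0) (std (Function.update g i 0) false 0 0 0 n) := by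
  induction t with
  | zero => exact Iff.rfl
  | succ t ih =>
    have hb : Bdd (Function.update g i t) n := by
      intro j
      by_cases hj : j = i
      · subst hj
        rw [Function.update_self]
        omega
      · rw [Function.update_of_ne hj]
        exact hg j
    have h := mvfree (i := i) hQ hb hi (by rw [Function.update_self]; exact ht)
    rw [Function.update_self, Function.update_idem] at h
    exact h.symm.trans (ih (by omega))

/-- Moving the movable variables of a finite set to `0`. -/
theorem free_set {n : ℕ} {Q : Bool × Ctl E → (Flag m → ℕ) → Prop}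
    (hQ : Inv (prog eqs i0 a b) n Q) {ty : Bool} {g : Fin m → ℕ} (hg : Bdd g n)
    (s : Finset (Fin m)) (hs : ∀ i ∈ s, ty = true ∨ i ≠ i0) :
    Q (ty, .G 0) (std g false 0 0 0 n) ↔
      Q (ty, .G 0) (std (fun i => if i ∈ s then 0 else g i) false 0 0 0 n) := by
  classical
  induction s using Finset.induction_on with
  | empty => simp
  | insert i s hi ih =>
    rw [ih fun j hj => hs j (Finset.mem_insert_of_mem hj)]
    set h : Fin m → ℕ := fun j => if j ∈ s then 0 else g j with hh
    have hb : Bdd h n := by
      intro j
      simp only [hh]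
      split_ifs
      · exact Nat.zero_le _
      · exact hg j
    have h1 := free_one hQ hb (hs i (Finset.mem_insert_self i s)) (h i) (hb i)
    rw [Function.update_eq_self] at h1
    rw [h1]
    have h2 : Function.update h i 0 = fun j => if j ∈ insert i s then 0 else g j := by
      funext j
      by_cases hj : j = i
      · subst hj
        rw [Function.update_self, if_pos (Finset.mem_insert_self _ _)]
      · rw [Function.update_of_ne hj]
        simp only [hh, Finset.mem_insert, hj, false_or]
    rw [h2]

/-- Free moves: in the nested type all states `G 0` are connected.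

Proof. Induction on the sum of the values, `mvfree`. -/
theorem free_all {n : ℕ} {Q : Bool × Ctl E → (Flag m → ℕ) → Prop}
    (hQ : Inv (prog eqs i0 a b) n Q) {g : Fin m → ℕ} (hg : Bdd g n) :
    Q (true, .G 0) (std g false 0 0 0 n) ↔
      Q (true, .G 0) (std (fun _ => 0) false 0 0 0 n) := by
  have h := free_set hQ hg Finset.univ fun i _ => Or.inl rfl
  simpa using h

/-- Free moves in the base type: the input variable is not moved. -/
theorem free_base {n : ℕ} {Q : Bool × Ctl E → (Flag m → ℕ) → Prop}
    (hQ : Inv (prog eqs i0 a b) n Q) {g : Fin m → ℕ} (hg : Bdd g n) :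
    Q (false, .G 0) (std g false 0 0 0 n) ↔
      Q (false, .G 0) (std (fun i => if i = i0 then g i0 else 0) false 0 0 0 n) := by
  have h := free_set (ty := false) hQ hg (Finset.univ.erase i0)
    fun i hi => Or.inr (Finset.ne_of_mem_erase hi)
  rw [h]
  have h2 : (fun i => if i ∈ Finset.univ.erase i0 then 0 else g i) =
      fun i => if i = i0 then g i0 else 0 := by
    funext i
    by_cases hi : i = i0
    · subst hi
      simp
    · simp [hi]
  rw [h2]

end

end Pool.Agent.W_59b51d_u18
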