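import Pool.Agent.W_59b51d_u18.ProgC2

/-!
# The program satisfies the assumptions (ProgC3)
-/

namespace Pool.Agent.W_59b51d_u18

section Safe

variable {m E : ℕ} (eqs : Fin E → Eqn (Fin m))

/-- The invariant of the walk. -/
def wInv (f : Flag m → ℕ) (k : Fin 5) (d : Bool) : Prop :=
  let u := f (uf m d)
  let w := f (wf m d)
  let q := f .p
  let par : ℕ := if d then 1 else 0
  match k with
  | 0 => q = T (u + w) + u ∧ (u + w) % 2 = par
  | 1 => q = T (u + w + 1) + u ∧ (u + w + 1) % 2 = par
  | 2 => q + 1 = T (u + w) + u ∧ (u + w) % 2 = par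
  | 3 => u = 0 ∧ q = T w + w ∧ (w + 1) % 2 = par
  | 4 => u = 0 ∧ q + 1 = T w ∧ w % 2 = par

/-- The legitimate states. `V` is the condition on the values of the variables. -/
def LL (V : (Fin m → ℕ) → Prop) (ty : Bool) : Bool × Ctl E → (Flag m → ℕ) → Prop
  | (t, .G e), f => t = ty ∧ V (fun i => f (.v i)) ∧ f .X = 0 ∧ f .Y = 0 ∧ f .p = 0 ∧
      ∀ e' : Fin E, e'.1 < e.1 → (eqs e').holds fun i => f (.v i)
  | (t, .W e b k d), f => t = ty ∧ V (fun i => f (.v i)) ∧ wInv f k d ∧
      (∀ e' : Fin E, e'.1 < e.1 → (eqs e').holds fun i => f (.v i)) ∧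
      (b = true → (eqs e).holds fun i => f (.v i))
  | (t, .C1 e d), f => t = ty ∧ V (fun i => f (.v i)) ∧ wInv f 0 d ∧
      (∀ e' : Fin E, e'.1 < e.1 → (eqs e').holds fun i => f (.v i)) ∧
      f (uf m d) = f (.v (eqs e).i)
  | (t, .C2 e d), f => t = ty ∧ V (fun i => f (.v i)) ∧ wInv f 0 d ∧
      (∀ e' : Fin E, e'.1 < e.1 → (eqs e').holds fun i => f (.v i)) ∧
      f (uf m d) = f (.v (eqs e).i) ∧ f (wf m d) = f (.v (eqs e).j) ∧
      ordg (eqs e) fun i => f (.v i)

omit eqs in
theorem wInv0 (f : Flag m → ℕ) (d : Bool) : wInv f 0 d ↔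
    f .p = T (f (uf m d) + f (wf m d)) + f (uf m d) ∧
      (f (uf m d) + f (wf m d)) % 2 = if d then 1 else 0 := Iff.rfl

omit eqs in
theorem wInv1 (f : Flag m → ℕ) (d : Bool) : wInv f 1 d ↔
    f .p = T (f (uf m d) + f (wf m d) + 1) + f (uf m d) ∧
      (f (uf m d) + f (wf m d) + 1) % 2 = if d then 1 else 0 := Iff.rfl

omit eqs in
theorem wInv2 (f : Flag m → ℕ) (d : Bool) : wInv f 2 d ↔
    f .p + 1 = T (f (uf m d) + f (wf m d)) + f (uf m d) ∧
      (f (uf m d) + f (wf m d)) % 2 = if d then 1 else 0 := Iff.rfl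

omit eqs in
theorem wInv3 (f : Flag m → ℕ) (d : Bool) : wInv f 3 d ↔
    f (uf m d) = 0 ∧ f .p = T (f (wf m d)) + f (wf m d) ∧
      (f (wf m d) + 1) % 2 = if d then 1 else 0 := Iff.rfl

omit eqs in
theorem wInv4 (f : Flag m → ℕ) (d : Bool) : wInv f 4 d ↔
    f (uf m d) = 0 ∧ f .p + 1 = T (f (wf m d)) ∧
      f (wf m d) % 2 = if d then 1 else 0 := Iff.rfl

omit eqs in
theorem h42_uf_ne_v (d : Bool) (i : Fin m) : Flag.v i ≠ uf m d := by cases d <;> simp [uf]

omit eqs in
theorem h42_wf_ne_v (d : Bool) (i : Fin m) : Flag.v i ≠ wf m d := by cases d <;> simp [wf]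

omit eqs in
theorem h42_uf_ne_wf (d : Bool) : uf m d ≠ wf m d := by cases d <;> simp [uf, wf]

omit eqs in
theorem h42_uf_ne_p (d : Bool) : uf m d ≠ .p := by cases d <;> simp [uf]

omit eqs in
theorem h42_wf_ne_p (d : Bool) : wf m d ≠ .p := by cases d <;> simp [wf]

omit eqs in
theorem h42_uf_not (d : Bool) : uf m (!d) = wf m d := by cases d <;> rfl

omit eqs in
theorem h42_wf_not (d : Bool) : wf m (!d) = uf m d := by cases d <;> rfl

omit eqs in
/-- moving a flag which is not a variable does not change the values of the variables -/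
theorem h42_vals_update {f : Flag m → ℕ} {fl : Flag m} {t : ℕ} (h : ∀ i, Flag.v i ≠ fl) :
    (fun i => Function.update f fl t (.v i)) = fun i => f (.v i) := by
  funext i
  rw [Function.update_of_ne (h i)]

omit eqs in
/-- the comparison at the position of `j` -/
theorem h42_ordc_iff (q : Eqn (Fin m)) (f : Flag m → ℕ) :
    Ordc q (sect f (f (.v q.j))) (lev f (f (.v q.j))) ↔ ordg q fun i => f (.v i) := by
  unfold Ordc ordg
  split_ifs with h
  · simp [mem_sect]
  · simp only [mem_sect, mem_lev]
    omega

/-- two states of the walk of the same equation -/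
theorem LL_W_congr {V : (Fin m → ℕ) → Prop} {ty t : Bool} {e : Fin E} {bb d d' : Bool}
    {k k' : Fin 5} {f f' : Flag m → ℕ} (hv : (fun i => f' (.v i)) = fun i => f (.v i))
    (h : wInv f k d ↔ wInv f' k' d') :
    LL eqs V ty (t, .W e bb k d) f ↔ LL eqs V ty (t, .W e bb k' d') f' := by
  simp only [LL, hv, h]

/-- The legitimate states are closed under the moves (all cases of `Inc` and `Tst`; for `Tst.tcb`
use `pair_inj`). `V` must not depend on the variables which may be moved. -/
theorem LL_inv {i0 a b : Fin m} (V : (Fin m → ℕ) → Prop) (ty : Bool)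
    (hV : ∀ g i t, (ty = true ∨ i ≠ i0) → (V g ↔ V (Function.update g i t))) (n : ℕ) :
    Inv (prog eqs i0 a b) n (LL eqs V ty) := by
  intro c f c' f' hval hn hadj
  cases hadj with
  | inc hinc hz hlt =>
    rename_i i
    change Inc i0 c c' i at hinc
    cases hinc with
    | @free t i hi =>
      have hvals : (fun j => Function.update f (.v i) (f (.v i) + 1) (.v j)) =
          Function.update (fun j => f (.v j)) i (f (.v i) + 1) := by
        funext j
        by_cases hj : j = i
        · subst hj
          rw [Function.update_self, Function.update_self]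
        · rw [Function.update_of_ne hj, Function.update_of_ne (by simpa using hj)]
      have hX : Function.update f (.v i) (f (.v i) + 1) .X = f .X := by
        rw [Function.update_of_ne (by simp)]
      have hY : Function.update f (.v i) (f (.v i) + 1) .Y = f .Y := by
        rw [Function.update_of_ne (by simp)]
      have hp : Function.update f (.v i) (f (.v i) + 1) .p = f .p := by
        rw [Function.update_of_ne (by simp)]
      simp only [LL, hvals, hX, hY, hp]
      constructor
      · rintro ⟨h1, h2, h3, h4, h5, -⟩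
        subst h1
        exact ⟨rfl, (hV _ _ _ hi).1 h2, h3, h4, h5, fun e' he' => absurd he' (by simp)⟩
      · rintro ⟨h1, h2, h3, h4, h5, -⟩
        subst h1
        exact ⟨rfl, (hV _ _ _ hi).2 h2, h3, h4, h5, fun e' he' => absurd he' (by simp)⟩
    | @i10 t e bb d =>
      refine LL_W_congr eqs (h42_vals_update (h42_wf_ne_v d)) ?_
      rw [wInv1, wInv0, Function.update_self, Function.update_of_ne (h42_uf_ne_wf d),
        Function.update_of_ne (h42_wf_ne_p d).symm, ← add_assoc]
    | @i12 t e bb d =>
      refine LL_W_congr eqs (h42_vals_update (h42_uf_ne_v d)) ?_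
      rw [wInv1, wInv2, Function.update_self, Function.update_of_ne (h42_uf_ne_wf d).symm,
        Function.update_of_ne (h42_uf_ne_p d).symm,
        show f (uf m d) + 1 + f (wf m d) = f (uf m d) + f (wf m d) + 1 by omega]
      constructor
      · rintro ⟨h1, h2⟩
        exact ⟨by omega, h2⟩
      · rintro ⟨h1, h2⟩
        exact ⟨by omega, h2⟩
    | @i20 t e bb d =>
      refine LL_W_congr eqs (h42_vals_update (by simp)) ?_
      rw [wInv2, wInv0, Function.update_self, Function.update_of_ne (h42_uf_ne_p d),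
        Function.update_of_ne (h42_wf_ne_p d)]
    | @i34 t e bb d =>
      refine LL_W_congr eqs (h42_vals_update (h42_wf_ne_v d)) ?_
      rw [wInv3, wInv4, Function.update_self, Function.update_of_ne (h42_uf_ne_wf d),
        Function.update_of_ne (h42_wf_ne_p d).symm, T_succ]
      constructor
      · rintro ⟨h1, h2, h3⟩
        exact ⟨h1, by omega, h3⟩
      · rintro ⟨h1, h2, h3⟩
        exact ⟨h1, by omega, h3⟩
  | @tst _ _ x hx htst =>
    change Tst eqs c c' (decide (x = 0)) (sect f x) (lev f x) at htst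
    generalize hh : decide (x = 0) = h at htst
    generalize hS : sect f x = S at htst
    generalize hφ : lev f x = φ at htst
    cases htst with
    | @t03 t e bb d _ _ hw =>
      rw [← hφ, mem_lev] at hw
      have hx0 : x = 0 := of_decide_eq_true hh
      subst hx0
      refine LL_W_congr eqs rfl ?_
      rw [wInv0, wInv3, h42_uf_not, h42_wf_not, hw]
      cases d <;> simp <;> omega
    | @t42 t e bb d _ _ hu =>
      rw [← hφ, mem_lev] at hu
      have hx0 : x = 0 := of_decide_eq_true hh
      subst hx0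
      refine LL_W_congr eqs rfl ?_
      rw [wInv4, wInv2, hu]
      simp
    | @tc1 t e d _ _ _ hu hi =>
      rw [← hφ, mem_lev] at hu hi
      simp only [LL]
      constructor
      · rintro ⟨h1, h2, h3, h4, -⟩
        exact ⟨h1, h2, h3, h4, hu.trans hi.symm⟩
      · rintro ⟨h1, h2, h3, h4, -⟩
        exact ⟨h1, h2, h3, h4, fun h => absurd h (by simp)⟩
    | @tc2 t e d _ _ _ hw hj ho =>
      rw [← hφ, mem_lev] at hw hj
      have ho' : ordg (eqs e) fun i => f (.v i) := by
        rw [← h42_ordc_iff, hj, hS, hφ]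
        exact ho
      simp only [LL]
      constructor
      · rintro ⟨h1, h2, h3, h4, h5⟩
        exact ⟨h1, h2, h3, h4, h5, hw.trans hj.symm, ho'⟩
      · rintro ⟨h1, h2, h3, h4, h5, -⟩
        exact ⟨h1, h2, h3, h4, h5⟩
    | @tcb t e d _ _ _ hp hl =>
      rw [← hφ, mem_lev] at hp hl
      have hpl : f .p = f (.v (eqs e).l) := hp.trans hl.symm
      simp only [LL]
      constructor
      · rintro ⟨h1, h2, h3, h4, h5, h6, h7⟩
        refine ⟨h1, h2, h3, h4, fun _ => ⟨?_, h7⟩⟩
        have h8 := ((wInv0 f d).1 h3).1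
        rw [h5, h6, hpl] at h8
        exact h8
      · rintro ⟨h1, h2, h3, h4, h5⟩
        have h8 := ((wInv0 f d).1 h3).1
        obtain ⟨h9, h10⟩ := h5 trivial
        have h9' : f (.v (eqs e).l) =
          T (f (.v (eqs e).i) + f (.v (eqs e).j)) + f (.v (eqs e).i) := h9
        rw [hpl, h9'] at h8
        obtain ⟨h11, h12⟩ := pair_inj h8
        exact ⟨h1, h2, h3, h4, h11.symm, h12.symm, h10⟩
    | @tg t e _ _ hX hY hp =>
      rw [← hφ, mem_lev] at hX hY hp
      have hx0 : x = 0 := of_decide_eq_true hh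
      subst hx0
      have hw0 : wInv f 0 false := by
        refine (wInv0 f false).2 ⟨?_, ?_⟩
        · change f .p = T (f .X + f .Y) + f .X
          rw [hX, hY, hp, T_zero]
        · change (f .X + f .Y) % 2 = 0
          rw [hX, hY]
      simp only [LL]
      constructor
      · rintro ⟨h1, h2, -, -, -, h4⟩
        exact ⟨h1, h2, hw0, h4, fun h => absurd h (by simp)⟩
      · rintro ⟨h1, h2, -, h4, -⟩
        exact ⟨h1, h2, hX, hY, hp, h4⟩
    | @th t e _ _ hX hY hp =>
      rw [← hφ, mem_lev] at hX hY hp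
      have hx0 : x = 0 := of_decide_eq_true hh
      subst hx0
      have hw0 : wInv f 0 false := by
        refine (wInv0 f false).2 ⟨?_, ?_⟩
        · change f .p = T (f .X + f .Y) + f .X
          rw [hX, hY, hp, T_zero]
        · change (f .X + f .Y) % 2 = 0
          rw [hX, hY]
      simp only [LL]
      constructor
      · rintro ⟨h1, h2, -, h4, h5⟩
        refine ⟨h1, h2, hX, hY, hp, fun e' he' => ?_⟩
        rw [Fin.val_succ] at he'
        by_cases h : e'.1 < e.1
        · exact h4 e' h
        · have : e' = e := Fin.ext (by omega)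
          subst this
          exact h5 trivial
      · rintro ⟨h1, h2, -, -, -, h4⟩
        refine ⟨h1, h2, hw0, fun e' he' => h4 e' ?_, fun _ => h4 e ?_⟩
        · rw [Fin.val_succ]; omega
        · rw [Fin.val_succ]; omega

end Safe

end Pool.Agent.W_59b51d_u18
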