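import Pool.Agent.W_59b51d_u18.ProgC3

/-!
# The program satisfies the assumptions (ProgC4)
-/

namespace Pool.Agent.W_59b51d_u18

section Safe

variable {m E : ℕ} (eqs : Fin E → Eqn (Fin m))

/-- The legitimate states are not killed, provided that in the base type the last state is not
legitimate. -/
theorem LL_kil {i0 a b : Fin m} (V : (Fin m → ℕ) → Prop) (ty : Bool)
    (hlast : ty = false → ∀ g, V g → ¬ ∀ e, (eqs e).holds g) (c : Bool × Ctl E)
    (f : Flag m → ℕ) (hv : Valid (prog eqs i0 a b) f) (hl : LL eqs V ty c f) :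
    ¬ Killed (prog eqs i0 a b) c f := by
  rintro ⟨x, hx, hkil⟩
  change Kil eqs c (decide (x = 0)) (sect f x) (lev f x) at hkil
  generalize hh : decide (x = 0) = h at hkil
  generalize hS : sect f x = S at hkil
  generalize hφ : lev f x = φ at hkil
  cases hkil with
  | @k0 t e bb d _ _ hp hor =>
    rw [← hφ] at hp hor
    rw [mem_lev] at hp
    simp only [mem_lev] at hor
    have hx0 : x = 0 := of_decide_eq_true hh
    subst hx0
    obtain ⟨-, -, h3, -, -⟩ := hl
    obtain ⟨h4, h5⟩ := (wInv0 f d).1 h3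
    have h6 := le_T (f (uf m d) + f (wf m d))
    have hu : f (uf m d) = 0 := by omega
    have hw : f (wf m d) = 0 := by omega
    rw [hu, hw] at h5
    cases d with
    | false =>
      change f .X = 0 at hu
      change f .Y = 0 at hw
      rcases hor with h | h | h
      · exact h hu
      · exact h hw
      · exact absurd h (by simp)
    | true => simp at h5
  | @k1 t e bb d _ _ _ hw hor =>
    rw [← hφ, mem_lev] at hw
    rw [← hφ, ← hS, mem_sect, mem_lev] at hor
    obtain ⟨-, -, h3, -, -⟩ := hl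
    obtain ⟨h4, h5⟩ := (wInv1 f d).1 h3
    have h6 := le_T (f (uf m d) + f (wf m d) + 1)
    omega
  | @k3 t e bb d _ _ hu =>
    rw [← hφ, mem_lev] at hu
    have hx0 : x = 0 := of_decide_eq_true hh
    subst hx0
    obtain ⟨-, -, h3, -, -⟩ := hl
    exact hu ((wInv3 f d).1 h3).1
  | @k4 t e bb d _ _ hu =>
    rw [← hφ, mem_lev] at hu
    have hx0 : x = 0 := of_decide_eq_true hh
    subst hx0
    obtain ⟨-, -, h3, -, -⟩ := hl
    exact hu ((wInv4 f d).1 h3).1
  | @k4' t e bb d _ _ hw =>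
    rw [← hφ, mem_lev] at hw
    have hx0 : x = 0 := of_decide_eq_true hh
    subst hx0
    obtain ⟨-, -, h3, -, -⟩ := hl
    have h4 := ((wInv4 f d).1 h3).2.1
    rw [hw, T_zero] at h4
    omega
  | @kc1 t e d _ _ _ hu hi =>
    rw [← hφ, mem_lev] at hu hi
    obtain ⟨-, -, -, -, h5⟩ := hl
    exact hi (h5.symm.trans hu)
  | @kc2 t e d _ _ _ hw hn =>
    rw [← hφ, mem_lev] at hw
    obtain ⟨-, -, -, -, -, h6, h7⟩ := hl
    have hj : f (.v (eqs e).j) = x := h6.symm.trans hw
    apply hn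
    rw [← hφ, ← hS]
    refine ⟨mem_lev.2 hj, ?_⟩
    rw [← hj]
    exact (h42_ordc_iff _ _).2 h7
  | @kg t e _ _ hn =>
    rw [← hφ] at hn
    have hx0 : x = 0 := of_decide_eq_true hh
    subst hx0
    obtain ⟨-, -, h3, h4, h5, -⟩ := hl
    exact hn ⟨mem_lev.2 h3, mem_lev.2 h4, mem_lev.2 h5⟩
  | @ku _ _ _ =>
    obtain ⟨h1, h2, -, -, -, h6⟩ := hl
    exact hlast h1.symm _ h2 fun e => h6 e e.2

end Safe

end Pool.Agent.W_59b51d_u18
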