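import Pool.Agent.W_59b51d_u18.ProgC4

/-!
# The program satisfies the assumptions (ProgC5)
-/

namespace Pool.Agent.W_59b51d_u18

section

variable {m E : ℕ} {eqs : Fin E → Eqn (Fin m)} {i0 a b : Fin m}

theorem zeroAt_eq (n : ℕ) :
    zeroAt (prog eqs i0 a b) n = std (fun _ => 0) false 0 0 0 n := by
  funext i
  cases i <;> simp [zeroAt, prog, std, stt]

theorem oneAt_eq (k n : ℕ) :
    oneAt (prog eqs i0 a b) (.v i0) k n =
      std (fun i => if i = i0 then k else 0) false 0 0 0 n := by
  funext i
  cases i <;> simp [oneAt, prog, std, stt]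

theorem LL_type (V : (Fin m → ℕ) → Prop) (ty : Bool) (c : Bool × Ctl E) (f : Flag m → ℕ)
    (h : LL eqs V ty c f) : c.1 = ty := by
  obtain ⟨t, c⟩ := c
  cases c with
  | G e => exact h.1
  | W e bb k d => exact h.1
  | C1 e d => exact h.1
  | C2 e d => exact h.1

theorem LL_z (V : (Fin m → ℕ) → Prop) (ty t : Bool) (f : Flag m → ℕ) (k : ℕ) :
    LL eqs V ty (t, .G 0) f ↔ LL eqs V ty (t, .G 0) (Function.update f .z k) := by
  have h1 : (fun i => Function.update f .z k (.v i)) = fun i => f (.v i) :=
    h42_vals_update (by simp)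
  have h2 : Function.update f .z k .X = f .X := Function.update_of_ne (by simp) _ _
  have h3 : Function.update f .z k .Y = f .Y := Function.update_of_ne (by simp) _ _
  have h4 : Function.update f .z k .p = f .p := Function.update_of_ne (by simp) _ _
  simp only [LL, h1, h2, h3, h4]

/-- a bound for the values -/
theorem exists_bdd (g : Fin m → ℕ) : ∃ n, Bdd g n :=
  ⟨Finset.univ.sup g, fun i => Finset.le_sup (Finset.mem_univ i)⟩

end

/-- **The machine of a system has the required properties.** -/
theorem machOK {m E : ℕ} {eqs : Fin E → Eqn (Fin m)} {i0 a b : Fin m} {p : ℕ → Prop}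
    (h : SysOK eqs i0 a b p) : MachOK (prog eqs i0 a b) (.v i0) p where
  tyd := rfl
  tyu := rfl
  typ := rfl
  i0z := by simp [prog]
  az := by simp [prog]
  bz := by simp [prog]
  tyinc := by
    intro c c' i hi
    change Inc i0 c c' i at hi
    cases hi <;> rfl
  tytst := by
    intro c c' hh S φ hi
    change Tst eqs c c' hh S φ at hi
    cases hi <;> rfl
  res1 := by
    rintro n Q hQ hk h0 ⟨t, c⟩ f ht hv hn
    change t = true at ht
    subst ht
    refine all_of_zero hQ hk (fun g hg => ?_) c f hv hn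
    rw [free_all hQ hg, ← zeroAt_eq (eqs := eqs) (i0 := i0) (a := a) (b := b)]
    exact h0
  res2 := by
    rintro n Q hQ hk h0 ⟨t, c⟩ f ht hv hn
    change t = false at ht
    subst ht
    exact all_of_zero hQ hk (fun g hg => h0 _ (valid_std hg (Nat.zero_le n) (Nat.zero_le n)
      (Nat.zero_le n)) rfl) c f hv hn
  hit := by
    intro k hp
    obtain ⟨g, hg, hi, ha, hord⟩ := h.ex k hp
    obtain ⟨n, hn⟩ := exists_bdd g
    refine ⟨n, fun Q hQ hk hpat => ?_⟩
    rw [zeroAt_eq]
    refine (free_all hQ hn).1 ((run_all hQ hn hg).2 (hpat _ _ (valid_std hn (Nat.zero_le n)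
      (Nat.zero_le n) (Nat.zero_le n)) rfl ⟨rfl, ha, ?_, ?_⟩))
    · have := h.sum g hg
      rw [hi] at this
      change g b = g a + k + 1
      omega
    · intro i
      change std g false 0 0 0 n i ≤ g a ∨ g b ≤ std g false 0 0 0 n i
      cases i with
      | v i => exact hord i
      | X => exact Or.inl (Nat.zero_le _)
      | Y => exact Or.inl (Nat.zero_le _)
      | p => exact Or.inl (Nat.zero_le _)
      | z => exact Or.inr (hn b)
  hitu := by
    intro k hp
    obtain ⟨g, hg, hi, ha, hord⟩ := h.ex k hp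
    obtain ⟨n, hn⟩ := exists_bdd g
    refine ⟨n, ?_, fun Q hQ hk => ?_⟩
    · rw [← hi]
      exact hn i0
    rw [oneAt_eq, ← hi]
    exact (free_base hQ hn).1 ((run_all hQ hn hg).2 (hk _ _ (valid_std hn (Nat.zero_le n)
      (Nat.zero_le n) (Nat.zero_le n)) rfl kilu))
  safe := by
    refine ⟨LL eqs (fun _ => True) true, fun c f hl => LL_type _ _ _ _ hl,
      LL_inv eqs _ true fun _ _ _ _ => Iff.rfl,
      LL_kil eqs _ true fun hh => absurd hh (by simp), ?_, fun f _ => LL_z _ _ _ _ _, ?_⟩
    · rw [zeroAt_eq]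
      exact ⟨rfl, trivial, rfl, rfl, rfl, fun e' he' => absurd he' (by simp)⟩
    · rintro k c f hp hv hl ⟨hc, hfa, hfb, -⟩
      subst hc
      obtain ⟨-, -, -, -, -, h6⟩ := hl
      have hall : ∀ e, (eqs e).holds fun i => f (.v i) := fun e => h6 e e.2
      apply hp
      refine h.sol _ hall k ?_
      have := h.sum _ hall
      change f (.v b) = f (.v a) + k + 1 at hfb
      change f (.v b) = f (.v a) + f (.v i0) at this
      change f (.v i0) = k + 1
      omega
  safeu := by
    intro k hp
    refine ⟨LL eqs (fun g => g i0 = k + 1) false, fun c f hl => LL_type _ _ _ _ hl,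
      LL_inv eqs _ false ?_,
      LL_kil eqs _ false fun _ g hg hall => hp (h.sol g hall k hg), ?_,
      fun f _ => LL_z _ _ _ _ _⟩
    · intro g i t hi
      have hi' : i ≠ i0 := hi.resolve_left (by simp)
      rw [Function.update_of_ne hi'.symm]
    · rw [oneAt_eq]
      exact ⟨rfl, if_pos rfl, rfl, rfl, rfl, fun e' he' => absurd he' (by simp)⟩

end Pool.Agent.W_59b51d_u18
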