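import Pool.Agent.W_59b51d_u18.ProgA
import Pool.Agent.W_mrdp_h82.Atoms

/-!
# The system of pairing equations of a recursively enumerable predicate (SysA)
-/

namespace Pool.Agent.W_59b51d_u18

/-- A list of equations with variables `< M`. -/
def EqLt (M : ℕ) (L : List (Eqn ℕ)) : Prop := ∀ q ∈ L, q.i < M ∧ q.j < M ∧ q.l < M ∧ q.k < M

/-- All equations of the list hold. -/
def EqSat (L : List (Eqn ℕ)) (x : ℕ → ℕ) : Prop := ∀ q ∈ L, q.holds x

/-- A block: for assignments `x` with `x o = 0`, the relation `R` (which depends on the variables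
`< N` only) is equivalent to the solvability of the equations by changing the variables in
`[N, M)`; the new values are `≥ lo x`. -/
structure Blk (o N M : ℕ) (lo : (ℕ → ℕ) → ℕ) (R : (ℕ → ℕ) → Prop) (L : List (Eqn ℕ)) : Prop where
  le : N ≤ M
  lt : EqLt M L
  sound : ∀ x : ℕ → ℕ, x o = 0 → EqSat L x → R x
  compl : ∀ x : ℕ → ℕ, x o = 0 → R x → ∃ y : ℕ → ℕ, (∀ i < N, y i = x i) ∧ EqSat L y ∧
    ∀ i, N ≤ i → i < M → lo x ≤ y i

/-- The sum. Equations: `p = ⟨x, y⟩`, `q = ⟨o, s⟩`, `r = ⟨s, o⟩`, `t = ⟨o, p⟩` with `q ≤ p`,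
`t' = ⟨o, r⟩` with `p ≤ r`, where `p, q, r, t, t' = N, …, N + 4` (trivial comparisons `k = j`). Proof:
`T s ≤ T (x + y) + x ≤ T s + s` iff `x + y = s`. All new values are at least `x s`: `T t ≥ t`. -/
theorem blk_add (o N i j k : ℕ) (ho : o < N) (hi : i < N) (hj : j < N) (hk : k < N) :
    ∃ L, Blk o N (N + 5) (fun x => x k) (fun x => x i + x j = x k) L := by
  sorry

/-- `x i = 1`: the single equation `x i = ⟨o, x i⟩` with `o < x i`. -/
theorem blk_one (o N i : ℕ) (ho : o < N) (hi : i < N) :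
    ∃ L, Blk o N N (fun _ => 0) (fun x => x i = 1) L := by
  sorry

end Pool.Agent.W_59b51d_u18
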