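import Pool.Agent.W_59b51d_u18.SysA

/-!
# The system of pairing equations of a recursively enumerable predicate (SysB)
-/

namespace Pool.Agent.W_59b51d_u18

/-- The product. New variables `s = x + y`, `a = ⟨o, s⟩`, `b = ⟨o, x⟩`, `c = ⟨o, y⟩`, `d = b + c`
and `d + z = a` (`T (x + y) = T x + T y + x y`). -/
theorem blk_mul (o N i j k : ℕ) (ho : o < N) (hi : i < N) (hj : j < N) (hk : k < N) :
    ∃ M L, Blk o N M (fun _ => 0) (fun x => x i * x j = x k) L := by
  sorry

end Pool.Agent.W_59b51d_u18
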