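import Pool.Agent.W_59b51d_u18.SysB

/-!
# The system of pairing equations of a recursively enumerable predicate (SysC)
-/

namespace Pool.Agent.W_59b51d_u18

/-- All atoms of a list. Induction on the list; the blocks are concatenated. -/
theorem blk_atoms (o N : ℕ) (ho : o < N) (A : List MRDP.Atom) (hA : ∀ q ∈ A, q.lt N) :
    ∃ M L, Blk o N M (fun _ => 0) (fun x => MRDP.Sat A x) L := by
  sorry

end Pool.Agent.W_59b51d_u18
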