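import Pool.Agent.W_59b51d_u18.Prog
import Pool.Agent.W_59b51d_h42.MrdpPair

/-!
# The system of pairing equations of a recursively enumerable predicate (SysD)

The system is the one of `W_59b51d_h42.exists_pair_system`, with variables in `Fin m`.
-/

namespace Pool.Agent.W_59b51d_u18

theorem tri_eq_T (s : ℕ) : W_59b51d_h42.tri s = T s := by
  induction s with
  | zero => rfl
  | succ s ih => rw [W_59b51d_h42.tri, T, ih]

/-- The equation with variables in `Fin m`. -/
def finEqn {m : ℕ} (q : W_59b51d_h42.Eqn) (h : W_59b51d_h42.Eqn.lt m q) : Eqn (Fin m) where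
  i := ⟨q.i, h.1⟩
  j := ⟨q.j, h.2.1⟩
  l := ⟨q.l, h.2.2.1⟩
  k := ⟨q.k, h.2.2.2⟩
  st := q.strict

theorem finEqn_holds {m : ℕ} {q : W_59b51d_h42.Eqn} (h : W_59b51d_h42.Eqn.lt m q)
    (f : ℕ → ℕ) : (finEqn q h).holds (fun i : Fin m => f i.1) ↔ q.holds f := by
  simp only [Eqn.holds, finEqn, W_59b51d_h42.Eqn.holds, tri_eq_T]
  by_cases hs : q.strict = true
  · simp only [hs, if_true]
    constructor
    · rintro ⟨h1, h2⟩
      exact ⟨h1, h2.le, fun _ => h2⟩
    · rintro ⟨h1, -, h2⟩
      exact ⟨h1, h2 trivial⟩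
  · simp only [hs]
    constructor
    · rintro ⟨h1, h2⟩
      exact ⟨h1, h2, fun h => absurd h (by simp)⟩
    · rintro ⟨h1, h2, -⟩
      exact ⟨h1, h2⟩

/-- **The system.** -/
theorem exists_sysOK {p : ℕ → Prop} (hp : REPred p) :
    ∃ (m E : ℕ) (eqs : Fin E → Eqn (Fin m)) (i0 a b : Fin m), SysOK eqs i0 a b p := by
  obtain ⟨m, a, b, es, ha0, ha, hb, hab, hlt, hsound, hex⟩ := W_59b51d_h42.exists_pair_system hp
  have hm : 0 < m := by omega
  have hne : es ≠ [] := by
    rintro rfl
    have := (hsound (fun _ => 0) (by simp [W_59b51d_h42.Holds])).2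
    obtain ⟨n, hn, -⟩ := this
    simp at hn
  -- all equations for an assignment
  have key : ∀ f : ℕ → ℕ,
      (∀ e : Fin es.length, (finEqn es[e] (hlt _ (List.getElem_mem _))).holds
        (fun i : Fin m => f i.1)) ↔ W_59b51d_h42.Holds es f := by
    intro f
    constructor
    · intro h q hq
      obtain ⟨k, hk, rfl⟩ := List.getElem_of_mem hq
      exact (finEqn_holds _ f).1 (h ⟨k, hk⟩)
    · intro h e
      exact (finEqn_holds _ f).2 (h _ (List.getElem_mem _))
  refine ⟨m, es.length, fun e => finEqn es[e] (hlt _ (List.getElem_mem _)), ⟨0, hm⟩, ⟨a, ha⟩,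
    ⟨b, hb⟩, ⟨List.length_pos_of_ne_nil hne, ?_, ?_, ?_⟩⟩
  · intro f hf n hn
    have hf' : f = fun i : Fin m => (fun v => if h : v < m then f ⟨v, h⟩ else 0) i.1 := by
      funext i
      simp
    rw [hf'] at hf
    obtain ⟨n', hn', hp'⟩ := (hsound _ ((key (fun v => if h : v < m then f ⟨v, h⟩ else 0)).1 hf)).2
    rw [dif_pos hm, hn] at hn'
    have : n = n' := by omega
    rw [this]
    exact hp'
  · intro f hf
    have hf' : f = fun i : Fin m => (fun v => if h : v < m then f ⟨v, h⟩ else 0) i.1 := by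
      funext i
      simp
    rw [hf'] at hf
    have := (hsound _ ((key (fun v => if h : v < m then f ⟨v, h⟩ else 0)).1 hf)).1
    rw [dif_pos hm, dif_pos ha, dif_pos hb] at this
    exact this
  · intro n hn
    obtain ⟨f, hf0, hfh, hfb, hfa, hord⟩ := hex n hn
    exact ⟨fun i => f i.1, (key f).2 hfh, hf0, hfa, fun i => hord i.1 i.2⟩

end Pool.Agent.W_59b51d_u18
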