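import Pool.Agent.W_59b51d_u18.TransA

/-!
# From zippers to words (TransB)
-/

namespace Pool.Agent.W_59b51d_u18

/-- Splitting a word into blocks. -/
theorem exists_blocks (B : ℕ) : ∀ (N : ℕ) (a : Wd), a.length = B * N →
    ∃ bs : List Wd, (∀ b ∈ bs, b.length = B) ∧ bs.length = N ∧ bs.flatten = a := by
  intro N
  induction N with
  | zero =>
    intro a ha
    have : a = [] := List.length_eq_zero_iff.1 (by simpa using ha)
    exact ⟨[], by simp, rfl, by simp [this]⟩
  | succ N ih =>
    intro a ha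
    obtain ⟨bs, h1, h2, h3⟩ := ih (a.drop B) (by
      rw [List.length_drop, ha, Nat.mul_succ, Nat.add_sub_cancel])
    refine ⟨a.take B :: bs, ?_, by simp [h2], ?_⟩
    · intro b hb
      rcases List.mem_cons.1 hb with rfl | hb
      · rw [List.length_take, ha, Nat.mul_succ]
        exact min_eq_left (Nat.le_add_left _ _)
      · exact h1 b hb
    · rw [List.flatten_cons, h3, List.take_append_drop]

section

variable {Fl C : Type} [Fintype Fl] [DecidableEq Fl] (M : Mach Fl C) (E : Enc (Lt Fl C))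
  {R : List (Wd × Wd)} {Z0 : List Wd} {fam : List (Wd × Wd)}

theorem Loc.isHead {T0 D0 T1 D1 : List (Lt Fl C)} {h h' : Lt Fl C}
    (hl : Loc M T0 h D0 T1 h' D1) : h.isHead := by
  cases hl <;> trivial

/-- Words with long contexts are derivably zero. Proof: `q.1` is the code of
`D0.reverse ++ h :: T0`; words of length `N * B` are products of `N` blocks; `lz_of_zr`. -/
theorem pad_words (hR : ∀ q, q ∈ R ↔ q ∈ RelSet M E) (hZ : ∀ w, w ∈ Z0 ↔ w ∈ ZerSet M E)
    (hf : ∀ q, q ∈ fam ↔ q ∈ FamSet M E) {k N : ℕ}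
    (hN : ∀ (T D : List (Option (Lt Fl C))) (h : Lt Fl C), h.isHead → N ≤ T.length →
      N ≤ D.length → Zr M k T h D) :
    ∀ q ∈ R, ∀ a b : Wd, a.length = E.B * N → b.length = E.B * N →
      LZ R (Zk Z0 fam (E.enc (.P ∅)) k) (a ++ q.1 ++ b) := by
  intro q hq a b ha hb
  obtain ⟨T0, h, D0, T1, h', D1, hl, rfl⟩ := (hR q).1 hq
  obtain ⟨as, ha1, ha2, rfl⟩ := exists_blocks E.B N a ha
  obtain ⟨bs, hb1, hb2, rfl⟩ := exists_blocks E.B N b hb
  have hz := hN ((T0.map E.enc ++ bs).map E.dec) ((D0.map E.enc ++ as.reverse).map E.dec) h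
    (hl.isHead M) (by simp [hb2]) (by simp [ha2])
  have := lz_of_zr M E hR hZ hf hz (T0.map E.enc ++ bs) (D0.map E.enc ++ as.reverse) ?_ ?_ rfl rfl
  · have e : (D0.map E.enc ++ as.reverse).reverse.flatten ++ E.enc h ++
        (T0.map E.enc ++ bs).flatten =
        as.flatten ++ (D0.reverse ++ h :: T0).flatMap E.enc ++ bs.flatten := by
      simp [List.flatMap_def, List.map_reverse]
    rw [e] at this
    exact this
  · intro x hx
    rcases List.mem_append.1 hx with hx | hx
    · obtain ⟨l, _, rfl⟩ := List.mem_map.1 hx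
      exact E.len l
    · exact hb1 x hx
  · intro x hx
    rcases List.mem_append.1 hx with hx | hx
    · obtain ⟨l, _, rfl⟩ := List.mem_map.1 hx
      exact E.len l
    · exact ha1 x (List.mem_reverse.1 hx)

end

end Pool.Agent.W_59b51d_u18
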