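import Pool.Agent.W_59b51d_u18.TransB

/-!
# From zippers to words (TransC)
-/

namespace Pool.Agent.W_59b51d_u18

/-- The marked letter of a list with exactly one marked letter. -/
theorem mark_unique {α : Type} {P : α → Prop} {xs ys xs' ys' : List α} {x x' : α}
    (h : xs ++ x :: ys = xs' ++ x' :: ys') (hx : P x) (hxs' : ∀ l ∈ xs', ¬ P l)
    (hys' : ∀ l ∈ ys', ¬ P l) : xs = xs' ∧ x = x' ∧ ys = ys' := by
  induction xs generalizing xs' with
  | nil =>
    cases xs' with
    | nil =>
      rw [List.nil_append, List.nil_append, List.cons.injEq] at h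
      exact ⟨rfl, h.1, h.2⟩
    | cons y xs' =>
      rw [List.nil_append, List.cons_append, List.cons.injEq] at h
      exact absurd (h.1 ▸ hx) (hxs' y List.mem_cons_self)
  | cons z xs ih =>
    cases xs' with
    | nil =>
      rw [List.nil_append, List.cons_append, List.cons.injEq] at h
      exact absurd hx (hys' x (by rw [← h.2]; simp))
    | cons y xs' =>
      rw [List.cons_append, List.cons_append, List.cons.injEq] at h
      obtain ⟨rfl, h1⟩ := h
      obtain ⟨rfl, h2, h3⟩ := ih h1 fun l hl => hxs' l (List.mem_cons_of_mem _ hl)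
      exact ⟨rfl, h2, h3⟩

theorem Enc.flatMap_replicate {α : Type} (E : Enc α) (k : ℕ) (l : α) :
    (List.replicate k l).flatMap E.enc = rep k (E.enc l) := by
  rw [List.flatMap_def, List.map_replicate, rep]

section

variable {Fl C : Type} [Fintype Fl] [DecidableEq Fl] (M : Mach Fl C) (E : Enc (Lt Fl C))
  {R : List (Wd × Wd)} {Z0 : List Wd} {fam : List (Wd × Wd)}

variable {M} in
theorem Loc.heads {T0 D0 T1 D1 : List (Lt Fl C)} {h h' : Lt Fl C}
    (hl : Loc M T0 h D0 T1 h' D1) : h.isHead ∧ h'.isHead := by
  cases hl <;> exact ⟨trivial, trivial⟩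

variable {M} in
theorem LocZ.head {T0 D0 : List (Option (Lt Fl C))} {h : Lt Fl C} (hl : LocZ M T0 h D0) :
    h.isHead := by
  cases hl <;> exact trivial

variable {M} in
/-- A factor with a head of the word of a legitimate zipper is around its head. -/
theorem leg_factor {LD LU : C → (Fl → ℕ) → Prop} {T D : List (Lt Fl C)} {h : Lt Fl C}
    (hl : Leg M LD LU T h D) {w1 u v w2 : List (Lt Fl C)} {h0 : Lt Fl C} (hh : h0.isHead)
    (e : D.reverse ++ h :: T = w1 ++ (u ++ h0 :: v) ++ w2) :
    D = u.reverse ++ w1.reverse ∧ h = h0 ∧ T = v ++ w2 := by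
  obtain ⟨-, h2, h3⟩ := hl.head
  have e' : (w1 ++ u) ++ h0 :: (v ++ w2) = D.reverse ++ h :: T := by
    rw [e]
    simp only [List.append_assoc, List.cons_append]
  obtain ⟨e1, e2, e3⟩ := mark_unique (P := Lt.isHead) e' hh
    (fun l hl => h3 l (List.mem_reverse.1 hl)) h2
  refine ⟨?_, e2.symm, e3.symm⟩
  rw [← List.reverse_append, e1, List.reverse_reverse]

/-- The codes of the legitimate zippers form a safe set.

Proof. `rel`: `Enc.factor`; the head letter of `D.reverse ++ h :: T` is unique (`Leg.head`), so the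
occurrence of the relation is at the head; `leg_loc`, `leg_loc'`. `zer`: `Enc.blocks`, so the
situation consists of letters, `leg_not_zero`; for the pattern words `Enc.factor` and
`leg_not_pat`. `blk`: `leg_blank`. -/
theorem safe_words (hR : ∀ q, q ∈ R ↔ q ∈ RelSet M E) (hZ : ∀ w, w ∈ Z0 ↔ w ∈ ZerSet M E)
    (hf : ∀ q, q ∈ fam ↔ q ∈ FamSet M E) {LD LU : C → (Fl → ℕ) → Prop} (hL : LegOK M LD LU)
    (hp : M.ty M.pass = true) {k : ℕ} (hk : ∀ c f, Valid M f → LD c f → ¬ Pat M k c f) :
    Safe R (Zk Z0 fam (E.enc (.P ∅)) k) (E.enc (.P ∅))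
      {w | ∃ T h D, Leg M LD LU T h D ∧ w = (D.reverse ++ h :: T).flatMap E.enc} := by
  refine ⟨?_, ?_, ?_⟩
  · intro a u u' b hu
    obtain ⟨T0, h0, D0, T1, h1, D1, hloc, he⟩ := (hR _).1 hu
    rw [Prod.mk.injEq] at he
    obtain ⟨rfl, rfl⟩ := he
    constructor
    · rintro ⟨T, h, D, hl, hw⟩
      obtain ⟨w1, w2, e1, e2, e3⟩ := E.factor _ _ (by simp) a b hw.symm
      obtain ⟨rfl, rfl, rfl⟩ := leg_factor hl hloc.heads.1 e1
      rw [List.reverse_reverse] at hl
      refine ⟨T1 ++ w2, h1, D1 ++ w1.reverse, leg_loc hL hloc hl, ?_⟩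
      rw [e2, e3]
      simp only [List.reverse_append, List.reverse_reverse, List.flatMap_append,
        List.flatMap_cons, List.append_assoc]
    · rintro ⟨T, h, D, hl, hw⟩
      obtain ⟨w1, w2, e1, e2, e3⟩ := E.factor _ _ (by simp) a b hw.symm
      obtain ⟨rfl, rfl, rfl⟩ := leg_factor hl hloc.heads.2 e1
      rw [List.reverse_reverse] at hl
      refine ⟨T0 ++ w2, h0, D0 ++ w1.reverse, leg_loc' hL hloc hl, ?_⟩
      rw [e2, e3]
      simp only [List.reverse_append, List.reverse_reverse, List.flatMap_append,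
        List.flatMap_cons, List.append_assoc]
  · rintro a z b hz ⟨T, h, D, hl, hw⟩
    rcases List.mem_append.1 hz with hz | hz
    · obtain ⟨q, hq, rfl⟩ := List.mem_map.1 hz
      obtain ⟨S, φ, ψ, h1, h2, h3, rfl⟩ := (hf _).1 hq
      have e0 : E.enc (.P ψ) ++ rep k (E.enc (.P ∅)) ++
          (E.enc (.P φ) ++ E.enc (.A M.pass S)) =
          ((Lt.P ψ :: (List.replicate k (Lt.P ∅) ++ [Lt.P φ])) ++
            Lt.A M.pass S :: []).flatMap E.enc := by
        simp only [List.flatMap_append, List.flatMap_cons, List.flatMap_nil,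
          List.append_nil, List.append_assoc, E.flatMap_replicate]
      dsimp only at hw
      rw [e0] at hw
      obtain ⟨w1, w2, e1, e2, e3⟩ := E.factor _ _ (by simp) a b hw.symm
      obtain ⟨hD', hh, hT'⟩ := leg_factor hl (h0 := Lt.A M.pass S) trivial e1
      rw [hD', hh, hT'] at hl
      have hpat : LocP M k (([] : List (Lt Fl C)).map some) (Lt.A M.pass S)
          ((Lt.P φ :: (List.replicate k (Lt.P ∅) ++ [Lt.P ψ])).map some) := by
        simp only [List.map_cons, List.map_append, List.map_replicate, List.map_nil]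
        exact LocP.pat h1 h2 h3
      refine leg_not_pat hL hp hk hpat (T := w2) (D := w1.reverse) ?_
      simpa only [List.reverse_cons, List.reverse_append, List.reverse_nil, List.nil_append,
        List.reverse_replicate, List.append_assoc, List.cons_append] using hl
    · obtain ⟨T0, h0, D0, hloc, bT, bD, hT, hD, e1, e2, rfl⟩ := (hZ _).1 hz
      obtain ⟨w1, u, v, w2, e3, e4, e5, -, -⟩ := E.blocks _ a b bD.reverse bT h0
        (fun c hc => hD c (List.mem_reverse.1 hc)) hT hw.symm
      obtain ⟨rfl, rfl, rfl⟩ := leg_factor hl hloc.head e3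
      have e6 : D0 = u.reverse.map some := by
        rw [← e2, ← List.reverse_reverse bD, e4, ← List.map_reverse, E.map_dec_enc]
      have e7 : T0 = v.map some := by
        rw [← e1, e5, E.map_dec_enc]
      subst e6 e7
      exact leg_not_zero hL hloc hl
  · intro s
    constructor
    · rintro ⟨T, h, D, hl, hw⟩
      have hw' : (D.reverse ++ h :: T).flatMap E.enc =
          [] ++ [Lt.P ∅].flatMap E.enc ++ s := by
        rw [← hw]
        simp
      obtain ⟨w1, w2, e1, e2, e3⟩ := E.factor _ _ (by simp) [] s hw'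
      have hw1 : w1 = [] := by
        cases w1 with
        | nil => rfl
        | cons l w1 =>
          have h1 := E.len l
          have h2 := E.pos
          rw [List.flatMap_cons] at e2
          have h3 := congrArg List.length e2
          rw [List.length_append, h1, List.length_nil] at h3
          omega
      subst hw1
      have hhead := hl.head
      rw [List.nil_append, List.singleton_append] at e1
      rcases List.eq_nil_or_concat' D with rfl | ⟨D', l, rfl⟩
      · rw [List.reverse_nil, List.nil_append, List.cons.injEq] at e1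
        rw [e1.1] at hhead
        exact hhead.1.elim
      · rw [List.reverse_append, List.reverse_singleton, List.singleton_append,
          List.cons_append, List.cons.injEq] at e1
        obtain ⟨rfl, e4⟩ := e1
        exact ⟨T, h, D', leg_blank.1 hl, by rw [e3, e4]⟩
    · rintro ⟨T, h, D, hl, rfl⟩
      refine ⟨T, h, D ++ [.P ∅], leg_blank.2 hl, ?_⟩
      simp

end

end Pool.Agent.W_59b51d_u18
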