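import Pool.Agent.W_59b51d_u18.TransC

/-!
# From zippers to words (TransD)
-/

namespace Pool.Agent.W_59b51d_u18

section

variable {Fl C : Type} [Fintype Fl] [DecidableEq Fl] (M : Mach Fl C)

omit [Fintype Fl] in
theorem oneAt_z (i0 : Fl) (m n : ℕ) : oneAt M i0 m n M.z = n := by
  simp [oneAt]

omit [Fintype Fl] in
theorem valid_oneAt (i0 : Fl) (m : ℕ) : Valid M (oneAt M i0 m m) := by
  intro i
  rw [oneAt_z]
  unfold oneAt
  split_ifs <;> omega

/-- The level `0` of the start state of the base zone. -/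
def phi0 (i0 : Fl) : Finset Fl := Finset.univ.filter fun i => i ≠ M.z ∧ i ≠ i0

/-- The last level of the start state of the base zone. -/
def phi1 (i0 : Fl) : Finset Fl := Finset.univ.filter fun i => i = M.z ∨ i = i0

theorem lev_oneAt_zero (i0 : Fl) (m : ℕ) : lev (oneAt M i0 (m + 1) (m + 1)) 0 = phi0 M i0 := by
  ext i
  simp only [mem_lev, phi0, Finset.mem_filter, Finset.mem_univ, true_and, oneAt]
  split_ifs with h1 h2
  · simp [h1]
  · simp [h2]
  · simp [h1, h2]

theorem lev_oneAt_last (i0 : Fl) (m : ℕ) :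
    lev (oneAt M i0 (m + 1) (m + 1)) (m + 1) = phi1 M i0 := by
  ext i
  simp only [mem_lev, phi1, Finset.mem_filter, Finset.mem_univ, true_and, oneAt]
  split_ifs with h1 h2
  · simp [h1]
  · simp [h2]
  · simp [h1, h2]

theorem lev_oneAt_mid (i0 : Fl) {m y : ℕ} (h0 : y ≠ 0) (h1 : y < m + 1) :
    lev (oneAt M i0 (m + 1) (m + 1)) y = ∅ := by
  ext i
  simp only [mem_lev, Finset.notMem_empty, iff_false, oneAt]
  split_ifs <;> omega

/-- The cells of the start state of the base zone. -/
theorem deeps_oneAt (i0 : Fl) (m : ℕ) :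
    deeps (oneAt M i0 (m + 1) (m + 1)) (none : Option (C × Finset Fl)) 0 (m + 1) =
      Lt.B none (phi0 M i0) :: (List.replicate m (Lt.P ∅) ++ [Lt.P (phi1 M i0)]) := by
  unfold deeps
  rw [Nat.sub_zero, List.range'_succ, List.map_cons]
  congr 1
  · simp [cell, lev_oneAt_zero]
  · rw [List.range'_concat, List.map_append, List.map_singleton]
    congr 1
    · rw [List.eq_replicate_iff]
      constructor
      · simp
      · intro l hl
        obtain ⟨y, hy, rfl⟩ := List.mem_map.1 hl
        rw [List.mem_range'_1] at hy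
        rw [cell, if_neg (by omega), lev_oneAt_mid M i0 (by omega) (by omega)]
    · have h1 : 0 + 1 + 1 * m = m + 1 := by omega
      rw [h1, cell, if_neg (by omega), lev_oneAt_last]

end

/-- The system of a machine. -/
theorem system_of_mach {Fl C : Type} [Fintype Fl] [DecidableEq Fl] [Finite C] (M : Mach Fl C)
    {i0 : Fl} {p : ℕ → Prop} (hM : MachOK M i0 p) :
    ∃ (R : List (Wd × Wd)) (Z0 : List Wd) (fam : List (Wd × Wd)) (blk al be : Wd),
      blk ≠ [] ∧ (∀ q ∈ R, q.1.length = q.2.length) ∧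
      (∀ k, p k → ∃ N, ∀ q ∈ R, ∀ a b : Wd, a.length = N → b.length = N →
        LZ R (Zk Z0 fam blk k) (a ++ q.1 ++ b)) ∧
      (∀ k m, ¬ p k → ¬ p m → ∃ L : Set Wd, Safe R (Zk Z0 fam blk k) blk L ∧
        al ++ rep m blk ++ be ∈ L) ∧
      ∀ k m, p m → ∃ j, LZ R (Zk Z0 fam blk k) (rep j blk ++ (al ++ rep m blk ++ be)) := by
  classical
  obtain ⟨E⟩ := exists_enc (Lt Fl C)
  have hR : ∀ q, q ∈ (finite_RelSet M E).toFinset.toList ↔ q ∈ RelSet M E := by simp
  have hZ : ∀ w, w ∈ (finite_ZerSet M E).toFinset.toList ↔ w ∈ ZerSet M E := by simp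
  have hf : ∀ q, q ∈ (finite_FamSet M E).toFinset.toList ↔ q ∈ FamSet M E := by simp
  have hword : ∀ m : ℕ, E.enc (.P (phi1 M i0)) ++ rep m (E.enc (.P ∅)) ++
      (E.enc (.B none (phi0 M i0)) ++ E.enc (.H M.u0)) =
      ((deeps (oneAt M i0 (m + 1) (m + 1)) (none : Option (C × Finset Fl)) 0 (m + 1)).reverse ++
        Lt.H M.u0 :: []).flatMap E.enc := by
    intro m
    rw [deeps_oneAt]
    simp only [List.reverse_cons, List.reverse_append, List.reverse_nil,
      List.nil_append, List.reverse_replicate, List.flatMap_append, List.flatMap_cons,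
      List.flatMap_nil, List.append_nil, List.append_assoc, E.flatMap_replicate,
      List.cons_append]
  refine ⟨(finite_RelSet M E).toFinset.toList, (finite_ZerSet M E).toFinset.toList,
    (finite_FamSet M E).toFinset.toList, E.enc (.P ∅), E.enc (.P (phi1 M i0)),
    E.enc (.B none (phi0 M i0)) ++ E.enc (.H M.u0), ?_, ?_, ?_, ?_, ?_⟩
  · intro h
    have h1 := E.len (.P ∅)
    rw [h, List.length_nil] at h1
    have := E.pos
    omega
  · intro q hq
    exact RelSet_length M E q ((hR q).1 hq)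
  · intro k hk
    obtain ⟨N, hN⟩ := exists_pad M hM hk
    exact ⟨E.B * N, pad_words M E hR hZ hf hN⟩
  · intro k m hk hm
    obtain ⟨LD, d1, d2, d3, d4, d5, d6⟩ := hM.safe
    obtain ⟨LU, u1, u2, u3, u4, u5⟩ := hM.safeu m hm
    have hL : LegOK M LD LU := ⟨hM.tyd, hM.tyu, hM.az, hM.bz, d1, u1, d2, u2, d3, u3, d4, d5, u5⟩
    refine ⟨_, safe_words M E hR hZ hf hL hM.typ (k := k)
      (fun c f hv hc => d6 k c f hk hv hc), ?_⟩
    have h1 : Leg M LD LU (tops (oneAt M i0 (m + 1) (m + 1)) none 0)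
        (hd M.u0 (oneAt M i0 (m + 1) (m + 1)) 0)
        (deeps (oneAt M i0 (m + 1) (m + 1)) none 0 (oneAt M i0 (m + 1) (m + 1) M.z) ++
          List.replicate 0 (.P ∅)) :=
      Leg.base u4 (valid_oneAt M i0 (m + 1)) (Nat.zero_le _)
    rw [oneAt_z, List.replicate_zero, List.append_nil] at h1
    exact ⟨_, _, _, h1, hword m⟩
  · intro k m hm
    obtain ⟨j, hj⟩ := exists_start M hM k hm
    refine ⟨j, ?_⟩
    unfold ZZ at hj
    rw [oneAt_z] at hj
    have h1 := lz_of_zr M E hR hZ hf hj []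
      ((deeps (oneAt M i0 (m + 1) (m + 1)) (none : Option (C × Finset Fl)) 0 (m + 1) ++
        List.replicate j (Lt.P ∅)).map E.enc) (by simp [Enc.IsBl]) (E.isBl_enc _)
      (by simp [tops]) (by rw [E.map_dec_enc, List.map_append, List.map_replicate])
    have h2 : rep j (E.enc (.P ∅)) ++ (E.enc (.P (phi1 M i0)) ++ rep m (E.enc (.P ∅)) ++
        (E.enc (.B none (phi0 M i0)) ++ E.enc (.H M.u0))) =
        ((deeps (oneAt M i0 (m + 1) (m + 1)) (none : Option (C × Finset Fl)) 0 (m + 1) ++
        List.replicate j (Lt.P ∅)).map E.enc).reverse.flatten ++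
        E.enc (hd M.u0 (oneAt M i0 (m + 1) (m + 1)) 0) ++ ([] : List Wd).flatten := by
      rw [hword m, E.flatten_rev]
      simp only [List.map_append, List.reverse_append, List.map_replicate,
        List.reverse_replicate, List.flatten_append, List.map_nil, List.append_assoc, rep, hd,
        if_true]
    rw [h2]
    exact h1

end Pool.Agent.W_59b51d_u18
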