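import Pool.Agent.W_59b51d_u18.Defs

/-!
# Words of left and right multiplications
-/

namespace Pool.Agent.W_59b51d_u18

open Pool.Agent.W_59b51d_h18 (Poly code Multilinear vars)

/-- A word of multiplications; `true` stands for right multiplication. -/
abbrev Wd : Type := List Bool

/-- Successive multiplication of `m` by the members of the list, on the given sides. -/
def act {M : Type} [Mul M] : M → List (Bool × M) → M
  | m, [] => m
  | m, (s, y) :: l => act (if s then m * y else y * m) l

/-- The word `w` with the letters `y i, y (i + 1), …`. -/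
def col {M : Type} (w : Wd) (y : ℕ → M) (i : ℕ) : List (Bool × M) :=
  (w.zipIdx i).map fun p => (p.1, y p.2)

/-- The multilinear monomial `(x₀ x₁)` followed by the multiplications of `w` by new variables. -/
def mw (w : Wd) : FreeMagma ℕ :=
  act (FreeMagma.of 0 * FreeMagma.of 1) (col w FreeMagma.of 2)

/-- `k` copies of `w`. -/
def rep (k : ℕ) (w : Wd) : Wd := (List.replicate k w).flatten

/-- The word `w` is derivably zero for the relations `R` and the zero words `Z`. -/
inductive LZ (R : List (Wd × Wd)) (Z : List Wd) : Wd → Prop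
  | zero {a z b : Wd} : z ∈ Z → LZ R Z (a ++ z ++ b)
  | step {a u u' b : Wd} : (u, u') ∈ R → LZ R Z (a ++ u' ++ b) → LZ R Z (a ++ u ++ b)
  | step' {a u u' b : Wd} : (u, u') ∈ R → LZ R Z (a ++ u ++ b) → LZ R Z (a ++ u' ++ b)

/-- The list of identities of the system `R`, `Z`. -/
def TL (R : List (Wd × Wd)) (Z : List Wd) : List MId :=
  metab :: (Z.map (fun z => (mw z, none)) ++ R.map fun q => (mw q.1, some (mw q.2)))

/-- The zero words with parameter `k`. -/
def Zk (Z0 : List Wd) (fam : List (Wd × Wd)) (blk : Wd) (k : ℕ) : List Wd :=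
  fam.map (fun q => q.1 ++ rep k blk ++ q.2) ++ Z0

/-- A set of words which is closed under the relations and avoids the zero words. -/
structure Safe (R : List (Wd × Wd)) (Z : List Wd) (blk : Wd) (L : Set Wd) : Prop where
  rel : ∀ a u u' b : Wd, (u, u') ∈ R → (a ++ u ++ b ∈ L ↔ a ++ u' ++ b ∈ L)
  zer : ∀ a z b : Wd, z ∈ Z → a ++ z ++ b ∉ L
  blk : ∀ s : Wd, blk ++ s ∈ L ↔ s ∈ L

end Pool.Agent.W_59b51d_u18
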