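import Pool.Agent.W_59b51d_u18.Zip

/-!
# The zipper of a zone (ZoneA)
-/

namespace Pool.Agent.W_59b51d_u18

section

variable {Fl C : Type} [Fintype Fl] [DecidableEq Fl] (M : Mach Fl C) (k : ℕ)

/-- The zipper of the zone `(c, f)` with memory `μ`, head at `x`, in the context `T`, `D`, is
derivably zero. -/
def ZZ (c : C) (f : Fl → ℕ) (μ : Option (C × Finset Fl)) (x : ℕ)
    (T D : List (Option (Lt Fl C))) : Prop :=
  Zr M k ((tops f μ x).map some ++ T) (hd c f x) ((deeps f μ x (f M.z)).map some ++ D)

theorem deeps_cons (f : Fl → ℕ) (μ : Option (C × Finset Fl)) {x n : ℕ} (h : x ≤ n) :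
    (deeps f μ x n : List (Lt Fl C)) = cell f μ x :: deeps f μ (x + 1) n := by
  unfold deeps
  have e : n + 1 - x = (n + 1 - (x + 1)) + 1 := by omega
  rw [e, List.range'_succ, List.map_cons]

theorem deeps_nil (f : Fl → ℕ) (μ : Option (C × Finset Fl)) (n : ℕ) :
    (deeps f μ (n + 1) n : List (Lt Fl C)) = [] := by
  unfold deeps
  simp

/-- One step of the head. Proof: `Loc.move0` for `x = 0` and `Loc.move` otherwise, `deeps_cons`,
`sect_succ`; `M.z ∉ lev f x` because `x < f M.z`. -/
theorem zz_succ {c : C} {f : Fl → ℕ} {μ : Option (C × Finset Fl)} {x : ℕ}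
    {T D : List (Option (Lt Fl C))} (hx : x < f M.z) :
    ZZ M k c f μ x T D ↔ ZZ M k c f μ (x + 1) T D := by
  unfold ZZ
  rw [deeps_cons f μ hx.le]
  have hz : M.z ∉ lev f x := by
    rw [mem_lev]; omega
  have e1 : hd c f (x + 1) = (.A c (sect f x ∪ lev f x) : Lt Fl C) := by
    simp [hd, sect_succ]
  rw [e1]
  rcases Nat.eq_zero_or_pos x with rfl | h0
  · have hl : Loc M [] (.H c) [.B μ (lev f 0)] [.B μ (lev f 0)] (.A c (lev f 0)) [] :=
      Loc.move0 hz
    have e2 : hd c f 0 = (.H c : Lt Fl C) := by simp [hd]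
    have e3 : (sect f 0 ∪ lev f 0) = lev f 0 := by rw [sect_zero]; simp
    have e4 : cell f μ 0 = (.B μ (lev f 0) : Lt Fl C) := by simp [cell]
    rw [e2, e3]
    simp only [tops, e4, List.map_nil, List.nil_append, List.map_cons, List.cons_append]
    constructor
    · intro h
      have := Zr.step' (k := k) (T := T)
        (D := (deeps f μ (0 + 1) (f M.z)).map some ++ D) hl (by simpa using h)
      simpa using this
    · intro h
      have := Zr.step (k := k) (T := T)
        (D := (deeps f μ (0 + 1) (f M.z)).map some ++ D) hl (by simpa using h)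
      simpa using this
  · have hd0 : Disjoint (lev f x) (sect f x) := by
      rw [Finset.disjoint_left]
      intro i h1 h2
      rw [mem_lev] at h1
      rw [mem_sect] at h2
      omega
    have hl : Loc M [] (.A c (sect f x)) [.P (lev f x)] [.P (lev f x)]
        (.A c (sect f x ∪ lev f x)) [] := Loc.move hd0 hz
    have hx0 : x ≠ 0 := by omega
    have e2 : hd c f x = (.A c (sect f x) : Lt Fl C) := by simp [hd, hx0]
    have e4 : cell f μ x = (.P (lev f x) : Lt Fl C) := by simp [cell, hx0]
    rw [e2]
    simp only [tops, e4, List.map_cons, List.cons_append]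
    constructor
    · intro h
      have := Zr.step' (k := k) (T := (tops f μ x).map some ++ T)
        (D := (deeps f μ (x + 1) (f M.z)).map some ++ D) hl (by simpa using h)
      simpa using this
    · intro h
      have := Zr.step (k := k) (T := (tops f μ x).map some ++ T)
        (D := (deeps f μ (x + 1) (f M.z)).map some ++ D) hl (by simpa using h)
      simpa using this

theorem zz_move {c : C} {f : Fl → ℕ} {μ : Option (C × Finset Fl)} {x y : ℕ}
    {T D : List (Option (Lt Fl C))} (hx : x ≤ f M.z) (hy : y ≤ f M.z) :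
    ZZ M k c f μ x T D ↔ ZZ M k c f μ y T D := by
  have key : ∀ n, n ≤ f M.z → (ZZ M k c f μ 0 T D ↔ ZZ M k c f μ n T D) := by
    intro n
    induction n with
    | zero => intro _; exact Iff.rfl
    | succ n ih =>
      intro hn
      exact (ih (by omega)).trans (zz_succ M k (by omega))
  exact (key x hx).symm.trans (key y hy)

end

end Pool.Agent.W_59b51d_u18
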