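import Pool.Agent.W_59b51d_u18.ZoneA

/-!
# The zipper of a zone (ZoneB)
-/

namespace Pool.Agent.W_59b51d_u18

section

variable {Fl C : Type} [Fintype Fl] [DecidableEq Fl] (M : Mach Fl C) (k : ℕ)

private theorem ZoneB_lev_self (f : Fl → ℕ) (i : Fl) :
    lev (Function.update f i (f i + 1)) (f i) = (lev f (f i)).erase i := by
  ext j
  rw [Finset.mem_erase, mem_lev, mem_lev]
  by_cases h : j = i
  · subst h
    simp
  · rw [Function.update_of_ne h]
    simp [h]

private theorem ZoneB_lev_succ (f : Fl → ℕ) (i : Fl) :
    lev (Function.update f i (f i + 1)) (f i + 1) = insert i (lev f (f i + 1)) := by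
  ext j
  rw [Finset.mem_insert, mem_lev, mem_lev]
  by_cases h : j = i
  · subst h
    simp
  · rw [Function.update_of_ne h]
    simp [h]

private theorem ZoneB_lev_ne (f : Fl → ℕ) (i : Fl) {w : ℕ} (h1 : w ≠ f i) (h2 : w ≠ f i + 1) :
    lev (Function.update f i (f i + 1)) w = lev f w := by
  ext j
  rw [mem_lev, mem_lev]
  by_cases h : j = i
  · subst h
    rw [Function.update_self]
    constructor
    · intro h3
      exact absurd h3.symm h2
    · intro h3
      exact absurd h3.symm h1
  · rw [Function.update_of_ne h]

private theorem ZoneB_sect (f : Fl → ℕ) (i : Fl) :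
    sect (Function.update f i (f i + 1)) (f i) = sect f (f i) := by
  ext j
  rw [mem_sect, mem_sect]
  by_cases h : j = i
  · subst h
    rw [Function.update_self]
    omega
  · rw [Function.update_of_ne h]

omit [DecidableEq Fl] in
private theorem ZoneB_cell {f f' : Fl → ℕ} {μ : Option (C × Finset Fl)} {w : ℕ}
    (h : lev f' w = lev f w) : (cell f' μ w : Lt Fl C) = cell f μ w := by
  unfold cell
  rw [h]
  by_cases h0 : w = 0
  · subst h0
    rw [if_pos rfl, if_pos rfl, h]
  · rw [if_neg h0, if_neg h0]

omit [DecidableEq Fl] in
private theorem ZoneB_tops {f f' : Fl → ℕ} {μ : Option (C × Finset Fl)} (x : ℕ)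
    (h : ∀ w, w < x → lev f' w = lev f w) : (tops f' μ x : List (Lt Fl C)) = tops f μ x := by
  induction x with
  | zero => rfl
  | succ x ih =>
    rw [tops, tops, ih fun w hw => h w (by omega), ZoneB_cell (h x (by omega))]

omit [DecidableEq Fl] in
private theorem ZoneB_deeps {f f' : Fl → ℕ} {μ : Option (C × Finset Fl)} (x n : ℕ)
    (h : ∀ w, x ≤ w → lev f' w = lev f w) : (deeps f' μ x n : List (Lt Fl C)) = deeps f μ x n := by
  unfold deeps
  refine List.map_congr_left fun w hw => ?_
  rw [List.mem_range'_1] at hw
  exact ZoneB_cell (h w hw.1)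

/-- A move of the machine does not change whether the zone is derivably zero.

Proof. For `Adj.inc` take the head to `x = f i` (`zz_move`); the cells `x` and `x + 1` are
`lev f x` and `lev f (x + 1)` before, `(lev f x).erase i` and `insert i (lev f (x + 1))` after the
move, all other cells and `sect f x` are the same; `Loc.inc`, `Loc.inc0`. For `Adj.tst` take the
head to `x`; `Loc.tst`, `Loc.tst0`. -/
theorem zz_adj {c c' : C} {f f' : Fl → ℕ} {μ : Option (C × Finset Fl)} {x : ℕ}
    {T D : List (Option (Lt Fl C))} (hv : Valid M f) (h : Adj M c f c' f') (hx : x ≤ f M.z) :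
    ZZ M k c f μ x T D ↔ ZZ M k c' f' μ x T D := by
  cases h with
  | @inc _ i _ hinc hiz hlt =>
    have hfz : Function.update f i (f i + 1) M.z = f M.z := Function.update_of_ne hiz.symm _ _
    rw [zz_move M k hx hlt.le, zz_move M k (c := c') (f := Function.update f i (f i + 1))
      (x := x) (y := f i) (hfz.symm ▸ hx) (hfz.symm ▸ hlt.le)]
    unfold ZZ
    rw [hfz, deeps_cons f μ hlt.le, deeps_cons f μ (Nat.succ_le_of_lt hlt),
      deeps_cons (Function.update f i (f i + 1)) μ hlt.le,
      deeps_cons (Function.update f i (f i + 1)) μ (Nat.succ_le_of_lt hlt),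
      ZoneB_tops (f := f) (f' := Function.update f i (f i + 1)) (f i)
        (fun w hw => ZoneB_lev_ne f i (by omega) (by omega)),
      ZoneB_deeps (f := f) (f' := Function.update f i (f i + 1)) (f i + 1 + 1) (f M.z)
        (fun w hw => ZoneB_lev_ne f i (by omega) (by omega))]
    have hi1 : i ∈ lev f (f i) := mem_lev.2 rfl
    have hz1 : M.z ∉ lev f (f i) := by
      rw [mem_lev]
      omega
    have hi2 : i ∉ lev f (f i + 1) := by
      rw [mem_lev]
      omega
    have ec1 : (cell f μ (f i + 1) : Lt Fl C) = .P (lev f (f i + 1)) := by
      unfold cell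
      rw [if_neg (Nat.succ_ne_zero _)]
    have ec2 : (cell (Function.update f i (f i + 1)) μ (f i + 1) : Lt Fl C) =
        .P (insert i (lev f (f i + 1))) := by
      unfold cell
      rw [if_neg (Nat.succ_ne_zero _), ZoneB_lev_succ]
    rcases Nat.eq_zero_or_pos (f i) with h0 | h0
    · have ec3 : (cell f μ (f i) : Lt Fl C) = .B μ (lev f (f i)) := by
        unfold cell
        rw [if_pos h0, h0]
      have ec4 : (cell (Function.update f i (f i + 1)) μ (f i) : Lt Fl C) =
          .B μ ((lev f (f i)).erase i) := by
        unfold cell
        rw [if_pos h0, ← ZoneB_lev_self, h0]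
      have eh1 : (hd c f (f i) : Lt Fl C) = .H c := by
        unfold hd
        rw [if_pos h0]
      have eh2 : (hd c' (Function.update f i (f i + 1)) (f i) : Lt Fl C) = .H c' := by
        unfold hd
        rw [if_pos h0]
      rw [ec1, ec2, ec3, ec4, eh1, eh2]
      have hl : Loc M [] (.H c) [.B μ (lev f (f i)), .P (lev f (f i + 1))] [] (.H c')
          [.B μ ((lev f (f i)).erase i), .P (insert i (lev f (f i + 1)))] :=
        Loc.inc0 hinc hiz hi1 hz1 hi2
      constructor
      · intro h
        have := Zr.step' (k := k) (T := (tops f μ (f i)).map some ++ T)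
          (D := (deeps f μ (f i + 1 + 1) (f M.z)).map some ++ D) hl (by simpa using h)
        simpa using this
      · intro h
        have := Zr.step (k := k) (T := (tops f μ (f i)).map some ++ T)
          (D := (deeps f μ (f i + 1 + 1) (f M.z)).map some ++ D) hl (by simpa using h)
        simpa using this
    · have h0' : f i ≠ 0 := by omega
      have ec3 : (cell f μ (f i) : Lt Fl C) = .P (lev f (f i)) := by
        unfold cell
        rw [if_neg h0']
      have ec4 : (cell (Function.update f i (f i + 1)) μ (f i) : Lt Fl C) =
          .P ((lev f (f i)).erase i) := by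
        unfold cell
        rw [if_neg h0', ← ZoneB_lev_self]
      have eh1 : (hd c f (f i) : Lt Fl C) = .A c (sect f (f i)) := by
        unfold hd
        rw [if_neg h0']
      have eh2 : (hd c' (Function.update f i (f i + 1)) (f i) : Lt Fl C) =
          .A c' (sect f (f i)) := by
        unfold hd
        rw [if_neg h0', ZoneB_sect]
      rw [ec1, ec2, ec3, ec4, eh1, eh2]
      have hl : Loc M [] (.A c (sect f (f i))) [.P (lev f (f i)), .P (lev f (f i + 1))] []
          (.A c' (sect f (f i)))
          [.P ((lev f (f i)).erase i), .P (insert i (lev f (f i + 1)))] :=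
        Loc.inc hinc hiz hi1 hz1 hi2
      constructor
      · intro h
        have := Zr.step' (k := k) (T := (tops f μ (f i)).map some ++ T)
          (D := (deeps f μ (f i + 1 + 1) (f M.z)).map some ++ D) hl (by simpa using h)
        simpa using this
      · intro h
        have := Zr.step (k := k) (T := (tops f μ (f i)).map some ++ T)
          (D := (deeps f μ (f i + 1 + 1) (f M.z)).map some ++ D) hl (by simpa using h)
        simpa using this
  | @tst _ _ y hy htst =>
    rw [zz_move M k (c := c) hx hy, zz_move M k (c := c') hx hy]
    unfold ZZ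
    rw [deeps_cons f μ hy]
    rcases Nat.eq_zero_or_pos y with rfl | h0
    · have ec3 : (cell f μ 0 : Lt Fl C) = .B μ (lev f 0) := by
        unfold cell
        rw [if_pos rfl]
      have eh1 : ∀ d : C, (hd d f 0 : Lt Fl C) = .H d := by
        intro d
        unfold hd
        rw [if_pos rfl]
      rw [ec3, eh1, eh1]
      rw [sect_zero, decide_eq_true rfl] at htst
      have hl : Loc M [] (.H c) [.B μ (lev f 0)] [] (.H c') [.B μ (lev f 0)] := Loc.tst0 htst
      constructor
      · intro h
        have := Zr.step' (k := k) (T := (tops f μ 0).map some ++ T)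
          (D := (deeps f μ (0 + 1) (f M.z)).map some ++ D) hl (by simpa using h)
        simpa using this
      · intro h
        have := Zr.step (k := k) (T := (tops f μ 0).map some ++ T)
          (D := (deeps f μ (0 + 1) (f M.z)).map some ++ D) hl (by simpa using h)
        simpa using this
    · have h0' : y ≠ 0 := by omega
      have ec3 : (cell f μ y : Lt Fl C) = .P (lev f y) := by
        unfold cell
        rw [if_neg h0']
      have eh1 : ∀ d : C, (hd d f y : Lt Fl C) = .A d (sect f y) := by
        intro d
        unfold hd
        rw [if_neg h0']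
      rw [ec3, eh1, eh1]
      rw [decide_eq_false h0'] at htst
      have hl : Loc M [] (.A c (sect f y)) [.P (lev f y)] [] (.A c' (sect f y)) [.P (lev f y)] :=
        Loc.tst htst
      constructor
      · intro h
        have := Zr.step' (k := k) (T := (tops f μ y).map some ++ T)
          (D := (deeps f μ (y + 1) (f M.z)).map some ++ D) hl (by simpa using h)
        simpa using this
      · intro h
        have := Zr.step (k := k) (T := (tops f μ y).map some ++ T)
          (D := (deeps f μ (y + 1) (f M.z)).map some ++ D) hl (by simpa using h)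
        simpa using this

/-- `ZZ` is an invariant predicate. -/
theorem zz_inv (n : ℕ) (μ : Option (C × Finset Fl)) (T D : List (Option (Lt Fl C))) :
    Inv M n fun c f => ZZ M k c f μ 0 T D := by
  intro c f c' f' hv hz hadj
  exact zz_adj M k hv hadj (Nat.zero_le _)

end

end Pool.Agent.W_59b51d_u18
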