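import Pool.Agent.W_59b51d_u18.ZoneB

/-!
# The zipper of a zone (ZoneC)
-/

namespace Pool.Agent.W_59b51d_u18

section

variable {Fl C : Type} [Fintype Fl] [DecidableEq Fl] (M : Mach Fl C) (k : ℕ)

/-- Killed zones are derivably zero (`LocZ.kil`, `LocZ.kil0`, `zz_move`). -/
theorem zz_killed {c : C} {f : Fl → ℕ} {μ : Option (C × Finset Fl)} {x : ℕ}
    {T D : List (Option (Lt Fl C))} (h : Killed M c f) (hx : x ≤ f M.z) :
    ZZ M k c f μ x T D := by
  obtain ⟨y, hy, hk⟩ := h
  rw [zz_move M k hx hy]
  unfold ZZ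
  rw [deeps_cons f μ hy, List.map_cons, List.cons_append]
  rcases Nat.eq_zero_or_pos y with rfl | hpos
  · have hh : (hd c f 0 : Lt Fl C) = .H c := by simp [hd]
    have hc : (cell f μ 0 : Lt Fl C) = .B μ (lev f 0) := by simp [cell]
    rw [hh, hc]
    rw [sect_zero] at hk
    have hz : LocZ M [] (.H c) [some (.B μ (lev f 0))] := LocZ.kil0 (by simpa using hk)
    exact Zr.zero (k := k) (T := (tops f μ 0).map some ++ T)
      (D := (deeps f μ (0 + 1) (f M.z)).map some ++ D) hz
  · have hne : y ≠ 0 := by omega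
    have hh : (hd c f y : Lt Fl C) = .A c (sect f y) := by simp [hd, hne]
    have hc : (cell f μ y : Lt Fl C) = .P (lev f y) := by simp [cell, hne]
    rw [hh, hc]
    have hz : LocZ M [] (.A c (sect f y)) [some (.P (lev f y))] :=
      LocZ.kil (by simpa [hne] using hk)
    exact Zr.zero (k := k) (T := (tops f μ y).map some ++ T)
      (D := (deeps f μ (y + 1) (f M.z)).map some ++ D) hz

/-- `k` empty cells. -/
theorem deeps_empty (f : Fl → ℕ) (μ : Option (C × Finset Fl)) (n : ℕ) :
    ∀ (j s : ℕ), s + j ≤ n → (∀ y, s ≤ y → y < s + j → (cell f μ y : Lt Fl C) = .P ∅) →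
      (deeps f μ s n : List (Lt Fl C)) =
        List.replicate j (.P ∅) ++ (cell f μ (s + j) :: deeps f μ (s + j + 1) n)
  | 0, s, h, _ => by
      rw [deeps_cons f μ (by omega : s ≤ n)]
      simp
  | j + 1, s, h, hc => by
      rw [deeps_cons f μ (by omega : s ≤ n), hc s le_rfl (by omega),
        deeps_empty f μ n j (s + 1) (by omega) (fun y h1 h2 => hc y (by omega) (by omega))]
      rw [List.replicate_succ, List.cons_append]
      have e1 : s + 1 + j = s + (j + 1) := by omega
      rw [e1]

/-- The pattern is derivably zero. Proof: take the head to `x = f a > 0`; the deep side is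
`P (lev f x)`, then `k` cells `P ∅`, then `P (lev f (x + k + 1))` with `b` in it; these are cells of
the zone because `f b ≤ f z`, and `z` is not in the first one because `f a < f b ≤ f z`. -/
theorem zz_pat {c : C} {f : Fl → ℕ} {μ : Option (C × Finset Fl)} {x : ℕ}
    {T D : List (Option (Lt Fl C))} (hv : Valid M f) (h : Pat M k c f) (hx : x ≤ f M.z) :
    ZZ M k c f μ x T D := by
  obtain ⟨rfl, ha, hb, hi⟩ := h
  have hbz : f M.b ≤ f M.z := hv M.b
  have haz : f M.a ≤ f M.z := hv M.a
  rw [zz_move M k hx haz]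
  unfold ZZ
  have hne : f M.a ≠ 0 := by omega
  have hh : (hd M.pass f (f M.a) : Lt Fl C) = .A M.pass (sect f (f M.a)) := by simp [hd, hne]
  have hc : (cell f μ (f M.a) : Lt Fl C) = .P (lev f (f M.a)) := by simp [cell, hne]
  have hemp : ∀ y, f M.a + 1 ≤ y → y < f M.a + 1 + k → (cell f μ y : Lt Fl C) = .P ∅ := by
    intro y h1 h2
    have hy0 : y ≠ 0 := by omega
    have hl : lev f y = ∅ := by
      ext i
      simp only [mem_lev, Finset.notMem_empty, iff_false]
      intro e
      rcases hi i with h3 | h3 <;> omega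
    simp [cell, hy0, hl]
  have hd2 := deeps_empty f μ (f M.z) k (f M.a + 1) (by omega) hemp
  have e2 : f M.a + 1 + k = f M.b := by omega
  rw [e2] at hd2
  have hb0 : f M.b ≠ 0 := by omega
  have hcb : (cell f μ (f M.b) : Lt Fl C) = .P (lev f (f M.b)) := by simp [cell, hb0]
  rw [deeps_cons f μ haz, hd2, hh, hc, hcb]
  have hp : LocP M k [] (.A M.pass (sect f (f M.a)))
      (some (.P (lev f (f M.a))) ::
        (List.replicate k (some (.P ∅)) ++ [some (.P (lev f (f M.b)))])) := by
    refine LocP.pat ?_ ?_ ?_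
    · simp [mem_lev]
    · rw [mem_lev]; omega
    · simp [mem_lev]
  have hz := Zr.pat (k := k) (T := (tops f μ (f M.a)).map some ++ T)
    (D := (deeps f μ (f M.b + 1) (f M.z)).map some ++ D) hp
  simpa using hz

end

end Pool.Agent.W_59b51d_u18
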